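import Mathlib

/-! Definitions: commutative submonoid width of a monoid, and the random graph. -/

namespace Q22.CMW

/-- `M` is a product of `n` commutative submonoids: there are commutative submonoids
`C 0, ..., C (n-1)` such that every element is a product `c 0 * c 1 * ... * c (n-1)` with `c i` in
`C i`. -/
def IsProd (M : Type) [Monoid M] (n : ℕ) : Prop :=
  ∃ C : Fin n → Submonoid M, (∀ i, ∀ a ∈ C i, ∀ b ∈ C i, a * b = b * a) ∧
    ∀ m : M, ∃ c : Fin n → M, (∀ i, c i ∈ C i) ∧ (List.ofFn c).prod = m

/-- The commutative submonoid width: the least `n` such that `M` is a product of `n` commutative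
submonoids, and infinity if there is none. -/
noncomputable def cmw (M : Type) [Monoid M] : ℕ∞ := ⨅ (n : ℕ) (_ : IsProd M n), (n : ℕ∞)

/-- The extension property that characterizes the random graph among the countable graphs: for
disjoint finite sets `U` and `W` of vertices some vertex outside `U ∪ W` is adjacent to every
vertex of `U` and to no vertex of `W`. -/
def IsRandom {V : Type} (R : SimpleGraph V) : Prop :=
  ∀ U W : Finset V, Disjoint U W → ∃ v, v ∉ U ∧ v ∉ W ∧ (∀ u ∈ U, R.Adj v u) ∧
    ∀ w ∈ W, ¬ R.Adj v w

end Q22.CMW
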