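import Pool.Agent.Q22.CMWDefs

/-! The monoids of order-preserving maps and of order automorphisms of the rationals have infinite
commutative submonoid width. -/

noncomputable section

namespace Q22.CMW

/-- The function `G` dominates `c` at infinity, on the natural numbers. -/
def Dom (G : ℕ → ℕ) (c : ℚ → ℚ) : Prop := ∃ N : ℕ, ∀ n : ℕ, N ≤ n → c n ≤ G n

/-- Good bounding functions. -/
def Good (G : ℕ → ℕ) : Prop := Monotone G ∧ ∀ n, n ≤ G n

theorem good_sum (B : ℕ → ℕ) : Good (fun n => n + ∑ i ∈ Finset.range (n + 1), B i) := by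
  refine ⟨fun a b hab => ?_, fun n => Nat.le_add_right _ _⟩
  refine Nat.add_le_add hab ?_
  exact Finset.sum_le_sum_of_subset (Finset.range_mono (by omega))

/-- A commuting family of monotone maps is dominated by a single function. -/
theorem exists_dom (S : Set (ℚ → ℚ)) (hm : ∀ c ∈ S, Monotone c)
    (hc : ∀ c ∈ S, ∀ d ∈ S, ∀ x, c (d x) = d (c x)) :
    ∃ G, Good G ∧ ∀ c ∈ S, Dom G c := by
  by_cases h : ∀ x : ℕ, ∃ B : ℕ, ∀ c ∈ S, c x ≤ B
  · choose B hB using h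
    refine ⟨_, good_sum B, fun c hcS => ⟨0, fun n _ => ?_⟩⟩
    refine (hB n c hcS).trans ?_
    have : B n ≤ n + ∑ i ∈ Finset.range (n + 1), B i :=
      le_trans (Finset.single_le_sum (f := B) (fun _ _ => Nat.zero_le _)
        (Finset.self_mem_range_succ n)) (Nat.le_add_left _ _)
    exact_mod_cast this
  · push Not at h
    obtain ⟨x₀, h⟩ := h
    choose c hcS hcx using h
    let B : ℕ → ℕ := fun n => ∑ m ∈ Finset.range (n + 1), ⌈c n (c m x₀)⌉₊
    refine ⟨_, good_sum B, fun d hd => ?_⟩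
    obtain ⟨m, hm'⟩ := exists_nat_ge (d x₀)
    refine ⟨m, fun n hn => ?_⟩
    have h1 : d n ≤ d (c n x₀) := hm d hd (hcx n).le
    have h2 : d (c n x₀) = c n (d x₀) := hc d hd _ (hcS n) x₀
    have h3 : c n (d x₀) ≤ c n (c m x₀) := hm _ (hcS n) (hm'.trans (hcx m).le)
    have h4 : c n (c m x₀) ≤ (⌈c n (c m x₀)⌉₊ : ℚ) := Nat.le_ceil _
    have h5 : ⌈c n (c m x₀)⌉₊ ≤ B n :=
      Finset.single_le_sum (f := fun m => ⌈c n (c m x₀)⌉₊) (fun _ _ => Nat.zero_le _)
        (Finset.mem_range.mpr (by omega))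
    have h6 : B n ≤ n + ∑ i ∈ Finset.range (n + 1), B i :=
      le_trans (Finset.single_le_sum (f := B) (fun _ _ => Nat.zero_le _)
        (Finset.self_mem_range_succ n)) (Nat.le_add_left _ _)
    calc d n ≤ d (c n x₀) := h1
      _ = c n (d x₀) := h2
      _ ≤ c n (c m x₀) := h3
      _ ≤ (⌈c n (c m x₀)⌉₊ : ℚ) := h4
      _ ≤ ((n + ∑ i ∈ Finset.range (n + 1), B i : ℕ) : ℚ) := by exact_mod_cast h5.trans h6

theorem Dom.comp {G H : ℕ → ℕ} {c d : ℚ → ℚ} (hH : Good H) (hcm : Monotone c)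
    (h1 : Dom G c) (h2 : Dom H d) : Dom (G ∘ H) (c ∘ d) := by
  obtain ⟨N, hN⟩ := h1
  obtain ⟨M, hM⟩ := h2
  refine ⟨max N M, fun n hn => ?_⟩
  have h3 := hM n (le_trans (le_max_right _ _) hn)
  have h4 : c (d n) ≤ c (H n) := hcm h3
  exact h4.trans (hN (H n) (le_trans (le_trans (le_max_left _ _) hn) (hH.2 n)))

theorem Good.comp {G H : ℕ → ℕ} (hG : Good G) (hH : Good H) : Good (G ∘ H) :=
  ⟨hG.1.comp hH.1, fun n => (hH.2 n).trans (hG.2 _)⟩

/-- An action of a monoid on the rationals by monotone maps. -/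
structure Act (M : Type) [Monoid M] where
  /-- the underlying map -/
  f : M → ℚ → ℚ
  mono : ∀ m, Monotone (f m)
  one : ∀ x, f 1 x = x
  mul : ∀ a b x, f (a * b) x = f a (f b x)

theorem Act.exists_dom {M : Type} [Monoid M] (A : Act M) {n : ℕ} (C : Fin n → Submonoid M)
    (hC : ∀ i, ∀ a ∈ C i, ∀ b ∈ C i, a * b = b * a) :
    ∃ G, Good G ∧ ∀ c : Fin n → M, (∀ i, c i ∈ C i) → Dom G (A.f (List.ofFn c).prod) := by
  induction n with
  | zero =>
    refine ⟨id, ⟨monotone_id, fun n => le_rfl⟩, fun c _ => ⟨0, fun n _ => ?_⟩⟩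
    rw [List.ofFn_zero, List.prod_nil, A.one]
    exact le_rfl
  | succ n ih =>
    obtain ⟨G, hG, hGd⟩ := ih (fun i => C i.succ) (fun i => hC i.succ)
    obtain ⟨H, hH, hHd⟩ := Q22.CMW.exists_dom (A.f '' (C 0 : Set M)) (by
      rintro _ ⟨a, _, rfl⟩
      exact A.mono a) (by
      rintro _ ⟨a, ha, rfl⟩ _ ⟨b, hb, rfl⟩ x
      rw [← A.mul, ← A.mul, hC 0 a ha b hb])
    refine ⟨H ∘ G, hH.comp hG, fun c hc => ?_⟩
    rw [List.ofFn_succ, List.prod_cons]
    have h1 : A.f (c 0 * (List.ofFn fun i : Fin n => c i.succ).prod) =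
        A.f (c 0) ∘ A.f (List.ofFn fun i : Fin n => c i.succ).prod := by
      funext x
      exact A.mul _ _ x
    rw [h1]
    exact Dom.comp hG (A.mono _) (hHd _ ⟨c 0, hc 0, rfl⟩) (hGd _ fun i => hc i.succ)

theorem Act.cmw_eq {M : Type} [Monoid M] (A : Act M)
    (h : ∀ G : ℕ → ℕ, ∃ m : M, ∀ n : ℕ, (G n : ℚ) < A.f m n) : cmw M = ⊤ := by
  rw [cmw, iInf_eq_top]
  intro n
  rw [iInf_eq_top]
  rintro ⟨C, hC, hp⟩
  exfalso
  obtain ⟨G, hG, hGd⟩ := A.exists_dom C hC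
  obtain ⟨m, hm⟩ := h G
  obtain ⟨c, hc, rfl⟩ := hp m
  obtain ⟨N, hN⟩ := hGd c hc
  exact absurd (hN N le_rfl) (not_le.mpr (hm N))

/-! ### A fast growing automorphism -/

section Fast

variable (s : ℕ → ℕ)

/-- Partial sums of the slopes. -/
def PS (n : ℕ) : ℕ := ∑ i ∈ Finset.range n, (s i + 1)

theorem PS_succ (n : ℕ) : PS s (n + 1) = PS s n + (s n + 1) := Finset.sum_range_succ _ _

theorem PS_mono : Monotone (PS s) := by
  intro a b hab
  exact Finset.sum_le_sum_of_subset (Finset.range_mono hab)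

theorem le_PS (n : ℕ) : n ≤ PS s n := by
  induction n with
  | zero => exact Nat.zero_le _
  | succ n ih => rw [PS_succ]; omega

/-- Piecewise linear map with slope `s n + 1` on `[n, n+1]`. -/
def FF (x : ℚ) : ℚ := if x < 0 then x else PS s ⌊x⌋₊ + (s ⌊x⌋₊ + 1) * (x - ⌊x⌋₊)

theorem FF_neg {x : ℚ} (h : x < 0) : FF s x = x := if_pos h

theorem FF_nonneg {x : ℚ} (h : 0 ≤ x) :
    FF s x = PS s ⌊x⌋₊ + (s ⌊x⌋₊ + 1) * (x - ⌊x⌋₊) := if_neg (not_lt.mpr h)

theorem FF_ge {x : ℚ} (h : 0 ≤ x) : (PS s ⌊x⌋₊ : ℚ) ≤ FF s x := by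
  rw [FF_nonneg s h]
  have h1 : (⌊x⌋₊ : ℚ) ≤ x := Nat.floor_le h
  have h2 : (0 : ℚ) ≤ (s ⌊x⌋₊ + 1) * (x - ⌊x⌋₊) :=
    mul_nonneg (by positivity) (by linarith)
  linarith

theorem FF_lt {x : ℚ} (h : 0 ≤ x) : FF s x < PS s (⌊x⌋₊ + 1) := by
  rw [FF_nonneg s h, PS_succ]
  have h1 : x < ⌊x⌋₊ + 1 := Nat.lt_floor_add_one x
  have h3 : (s ⌊x⌋₊ + 1 : ℚ) * (x - ⌊x⌋₊) < (s ⌊x⌋₊ + 1) * 1 :=
    mul_lt_mul_of_pos_left (by linarith) (by positivity)
  push_cast
  linarith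

theorem FF_strictMono : StrictMono (FF s) := by
  intro x y hxy
  by_cases hx : x < 0
  · rw [FF_neg s hx]
    by_cases hy : y < 0
    · rw [FF_neg s hy]; exact hxy
    · have := FF_ge s (not_lt.mp hy)
      have h2 : (0 : ℚ) ≤ PS s ⌊y⌋₊ := by positivity
      linarith
  · have hx' := not_lt.mp hx
    have hy' : 0 ≤ y := hx'.trans hxy.le
    have h1 : ⌊x⌋₊ ≤ ⌊y⌋₊ := Nat.floor_mono hxy.le
    rcases h1.eq_or_lt with h2 | h2
    · rw [FF_nonneg s hx', FF_nonneg s hy', ← h2]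
      have h3 : (s ⌊x⌋₊ + 1 : ℚ) * (x - ⌊x⌋₊) < (s ⌊x⌋₊ + 1) * (y - ⌊x⌋₊) :=
        mul_lt_mul_of_pos_left (by linarith) (by positivity)
      linarith
    · have h3 := FF_lt s hx'
      have h4 := FF_ge s hy'
      have h5 : (PS s (⌊x⌋₊ + 1) : ℚ) ≤ PS s ⌊y⌋₊ := by
        exact_mod_cast PS_mono s h2
      linarith

theorem FF_surj : Function.Surjective (FF s) := by
  intro y
  by_cases hy : y < 0
  · exact ⟨y, FF_neg s hy⟩
  · have hy' := not_lt.mp hy
    -- the greatest `n` with `PS n ≤ y`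
    obtain ⟨B, hB⟩ := exists_nat_gt y
    have hex : ∃ n, y < PS s (n + 1) := ⟨B, by
      have h1 : (B : ℚ) ≤ PS s (B + 1) := by
        exact_mod_cast (Nat.le_succ B).trans (le_PS s (B + 1))
      linarith⟩
    classical
    let n := Nat.find hex
    have hn1 : y < PS s (n + 1) := Nat.find_spec hex
    have hn2 : (PS s n : ℚ) ≤ y := by
      rcases Nat.eq_zero_or_pos n with h0 | h0
      · rw [h0]
        have : PS s 0 = 0 := Finset.sum_range_zero _
        rw [this]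
        exact_mod_cast hy'
      · have h1 := Nat.find_min hex (m := n - 1) (by omega)
        rw [not_lt, Nat.sub_add_cancel h0] at h1
        exact h1
    have hpos : (0 : ℚ) < s n + 1 := by positivity
    let x : ℚ := n + (y - PS s n) / (s n + 1)
    have hx0 : (0 : ℚ) ≤ (y - PS s n) / (s n + 1) := div_nonneg (by linarith) hpos.le
    have hx1 : (y - PS s n) / (s n + 1) < 1 := by
      rw [div_lt_one hpos]
      rw [PS_succ] at hn1
      push_cast at hn1
      linarith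
    have hfl : ⌊x⌋₊ = n := by
      rw [Nat.floor_eq_iff (by positivity)]
      constructor
      · show (n : ℚ) ≤ n + (y - PS s n) / (s n + 1)
        linarith
      · show n + (y - PS s n) / (s n + 1) < (n : ℚ) + 1
        linarith
    refine ⟨x, ?_⟩
    rw [FF_nonneg s (by positivity), hfl]
    show (PS s n : ℚ) + (s n + 1) * (n + (y - PS s n) / (s n + 1) - n) = y
    field_simp
    ring

/-- The automorphism. -/
def FI : ℚ ≃o ℚ := (FF_strictMono s).orderIsoOfSurjective _ (FF_surj s)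

theorem FI_nat (n : ℕ) : FI s n = PS s n := by
  show FF s n = PS s n
  rw [FF_nonneg s (by positivity), Nat.floor_natCast, sub_self, mul_zero, add_zero]

end Fast

theorem fast (G : ℕ → ℕ) : ∃ F : ℚ ≃o ℚ, ∀ n : ℕ, (G n : ℚ) < F (n + 1 : ℕ) := by
  refine ⟨FI G, fun n => ?_⟩
  rw [FI_nat, PS_succ]
  have : G n < PS G n + (G n + 1) := by omega
  exact_mod_cast this

/-- Shifted version. -/
theorem fast' (G : ℕ → ℕ) : ∃ F : ℚ ≃o ℚ, ∀ n : ℕ, (G n : ℚ) < F n := by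
  obtain ⟨F, hF⟩ := fast G
  refine ⟨(OrderIso.addRight (1 : ℚ)).trans F, fun n => ?_⟩
  have h := hF n
  have h2 : ((OrderIso.addRight (1 : ℚ)).trans F) (n : ℚ) = F (n + 1 : ℕ) := by
    show F ((n : ℚ) + 1) = F ((n + 1 : ℕ) : ℚ)
    push_cast
    rfl
  rw [h2]
  exact h

/-- The action of the automorphism group. -/
def actAut : Act (ℚ ≃o ℚ) where
  f m := m
  mono m := m.monotone
  one _ := rfl
  mul _ _ _ := rfl

/-- The action of the endomorphism monoid. -/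
def actEnd : Act (ℚ →o ℚ) where
  f m := m
  mono m := m.monotone
  one _ := rfl
  mul _ _ _ := rfl

theorem cmw_aut : cmw (ℚ ≃o ℚ) = ⊤ :=
  actAut.cmw_eq fast'

theorem cmw_end : cmw (ℚ →o ℚ) = ⊤ :=
  actEnd.cmw_eq fun G => by
    obtain ⟨F, hF⟩ := fast' G
    exact ⟨⟨F, F.monotone⟩, hF⟩

end Q22.CMW
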