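import Pool.Agent.Q22.CMWDefs

/-! The endomorphism monoid of the random graph is a product of three commutative submonoids. -/

noncomputable section

namespace Q22.CMW

open Finset

theorem IsRandom.infinite {V : Type} {R : SimpleGraph V} (hR : IsRandom R) : Infinite V := by
  by_contra h
  rw [not_infinite_iff_finite] at h
  have := Fintype.ofFinite V
  obtain ⟨v, hv, _⟩ := hR univ ∅ (disjoint_empty_right _)
  exact hv (mem_univ v)

theorem infinite_of_cn {W : Type} {Γ : SimpleGraph W}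
    (hcn : ∀ F : Finset W, ∃ w, ∀ x ∈ F, Γ.Adj w x) : Infinite W := by
  by_contra h
  rw [not_infinite_iff_finite] at h
  have := Fintype.ofFinite W
  obtain ⟨w, hw⟩ := hcn univ
  exact Γ.loopless.irrefl w (hw w (mem_univ w))

/-! ### Retractions of the random graph -/

section Retract

variable {V W : Type} {R : SimpleGraph V} {Γ : SimpleGraph W} (hR : IsRandom R)
  (hcn : ∀ F : Finset W, ∃ w, ∀ x ∈ F, Γ.Adj w x) (ν : ℕ ≃ V) (ω : ℕ ≃ W)

/-- The vertices to which the next vertex should be adjacent. -/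
def Uset (Γ : SimpleGraph W) (ω : ℕ ≃ W) (n : ℕ) (p : Fin n → V) : Finset V := by
  classical
  exact (univ.filter fun i : Fin n => Γ.Adj (ω n) (ω i)).image p

/-- The other vertices seen so far. -/
def Aset (ν : ℕ ≃ V) (n : ℕ) (p : Fin n → V) : Finset V := by
  classical
  exact univ.image p ∪ (range (n + 1)).image ν

include hR in
theorem exists_pick (n : ℕ) (p : Fin n → V) : ∃ v, v ∉ Aset ν n p ∧
    (∀ u ∈ Uset Γ ω n p, R.Adj v u) ∧ ∀ w ∈ Aset ν n p, w ∉ Uset Γ ω n p → ¬ R.Adj v w := by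
  classical
  obtain ⟨v, h1, h2, h3, h4⟩ := hR (Uset Γ ω n p) (Aset ν n p \ Uset Γ ω n p)
    disjoint_sdiff
  refine ⟨v, fun h => ?_, h3, fun w hw hw' => h4 w (mem_sdiff.mpr ⟨hw, hw'⟩)⟩
  exact h2 (mem_sdiff.mpr ⟨h, h1⟩)

/-- The embedding, as a sequence. -/
def eSeq (n : ℕ) : V :=
  (exists_pick (Γ := Γ) hR ν ω n (fun i : Fin n => eSeq i.1)).choose
termination_by n
decreasing_by all_goals exact i.isLt

theorem eSeq_spec (n : ℕ) :
    eSeq (Γ := Γ) hR ν ω n ∉ Aset ν n (fun i : Fin n => eSeq (Γ := Γ) hR ν ω i.1) ∧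
    (∀ u ∈ Uset Γ ω n (fun i : Fin n => eSeq (Γ := Γ) hR ν ω i.1),
      R.Adj (eSeq (Γ := Γ) hR ν ω n) u) ∧
    ∀ w ∈ Aset ν n (fun i : Fin n => eSeq (Γ := Γ) hR ν ω i.1),
      w ∉ Uset Γ ω n (fun i : Fin n => eSeq (Γ := Γ) hR ν ω i.1) →
      ¬ R.Adj (eSeq (Γ := Γ) hR ν ω n) w := by
  rw [eSeq]
  exact (exists_pick (Γ := Γ) hR ν ω n (fun i : Fin n => eSeq (Γ := Γ) hR ν ω i.1)).choose_spec

theorem eSeq_ne {i n : ℕ} (h : i < n) :
    eSeq (Γ := Γ) hR ν ω n ≠ eSeq (Γ := Γ) hR ν ω i := by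
  classical
  intro he
  apply (eSeq_spec (Γ := Γ) hR ν ω n).1
  rw [he, Aset, mem_union]
  left
  exact mem_image.mpr ⟨⟨i, h⟩, mem_univ _, rfl⟩

theorem eSeq_inj : Function.Injective (eSeq (Γ := Γ) hR ν ω) := by
  intro i j hij
  rcases lt_trichotomy i j with h | h | h
  · exact absurd hij.symm (eSeq_ne hR ν ω h)
  · exact h
  · exact absurd hij (eSeq_ne hR ν ω h)

theorem eSeq_adj {i n : ℕ} (h : i < n) :
    R.Adj (eSeq (Γ := Γ) hR ν ω n) (eSeq (Γ := Γ) hR ν ω i) ↔ Γ.Adj (ω n) (ω i) := by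
  classical
  obtain ⟨_, h1, h2⟩ := eSeq_spec (Γ := Γ) hR ν ω n
  constructor
  · intro hadj
    by_contra hn
    refine h2 _ ?_ ?_ hadj
    · rw [Aset, mem_union]
      left
      exact mem_image.mpr ⟨⟨i, h⟩, mem_univ _, rfl⟩
    · intro hU
      rw [Uset] at hU
      obtain ⟨j, hj, hji⟩ := mem_image.mp hU
      have hj' := (mem_filter.mp hj).2
      have : j.1 = i := eSeq_inj hR ν ω hji
      rw [this] at hj'
      exact hn hj'
  · intro hadj
    refine h1 _ ?_
    rw [Uset]
    exact mem_image.mpr ⟨⟨i, h⟩, mem_filter.mpr ⟨mem_univ _, hadj⟩, rfl⟩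

theorem eSeq_adj' {i n : ℕ} :
    R.Adj (eSeq (Γ := Γ) hR ν ω n) (eSeq (Γ := Γ) hR ν ω i) ↔ Γ.Adj (ω n) (ω i) := by
  rcases lt_trichotomy i n with h | h | h
  · exact eSeq_adj hR ν ω h
  · subst h
    exact ⟨fun h => absurd h (R.loopless.irrefl _), fun h => absurd h (Γ.loopless.irrefl _)⟩
  · rw [R.adj_comm, Γ.adj_comm]
    exact eSeq_adj hR ν ω h

theorem eSeq_far {n m : ℕ} (h : ∀ i, eSeq (Γ := Γ) hR ν ω i ≠ ν n)
    (hadj : R.Adj (ν n) (eSeq (Γ := Γ) hR ν ω m)) : m < n := by
  classical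
  by_contra hmn
  obtain ⟨_, _, h2⟩ := eSeq_spec (Γ := Γ) hR ν ω m
  refine h2 (ν n) ?_ ?_ hadj.symm
  · rw [Aset, mem_union]
    right
    exact mem_image.mpr ⟨n, mem_range.mpr (by omega), rfl⟩
  · intro hU
    rw [Uset] at hU
    obtain ⟨j, _, hj⟩ := mem_image.mp hU
    exact h j hj

/-- The vertices to which the image of the next vertex should be adjacent. -/
def Bset (R : SimpleGraph V) (ν : ℕ ≃ V) (ω : ℕ ≃ W) (e : ℕ → V) (n : ℕ) (p : Fin n → W) :
    Finset W := by
  classical
  exact ((range n).filter fun m => R.Adj (ν n) (e m)).image ω ∪ univ.image p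

/-- The retraction, as a sequence. -/
def rSeq (n : ℕ) : W := by
  classical
  exact if h : ∃ m, eSeq (Γ := Γ) hR ν ω m = ν n then ω h.choose else
    (hcn (Bset R ν ω (eSeq (Γ := Γ) hR ν ω) n (fun i : Fin n => rSeq i.1))).choose
termination_by n
decreasing_by all_goals exact i.isLt

theorem rSeq_e {m n : ℕ} (h : eSeq (Γ := Γ) hR ν ω m = ν n) :
    rSeq (Γ := Γ) hR hcn ν ω n = ω m := by
  have h' : ∃ m, eSeq (Γ := Γ) hR ν ω m = ν n := ⟨m, h⟩
  rw [rSeq, dif_pos h']
  congr 1
  exact eSeq_inj hR ν ω (h'.choose_spec.trans h.symm)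

theorem rSeq_ne {n : ℕ} (h : ∀ i, eSeq (Γ := Γ) hR ν ω i ≠ ν n) :
    ∀ x ∈ Bset R ν ω (eSeq (Γ := Γ) hR ν ω) n (fun i : Fin n => rSeq (Γ := Γ) hR hcn ν ω i.1),
      Γ.Adj (rSeq (Γ := Γ) hR hcn ν ω n) x := by
  have h' : ¬ ∃ m, eSeq (Γ := Γ) hR ν ω m = ν n := fun ⟨m, hm⟩ => h m hm
  rw [rSeq, dif_neg h']
  exact (hcn (Bset R ν ω (eSeq (Γ := Γ) hR ν ω) n
    (fun i : Fin n => rSeq (Γ := Γ) hR hcn ν ω i.1))).choose_spec

theorem rSeq_adj {n n' : ℕ} (hadj : R.Adj (ν n) (ν n')) :
    Γ.Adj (rSeq (Γ := Γ) hR hcn ν ω n) (rSeq (Γ := Γ) hR hcn ν ω n') := by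
  classical
  -- one vertex outside the image of `e`
  have key : ∀ n n' : ℕ, R.Adj (ν n) (ν n') → (∀ i, eSeq (Γ := Γ) hR ν ω i ≠ ν n) →
      ((∃ i, eSeq (Γ := Γ) hR ν ω i = ν n') ∨ n' < n) →
      Γ.Adj (rSeq (Γ := Γ) hR hcn ν ω n) (rSeq (Γ := Γ) hR hcn ν ω n') := by
    intro n n' hadj hn hcase
    apply rSeq_ne hR hcn ν ω hn
    rw [Bset, mem_union]
    rcases hcase with ⟨i, hi⟩ | hlt
    · left
      rw [rSeq_e hR hcn ν ω hi]
      rw [← hi] at hadj
      exact mem_image.mpr ⟨i, mem_filter.mpr ⟨mem_range.mpr (eSeq_far hR ν ω hn hadj), hadj⟩, rfl⟩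
    · right
      exact mem_image.mpr ⟨⟨n', hlt⟩, mem_univ _, rfl⟩
  by_cases h1 : ∃ i, eSeq (Γ := Γ) hR ν ω i = ν n
  · by_cases h2 : ∃ i, eSeq (Γ := Γ) hR ν ω i = ν n'
    · obtain ⟨i, hi⟩ := h1
      obtain ⟨j, hj⟩ := h2
      rw [rSeq_e hR hcn ν ω hi, rSeq_e hR hcn ν ω hj, ← eSeq_adj' hR ν ω, hi, hj]
      exact hadj
    · exact (key n' n hadj.symm (fun i hi => h2 ⟨i, hi⟩) (Or.inl h1)).symm
  · have h1' : ∀ i, eSeq (Γ := Γ) hR ν ω i ≠ ν n := fun i hi => h1 ⟨i, hi⟩
    by_cases h2 : ∃ i, eSeq (Γ := Γ) hR ν ω i = ν n'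
    · exact key n n' hadj h1' (Or.inl h2)
    · have h2' : ∀ i, eSeq (Γ := Γ) hR ν ω i ≠ ν n' := fun i hi => h2 ⟨i, hi⟩
      rcases lt_trichotomy n' n with h3 | h3 | h3
      · exact key n n' hadj h1' (Or.inr h3)
      · subst h3
        exact absurd hadj (R.loopless.irrefl _)
      · exact (key n' n hadj.symm h2' (Or.inr h3)).symm

end Retract

/-- A countable graph in which every finite set of vertices has a common neighbour is a retract of
the random graph. -/
theorem exists_retract {V W : Type} [Countable V] [Countable W] {R : SimpleGraph V}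
    {Γ : SimpleGraph W} (hR : IsRandom R) (hcn : ∀ F : Finset W, ∃ w, ∀ x ∈ F, Γ.Adj w x) :
    ∃ (e : Γ →g R) (r : R →g Γ), ∀ x, r (e x) = x := by
  have := hR.infinite
  have := infinite_of_cn hcn
  obtain ⟨ν⟩ : Nonempty (ℕ ≃ V) := nonempty_equiv_of_countable
  obtain ⟨ω⟩ : Nonempty (ℕ ≃ W) := nonempty_equiv_of_countable
  refine ⟨⟨fun w => eSeq (Γ := Γ) hR ν ω (ω.symm w), ?_⟩,
    ⟨fun v => rSeq (Γ := Γ) hR hcn ν ω (ν.symm v), ?_⟩, ?_⟩
  · intro x y hxy
    rw [eSeq_adj' hR ν ω, ω.apply_symm_apply, ω.apply_symm_apply]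
    exact hxy
  · intro x y hxy
    apply rSeq_adj hR hcn ν ω
    rw [ν.apply_symm_apply, ν.apply_symm_apply]
    exact hxy
  · intro x
    show rSeq (Γ := Γ) hR hcn ν ω (ν.symm (eSeq (Γ := Γ) hR ν ω (ω.symm x))) = x
    rw [rSeq_e hR hcn ν ω (m := ω.symm x) (by rw [ν.apply_symm_apply]), ω.apply_symm_apply]

/-! ### The auxiliary graph -/

/-- Its vertices. -/
inductive Wt (V : Type) : Type
  | a (v : V)
  | b (v y : V)
  | k (v : V)
  | nil
  | cons (x l : Wt V)

namespace Wt

variable {V : Type}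

/-- The vertices below a vertex. -/
def ch : Wt V → List (Wt V)
  | cons x l => x :: ch l
  | _ => []

/-- The size. -/
def sz : Wt V → ℕ
  | cons x l => sz x + sz l + 1
  | _ => 0

theorem sz_lt {x : Wt V} : ∀ l : Wt V, x ∈ ch l → sz x < sz l
  | cons y l, h => by
    rw [ch, List.mem_cons] at h
    rw [show sz (cons y l) = sz y + sz l + 1 from rfl]
    rcases h with h | h
    · subst h; omega
    · have := sz_lt l h
      omega
  | a _, h => absurd h List.not_mem_nil
  | b _ _, h => absurd h List.not_mem_nil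
  | k _, h => absurd h List.not_mem_nil
  | nil, h => absurd h List.not_mem_nil

/-- Adjacency of the vertices at the bottom. -/
def base (R : SimpleGraph V) : Wt V → Wt V → Prop
  | a v, a w => R.Adj v w
  | b v y, b v' y' => v ≠ v' ∧ R.Adj y y'
  | k v, k w => v ≠ w
  | _, _ => False

theorem base_symm (R : SimpleGraph V) {x y : Wt V} (h : base R x y) : base R y x := by
  cases x <;> cases y <;> simp only [base] at h ⊢
  · exact h.symm
  · exact ⟨h.1.symm, h.2.symm⟩
  · exact h.symm

theorem base_irrefl (R : SimpleGraph V) (x : Wt V) : ¬ base R x x := by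
  intro h
  cases x <;> simp only [base] at h
  · exact R.loopless.irrefl _ h
  · exact h.1 rfl
  · exact h rfl

/-- The auxiliary graph. -/
def gr (R : SimpleGraph V) : SimpleGraph (Wt V) where
  Adj x y := x ∈ ch y ∨ y ∈ ch x ∨ base R x y
  symm := ⟨by
    intro x y h
    rcases h with h | h | h
    · exact Or.inr (Or.inl h)
    · exact Or.inl h
    · exact Or.inr (Or.inr (base_symm R h))⟩
  loopless := ⟨by
    intro x h
    rcases h with h | h | h
    · exact lt_irrefl _ (sz_lt _ h)
    · exact lt_irrefl _ (sz_lt _ h)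
    · exact base_irrefl R x h⟩

/-- A vertex with prescribed vertices below it. -/
def ofList : List (Wt V) → Wt V
  | [] => nil
  | x :: l => cons x (ofList l)

theorem ch_ofList : ∀ l : List (Wt V), ch (ofList l) = l
  | [] => rfl
  | x :: l => by rw [ofList, ch, ch_ofList l]

theorem gr_cn (R : SimpleGraph V) (F : Finset (Wt V)) : ∃ w, ∀ x ∈ F, (gr R).Adj w x := by
  refine ⟨ofList F.toList, fun x hx => Or.inr (Or.inl ?_)⟩
  rw [ch_ofList]
  exact Finset.mem_toList.mpr hx

/-- The endomorphism of the auxiliary graph attached to `f`. -/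
def T (f : V → V) : Wt V → Wt V
  | a v => b v (f v)
  | b v _ => k v
  | k v => k v
  | nil => nil
  | cons x l => cons (T f x) (T f l)

theorem ch_T (f : V → V) : ∀ x : Wt V, ch (T f x) = (ch x).map (T f)
  | cons x l => by
    rw [T, ch, ch, List.map_cons, ch_T f l]
  | a _ => rfl
  | b _ _ => rfl
  | k _ => rfl
  | nil => rfl

theorem T_comm (f g : V → V) : ∀ x : Wt V, T f (T g x) = T g (T f x)
  | cons x l => by
    show cons (T f (T g x)) (T f (T g l)) = cons (T g (T f x)) (T g (T f l))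
    rw [T_comm f g x, T_comm f g l]
  | a _ => rfl
  | b _ _ => rfl
  | k _ => rfl
  | nil => rfl

theorem T_base {R : SimpleGraph V} (f : R →g R) {x y : Wt V} (h : base R x y) :
    base R (T f x) (T f y) := by
  cases x <;> cases y <;> simp only [base] at h
  · exact ⟨h.ne, f.map_adj h⟩
  · exact h.1
  · exact h

/-- The endomorphism of the auxiliary graph attached to `f`. -/
def Th {R : SimpleGraph V} (f : R →g R) : gr R →g gr R where
  toFun := T f
  map_rel' := by
    intro x y h
    rcases h with h | h | h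
    · refine Or.inl ?_
      rw [ch_T]
      exact List.mem_map_of_mem h
    · refine Or.inr (Or.inl ?_)
      rw [ch_T]
      exact List.mem_map_of_mem h
    · exact Or.inr (Or.inr (T_base f h))

/-- The embedding of the random graph. -/
def io {R : SimpleGraph V} : R →g gr R where
  toFun := a
  map_rel' := fun h => Or.inr (Or.inr h)

/-- The projection, with the list of the images of the vertices below. -/
def P (κ : V → V) (v₀ : V) (cn : List V → V) : Wt V → V × List V
  | a v => (v, [])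
  | b _ y => (y, [])
  | k v => (κ v, [])
  | nil => (v₀, [])
  | cons x l => (cn ((P κ v₀ cn x).1 :: (P κ v₀ cn l).2), (P κ v₀ cn x).1 :: (P κ v₀ cn l).2)

theorem P_snd (κ : V → V) (v₀ : V) (cn : List V → V) :
    ∀ x : Wt V, (P κ v₀ cn x).2 = (ch x).map fun y => (P κ v₀ cn y).1
  | cons x l => by
    rw [P, ch, List.map_cons, ← P_snd κ v₀ cn l]
  | a _ => rfl
  | b _ _ => rfl
  | k _ => rfl
  | nil => rfl

theorem exists_cn {R : SimpleGraph V} (hR : IsRandom R) (l : List V) :
    ∃ v, ∀ x ∈ l, R.Adj v x := by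
  classical
  obtain ⟨v, _, _, h, _⟩ := hR l.toFinset ∅ (disjoint_empty_right _)
  exact ⟨v, fun x hx => h x (List.mem_toFinset.mpr hx)⟩

theorem exists_clique [Countable V] {R : SimpleGraph V} (hR : IsRandom R) :
    ∃ κ : V → V, ∀ x y, x ≠ y → R.Adj (κ x) (κ y) := by
  have : Std.Symm fun x y => R.Adj x y := ⟨fun _ _ h => h.symm⟩
  obtain ⟨f, _, hf⟩ := exists_seq_of_forall_finset_exists' (fun _ : V => True)
    (fun x y => R.Adj x y) (fun s _ => by
      obtain ⟨v, _, _, h, _⟩ := hR s ∅ (disjoint_empty_right _)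
      exact ⟨v, trivial, fun x hx => (h x hx).symm⟩)
  obtain ⟨g, hg⟩ := exists_injective_nat V
  refine ⟨fun v => f (g v), fun x y hxy => ?_⟩
  exact hf (fun h => hxy (hg h))

theorem exists_proj [Countable V] {R : SimpleGraph V} (hR : IsRandom R) :
    ∃ π : gr R →g R, ∀ v y, π (b v y) = y := by
  obtain ⟨κ, hκ⟩ := exists_clique hR
  have hinf := hR.infinite
  obtain ⟨v₀⟩ : Nonempty V := inferInstance
  choose cn hcn using exists_cn hR
  have key : ∀ x y : Wt V, x ∈ ch y → R.Adj (P κ v₀ cn y).1 (P κ v₀ cn x).1 := by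
    intro x y h
    cases y with
    | cons z l =>
      apply hcn
      have h1 := P_snd κ v₀ cn (cons z l)
      have h2 : (P κ v₀ cn x).1 ∈ (P κ v₀ cn (cons z l)).2 := by
        rw [h1]
        exact List.mem_map_of_mem (f := fun y => (P κ v₀ cn y).1) h
      exact h2
    | a _ => exact absurd h List.not_mem_nil
    | b _ _ => exact absurd h List.not_mem_nil
    | k _ => exact absurd h List.not_mem_nil
    | nil => exact absurd h List.not_mem_nil
  refine ⟨⟨fun x => (P κ v₀ cn x).1, ?_⟩, fun v y => rfl⟩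
  intro x y h
  rcases h with h | h | h
  · exact (key x y h).symm
  · exact key y x h
  · cases x <;> cases y <;> simp only [base] at h
    · exact h
    · exact h.2
    · exact hκ _ _ h

/-- A code of the vertices. -/
def code (g : V → ℕ) : Wt V → ℕ
  | a v => 5 * g v
  | b v y => 5 * Nat.pair (g v) (g y) + 1
  | k v => 5 * g v + 2
  | nil => 3
  | cons x l => 5 * Nat.pair (code g x) (code g l) + 4

theorem code_inj {g : V → ℕ} (hg : Function.Injective g) : ∀ x y : Wt V,
    code g x = code g y → x = y := by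
  intro x
  induction x with
  | a v =>
    intro y h
    cases y <;> simp only [code] at h
    case a v' => rw [hg (by omega : g v = g v')]
    all_goals omega
  | b v w =>
    intro y h
    cases y <;> simp only [code] at h
    case b v' w' =>
      have h1 : Nat.pair (g v) (g w) = Nat.pair (g v') (g w') := by omega
      rw [Nat.pair_eq_pair] at h1
      rw [hg h1.1, hg h1.2]
    all_goals omega
  | k v =>
    intro y h
    cases y <;> simp only [code] at h
    case k v' => rw [hg (by omega : g v = g v')]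
    all_goals omega
  | nil =>
    intro y h
    cases y <;> simp only [code] at h
    all_goals first | rfl | omega
  | cons x l ihx ihl =>
    intro y h
    cases y <;> simp only [code] at h
    case cons x' l' =>
      have h1 : Nat.pair (code g x) (code g l) = Nat.pair (code g x') (code g l') := by omega
      rw [Nat.pair_eq_pair] at h1
      rw [ihx _ h1.1, ihl _ h1.2]
    all_goals omega

instance [Countable V] : Countable (Wt V) := by
  obtain ⟨g, hg⟩ := exists_injective_nat V
  exact ⟨code g, fun x y h => code_inj hg x y h⟩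

end Wt

open Wt

/-- The endomorphism monoid of the random graph is a product of three commutative submonoids. -/
theorem isProd_end {V : Type} [Countable V] {R : SimpleGraph V} (hR : IsRandom R) :
    IsProd (R →g R) 3 := by
  obtain ⟨e, r, her⟩ := exists_retract hR (gr_cn R)
  obtain ⟨π, hπ⟩ := exists_proj hR
  let S : Set (R →g R) := Set.range fun f : R →g R => (e.comp (Th f)).comp r
  have hS : ∀ x ∈ S, ∀ y ∈ S, x * y = y * x := by
    rintro _ ⟨f, rfl⟩ _ ⟨g, rfl⟩
    ext v
    show e (T f (r (e (T g (r v))))) = e (T g (r (e (T f (r v)))))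
    rw [her, her, T_comm]
  have hcl : ∀ x ∈ Submonoid.closure S, ∀ y ∈ Submonoid.closure S, x * y = y * x := by
    intro x hx y hy
    have h1 : ∀ a ∈ S, ∀ b ∈ Submonoid.closure S, a * b = b * a := by
      intro a ha b hb
      induction hb using Submonoid.closure_induction with
      | mem z hz => exact hS a ha z hz
      | one => rw [mul_one, one_mul]
      | mul p q _ _ hp hq => rw [← mul_assoc, hp, mul_assoc, hq, mul_assoc]
    induction hx using Submonoid.closure_induction with
    | mem z hz => exact h1 z hz y hy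
    | one => rw [mul_one, one_mul]
    | mul p q _ _ hp hq => rw [mul_assoc, hq, ← mul_assoc, hp, mul_assoc]
  refine ⟨![Submonoid.powers (π.comp r), Submonoid.closure S, Submonoid.powers (e.comp io)],
    ?_, ?_⟩
  · intro i
    fin_cases i
    · rintro _ ⟨m, rfl⟩ _ ⟨n, rfl⟩
      exact (Commute.refl _).pow_pow m n
    · exact hcl
    · rintro _ ⟨m, rfl⟩ _ ⟨n, rfl⟩
      exact (Commute.refl _).pow_pow m n
  · intro f
    refine ⟨![π.comp r, (e.comp (Th f)).comp r, e.comp io], ?_, ?_⟩
    · intro i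
      fin_cases i
      · exact Submonoid.mem_powers _
      · exact Submonoid.subset_closure ⟨f, rfl⟩
      · exact Submonoid.mem_powers _
    · have h1 : (List.ofFn ![π.comp r, (e.comp (Th f)).comp r, e.comp io]).prod =
          (π.comp r) * (((e.comp (Th f)).comp r) * (e.comp io)) := by
        simp [List.ofFn_succ]
      rw [h1]
      ext v
      show π (r (e (T f (r (e (a v)))))) = f v
      rw [her, her]
      exact hπ _ _

theorem cmw_end_random {V : Type} [Countable V] {R : SimpleGraph V} (hR : IsRandom R) :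
    cmw (R →g R) ≤ 3 :=
  iInf₂_le_of_le 3 (isProd_end hR) (by norm_num)

end Q22.CMW
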