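import Mathlib

/-! Large and small subsets of a group. -/

namespace Q22.CS

open Pointwise

/-- `A` is large if `G = F A` for some finite `F`. -/
def IsLarge {G : Type*} [Group G] (A : Set G) : Prop :=
  ∃ F : Set G, F.Finite ∧ F * A = Set.univ

/-- `A` is small if `L \ A` is large for every large `L`. -/
def IsSmall {G : Type*} [Group G] (A : Set G) : Prop :=
  ∀ L : Set G, IsLarge L → IsLarge (L \ A)

/-- `A` is thick if every finite set has a right translate inside `A`. -/
def IsThick {G : Type*} [Group G] (A : Set G) : Prop :=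
  ∀ F : Set G, F.Finite → ∃ g : G, ∀ x ∈ F, x * g ∈ A

/-- `A` is prethick if `F A` is thick for some finite `F`. -/
def IsPrethick {G : Type*} [Group G] (A : Set G) : Prop :=
  ∃ F : Set G, F.Finite ∧ IsThick (F * A)

/-- A subset that is not prethick is small. -/
theorem isSmall_of_not_prethick {G : Type*} [Group G] {A : Set G} (h : ¬ IsPrethick A) :
    IsSmall A := by
  intro L hL
  obtain ⟨F, hF, hFL⟩ := hL
  have h1 : ¬ IsThick (F * A) := fun ht => h ⟨F, hF, ht⟩
  unfold IsThick at h1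
  push Not at h1
  obtain ⟨K, hK, hKg⟩ := h1
  refine ⟨K⁻¹ * F, hK.inv.mul hF, ?_⟩
  rw [Set.eq_univ_iff_forall]
  intro g
  obtain ⟨k, hk, hkg⟩ := hKg g
  have h2 : k * g ∈ F * L := by rw [hFL]; trivial
  obtain ⟨f, hf, l, hl, hfl⟩ := Set.mem_mul.1 h2
  refine Set.mem_mul.2 ⟨k⁻¹ * f, Set.mul_mem_mul (Set.inv_mem_inv.2 hk) hf, l, ⟨hl, ?_⟩, ?_⟩
  · intro hlA
    exact hkg (Set.mem_mul.2 ⟨f, hf, l, hlA, hfl⟩)
  · rw [mul_assoc, hfl, inv_mul_cancel_left]


end Q22.CS
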