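import Mathlib
import Pool.Agent.Q22.CSDefs

/-! Every infinite group is the product of a countable subset and a small subset. -/

namespace Q22.CS

universe u

open Cardinal

/-! ### Closures and cardinalities -/

theorem mk_iUnion_le_of {X ι : Type u} (f : ι → Set X) {c : Cardinal.{u}} (hc : ℵ₀ ≤ c)
    (hι : #ι ≤ c) (hf : ∀ i, #(f i) ≤ c) : #(⋃ i, f i : Set X) ≤ c := by
  refine (mk_iUnion_le f).trans ?_
  calc #ι * ⨆ i, #(f i) ≤ c * c := mul_le_mul' hι (ciSup_le' hf)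
    _ = c := mul_eq_self hc

theorem mk_biUnion_le_of {X ι : Type u} (s : Set ι) (f : ι → Set X) {c : Cardinal.{u}}
    (hc : ℵ₀ ≤ c) (hs : #s ≤ c) (hf : ∀ i ∈ s, #(f i) ≤ c) : #(⋃ i ∈ s, f i : Set X) ≤ c := by
  rw [Set.biUnion_eq_iUnion]
  exact mk_iUnion_le_of _ hc hs (fun i => hf i i.2)

/-- The closure of `A` under a set valued binary operation. -/
def clos {X : Type*} (op : X → X → Set X) (A : Set X) : Set X :=
  {x | ∀ N : Set X, A ⊆ N → (∀ a ∈ N, ∀ b ∈ N, op a b ⊆ N) → x ∈ N}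

theorem subset_clos {X : Type*} (op : X → X → Set X) (A : Set X) : A ⊆ clos op A :=
  fun _ hx _ hN _ => hN hx

theorem clos_closed {X : Type*} (op : X → X → Set X) (A : Set X) :
    ∀ a ∈ clos op A, ∀ b ∈ clos op A, op a b ⊆ clos op A :=
  fun _ ha _ hb _ hx N hN hcl => hcl _ (ha N hN hcl) _ (hb N hN hcl) hx

theorem clos_min {X : Type*} {op : X → X → Set X} {A N : Set X} (hA : A ⊆ N)
    (hN : ∀ a ∈ N, ∀ b ∈ N, op a b ⊆ N) : clos op A ⊆ N :=
  fun _ hx => hx N hA hN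

theorem mk_clos_le {X : Type u} {op : X → X → Set X} (hop : ∀ a b, (op a b).Countable)
    (A : Set X) : #(clos op A) ≤ max #A ℵ₀ := by
  set c := max #A ℵ₀ with hcdef
  have hc : ℵ₀ ≤ c := le_max_right _ _
  let B : ℕ → Set X := fun n => Nat.rec A (fun _ B => B ∪ ⋃ a ∈ B, ⋃ b ∈ B, op a b) n
  have hBs : ∀ n, B (n + 1) = B n ∪ ⋃ a ∈ B n, ⋃ b ∈ B n, op a b := fun _ => rfl
  have hB : ∀ n, #(↥(B n)) ≤ c := by
    intro n
    induction n with
    | zero => exact le_max_left _ _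
    | succ n ih =>
      rw [hBs]
      refine (mk_union_le _ _).trans ?_
      refine (add_le_add ih (mk_biUnion_le_of _ _ hc ih fun a _ =>
        mk_biUnion_le_of _ _ hc ih fun b _ => ?_)).trans (add_eq_self hc).le
      exact ((hop a b).le_aleph0).trans hc
  have hmono : ∀ m n, m ≤ n → B m ⊆ B n := by
    intro m n hmn
    induction hmn with
    | refl => exact le_rfl
    | step _ ih => exact ih.trans (by rw [hBs]; exact Set.subset_union_left)
  let U : Set X := ⋃ n : ULift.{u} ℕ, B n.down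
  have hU : #U ≤ c := mk_iUnion_le_of _ hc (by simpa using hc) (fun i => hB _)
  refine (mk_le_mk_of_subset (clos_min ?_ ?_)).trans hU
  · intro x hx
    exact Set.mem_iUnion.2 ⟨⟨0⟩, hx⟩
  · intro a ha b hb x hx
    obtain ⟨⟨m⟩, hm⟩ := Set.mem_iUnion.1 ha
    obtain ⟨⟨n⟩, hn⟩ := Set.mem_iUnion.1 hb
    refine Set.mem_iUnion.2 ⟨⟨max m n + 1⟩, ?_⟩
    show x ∈ B (max m n + 1)
    rw [hBs]
    refine Or.inr ?_
    refine Set.mem_iUnion₂.2 ⟨a, hmono _ _ (le_max_left _ _) hm, ?_⟩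
    exact Set.mem_iUnion₂.2 ⟨b, hmono _ _ (le_max_right _ _) hn, hx⟩

/-- Recursive choice along a well-founded relation. -/
theorem exists_rec {I : Type*} {β : Type*} (r : I → I → Prop) (wf : WellFounded r)
    (P : (i : I) → ((j : I) → r j i → β) → β → Prop) (h : ∀ i f, ∃ b, P i f b) :
    ∃ K : I → β, ∀ i, P i (fun j _ => K j) (K i) := by
  classical
  refine ⟨wf.fix (fun i f => Classical.choose (h i f)), fun i => ?_⟩
  rw [WellFounded.fix_eq]
  exact Classical.choose_spec (h i (fun j _ => wf.fix (fun i f => Classical.choose (h i f)) j))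

/-! ### Independent systems -/

/-- A family of finite symmetric sets, each missing the subgroup generated by a fixed subgroup
and the earlier sets. -/
structure Sys (G : Type u) [Group G] (I : Type u) [LinearOrder I] (G0 : Subgroup G) where
  /-- the sets -/
  Q : I → Set G
  fin : ∀ i, (Q i).Finite
  symm : ∀ i x, x ∈ Q i → x⁻¹ ∈ Q i
  indep : ∀ i x, x ∈ Q i → x ∉ Subgroup.closure ((G0 : Set G) ∪ ⋃ j : {j // j < i}, Q j.1)

namespace Sys

variable {G : Type u} [Group G] {I : Type u} [LinearOrder I] {G0 : Subgroup G} (S : Sys G I G0)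

/-- The subgroup generated by the base and the sets before `i`. -/
def A (i : I) : Subgroup G := Subgroup.closure ((G0 : Set G) ∪ ⋃ j : {j // j < i}, S.Q j.1)

theorem base_le (i : I) {c : G} (hc : c ∈ G0) : c ∈ S.A i :=
  Subgroup.subset_closure (Or.inl hc)

theorem lt_le {i j : I} (h : j < i) {x : G} (hx : x ∈ S.Q j) : x ∈ S.A i :=
  Subgroup.subset_closure (Or.inr (Set.mem_iUnion.2 ⟨⟨j, h⟩, hx⟩))

theorem uniq {i j : I} {x : G} (hi : x ∈ S.Q i) (hj : x ∈ S.Q j) : i = j := by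
  rcases lt_trichotomy i j with h | h | h
  · exact absurd (S.lt_le h hi) (S.indep j x hj)
  · exact h
  · exact absurd (S.lt_le h hj) (S.indep i x hi)

theorem one_notMem (i : I) : (1 : G) ∉ S.Q i := fun h => S.indep i 1 h (one_mem _)

/-- Each right coset of the base meets the union of the sets in a finite set. -/
theorem finite_coset (g : G) : {c : G | c ∈ G0 ∧ ∃ i, c * g ∈ S.Q i}.Finite := by
  by_cases h : ∃ c ∈ G0, ∃ i, c * g ∈ S.Q i
  · obtain ⟨c, hc, i, hi⟩ := h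
    have h1 : {c : G | c ∈ G0 ∧ ∃ i, c * g ∈ S.Q i} ⊆ (fun x => x * g⁻¹) '' S.Q i := by
      rintro d ⟨hd, j, hj⟩
      have hij : i = j := by
        rcases lt_trichotomy i j with h | h | h
        · refine absurd ?_ (S.indep j _ hj)
          have h2 : d * g = (d * c⁻¹) * (c * g) := by group
          rw [h2]
          exact mul_mem (S.base_le j (mul_mem hd (inv_mem hc))) (S.lt_le h hi)
        · exact h
        · refine absurd ?_ (S.indep i _ hi)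
          have h2 : c * g = (c * d⁻¹) * (d * g) := by group
          rw [h2]
          exact mul_mem (S.base_le i (mul_mem hc (inv_mem hd))) (S.lt_le h hj)
      subst hij
      exact ⟨d * g, hj, by group⟩
    exact ((S.fin i).image _).subset h1
  · have h1 : {c : G | c ∈ G0 ∧ ∃ i, c * g ∈ S.Q i} = ∅ := by
      ext c
      constructor
      · rintro ⟨hc, hi⟩
        exact absurd ⟨c, hc, hi⟩ h
      · exact fun h => absurd h (Set.notMem_empty _)
    rw [h1]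
    exact Set.finite_empty

theorem max_aux {i1 i2 i3 i4 : I} {q1 q2 q3 q4 : G} (h1 : q1 ∈ S.Q i1) (h2 : q2 ∈ S.Q i2)
    (h3 : q3 ∈ S.Q i3) (h4 : q4 ∈ S.Q i4) (h34 : i3 ≠ i4)
    (he : q1 * q2⁻¹ = q3 * q4⁻¹) : ¬ max i1 i2 < max i3 i4 := by
  intro hlt
  have hi1 : i1 < max i3 i4 := lt_of_le_of_lt (le_max_left _ _) hlt
  have hi2 : i2 < max i3 i4 := lt_of_le_of_lt (le_max_right _ _) hlt
  rcases lt_or_gt_of_ne h34 with h | h
  · rw [max_eq_right h.le] at hi1 hi2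
    refine S.indep i4 q4 h4 ?_
    have h5 : q4 = (q1 * q2⁻¹)⁻¹ * q3 := by rw [he]; group
    rw [h5]
    exact mul_mem (inv_mem (mul_mem (S.lt_le hi1 h1) (inv_mem (S.lt_le hi2 h2)))) (S.lt_le h h3)
  · rw [max_eq_left h.le] at hi1 hi2
    refine S.indep i3 q3 h3 ?_
    have h5 : q3 = (q1 * q2⁻¹) * q4 := by rw [he]; group
    rw [h5]
    exact mul_mem (mul_mem (S.lt_le hi1 h1) (inv_mem (S.lt_le hi2 h2))) (S.lt_le h h4)

theorem max_eq {i1 i2 i3 i4 : I} {q1 q2 q3 q4 : G} (h1 : q1 ∈ S.Q i1) (h2 : q2 ∈ S.Q i2)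
    (h3 : q3 ∈ S.Q i3) (h4 : q4 ∈ S.Q i4) (h12 : i1 ≠ i2) (h34 : i3 ≠ i4)
    (he : q1 * q2⁻¹ = q3 * q4⁻¹) : max i1 i2 = max i3 i4 :=
  le_antisymm (not_lt.1 (S.max_aux h3 h4 h1 h2 h12 he.symm))
    (not_lt.1 (S.max_aux h1 h2 h3 h4 h34 he))

/-- The basic closure operation. -/
def op (x y : G) : Set G :=
  ({x * y⁻¹} ∪ {z | ∃ c ∈ G0, c * x = z}) ∪
    ({z | ∃ i, x ∈ S.Q i ∧ z ∈ S.Q i} ∪
      {z | ∃ i j q q', q ∈ S.Q i ∧ q' ∈ S.Q j ∧ i ≠ j ∧ q * q'⁻¹ = x ∧ z ∈ S.Q (max i j)})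

theorem op_countable (h0 : (G0 : Set G).Countable) (x y : G) : (S.op x y).Countable := by
  refine ((Set.countable_singleton _).union ?_).union (Set.Countable.union ?_ ?_)
  · have h1 : {z | ∃ c ∈ G0, c * x = z} = (fun c => c * x) '' (G0 : Set G) := by
      ext z
      constructor
      · rintro ⟨c, hc, rfl⟩
        exact ⟨c, hc, rfl⟩
      · rintro ⟨c, hc, rfl⟩
        exact ⟨c, hc, rfl⟩
    rw [h1]
    exact h0.image _
  · by_cases h : ∃ i, x ∈ S.Q i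
    · obtain ⟨i, hi⟩ := h
      refine (S.fin i).countable.mono ?_
      rintro z ⟨j, hj, hz⟩
      rwa [S.uniq hi hj]
    · refine Set.countable_empty.mono ?_
      rintro z ⟨j, hj, _⟩
      exact h ⟨j, hj⟩
  · by_cases h : ∃ i j q q', q ∈ S.Q i ∧ q' ∈ S.Q j ∧ i ≠ j ∧ q * q'⁻¹ = x
    · obtain ⟨i, j, q, q', hq, hq', hij, hx⟩ := h
      refine (S.fin (max i j)).countable.mono ?_
      rintro z ⟨i', j', r, r', hr, hr', hij', hx', hz⟩
      rwa [S.max_eq hq hq' hr hr' hij hij' (hx.trans hx'.symm)]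
    · refine Set.countable_empty.mono ?_
      rintro z ⟨i', j', r, r', hr, hr', hij', hx', hz⟩
      exact h ⟨i', j', r, r', hr, hr', hij', hx'⟩

/-- Closed sets. -/
def Cl (N : Set G) : Prop := ∀ x ∈ N, ∀ y ∈ N, S.op x y ⊆ N

variable {S}

theorem Cl.div {N : Set G} (h : S.Cl N) {x y : G} (hx : x ∈ N) (hy : y ∈ N) : x * y⁻¹ ∈ N :=
  h x hx y hy (Or.inl (Or.inl rfl))

theorem Cl.inv {N : Set G} (h : S.Cl N) {x : G} (hx : x ∈ N) : x⁻¹ ∈ N := by
  have h1 : (1 : G) ∈ N := by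
    have := h.div hx hx
    rwa [mul_inv_cancel] at this
  have := h.div h1 hx
  rwa [one_mul] at this

theorem Cl.mul {N : Set G} (h : S.Cl N) {x y : G} (hx : x ∈ N) (hy : y ∈ N) : x * y ∈ N := by
  have := h.div hx (h.inv hy)
  rwa [inv_inv] at this

theorem Cl.base {N : Set G} (h : S.Cl N) {c x : G} (hc : c ∈ G0) (hx : x ∈ N) : c * x ∈ N :=
  h x hx x hx (Or.inl (Or.inr ⟨c, hc, rfl⟩))

theorem Cl.q {N : Set G} (h : S.Cl N) {i : I} {x z : G} (hx : x ∈ N) (hxi : x ∈ S.Q i)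
    (hz : z ∈ S.Q i) : z ∈ N :=
  h x hx x hx (Or.inr (Or.inl ⟨i, hxi, hz⟩))

theorem Cl.qq {N : Set G} (h : S.Cl N) {i j : I} {q q' z : G} (hq : q ∈ S.Q i) (hq' : q' ∈ S.Q j)
    (hij : i ≠ j) (hx : q * q'⁻¹ ∈ N) (hz : z ∈ S.Q (max i j)) : z ∈ N :=
  h _ hx _ hx (Or.inr (Or.inr ⟨i, j, q, q', hq, hq', hij, rfl, hz⟩))

variable (S)

/-- The sets `Q i` that carry `x` into `U`. -/
def phi (U : Set G) (x : G) : Set G := {z | x ∉ U ∧ ∃ i, z ∈ S.Q i ∧ ∃ q ∈ S.Q i, q * x ∈ U}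

theorem phi_countable {N : Set G} (hN : S.Cl N) (x : G) : (S.phi N x).Countable := by
  by_cases h : ∃ z, z ∈ S.phi N x
  · obtain ⟨z, hx, i, hz, q, hq, hqx⟩ := h
    refine (S.fin i).countable.mono ?_
    rintro z' ⟨_, i', hz', q', hq', hqx'⟩
    by_contra hne
    have hii : i ≠ i' := by
      rintro rfl
      exact hne hz'
    have h1 : q * q'⁻¹ ∈ N := by
      have := hN.div hqx hqx'
      rwa [show q * x * (q' * x)⁻¹ = q * q'⁻¹ by group] at this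
    apply hx
    rcases lt_or_gt_of_ne hii with h | h
    · have h2 : q' ∈ N := hN.qq hq hq' hii h1 (by rwa [max_eq_right h.le])
      have := hN.mul (hN.inv h2) hqx'
      rwa [inv_mul_cancel_left] at this
    · have h2 : q ∈ N := hN.qq hq hq' hii h1 (by rwa [max_eq_left h.le])
      have := hN.mul (hN.inv h2) hqx
      rwa [inv_mul_cancel_left] at this
  · have h1 : S.phi N x = ∅ := Set.eq_empty_iff_forall_notMem.2 (fun z hz => h ⟨z, hz⟩)
    rw [h1]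
    exact Set.countable_empty

/-- Sets that can be removed. -/
structure Nice (U : Set G) : Prop where
  n1 : ∀ i h1 h2 h3, h1 ∈ U → h2 ∈ U → h1 * h2⁻¹ ∈ S.Q i → h3 * h1⁻¹ ∈ S.Q i → h3 ∈ U
  n2 : ∀ x, (S.phi U x).Countable
  n3 : ∀ c ∈ G0, ∀ x ∈ U, c * x ∈ U

theorem nice_empty : S.Nice (∅ : Set G) where
  n1 := fun _ _ _ _ h => absurd h (Set.notMem_empty _)
  n2 := fun x => by
    refine Set.countable_empty.mono ?_
    rintro z ⟨_, i, _, q, _, h⟩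
    exact absurd h (Set.notMem_empty _)
  n3 := fun _ _ _ h => absurd h (Set.notMem_empty _)

variable {S}

theorem Nice.union {U N : Set G} (hU : S.Nice U) (hN : S.Cl N) (hUN : ∀ x ∈ N, S.phi U x ⊆ N) :
    S.Nice (U ∪ N) where
  n1 := by
    intro i h1 h2 h3 m1 m2 h12 h31
    rcases m1 with m1 | m1
    · rcases m2 with m2 | m2
      · exact Or.inl (hU.n1 i h1 h2 h3 m1 m2 h12 h31)
      · by_cases m2' : h2 ∈ U
        · exact Or.inl (hU.n1 i h1 h2 h3 m1 m2' h12 h31)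
        · have hQ : ∀ z ∈ S.Q i, z ∈ N := fun z hz =>
            hUN h2 m2 ⟨m2', i, hz, _, h12, by rwa [inv_mul_cancel_right]⟩
          have h4 : h3 = (h3 * h1⁻¹) * ((h1 * h2⁻¹) * h2) := by group
          rw [h4]
          exact Or.inr (hN.mul (hQ _ h31) (hN.mul (hQ _ h12) m2))
    · have hcase : (∀ z ∈ S.Q i, z ∈ N) → h3 ∈ U ∪ N := by
        intro hQ
        have h4 : h3 = (h3 * h1⁻¹) * h1 := by group
        rw [h4]
        exact Or.inr (hN.mul (hQ _ h31) m1)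
      rcases m2 with m2 | m2
      · by_cases m1' : h1 ∈ U
        · exact Or.inl (hU.n1 i h1 h2 h3 m1' m2 h12 h31)
        · refine hcase fun z hz => hUN h1 m1 ⟨m1', i, hz, _, S.symm i _ h12, ?_⟩
          rwa [show (h1 * h2⁻¹)⁻¹ * h1 = h2 by group]
      · exact hcase fun z hz => hN.q (hN.div m1 m2) h12 hz
  n2 := by
    intro x
    refine ((hU.n2 x).union (S.phi_countable hN x)).mono ?_
    rintro z ⟨hx, i, hz, q, hq, hqx⟩
    rcases hqx with h | h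
    · exact Or.inl ⟨fun hx' => hx (Or.inl hx'), i, hz, q, hq, h⟩
    · exact Or.inr ⟨fun hx' => hx (Or.inr hx'), i, hz, q, hq, h⟩
  n3 := by
    rintro c hc x (hx | hx)
    · exact Or.inl (hU.n3 c hc x hx)
    · exact Or.inr (hN.base hc hx)

variable (S)

/-- Pairwise related triples. -/
def Tri (i : I) (a b c : G) : Prop := a * b⁻¹ ∈ S.Q i ∧ a * c⁻¹ ∈ S.Q i ∧ b * c⁻¹ ∈ S.Q i

variable {S}

theorem rel_symm {i : I} {a b : G} (h : a * b⁻¹ ∈ S.Q i) : b * a⁻¹ ∈ S.Q i := by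
  have := S.symm i _ h
  rwa [show (a * b⁻¹)⁻¹ = b * a⁻¹ by group] at this

theorem Tri.swap12 {i : I} {a b c : G} (h : S.Tri i a b c) : S.Tri i b a c :=
  ⟨rel_symm h.1, h.2.2, h.2.1⟩

theorem Tri.rot {i : I} {a b c : G} (h : S.Tri i a b c) : S.Tri i c a b :=
  ⟨rel_symm h.2.1, rel_symm h.2.2, h.1⟩

variable (S)

/-- A stage equivalence relation on `Z \ U`. -/
structure Good (U Z : Set G) (E : G → G → Prop) : Prop where
  dom : ∀ h h', E h h' → h ∈ Z ∧ h ∉ U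
  refl : ∀ h, h ∈ Z → h ∉ U → E h h
  symm : ∀ h h', E h h' → E h' h
  trans : ∀ h h' h'', E h h' → E h' h'' → E h h''
  cnt : ∀ h, {h' | E h h'}.Countable
  inv : ∀ h, h ∈ Z → h ∉ U → ∀ c ∈ G0, E h (c * h)
  p1 : ∀ i h1 h2 h3, h1 ∈ Z → h2 ∈ Z → h3 ∈ Z → h1 ∉ U → h2 ∉ U → h3 ∉ U →
    S.Tri i h1 h2 h3 → E h1 h2 ∨ E h1 h3 ∨ E h2 h3
  p2 : ∀ i h1 h2 h3, h1 ∈ U → h2 ∈ Z → h3 ∈ Z → h2 ∉ U → h3 ∉ U →
    S.Tri i h1 h2 h3 → E h2 h3

/-- In a closed set two related elements give the whole triple. -/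
theorem Cl.tri {N : Set G} (hN : S.Cl N) {i : I} {a b c : G} (ha : a ∈ N) (hb : b ∈ N)
    (h : S.Tri i a b c) : c ∈ N := by
  have h1 : c * a⁻¹ ∈ N := hN.q (hN.div ha hb) h.1 (rel_symm h.2.1)
  have := hN.mul h1 ha
  rwa [inv_mul_cancel_right] at this

theorem exists_good (h0 : (G0 : Set G).Countable) : ∀ κ : Cardinal.{u}, ∀ U Z : Set G, S.Nice U →
    S.Cl Z → (∀ x ∈ Z, S.phi U x ⊆ Z) → #Z = κ → ∃ E, S.Good U Z E := by
  intro κ
  induction κ using WellFoundedLT.induction with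
  | ind κ ih =>
  intro U Z hU hZ hUZ hκ
  by_cases hcount : #Z ≤ ℵ₀
  · -- the countable case
    have hZc : Z.Countable := le_aleph0_iff_set_countable.1 hcount
    refine ⟨fun h h' => (h ∈ Z ∧ h ∉ U) ∧ (h' ∈ Z ∧ h' ∉ U), ?_, ?_, ?_, ?_, ?_, ?_, ?_, ?_⟩
    · exact fun h h' hh => hh.1
    · exact fun h h1 h2 => ⟨⟨h1, h2⟩, ⟨h1, h2⟩⟩
    · exact fun h h' hh => ⟨hh.2, hh.1⟩
    · exact fun h h' h'' h1 h2 => ⟨h1.1, h2.2⟩
    · exact fun h => hZc.mono (fun h' hh => hh.2.1)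
    · intro h h1 h2 c hc
      refine ⟨⟨h1, h2⟩, hZ.base hc h1, fun h3 => h2 ?_⟩
      have := hU.n3 c⁻¹ (inv_mem hc) _ h3
      rwa [inv_mul_cancel_left] at this
    · exact fun i h1 h2 h3 m1 m2 m3 u1 u2 u3 _ => Or.inl ⟨⟨m1, u1⟩, ⟨m2, u2⟩⟩
    · exact fun i h1 h2 h3 _ m2 m3 u2 u3 _ => ⟨⟨m2, u2⟩, ⟨m3, u3⟩⟩
  push Not at hcount
  obtain ⟨lo, wo, hord⟩ := exists_ord_eq_type_lt Z
  have hIio : ∀ w : Z, #(Set.Iio w) < #Z := fun w => mk_Iio_lt w hord
  -- the chain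
  let opw : Set G → G → G → Set G := fun N x y => S.op x y ∪ (S.phi U x ∪ {z | S.Cl N ∧ z ∈ S.phi N x})
  have hopw : ∀ N x y, (opw N x y).Countable := by
    intro N x y
    refine (S.op_countable h0 x y).union ((hU.n2 x).union ?_)
    by_cases hN : S.Cl N
    · exact (S.phi_countable hN x).mono (fun z hz => hz.2)
    · exact Set.countable_empty.mono (fun z hz => absurd hz.1 hN)
  obtain ⟨V, hV⟩ := exists_rec (I := Z) (β := Set G) (· < ·) wellFounded_lt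
    (fun w f V => V = clos (opw (⋃ v : {v // v < w}, f v.1 v.2))
      ({(w : G)} ∪ ⋃ v : {v // v < w}, f v.1 v.2)) (fun w f => ⟨_, rfl⟩)
  simp only at hV
  let L : Z → Set G := fun w => ⋃ v : {v // v < w}, V v.1
  have hV' : ∀ w, V w = clos (opw (L w)) ({(w : G)} ∪ L w) := hV
  have hLmem : ∀ w x, x ∈ L w ↔ ∃ v, v < w ∧ x ∈ V v := by
    intro w x
    simp only [L, Set.mem_iUnion, Subtype.exists, exists_prop]
  have hself : ∀ w : Z, (w : G) ∈ V w := by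
    intro w; rw [hV']; exact subset_clos _ _ (Or.inl rfl)
  have hLV : ∀ w, L w ⊆ V w := by
    intro w; rw [hV']; exact fun x hx => subset_clos _ _ (Or.inr hx)
  have hVL : ∀ v w, v < w → V v ⊆ L w := fun v w h x hx => (hLmem w x).2 ⟨v, h, hx⟩
  have hVmono : ∀ v w, v ≤ w → V v ⊆ V w := by
    intro v w h
    rcases h.lt_or_eq with h | h
    · exact (hVL v w h).trans (hLV w)
    · rw [h]
  have hVop : ∀ w, ∀ x ∈ V w, ∀ y ∈ V w, opw (L w) x y ⊆ V w := by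
    intro w; rw [hV']; exact clos_closed _ _
  have hVcl : ∀ w, S.Cl (V w) := fun w x hx y hy =>
    Set.subset_union_left.trans (hVop w x hx y hy)
  have hVphiU : ∀ w, ∀ x ∈ V w, S.phi U x ⊆ V w := fun w x hx z hz =>
    hVop w x hx x hx (Or.inr (Or.inl hz))
  have hLcl : ∀ w, S.Cl (L w) := by
    intro w x hx y hy
    obtain ⟨v1, hv1, hx1⟩ := (hLmem w x).1 hx
    obtain ⟨v2, hv2, hy2⟩ := (hLmem w y).1 hy
    exact (hVcl (max v1 v2) x (hVmono _ _ (le_max_left _ _) hx1) y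
      (hVmono _ _ (le_max_right _ _) hy2)).trans (hVL _ _ (max_lt hv1 hv2))
  have hLphiU : ∀ w, ∀ x ∈ L w, S.phi U x ⊆ L w := by
    intro w x hx
    obtain ⟨v1, hv1, hx1⟩ := (hLmem w x).1 hx
    exact (hVphiU v1 x hx1).trans (hVL _ _ hv1)
  have hVphiL : ∀ w, ∀ x ∈ V w, S.phi (L w) x ⊆ V w := fun w x hx z hz =>
    hVop w x hx x hx (Or.inr (Or.inr ⟨hLcl w, hz⟩))
  have hVZ : ∀ w, V w ⊆ Z := by
    intro w
    induction w using WellFoundedLT.induction with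
    | ind w ihw =>
    have hLZ : L w ⊆ Z := by
      intro x hx
      obtain ⟨v, hv, hx1⟩ := (hLmem w x).1 hx
      exact ihw v hv hx1
    rw [hV']
    refine clos_min ?_ ?_
    · rintro x (hx | hx)
      · rw [Set.mem_singleton_iff.1 hx]; exact w.2
      · exact hLZ hx
    · intro x hx y hy z hz
      rcases hz with hz | hz | hz
      · exact hZ x hx y hy hz
      · exact hUZ x hx hz
      · obtain ⟨_, _, i, hzi, q, hq, hqx⟩ := hz
        have h1 : q ∈ Z := by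
          have := hZ.div (hLZ hqx) hx
          rwa [mul_inv_cancel_right] at this
        exact hZ.q h1 hq hzi
  have hVcard : ∀ w, #(V w) ≤ max ℵ₀ #(Set.Iio w) := by
    intro w
    induction w using WellFoundedLT.induction with
    | ind w ihw =>
    set c := max ℵ₀ #(Set.Iio w) with hcdef
    have hc : ℵ₀ ≤ c := le_max_left _ _
    have hLc : #(L w) ≤ c := by
      refine mk_iUnion_le_of _ hc ?_ ?_
      · exact le_max_right _ _
      · rintro ⟨v, hv⟩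
        refine (ihw v hv).trans ?_
        refine max_le_max le_rfl (mk_le_mk_of_subset ?_)
        exact Set.Iio_subset_Iio hv.le
    rw [hV']
    refine (mk_clos_le (hopw (L w)) _).trans (max_le ?_ hc)
    refine (mk_union_le _ _).trans ?_
    refine (add_le_add ?_ hLc).trans (add_eq_self hc).le
    rw [mk_singleton]
    exact one_le_aleph0.trans hc
  have hVlt : ∀ w, #(V w) < κ := by
    intro w
    refine (hVcard w).trans_lt (max_lt ?_ ?_)
    · rwa [← hκ]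
    · rw [← hκ]; exact hIio w
  have hex : ∀ w, ∃ E, S.Good (U ∪ L w) (V w) E := by
    intro w
    refine ih _ (hVlt w) (U ∪ L w) (V w) (hU.union (hLcl w) (hLphiU w)) (hVcl w) ?_ rfl
    rintro x hx z ⟨hx', i, hz, q, hq, hqx⟩
    rcases hqx with h | h
    · exact hVphiU w x hx ⟨fun h' => hx' (Or.inl h'), i, hz, q, hq, h⟩
    · exact hVphiL w x hx ⟨fun h' => hx' (Or.inr h'), i, hz, q, hq, h⟩
  choose E hE using hex
  have huniq : ∀ w w' h, (h ∈ V w ∧ h ∉ U ∪ L w) → (h ∈ V w' ∧ h ∉ U ∪ L w') → w = w' := by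
    intro w w' h h1 h2
    rcases lt_trichotomy w w' with hlt | heq | hlt
    · exact absurd (Or.inr (hVL _ _ hlt h1.1)) h2.2
    · exact heq
    · exact absurd (Or.inr (hVL _ _ hlt h2.1)) h1.2
  have hmin : ∀ (T : Z → Prop), (∃ w, T w) → ∃ w, T w ∧ ∀ v, v < w → ¬ T v := by
    intro T hT
    obtain ⟨w, hw, hw'⟩ := WellFounded.has_min (wellFounded_lt (α := Z)) {w | T w} hT
    exact ⟨w, hw, fun v hv hTv => hw' v hTv hv⟩
  refine ⟨fun h h' => ∃ w, E w h h', ?_, ?_, ?_, ?_, ?_, ?_, ?_, ?_⟩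
  · rintro h h' ⟨w, hw⟩
    have := (hE w).dom h h' hw
    exact ⟨hVZ w this.1, fun h' => this.2 (Or.inl h')⟩
  · intro h hZ' hU'
    obtain ⟨w, hw, hmin'⟩ := hmin (fun w => h ∈ V w) ⟨⟨h, hZ'⟩, hself ⟨h, hZ'⟩⟩
    refine ⟨w, (hE w).refl h hw ?_⟩
    rintro (h1 | h1)
    · exact hU' h1
    · obtain ⟨v, hv, h2⟩ := (hLmem w h).1 h1
      exact hmin' v hv h2
  · rintro h h' ⟨w, hw⟩
    exact ⟨w, (hE w).symm _ _ hw⟩
  · rintro h h' h'' ⟨w, hw⟩ ⟨w', hw'⟩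
    have h1 := (hE w).dom _ _ ((hE w).symm _ _ hw)
    have h2 := (hE w').dom _ _ hw'
    have h3 := huniq w w' h' h1 h2
    subst h3
    exact ⟨w, (hE w).trans _ _ _ hw hw'⟩
  · intro h
    by_cases hne : ∃ w h', E w h h'
    · obtain ⟨w, h1, hw⟩ := hne
      refine ((hE w).cnt h).mono ?_
      rintro h' ⟨w', hw'⟩
      have := huniq w w' h ((hE w).dom _ _ hw) ((hE w').dom _ _ hw')
      subst this
      exact hw'
    · refine Set.countable_empty.mono ?_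
      rintro h' ⟨w', hw'⟩
      exact hne ⟨w', h', hw'⟩
  · intro h hZ' hU' c hc
    obtain ⟨w, hw, hmin'⟩ := hmin (fun w => h ∈ V w) ⟨⟨h, hZ'⟩, hself ⟨h, hZ'⟩⟩
    refine ⟨w, (hE w).inv h hw ?_ c hc⟩
    rintro (h1 | h1)
    · exact hU' h1
    · obtain ⟨v, hv, h2⟩ := (hLmem w h).1 h1
      exact hmin' v hv h2
  · -- p1
    intro i h1 h2 h3 m1 m2 m3 u1 u2 u3 ht
    obtain ⟨w, hw, hmin'⟩ := hmin
      (fun w => (h1 ∈ V w ∧ h2 ∈ V w) ∨ (h1 ∈ V w ∧ h3 ∈ V w) ∨ (h2 ∈ V w ∧ h3 ∈ V w))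
      ⟨max ⟨h1, m1⟩ ⟨h2, m2⟩, Or.inl ⟨hVmono _ _ (le_max_left _ _) (hself ⟨h1, m1⟩),
        hVmono _ _ (le_max_right _ _) (hself ⟨h2, m2⟩)⟩⟩
    have hall : h1 ∈ V w ∧ h2 ∈ V w ∧ h3 ∈ V w := by
      rcases hw with ⟨a, b⟩ | ⟨a, b⟩ | ⟨a, b⟩
      · exact ⟨a, b, Cl.tri S (hVcl w) a b ht⟩
      · exact ⟨a, Cl.tri S (hVcl w) b a ht.rot, b⟩
      · exact ⟨Cl.tri S (hVcl w) a b ht.rot.rot, a, b⟩
    obtain ⟨w1, w2, w3⟩ := hall
    have hL2 : ∀ a b, a ∈ L w → b ∈ L w → ∃ v, v < w ∧ a ∈ V v ∧ b ∈ V v := by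
      intro a b ha hb
      obtain ⟨v1, hv1, ha1⟩ := (hLmem w a).1 ha
      obtain ⟨v2, hv2, hb2⟩ := (hLmem w b).1 hb
      exact ⟨max v1 v2, max_lt hv1 hv2, hVmono _ _ (le_max_left _ _) ha1,
        hVmono _ _ (le_max_right _ _) hb2⟩
    have n12 : ¬ (h1 ∈ L w ∧ h2 ∈ L w) := by
      rintro ⟨a, b⟩
      obtain ⟨v, hv, ha, hb⟩ := hL2 _ _ a b
      exact hmin' v hv (Or.inl ⟨ha, hb⟩)
    have n13 : ¬ (h1 ∈ L w ∧ h3 ∈ L w) := by
      rintro ⟨a, b⟩
      obtain ⟨v, hv, ha, hb⟩ := hL2 _ _ a b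
      exact hmin' v hv (Or.inr (Or.inl ⟨ha, hb⟩))
    have n23 : ¬ (h2 ∈ L w ∧ h3 ∈ L w) := by
      rintro ⟨a, b⟩
      obtain ⟨v, hv, ha, hb⟩ := hL2 _ _ a b
      exact hmin' v hv (Or.inr (Or.inr ⟨ha, hb⟩))
    by_cases l1 : h1 ∈ L w
    · have l2 : h2 ∉ L w := fun h => n12 ⟨l1, h⟩
      have l3 : h3 ∉ L w := fun h => n13 ⟨l1, h⟩
      have := (hE w).p2 i h1 h2 h3 (Or.inr l1) w2 w3 (by rintro (h | h); exacts [u2 h, l2 h])
        (by rintro (h | h); exacts [u3 h, l3 h]) ht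
      exact Or.inr (Or.inr ⟨w, this⟩)
    by_cases l2 : h2 ∈ L w
    · have l3 : h3 ∉ L w := fun h => n23 ⟨l2, h⟩
      have := (hE w).p2 i h2 h1 h3 (Or.inr l2) w1 w3 (by rintro (h | h); exacts [u1 h, l1 h])
        (by rintro (h | h); exacts [u3 h, l3 h]) ht.swap12
      exact Or.inr (Or.inl ⟨w, this⟩)
    by_cases l3 : h3 ∈ L w
    · have := (hE w).p2 i h3 h1 h2 (Or.inr l3) w1 w2 (by rintro (h | h); exacts [u1 h, l1 h])
        (by rintro (h | h); exacts [u2 h, l2 h]) ht.rot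
      exact Or.inl ⟨w, this⟩
    have := (hE w).p1 i h1 h2 h3 w1 w2 w3 (by rintro (h | h); exacts [u1 h, l1 h])
      (by rintro (h | h); exacts [u2 h, l2 h]) (by rintro (h | h); exacts [u3 h, l3 h]) ht
    rcases this with h | h | h
    · exact Or.inl ⟨w, h⟩
    · exact Or.inr (Or.inl ⟨w, h⟩)
    · exact Or.inr (Or.inr ⟨w, h⟩)
  · -- p2
    intro i h1 h2 h3 m1 m2 m3 u2 u3 ht
    obtain ⟨w, ⟨w2, w3⟩, hmin'⟩ := hmin (fun w => h2 ∈ V w ∧ h3 ∈ V w)
      ⟨max ⟨h2, m2⟩ ⟨h3, m3⟩, ⟨hVmono _ _ (le_max_left _ _) (hself ⟨h2, m2⟩),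
        hVmono _ _ (le_max_right _ _) (hself ⟨h3, m3⟩)⟩⟩
    have key : ∀ a b, a ∈ L w → a ∉ U → h1 * a⁻¹ ∈ S.Q i → b * a⁻¹ ∈ S.Q i → b ∈ L w := by
      intro a b ha hau h1a hba
      have hQ : ∀ z ∈ S.Q i, z ∈ L w := fun z hz =>
        hLphiU w a ha ⟨hau, i, hz, _, h1a, by rwa [inv_mul_cancel_right]⟩
      have := (hLcl w).mul (hQ _ hba) ha
      rwa [inv_mul_cancel_right] at this
    have hboth : ¬ (h2 ∈ L w ∧ h3 ∈ L w) := by
      rintro ⟨ha, hb⟩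
      obtain ⟨v1, hv1, ha1⟩ := (hLmem w _).1 ha
      obtain ⟨v2, hv2, hb2⟩ := (hLmem w _).1 hb
      exact hmin' (max v1 v2) (max_lt hv1 hv2) ⟨hVmono _ _ (le_max_left _ _) ha1,
        hVmono _ _ (le_max_right _ _) hb2⟩
    have l2 : h2 ∉ L w := fun h => hboth ⟨h, key h2 h3 h u2 ht.1 (rel_symm ht.2.2)⟩
    have l3 : h3 ∉ L w := fun h => hboth ⟨key h3 h2 h u3 ht.2.1 ht.2.2, h⟩
    exact ⟨w, (hE w).p2 i h1 h2 h3 (Or.inl m1) w2 w3 (by rintro (h | h); exacts [u2 h, l2 h])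
        (by rintro (h | h); exacts [u3 h, l3 h]) ht⟩

end Sys

end Q22.CS
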