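import Mathlib
import Pool.Agent.Q22.CS

/-! Every infinite group is the product of a countable subset and a small subset: the system and
the final argument. -/

namespace Q22.CS

universe u

open Cardinal Pointwise

/-- The differences attached to a pair of finite sets. -/
def QS {G : Type*} [Group G] (F K : Finset G) : Set G :=
  {x | ∃ v ∈ F, ∃ a ∈ K, ∃ b ∈ K, a ≠ b ∧ v⁻¹ * (a * b⁻¹) * v = x}

theorem QS_finite {G : Type*} [Group G] (F K : Finset G) : (QS F K).Finite := by
  classical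
  refine ((F ×ˢ (K ×ˢ K)).image (fun t => t.1⁻¹ * (t.2.1 * t.2.2⁻¹) * t.1)).finite_toSet.subset ?_
  rintro x ⟨v, hv, a, ha, b, hb, _, rfl⟩
  simp only [Finset.coe_image, Set.mem_image, Finset.mem_coe, Finset.mem_product]
  exact ⟨(v, a, b), ⟨hv, ha, hb⟩, rfl⟩

theorem QS_symm {G : Type*} [Group G] (F K : Finset G) (x : G) (hx : x ∈ QS F K) :
    x⁻¹ ∈ QS F K := by
  obtain ⟨v, hv, a, ha, b, hb, hab, rfl⟩ := hx
  exact ⟨v, hv, b, hb, a, ha, hab.symm, by group⟩

theorem mk_closure_le {G : Type u} [Group G] (s : Set G) (hs : s.Nonempty) :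
    #(Subgroup.closure s) ≤ max #s ℵ₀ := by
  have : Nonempty s := hs.to_subtype
  have h1 : (FreeGroup.lift (Subtype.val : s → G)).range = Subgroup.closure s := by
    rw [FreeGroup.range_lift_eq_closure, Subtype.range_coe]
  rw [← h1, ← mk_freeGroup]
  exact mk_range_le (f := FreeGroup.lift (Subtype.val : s → G))

/-- A finite set whose differences avoid a small symmetric set. -/
theorem exists_avoid {G : Type u} [Group G] (B : Set G) (hB : #B < #G) (hG : ℵ₀ < #G)
    (hsymm : ∀ x ∈ B, x⁻¹ ∈ B) (n : ℕ) :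
    ∃ K : Finset G, K.card = n ∧ ∀ a ∈ K, ∀ b ∈ K, a ≠ b → a * b⁻¹ ∉ B := by
  classical
  induction n with
  | zero => exact ⟨∅, rfl, fun a ha => absurd ha (Finset.notMem_empty _)⟩
  | succ n ih =>
    obtain ⟨K, hK, hKB⟩ := ih
    set T : Set G := (K : Set G) ∪ ⋃ b ∈ (K : Set G), (fun x => x * b) '' B with hT
    have hTlt : #T < #G := by
      have h1 : #T ≤ max ℵ₀ #B := by
        refine (mk_union_le _ _).trans ?_
        refine (add_le_add ?_ ?_).trans (add_eq_self (le_max_left _ _)).le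
        · exact ((finset_card_lt_aleph0 K).le).trans (le_max_left _ _)
        · refine mk_biUnion_le_of _ _ (le_max_left _ _)
            (((finset_card_lt_aleph0 K).le).trans (le_max_left _ _)) ?_
          intro b _
          exact mk_image_le.trans (le_max_right _ _)
      exact h1.trans_lt (max_lt hG hB)
    obtain ⟨x, hx⟩ : ∃ x, x ∉ T := by
      by_contra hall
      push Not at hall
      have : T = Set.univ := Set.eq_univ_of_forall hall
      rw [this, mk_univ] at hTlt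
      exact lt_irrefl _ hTlt
    have hxK : x ∉ K := fun h => hx (Or.inl h)
    have hxB : ∀ b ∈ K, x * b⁻¹ ∉ B := fun b hb h => hx (Or.inr
      (Set.mem_iUnion₂.2 ⟨b, hb, _, h, inv_mul_cancel_right x b⟩))
    refine ⟨insert x K, by rw [Finset.card_insert_of_notMem hxK, hK], ?_⟩
    intro a ha b hb hab
    rcases Finset.mem_insert.1 ha with ha' | ha'
    · rcases Finset.mem_insert.1 hb with hb' | hb'
      · exact absurd (ha'.trans hb'.symm) hab
      · rw [ha']
        exact hxB b hb'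
    · rcases Finset.mem_insert.1 hb with hb' | hb'
      · intro h
        refine hxB a ha' ?_
        have := hsymm _ h
        rwa [show (a * b⁻¹)⁻¹ = b * a⁻¹ by group, hb'] at this
      · exact hKB a ha' b hb' hab

/-- The system used for an uncountable group. -/
theorem exists_sys {G : Type u} [Group G] (hG : ℵ₀ < #G) (G0 : Subgroup G)
    (h0 : (G0 : Set G).Countable) :
    ∃ (I : Type u) (_ : LinearOrder I) (S : Sys G I G0),
      ∀ F : Finset G, ∃ (K : Finset G) (i : I), K.card = 2 * F.card + 1 ∧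
        ∀ v ∈ F, ∀ a ∈ K, ∀ b ∈ K, a ≠ b → v⁻¹ * (a * b⁻¹) * v ∈ S.Q i := by
  classical
  have : Infinite G := infinite_iff.2 hG.le
  obtain ⟨lo, wo, hord⟩ := exists_ord_eq_type_lt G
  have hIio : ∀ w : G, #(Set.Iio w) < #G := fun w => mk_Iio_lt w hord
  obtain ⟨e⟩ : Nonempty (G ≃ Finset G) := Cardinal.eq.1 (mk_finset_of_infinite G).symm
  obtain ⟨K, hK⟩ := exists_rec (I := G) (β := Finset G) (· < ·) wellFounded_lt
    (fun i f K => K.card = 2 * (e i).card + 1 ∧ ∀ v ∈ e i, ∀ a ∈ K, ∀ b ∈ K, a ≠ b →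
      v⁻¹ * (a * b⁻¹) * v ∉ Subgroup.closure
        ((G0 : Set G) ∪ ⋃ j : {j // j < i}, QS (e j.1) (f j.1 j.2))) (by
    intro i f
    set A := Subgroup.closure ((G0 : Set G) ∪ ⋃ j : {j // j < i}, QS (e j.1) (f j.1 j.2)) with hA
    have hAlt : #A < #G := by
      refine (mk_closure_le ((G0 : Set G) ∪ ⋃ j : {j // j < i}, QS (e j.1) (f j.1 j.2))
        ⟨(1 : G), Or.inl (one_mem G0)⟩).trans_lt (max_lt ?_ hG)
      set c := max ℵ₀ #(Set.Iio i) with hc
      have h1 : ℵ₀ ≤ c := le_max_left _ _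
      refine lt_of_le_of_lt (b := c) ?_ (max_lt hG (hIio i))
      refine (mk_union_le _ _).trans ?_
      refine (add_le_add ?_ ?_).trans (add_eq_self h1).le
      · exact h0.le_aleph0.trans h1
      · refine mk_iUnion_le_of _ h1 (le_max_right _ _) ?_
        intro j
        exact (QS_finite _ _).countable.le_aleph0.trans h1
    set B : Set G := ⋃ v ∈ ((e i : Finset G) : Set G), (fun x => v * x * v⁻¹) '' (A : Set G) with hB
    have hBlt : #B < #G := by
      refine lt_of_le_of_lt (b := max ℵ₀ #A) ?_ (max_lt hG hAlt)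
      refine mk_biUnion_le_of _ _ (le_max_left _ _)
        (((finset_card_lt_aleph0 _).le).trans (le_max_left _ _)) ?_
      intro b _
      exact mk_image_le.trans (le_max_right _ _)
    obtain ⟨K, hK, hKB⟩ := exists_avoid B hBlt hG (by
      intro x hx
      obtain ⟨v, hv, y, hy, rfl⟩ := Set.mem_iUnion₂.1 hx
      refine Set.mem_iUnion₂.2 ⟨v, hv, y⁻¹, inv_mem hy, ?_⟩
      show v * y⁻¹ * v⁻¹ = (v * y * v⁻¹)⁻¹
      group) (2 * (e i).card + 1)
    refine ⟨K, hK, ?_⟩
    intro v hv a ha b hb hab hmem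
    refine hKB a ha b hb hab (Set.mem_iUnion₂.2 ⟨v, hv, _, hmem, ?_⟩)
    show v * (v⁻¹ * (a * b⁻¹) * v) * v⁻¹ = a * b⁻¹
    group)
  refine ⟨G, lo, ⟨fun i => QS (e i) (K i), fun i => QS_finite _ _, fun i => QS_symm _ _, ?_⟩, ?_⟩
  · rintro i x ⟨v, hv, a, ha, b, hb, hab, rfl⟩
    exact (hK i).2 v hv a ha b hb hab
  · intro F
    refine ⟨K (e.symm F), e.symm F, ?_, ?_⟩
    · have := (hK (e.symm F)).1
      rwa [Equiv.apply_symm_apply] at this
    · intro v hv a ha b hb hab
      exact ⟨v, by rwa [Equiv.apply_symm_apply], a, ha, b, hb, hab, rfl⟩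

/-- An infinite group has a countably infinite subgroup. -/
theorem exists_countable_subgroup (G : Type u) [Group G] [Infinite G] :
    ∃ G0 : Subgroup G, (G0 : Set G).Countable ∧ (G0 : Set G).Infinite := by
  obtain ⟨f⟩ : Nonempty (ℕ ↪ G) := ⟨Infinite.natEmbedding G⟩
  refine ⟨Subgroup.closure (Set.range f), ?_, ?_⟩
  · have h1 : #(Subgroup.closure (Set.range f)) ≤ ℵ₀ := by
      refine (mk_closure_le _ (Set.range_nonempty f)).trans (max_le ?_ le_rfl)
      exact (Set.countable_range f).le_aleph0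
    exact le_aleph0_iff_set_countable.1 h1
  · exact (Set.infinite_range_of_injective f.injective).mono Subgroup.subset_closure

/-- The sparse choice on a countable set. -/
theorem exists_sparse {G : Type u} [Group G] {I : Type u} [LinearOrder I] {G0 : Subgroup G}
    (S : Sys G I G0) (hinf : (G0 : Set G).Infinite) (D : Set G) (hD : D.Countable) :
    ∃ T : Set G, (∀ t ∈ T, ∃ c ∈ G0, ∃ d ∈ D, c * d = t) ∧ (∀ d ∈ D, ∃ c ∈ G0, c * d ∈ T) ∧
      ∀ s ∈ T, ∀ t ∈ T, s ≠ t → ∀ i, s * t⁻¹ ∉ S.Q i := by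
  rcases D.eq_empty_or_nonempty with rfl | hne
  · exact ⟨∅, fun t ht => absurd ht (Set.notMem_empty _), fun t ht => absurd ht (Set.notMem_empty _),
      fun t ht => absurd ht (Set.notMem_empty _)⟩
  obtain ⟨y, rfl⟩ := hD.exists_eq_range hne
  obtain ⟨c, hc⟩ := exists_rec (I := ℕ) (β := G) (· < ·) wellFounded_lt
    (fun n f c => c ∈ G0 ∧ ∀ m, ∀ h : m < n, ∀ i, (c * y n) * (f m h * y m)⁻¹ ∉ S.Q i) (by
    intro n f
    have hfin : (⋃ m : Fin n, {c : G | c ∈ G0 ∧ ∃ i, c * (y n * (f m.1 m.2 * y m.1)⁻¹) ∈ S.Q i}).Finite :=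
      Set.finite_iUnion fun m => S.finite_coset _
    obtain ⟨c, hc, hc'⟩ := (hinf.sdiff hfin).nonempty
    refine ⟨c, hc, ?_⟩
    intro m h i hi
    refine hc' (Set.mem_iUnion.2 ⟨⟨m, h⟩, hc, i, ?_⟩)
    rwa [← mul_assoc])
  refine ⟨Set.range (fun n => c n * y n), ?_, ?_, ?_⟩
  · rintro t ⟨n, rfl⟩
    exact ⟨c n, (hc n).1, y n, ⟨n, rfl⟩, rfl⟩
  · rintro d ⟨n, rfl⟩
    exact ⟨c n, (hc n).1, n, rfl⟩
  · rintro s ⟨n, rfl⟩ t ⟨m, rfl⟩ hst i
    rcases lt_trichotomy n m with h | h | h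
    · intro hi
      exact (hc m).2 n h i (Sys.rel_symm hi)
    · exact absurd (by rw [h]) hst
    · exact (hc n).2 m h i

theorem main (G : Type u) [Group G] [Infinite G] :
    ∃ C A : Set G, C.Countable ∧ IsSmall A ∧ C * A = Set.univ := by
  classical
  by_cases hG : #G ≤ ℵ₀
  · -- countable groups
    have : Countable G := mk_le_aleph0_iff.1 hG
    refine ⟨Set.univ, {1}, Set.countable_univ, ?_, by simp⟩
    apply isSmall_of_not_prethick
    rintro ⟨F, hF, ht⟩
    have hfin : (F * {1} : Set G).Finite := hF.mul (Set.finite_singleton 1)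
    obtain ⟨K, hKc⟩ := Infinite.exists_subset_card_eq G (hfin.toFinset.card + 1)
    obtain ⟨g, hg⟩ := ht (K : Set G) K.finite_toSet
    have h1 : (K.image (fun x => x * g)) ⊆ hfin.toFinset := by
      intro z hz
      obtain ⟨x, hx, rfl⟩ := Finset.mem_image.1 hz
      exact hfin.mem_toFinset.2 (hg x hx)
    have h2 := Finset.card_le_card h1
    rw [Finset.card_image_of_injective _ (mul_left_injective g), hKc] at h2
    omega
  push Not at hG
  obtain ⟨G0, h0, hinf⟩ := exists_countable_subgroup G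
  obtain ⟨I, _, S, hS⟩ := exists_sys hG G0 h0
  obtain ⟨E, hE⟩ := S.exists_good h0 #(Set.univ : Set G) ∅ Set.univ S.nice_empty
    (fun _ _ _ _ => Set.subset_univ _) (fun _ _ => Set.subset_univ _) rfl
  have hne : ∀ x : G, x ∉ (∅ : Set G) := fun x => Set.notMem_empty x
  let st : Setoid G := ⟨E, fun x => hE.refl x trivial (hne x), fun h => hE.symm _ _ h,
    fun h h' => hE.trans _ _ _ h h'⟩
  have hsp := fun x : G => exists_sparse S hinf {y | E x y} (hE.cnt x)
  choose T hT1 hT2 hT3 using hsp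
  -- one choice for every class
  let T' : G → Set G := fun x => T (Quotient.out (Quotient.mk st x))
  have hout : ∀ x, E (Quotient.out (Quotient.mk st x)) x := fun x => Quotient.mk_out (s := st) x
  have hT'eq : ∀ x y, E x y → T' x = T' y := by
    intro x y h
    show T (Quotient.out (Quotient.mk st x)) = T (Quotient.out (Quotient.mk st y))
    rw [Quotient.sound (s := st) h]
  have hTcls : ∀ x t, t ∈ T' x → E x t := by
    intro x t ht
    obtain ⟨c, hc, d, hd, rfl⟩ := hT1 _ t ht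
    have h1 : E x d := hE.trans _ _ _ (hE.symm _ _ (hout x)) hd
    exact hE.trans _ _ _ h1 (hE.inv d trivial (hne d) c hc)
  refine ⟨(G0 : Set G), {t | t ∈ T' t}, h0, ?_, ?_⟩
  · apply isSmall_of_not_prethick
    rintro ⟨F, hF, ht⟩
    obtain ⟨K, i, hK, hKQ⟩ := hS hF.toFinset
    obtain ⟨g, hg⟩ := ht (K : Set G) K.finite_toSet
    have h1 : ∀ k : K, ∃ v : hF.toFinset, (v : G)⁻¹ * (k * g) ∈ {t | t ∈ T' t} := by
      rintro ⟨k, hk⟩
      obtain ⟨v, hv, s, hs, hvs⟩ := Set.mem_mul.1 (hg k hk)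
      refine ⟨⟨v, hF.mem_toFinset.2 hv⟩, ?_⟩
      rwa [← hvs, inv_mul_cancel_left]
    choose v hv using h1
    obtain ⟨v0, hv0⟩ := Fintype.exists_lt_card_fiber_of_mul_lt_card (f := v) (n := 2) (by
      rw [Fintype.card_coe, Fintype.card_coe, hK]; omega)
    obtain ⟨a, b, c, ha, hb, hc, hab, hac, hbc⟩ := Finset.two_lt_card_iff.1 hv0
    simp only [Finset.mem_filter, Finset.mem_univ, true_and] at ha hb hc
    have hmem : ∀ k : K, v k = v0 → (v0 : G)⁻¹ * (k * g) ∈ {t | t ∈ T' t} := by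
      intro k hk
      have := hv k
      rwa [hk] at this
    have hrel : ∀ k l : K, k ≠ l → ((v0 : G)⁻¹ * (k * g)) * ((v0 : G)⁻¹ * (l * g))⁻¹ ∈ S.Q i := by
      intro k l hkl
      have := hKQ v0 v0.2 k k.2 l l.2 (fun h => hkl (Subtype.ext h))
      rwa [show ((v0 : G)⁻¹ * (k * g)) * ((v0 : G)⁻¹ * (l * g))⁻¹ =
        (v0 : G)⁻¹ * ((k : G) * (l : G)⁻¹) * v0 by group]
    have hcontra : ∀ k l : K, k ≠ l → v k = v0 → v l = v0 →
        ¬ E ((v0 : G)⁻¹ * (k * g)) ((v0 : G)⁻¹ * (l * g)) := by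
      intro k l hkl hk hl hEkl
      have m1 := hmem k hk
      have m2 := hmem l hl
      have m2' : (v0 : G)⁻¹ * (l * g) ∈ T' ((v0 : G)⁻¹ * (k * g)) := by
        rw [hT'eq _ _ hEkl]; exact m2
      refine hT3 _ _ m1 _ m2' ?_ i (hrel k l hkl)
      intro heq
      apply hkl
      apply Subtype.ext
      exact mul_right_cancel (mul_left_cancel heq)
    have htri : S.Tri i ((v0 : G)⁻¹ * (a * g)) ((v0 : G)⁻¹ * (b * g)) ((v0 : G)⁻¹ * (c * g)) :=
      ⟨hrel a b hab, hrel a c hac, hrel b c hbc⟩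
    rcases hE.p1 i _ _ _ trivial trivial trivial (hne _) (hne _) (hne _) htri with h | h | h
    · exact hcontra a b hab ha hb h
    · exact hcontra a c hac ha hc h
    · exact hcontra b c hbc hb hc h
  · rw [Set.eq_univ_iff_forall]
    intro g
    obtain ⟨c, hc, hcg⟩ := hT2 _ g (hout g)
    refine Set.mem_mul.2 ⟨c⁻¹, inv_mem hc, c * g, ?_, inv_mul_cancel_left _ _⟩
    have h1 : E g (c * g) := hE.inv g trivial (hne g) c hc
    show c * g ∈ T' (c * g)
    rw [← hT'eq _ _ h1]
    exact hcg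

end Q22.CS
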