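import Mathlib

/-! Ingredients for a transitive p-group of finitary permutations with no transitive subgroup
having the cyclic-block property. -/

namespace Q22.CycBlock

open MulAction

section Commutator

/-- Maximal subgroups of finite `p`-groups contain all commutators. -/
theorem comm_mem_of_isCoatom {P : Type*} [Group P] [Finite P] {p : ℕ} [Fact p.Prime]
    (hP : IsPGroup p P) (L : Subgroup P) (hL : IsCoatom L) (x y : P) :
    x * y * x⁻¹ * y⁻¹ ∈ L := by
  have hnil : Group.IsNilpotent P := hP.isNilpotent
  have hnorm : L.Normal :=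
    Subgroup.NormalizerCondition.normal_of_coatom L Group.normalizerCondition_of_isNilpotent hL
  have hne : L ≠ ⊤ := hL.1
  have hnt : Nontrivial (P ⧸ L) := QuotientGroup.nontrivial_iff.mpr hne
  have hZ : Nontrivial (Subgroup.center (P ⧸ L)) := (hP.to_quotient L).center_nontrivial
  have hC : (Subgroup.center (P ⧸ L)).comap (QuotientGroup.mk' L) = ⊤ := by
    apply hL.2
    refine lt_of_le_of_ne ?_ ?_
    · intro z hz
      rw [Subgroup.mem_comap]
      have : QuotientGroup.mk' L z = 1 := (QuotientGroup.eq_one_iff z).mpr hz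
      rw [this]; exact Subgroup.one_mem _
    · intro he
      obtain ⟨⟨c, hc⟩, hc1⟩ := exists_ne (1 : Subgroup.center (P ⧸ L))
      obtain ⟨z, rfl⟩ := QuotientGroup.mk'_surjective L c
      apply hc1
      have : z ∈ L := by rw [he]; exact hc
      exact Subtype.ext ((QuotientGroup.eq_one_iff z).mpr this)
  have hx : QuotientGroup.mk' L x ∈ Subgroup.center (P ⧸ L) := by
    have : x ∈ (Subgroup.center (P ⧸ L)).comap (QuotientGroup.mk' L) := by rw [hC]; trivial
    exact this
  rw [Subgroup.mem_center_iff] at hx
  rw [← QuotientGroup.eq_one_iff]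
  have h1 := hx (QuotientGroup.mk' L y)
  show QuotientGroup.mk' L (x * y * x⁻¹ * y⁻¹) = 1
  simp only [map_mul, map_inv]
  rw [← h1]
  group

end Commutator

section Wreath

variable (p : ℕ) [hp : Fact p.Prime]

/-- The wreath product of cyclic groups of orders `p` and `p ^ 2`. -/
abbrev W : Type := RegularWreathProduct (Multiplicative (ZMod p)) (Multiplicative (ZMod (p ^ 2)))

/-- The top generator. -/
def x : W p := ⟨1, Multiplicative.ofAdd 1⟩
/-- The base generator. -/
noncomputable def v : W p := ⟨Pi.mulSingle 1 (Multiplicative.ofAdd 1), 1⟩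
/-- A commutator. -/
noncomputable def a : W p := x p * v p * (x p)⁻¹ * (v p)⁻¹
/-- A top element of order `p`. -/
def t : W p := ⟨1, Multiplicative.ofAdd (p : ZMod (p ^ 2))⟩

instance : NeZero (p ^ 2) := ⟨pow_ne_zero 2 hp.out.ne_zero⟩

theorem finite_W : Finite (W p) := inferInstance

theorem isPGroup_W : IsPGroup p (W p) := by
  apply IsPGroup.of_card (n := p ^ 2 + 2)
  rw [RegularWreathProduct.card]
  simp [Nat.card_eq_fintype_card, ZMod.card, pow_add]

theorem a_right : (a p).right = 1 := by simp [a, x, v]

theorem p_ne_zero : (p : ZMod (p ^ 2)) ≠ 0 := by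
  rw [Ne, ZMod.natCast_eq_zero_iff]
  intro h
  have h1 := Nat.le_of_dvd hp.out.pos h
  have h2 := hp.out.one_lt
  nlinarith

theorem p_ne_neg_one : (p : ZMod (p ^ 2)) ≠ -1 := by
  intro h
  have h1 : ((p + 1 : ℕ) : ZMod (p ^ 2)) = 0 := by
    push_cast; rw [h]; ring
  rw [ZMod.natCast_eq_zero_iff] at h1
  have h2 := Nat.le_of_dvd (Nat.succ_pos p) h1
  have h3 := hp.out.two_le
  nlinarith

theorem one_ne : (1 : ZMod (p ^ 2)) ≠ 0 := by
  have h2 := hp.out.two_le
  have : Fact (1 < p ^ 2) := ⟨by nlinarith⟩
  exact one_ne_zero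

theorem a_left (y : Multiplicative (ZMod (p ^ 2))) :
    (a p).left y = (Pi.mulSingle (M := fun _ => Multiplicative (ZMod p)) 1
        (Multiplicative.ofAdd (1 : ZMod p)) (Multiplicative.ofAdd (-1) * y)) *
      (Pi.mulSingle (M := fun _ => Multiplicative (ZMod p)) 1
        (Multiplicative.ofAdd (1 : ZMod p)) y)⁻¹ := by
  simp [a, x, v]

theorem zpowers_aux (b : W p) (hb : b ∈ Subgroup.zpowers (a p)) :
    b.right = 1 ∧ b.left (Multiplicative.ofAdd (-(p : ZMod (p ^ 2)))) = 1 := by
  let K : Subgroup (W p) :=
    { carrier := {b | b.right = 1 ∧ b.left (Multiplicative.ofAdd (-(p : ZMod (p ^ 2)))) = 1}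
      one_mem' := by simp
      mul_mem' := by
        rintro b c ⟨hb, hb'⟩ ⟨hc, hc'⟩
        refine ⟨by simp [hb, hc], ?_⟩
        rw [RegularWreathProduct.mul_left, Pi.mul_apply, hb', hb]
        simpa using hc'
      inv_mem' := by
        rintro b ⟨hb, hb'⟩
        refine ⟨by simp [hb], ?_⟩
        rw [RegularWreathProduct.inv_left]
        simp only [hb, one_mul, Pi.inv_apply, hb', inv_one] }
  have hK : Subgroup.zpowers (a p) ≤ K := by
    rw [Subgroup.zpowers_le]
    refine ⟨a_right p, ?_⟩
    rw [a_left]
    have h1 : Multiplicative.ofAdd (-(p : ZMod (p ^ 2))) ≠ 1 := by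
      intro h
      have : -(p : ZMod (p ^ 2)) = 0 := h
      exact p_ne_zero p (neg_eq_zero.mp this)
    have h2 : Multiplicative.ofAdd (-1 : ZMod (p ^ 2)) *
        Multiplicative.ofAdd (-(p : ZMod (p ^ 2))) ≠ 1 := by
      intro h
      have : (-1 : ZMod (p ^ 2)) + -(p : ZMod (p ^ 2)) = 0 := h
      exact p_ne_neg_one p (by linear_combination -this)
    rw [Pi.mulSingle_eq_of_ne h1, Pi.mulSingle_eq_of_ne h2]
    simp
  exact hK hb

/-- The cyclic group `⟨t⟩` does not permute with `⟨a⟩`. -/
theorem not_comm (k : ℤ) : (t p ^ k)⁻¹ * (a p * t p) ∉ Subgroup.zpowers (a p) := by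
  intro h
  obtain ⟨hr, hl⟩ := zpowers_aux p _ h
  have hr' : (t p ^ k).right = (t p).right := by
    have : (t p ^ k)⁻¹.right * ((a p).right * (t p).right) = 1 := hr
    rw [a_right, one_mul, RegularWreathProduct.inv_right, inv_mul_eq_one] at this
    exact this
  have htl : (t p ^ k).left = 1 := by
    let K : Subgroup (W p) :=
      { carrier := {b | b.left = 1}
        one_mem' := by simp
        mul_mem' := by
          intro b c hb hc
          have hb' : b.left = 1 := hb
          have hc' : c.left = 1 := hc
          show (b * c).left = 1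
          rw [RegularWreathProduct.mul_left, hb', hc']
          ext y; simp
        inv_mem' := by
          intro b hb
          have hb' : b.left = 1 := hb
          show (b⁻¹).left = 1
          rw [RegularWreathProduct.inv_left, hb']
          ext y; simp }
    exact K.zpow_mem (show t p ∈ K from rfl) k
  have htk : t p ^ k = t p := RegularWreathProduct.ext (by rw [htl]; rfl) hr'
  rw [htk] at hl
  have h1 : ((t p)⁻¹ * (a p * t p)).left (Multiplicative.ofAdd (-(p : ZMod (p ^ 2)))) =
      (a p).left 1 := by
    simp only [RegularWreathProduct.mul_left, RegularWreathProduct.inv_left, t, Pi.mul_apply,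
      RegularWreathProduct.inv_right, inv_inv]
    have e : Multiplicative.ofAdd (p : ZMod (p ^ 2)) *
        Multiplicative.ofAdd (-(p : ZMod (p ^ 2))) = 1 := by
      rw [← ofAdd_add]; simp
    rw [e]
    simp
  rw [h1, a_left] at hl
  have h2 : Multiplicative.ofAdd (-1 : ZMod (p ^ 2)) * 1 ≠ 1 := by
    intro h
    have : (-1 : ZMod (p ^ 2)) + 0 = 0 := h
    apply one_ne p
    linear_combination -this
  rw [Pi.mulSingle_eq_of_ne h2, Pi.mulSingle_eq_same, one_mul, inv_eq_one] at hl
  have : (1 : ZMod p) = 0 := hl
  exact one_ne_zero this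

end Wreath

section Tree

variable (p : ℕ)

/-- Finitary permutations of the finitely supported sequences over `ZMod p` that act on each
coordinate by a shift depending only on the higher coordinates. -/
def T : Subgroup (Equiv.Perm (ℕ →₀ ZMod p)) where
  carrier := {g | {x | g x ≠ x}.Finite ∧ (∀ n x y, (∀ m, n ≤ m → x m = y m) →
    ∀ m, n ≤ m → g x m = g y m) ∧
    (∀ n x y, (∀ m, n < m → x m = y m) → g x n - x n = g y n - y n)}
  one_mem' := by
    refine ⟨by simp, ?_, ?_⟩
    · intro n x y h m hm; exact h m hm
    · intro n x y _; simp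
  mul_mem' := by
    rintro g h ⟨hg1, hg2, hg3⟩ ⟨hh1, hh2, hh3⟩
    refine ⟨?_, ?_, ?_⟩
    · refine (hg1.union hh1).subset ?_
      intro x hx
      by_contra hn
      simp only [Set.mem_union, Set.mem_ofPred_eq, not_or, not_not] at hn
      exact hx (by rw [Equiv.Perm.mul_apply, hn.2, hn.1])
    · intro n x y hxy
      exact hg2 n _ _ (hh2 n x y hxy)
    · intro n x y hxy
      have h1 := hg3 n (h x) (h y) (fun m hm => hh2 (n + 1) x y (fun m hm => hxy m hm) m hm)
      have h2 := hh3 n x y hxy
      rw [Equiv.Perm.mul_apply, Equiv.Perm.mul_apply]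
      linear_combination h1 + h2
  inv_mem' := by
    rintro g ⟨hg1, hg2, hg3⟩
    have key : ∀ n x y, (∀ m, n ≤ m → x m = y m) → ∀ m, n ≤ m → g⁻¹ x m = g⁻¹ y m := by
      -- descending induction on the coordinate is replaced by a support bound
      intro n x y hxy
      obtain ⟨M, hM⟩ : ∃ M, ∀ m, M ≤ m → (g⁻¹ x) m = 0 ∧ (g⁻¹ y) m = 0 := by
        refine ⟨((g⁻¹ x).support ∪ (g⁻¹ y).support).sup id + 1, fun m hm => ?_⟩
        constructor
        · by_contra hne
          have := Finset.le_sup (f := id) (Finset.mem_union_left (g⁻¹ y).support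
            (Finsupp.mem_support_iff.mpr hne))
          simp only [id] at this
          omega
        · by_contra hne
          have := Finset.le_sup (f := id) (Finset.mem_union_right (g⁻¹ x).support
            (Finsupp.mem_support_iff.mpr hne))
          simp only [id] at this
          omega
      have hind : ∀ j m, n ≤ m → M ≤ m + j → g⁻¹ x m = g⁻¹ y m := by
        intro j
        induction j with
        | zero => intro m _ hm; rw [(hM m (by omega)).1, (hM m (by omega)).2]
        | succ j ih =>
          intro m hm hj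
          have h1 := hg3 m (g⁻¹ x) (g⁻¹ y) (fun m' hm' => ih m' (by omega) (by omega))
          rw [show g (g⁻¹ x) = x from g.apply_symm_apply x, show g (g⁻¹ y) = y from g.apply_symm_apply y, hxy m hm] at h1
          exact sub_right_injective h1
      intro m hm
      exact hind M m hm (by omega)
    refine ⟨?_, key, ?_⟩
    · refine hg1.subset ?_
      intro x hx hgx
      exact hx (by rw [Equiv.Perm.inv_eq_iff_eq]; exact hgx.symm)
    · intro n x y hxy
      have h1 := hg3 n (g⁻¹ x) (g⁻¹ y) (fun m hm => key (n + 1) x y (fun m hm => hxy m hm) m hm)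
      rw [show g (g⁻¹ x) = x from g.apply_symm_apply x, show g (g⁻¹ y) = y from g.apply_symm_apply y] at h1
      linear_combination -h1

theorem T_isPGroup [hp : Fact p.Prime] (g : Equiv.Perm (ℕ →₀ ZMod p)) (hg : g ∈ T p) :
    ∃ k, g ^ p ^ k = 1 := by
  obtain ⟨hg1, hg2, hg3⟩ := hg
  obtain ⟨N, hN⟩ : ∃ N, ∀ x, g x ≠ x → ∀ m, N ≤ m → x m = 0 ∧ g x m = 0 := by
    refine ⟨(hg1.toFinset.sup fun x => (x.support ∪ (g x).support).sup id) + 1, ?_⟩
    intro x hx m hm
    have h0 : (x.support ∪ (g x).support).sup id ≤
        hg1.toFinset.sup fun x => (x.support ∪ (g x).support).sup id :=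
      Finset.le_sup (f := fun x : ℕ →₀ ZMod p => (x.support ∪ (g x).support).sup id)
        (hg1.mem_toFinset.mpr hx)
    constructor
    · by_contra hne
      have := Finset.le_sup (f := id) (Finset.mem_union_left (g x).support
        (Finsupp.mem_support_iff.mpr hne))
      simp only [id] at this
      omega
    · by_contra hne
      have := Finset.le_sup (f := id) (Finset.mem_union_right x.support
        (Finsupp.mem_support_iff.mpr hne))
      simp only [id] at this
      omega
  have hpre : ∀ j, j ≤ N → ∀ x m, N - j ≤ m → (g ^ p ^ j) x m = x m := by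
    intro j
    induction j with
    | zero =>
      intro _ x m hm
      rw [pow_zero, pow_one]
      by_cases hx : g x = x
      · rw [hx]
      · rw [(hN x hx m (by omega)).1, (hN x hx m (by omega)).2]
    | succ j ih =>
      intro hj x m hm
      set h := g ^ p ^ j with hh
      have hhT : h ∈ T p := (T p).pow_mem ⟨hg1, hg2, hg3⟩ _
      obtain ⟨_, hh2, hh3⟩ := hhT
      have hih := ih (by omega)
      rw [pow_succ, pow_mul, ← hh]
      -- iterate
      have hit : ∀ n, ∀ m', N - j ≤ m' → (h ^ n) x m' = x m' := by
        intro n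
        induction n with
        | zero => intro m' _; rfl
        | succ n ihn =>
          intro m' hm'
          rw [pow_succ', Equiv.Perm.mul_apply, hih _ m' hm', ihn m' hm']
      by_cases hm' : N - j ≤ m
      · exact hit p m hm'
      · have hmN : m = N - (j + 1) := by omega
        have hit2 : ∀ n : ℕ, (h ^ n) x m = x m + n * (h x m - x m) := by
          intro n
          induction n with
          | zero => simp
          | succ n ihn =>
            rw [pow_succ', Equiv.Perm.mul_apply]
            have h1 := hh3 m ((h ^ n) x) x (fun m' hm' => hit n m' (by omega))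
            push_cast
            linear_combination h1 + ihn
        rw [hit2 p]
        simp
  refine ⟨N, ?_⟩
  ext x m
  exact hpre N le_rfl x m (by omega)

/-- Local translations. -/
theorem T_trans (x y : ℕ →₀ ZMod p) [NeZero p] : ∃ g ∈ T p, g x = y := by
  classical
  obtain ⟨N, hN⟩ : ∃ N, ∀ m, N ≤ m → x m = 0 ∧ y m = 0 := by
    refine ⟨(x.support ∪ y.support).sup id + 1, fun m hm => ?_⟩
    constructor
    · by_contra hne
      have := Finset.le_sup (f := id) (Finset.mem_union_left y.support
        (Finsupp.mem_support_iff.mpr hne))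
      simp only [id] at this
      omega
    · by_contra hne
      have := Finset.le_sup (f := id) (Finset.mem_union_right x.support
        (Finsupp.mem_support_iff.mpr hne))
      simp only [id] at this
      omega
  let d := y - x
  have hd : ∀ m, N ≤ m → d m = 0 := fun m hm => by
    show (y - x) m = 0
    rw [Finsupp.sub_apply, (hN m hm).1, (hN m hm).2, sub_zero]
  let Z : (ℕ →₀ ZMod p) → Prop := fun z => ∀ m, N ≤ m → z m = 0
  let f : (ℕ →₀ ZMod p) → (ℕ →₀ ZMod p) := fun z => if Z z then z + d else z
  let f' : (ℕ →₀ ZMod p) → (ℕ →₀ ZMod p) := fun z => if Z z then z - d else z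
  have hZ1 : ∀ z, Z (z + d) ↔ Z z := fun z => by
    constructor
    · intro h m hm
      have := h m hm
      rw [Finsupp.add_apply, hd m hm, add_zero] at this
      exact this
    · intro h m hm
      rw [Finsupp.add_apply, hd m hm, add_zero, h m hm]
  have hZ2 : ∀ z, Z (z - d) ↔ Z z := fun z => by
    rw [← hZ1 (z - d), sub_add_cancel]
  have hff' : ∀ z, f' (f z) = z := by
    intro z
    by_cases hz : Z z
    · simp [f, f', hz, hZ1]
    · simp [f, f', hz]
  have hf'f : ∀ z, f (f' z) = z := by
    intro z
    by_cases hz : Z z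
    · simp [f, f', hz, hZ2]
    · simp [f, f', hz]
  let g : Equiv.Perm (ℕ →₀ ZMod p) := ⟨f, f', hff', hf'f⟩
  have hgn : ∀ z m, g z m = z m + if Z z then d m else 0 := by
    intro z m
    show f z m = _
    by_cases hz : Z z
    · simp [f, hz]
    · simp [f, hz]
  refine ⟨g, ⟨?_, ?_, ?_⟩, ?_⟩
  · -- finitary
    have hfin : {z | Z z}.Finite := by
      let F : (Fin N → ZMod p) → (ℕ →₀ ZMod p) := fun u =>
        Finsupp.onFinset (Finset.range N) (fun n => if h : n < N then u ⟨n, h⟩ else 0) (by
          intro n hn
          by_contra hnot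
          rw [Finset.mem_range] at hnot
          simp [hnot] at hn)
      refine (Set.finite_range F).subset ?_
      intro z hz
      refine ⟨fun i => z i, ?_⟩
      ext n
      simp only [F, Finsupp.onFinset_apply]
      by_cases hn : n < N
      · simp [hn]
      · simp [hn, hz n (by omega)]
    refine hfin.subset ?_
    intro z hz
    by_contra hn
    apply hz
    ext m
    rw [hgn]
    have : ¬ Z z := hn
    simp [this]
  · intro n z w hzw m hm
    rw [hgn, hgn, hzw m hm]
    by_cases hmN : N ≤ m
    · simp [hd m hmN]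
    · have : Z z ↔ Z w := by
        constructor
        · intro h m' hm'; rw [← hzw m' (by omega)]; exact h m' hm'
        · intro h m' hm'; rw [hzw m' (by omega)]; exact h m' hm'
      simp [this]
  · intro n z w hzw
    rw [hgn, hgn]
    by_cases hnN : N ≤ n
    · simp [hd n hnN]
    · have : Z z ↔ Z w := by
        constructor
        · intro h m' hm'; rw [← hzw m' (by omega)]; exact h m' hm'
        · intro h m' hm'; rw [hzw m' (by omega)]; exact h m' hm'
      simp [this]
  · ext m
    rw [hgn]
    have : Z x := fun m hm => (hN m hm).1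
    simp [this, d]

end Tree

end Q22.CycBlock
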