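import Pool.Agent.Q22.CycBlock

/-! A transitive p-group of finitary permutations with no transitive subgroup
having the cyclic-block property. -/

namespace Q22.CycBlock

open MulAction
open scoped Pointwise

section Imprim

variable {I Δ P : Type*} [Group P] [MulAction P Δ]

/-- The finitary permutations of `I × Δ` of the form `(i, δ) ↦ (τ i, f i • δ)`, `τ ∈ T`. -/
def Sgrp (T : Subgroup (Equiv.Perm I)) : Subgroup (Equiv.Perm (I × Δ)) where
  carrier := {g | {x | g x ≠ x}.Finite ∧ ∃ τ ∈ T, ∃ f : I → P, ∀ i δ, g (i, δ) = (τ i, f i • δ)}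
  one_mem' := ⟨by simp, 1, T.one_mem, 1, fun i δ => by simp⟩
  mul_mem' := by
    rintro g h ⟨hg, τ, hτ, f, hf⟩ ⟨hh, σ, hσ, e, he⟩
    refine ⟨?_, τ * σ, T.mul_mem hτ hσ, fun i => f (σ i) * e i, fun i δ => ?_⟩
    · refine (hg.union hh).subset ?_
      intro x hx
      by_contra hn
      simp only [Set.mem_union, Set.mem_ofPred_eq, not_or, not_not] at hn
      exact hx (by rw [Equiv.Perm.mul_apply, hn.2, hn.1])
    · rw [Equiv.Perm.mul_apply, he, hf, mul_smul]; rfl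
  inv_mem' := by
    rintro g ⟨hg, τ, hτ, f, hf⟩
    refine ⟨?_, τ⁻¹, T.inv_mem hτ, fun i => (f (τ⁻¹ i))⁻¹, fun i δ => ?_⟩
    · refine hg.subset ?_
      intro x hx hgx
      exact hx (by rw [Equiv.Perm.inv_eq_iff_eq]; exact hgx.symm)
    · rw [Equiv.Perm.inv_eq_iff_eq, hf]
      rw [show τ (τ⁻¹ i) = i from τ.apply_symm_apply i, smul_inv_smul]

theorem Sgrp_isPGroup (T : Subgroup (Equiv.Perm I)) {p : ℕ} [Fact p.Prime]
    (hT : ∀ g ∈ T, ∃ k, g ^ p ^ k = 1) [Finite P] (hP : IsPGroup p P) :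
    IsPGroup p (Sgrp (Δ := Δ) (P := P) T) := by
  intro g
  obtain ⟨_, τ, hτ, f, hf⟩ := g.2
  obtain ⟨k, hk⟩ := hT τ hτ
  obtain ⟨l, hl⟩ := IsPGroup.iff_card.mp hP
  have h1 : ∀ n : ℕ, ∃ e : I → P, ∀ i δ, ((g : Equiv.Perm (I × Δ)) ^ n) (i, δ) =
      ((τ ^ n) i, e i • δ) := by
    intro n
    induction n with
    | zero => exact ⟨1, fun i δ => by simp⟩
    | succ n ih =>
      obtain ⟨e, he⟩ := ih
      refine ⟨fun i => f ((τ ^ n) i) * e i, fun i δ => ?_⟩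
      rw [pow_succ', Equiv.Perm.mul_apply, he, hf, mul_smul, pow_succ']
      rfl
  obtain ⟨e, he⟩ := h1 (p ^ k)
  have h2 : ∀ n : ℕ, ∀ i δ, (((g : Equiv.Perm (I × Δ)) ^ p ^ k) ^ n) (i, δ) =
      (i, e i ^ n • δ) := by
    intro n
    induction n with
    | zero => intro i δ; simp
    | succ n ih =>
      intro i δ
      rw [pow_succ', Equiv.Perm.mul_apply, ih, he, hk, pow_succ', mul_smul]
      rfl
  refine ⟨k + l, ?_⟩
  apply Subtype.ext
  rw [Subgroup.coe_pow, Subgroup.coe_one, pow_add, pow_mul]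
  ext1 ⟨i, δ⟩
  rw [h2, ← hl, pow_card_eq_one', one_smul]
  rfl

theorem Sgrp_trans (T : Subgroup (Equiv.Perm I)) (hTf : ∀ g ∈ T, {x | g x ≠ x}.Finite)
    (hT : ∀ i j : I, ∃ g ∈ T, g i = j) [Finite Δ] (hP : ∀ x y : Δ, ∃ g : P, g • x = y)
    (x y : I × Δ) : ∃ g ∈ Sgrp (Δ := Δ) (P := P) T, g x = y := by
  classical
  obtain ⟨i, δ⟩ := x
  obtain ⟨j, ε⟩ := y
  obtain ⟨τ, hτ, hij⟩ := hT i j
  obtain ⟨b, hb⟩ := hP δ ε
  let f : I → P := fun k => if k = i then b else 1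
  refine ⟨Equiv.prodShear τ (fun k => MulAction.toPerm (f k)), ⟨?_, τ, hτ, f, fun _ _ => rfl⟩, ?_⟩
  · have h1 : ({k | τ k ≠ k} ∪ {i} : Set I).Finite := (hTf τ hτ).union (Set.finite_singleton i)
    refine (h1.prod (Set.finite_univ (α := Δ))).subset ?_
    rintro ⟨k, η⟩ hk
    refine ⟨?_, trivial⟩
    by_contra hn
    simp only [Set.mem_union, Set.mem_ofPred_eq, Set.mem_singleton_iff, not_or, not_not] at hn
    apply hk
    show (τ k, f k • η) = (k, η)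
    simp [f, hn.1, hn.2]
  · show (τ i, f i • δ) = (j, ε)
    simp [f, hij, hb]

/-- Main lemma: no transitive subgroup of `Sgrp T` has the cyclic-block property. -/
theorem not_block (T : Subgroup (Equiv.Perm I)) (i₀ : I) (x₀ : Δ) (a t : P)
    (hmin : ∀ K : Subgroup P, (∀ x : Δ, ∃ k ∈ K, k • x₀ = x) → K = ⊤)
    (ha : a • x₀ = x₀) (hat : ∀ k : ℤ, a • (t • x₀) ≠ t ^ k • x₀)
    (H : Subgroup (Equiv.Perm (I × Δ))) (hHS : H ≤ Sgrp (Δ := Δ) (P := P) T)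
    (hH : ∀ x y : I × Δ, ∃ h ∈ H, h x = y) :
    ∃ h : Equiv.Perm (I × Δ), h ∈ H ∧ ∃ x, ¬ IsBlock H {y | h.SameCycle x y} := by
  let K : Subgroup P :=
    { carrier := {b | ∃ h ∈ H, ∀ δ : Δ, h (i₀, δ) = (i₀, b • δ)}
      one_mem' := ⟨1, H.one_mem, fun δ => by simp⟩
      mul_mem' := by
        rintro b c ⟨g, hg, hgb⟩ ⟨h, hh, hhc⟩
        refine ⟨g * h, H.mul_mem hg hh, fun δ => ?_⟩
        rw [Equiv.Perm.mul_apply, hhc, hgb, mul_smul]
      inv_mem' := by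
        rintro b ⟨g, hg, hgb⟩
        refine ⟨g⁻¹, H.inv_mem hg, fun δ => ?_⟩
        rw [Equiv.Perm.inv_eq_iff_eq, hgb, smul_inv_smul] }
  have hK : K = ⊤ := by
    apply hmin
    intro x
    obtain ⟨h, hh, hhx⟩ := hH (i₀, x₀) (i₀, x)
    obtain ⟨_, τ, _, f, hf⟩ := hHS hh
    have hτ : τ i₀ = i₀ := by
      have := hf i₀ x₀
      rw [hhx] at this
      exact (congrArg Prod.fst this).symm
    refine ⟨f i₀, ⟨h, hh, fun δ => by rw [hf, hτ]⟩, ?_⟩
    have := hf i₀ x₀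
    rw [hhx] at this
    exact (congrArg Prod.snd this).symm
  obtain ⟨ht, hht, htt⟩ : t ∈ K := by rw [hK]; trivial
  obtain ⟨hA, hhA, hAa⟩ : a ∈ K := by rw [hK]; trivial
  have hzpow : ∀ k : ℤ, (ht ^ k) (i₀, x₀) = (i₀, t ^ k • x₀) := by
    have hnat : ∀ n : ℕ, ∀ δ : Δ, (ht ^ n) (i₀, δ) = (i₀, t ^ n • δ) := by
      intro n
      induction n with
      | zero => intro δ; simp
      | succ n ih => intro δ; rw [pow_succ', Equiv.Perm.mul_apply, ih, htt, pow_succ', mul_smul]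
    intro k
    obtain ⟨n, rfl | rfl⟩ := k.eq_nat_or_neg
    · rw [zpow_natCast, zpow_natCast]; exact hnat n x₀
    · rw [zpow_neg, zpow_natCast, Equiv.Perm.inv_eq_iff_eq, hnat, zpow_neg, zpow_natCast,
        smul_inv_smul]
  refine ⟨ht, hht, (i₀, x₀), ?_⟩
  intro hblk
  rw [isBlock_iff_smul_eq_or_disjoint] at hblk
  have hO : ∀ y, y ∈ {y | ht.SameCycle (i₀, x₀) y} ↔ ∃ k : ℤ, (i₀, t ^ k • x₀) = y := by
    intro y
    constructor
    · rintro ⟨k, hk⟩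
      exact ⟨k, by rw [← hzpow]; exact hk⟩
    · rintro ⟨k, hk⟩
      exact ⟨k, by rw [hzpow]; exact hk⟩
  rcases hblk ⟨hA, hhA⟩ with h | h
  · have h1 : (⟨hA, hhA⟩ : H) • ((i₀, t • x₀) : I × Δ) ∈
        (⟨hA, hhA⟩ : H) • {y | ht.SameCycle (i₀, x₀) y} := by
      apply Set.smul_mem_smul_set
      rw [hO]
      exact ⟨1, by rw [zpow_one]⟩
    rw [h, hO] at h1
    obtain ⟨k, hk⟩ := h1
    have h2 : (⟨hA, hhA⟩ : H) • ((i₀, t • x₀) : I × Δ) = (i₀, a • t • x₀) := hAa _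
    rw [h2] at hk
    exact hat k (congrArg Prod.snd hk).symm
  · rw [Set.disjoint_left] at h
    have h1 : (⟨hA, hhA⟩ : H) • ((i₀, x₀) : I × Δ) ∈
        (⟨hA, hhA⟩ : H) • {y | ht.SameCycle (i₀, x₀) y} := by
      apply Set.smul_mem_smul_set
      rw [hO]
      exact ⟨0, by rw [zpow_zero, one_smul]⟩
    apply h h1
    have h2 : (⟨hA, hhA⟩ : H) • ((i₀, x₀) : I × Δ) = (i₀, a • x₀) := hAa _
    rw [h2, ha, hO]
    exact ⟨0, by rw [zpow_zero, one_smul]⟩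

end Imprim

section Final

variable (p : ℕ) [hp : Fact p.Prime]

/-- The coset space of `⟨a⟩`. -/
abbrev D : Type := W p ⧸ Subgroup.zpowers (a p)

theorem hmin (K : Subgroup (W p))
    (hK : ∀ x : D p, ∃ k ∈ K, k • ((1 : W p) : D p) = x) : K = ⊤ := by
  by_contra hne
  obtain ⟨L, hL, hKL⟩ := (eq_top_or_exists_le_coatom K).resolve_left hne
  have haL : a p ∈ L := comm_mem_of_isCoatom (isPGroup_W p) L hL (x p) (v p)
  apply hL.1
  rw [eq_top_iff]
  intro g _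
  obtain ⟨k, hk, hkg⟩ := hK (g : D p)
  have h1 : ((k : W p) : D p) = (g : D p) := by
    rw [← hkg]
    show (QuotientGroup.mk k : D p) = QuotientGroup.mk (k * 1)
    rw [mul_one]
  have h2 : k⁻¹ * g ∈ Subgroup.zpowers (a p) := QuotientGroup.eq.mp h1
  have h3 : Subgroup.zpowers (a p) ≤ L := by
    rw [Subgroup.zpowers_le]; exact haL
  have h4 := L.mul_mem (hKL hk) (h3 h2)
  rwa [mul_inv_cancel_left] at h4

theorem main : ∃ (Ω : Type) (G : Subgroup (Equiv.Perm Ω)), Infinite Ω ∧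
    (∀ g ∈ G, {x | g x ≠ x}.Finite) ∧ ∃ S : Sylow p G,
      (∀ x y : Ω, ∃ s : G, s ∈ S ∧ (s : Equiv.Perm Ω) x = y) ∧
      ∀ H : Subgroup (Equiv.Perm Ω), H ≤ (S : Subgroup G).map G.subtype →
        (∀ x y : Ω, ∃ h ∈ H, h x = y) →
        ∃ h : Equiv.Perm Ω, h ∈ H ∧ ∃ x, ¬ IsBlock H {y | h.SameCycle x y} := by
  let G : Subgroup (Equiv.Perm ((ℕ →₀ ZMod p) × D p)) := Sgrp (Δ := D p) (P := W p) (T p)
  have hG : IsPGroup p G := Sgrp_isPGroup (T p) (fun g hg => T_isPGroup p g hg) (isPGroup_W p)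
  have hinf : Infinite (ℕ →₀ ZMod p) := by
    have : Nontrivial (ZMod p) := inferInstance
    exact Finsupp.infinite_of_left
  refine ⟨(ℕ →₀ ZMod p) × D p, G, inferInstance, fun g hg => hg.1,
    ⟨⊤, hG.to_subgroup _, fun {Q} _ h => top_le_iff.mp h⟩, ?_, ?_⟩
  · intro x y
    have : Finite (D p) := inferInstance
    obtain ⟨g, hg, hgx⟩ := Sgrp_trans (Δ := D p) (P := W p) (T p) (fun g hg => hg.1)
      (fun i j => by
        have : NeZero p := ⟨hp.out.ne_zero⟩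
        exact T_trans p i j) (fun x y => MulAction.exists_smul_eq (W p) x y) x y
    exact ⟨⟨g, hg⟩, trivial, hgx⟩
  · intro H hH htr
    refine not_block (Δ := D p) (P := W p) (T p) 0 ((1 : W p) : D p) (a p) (t p) (hmin p) ?_ ?_
      H ?_ htr
    · show ((a p * 1 : W p) : D p) = ((1 : W p) : D p)
      rw [mul_one, QuotientGroup.eq]
      simp
    · intro k he
      have he' : ((a p * (t p * 1) : W p) : D p) = ((t p ^ k * 1 : W p) : D p) := he
      rw [mul_one, mul_one, eq_comm, QuotientGroup.eq] at he'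
      exact not_comm p k he'
    · intro h hh
      obtain ⟨g, _, rfl⟩ := hH hh
      exact g.2

end Final

end Q22.CycBlock
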