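import Pool.Agent.Q22.DTCDefs

/-! A restricted direct product of dihedral groups has a DTC set with one element. -/

noncomputable section

namespace Q22.DTC

/-- The factors. -/
abbrev Hn (n : ℕ) : Type := DihedralGroup (2 * n + 3)

/-- Rotation. -/
def k (n : ℕ) : Hn n := DihedralGroup.r 1

/-- Reflection. -/
def z (n : ℕ) : Hn n := DihedralGroup.sr 0

theorem z_ne (n : ℕ) : z n ≠ 1 := by
  intro h
  have h1 : (DihedralGroup.sr 0 : Hn n) = DihedralGroup.r 0 := h
  cases h1

theorem kk_ne_z (n : ℕ) : k n * k n ≠ z n := by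
  intro h
  have h1 : (DihedralGroup.r (1 + 1) : Hn n) = DihedralGroup.sr 0 := h
  cases h1

theorem kk_ne (n : ℕ) : k n * k n ≠ 1 := by
  intro h
  have h1 : (DihedralGroup.r (1 + 1) : Hn n) = DihedralGroup.r 0 := h
  have h2 : ((1 : ZMod (2 * n + 3)) + 1) = 0 := by
    injection h1
  have h3 : ((2 : ℕ) : ZMod (2 * n + 3)) = 0 := by
    rw [← h2]; norm_num
  rw [ZMod.natCast_eq_zero_iff] at h3
  have := Nat.le_of_dvd (by norm_num) h3
  omega

theorem comm_dvd (n N : ℕ) (h : k n ^ N * z n * (k n ^ N)⁻¹ = z n) : N = 0 ∨ 2 * n + 3 ≤ N := by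
  have h0 : k n ^ N = (DihedralGroup.r (N : ZMod (2 * n + 3)) : Hn n) := DihedralGroup.r_one_pow N
  rw [h0] at h
  have h1 : (DihedralGroup.sr (0 - (N : ZMod (2 * n + 3)) + -(N : ZMod (2 * n + 3))) : Hn n) =
      DihedralGroup.sr 0 := h
  have h2 : (0 - (N : ZMod (2 * n + 3)) + -(N : ZMod (2 * n + 3))) = 0 := by
    injection h1
  have h3 : ((2 * N : ℕ) : ZMod (2 * n + 3)) = 0 := by
    push_cast
    linear_combination -h2
  rw [ZMod.natCast_eq_zero_iff] at h3
  have h4 : 2 * n + 3 ∣ N := by
    refine (Nat.Coprime.dvd_mul_left ?_).mp h3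
    rw [Nat.coprime_comm, Nat.coprime_two_left]
    exact ⟨n + 1, by ring⟩
  rcases Nat.eq_zero_or_pos N with h5 | h5
  · exact Or.inl h5
  · exact Or.inr (Nat.le_of_dvd h5 h4)

/-- The restricted direct product. -/
def Gs : Subgroup (∀ n, Hn n) where
  carrier := {f | ∃ B : ℕ, ∀ n ≥ B, f n = 1}
  one_mem' := ⟨0, fun _ _ => rfl⟩
  mul_mem' := by
    rintro a b ⟨A, hA⟩ ⟨B, hB⟩
    refine ⟨max A B, fun n hn => ?_⟩
    rw [Pi.mul_apply, hA n (le_trans (le_max_left _ _) hn), hB n (le_trans (le_max_right _ _) hn),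
      one_mul]
  inv_mem' := by
    rintro a ⟨A, hA⟩
    refine ⟨A, fun n hn => ?_⟩
    rw [Pi.inv_apply, hA n hn, inv_one]

/-- The group. -/
abbrev G : Type := Gs

theorem G_ext {x y : G} (h : ∀ n, x.1 n = y.1 n) : x = y := Subtype.ext (funext h)

/-- The coordinates from `B` on are trivial. -/
def Tr (B : ℕ) (x : G) : Prop := ∀ n, B ≤ n → x.1 n = 1

theorem exists_Tr (x : G) : ∃ B, Tr B x := x.2

theorem Tr.mono {B C : ℕ} {x : G} (h : Tr B x) (hBC : B ≤ C) : Tr C x :=
  fun n hn => h n (hBC.trans hn)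

theorem Tr.mul {B : ℕ} {x y : G} (hx : Tr B x) (hy : Tr B y) : Tr B (x * y) := by
  intro n hn
  show x.1 n * y.1 n = 1
  rw [hx n hn, hy n hn, one_mul]

theorem Tr.conj {B : ℕ} {x : G} (hx : Tr B x) (g : G) : Tr B (g * x * g⁻¹) := by
  intro n hn
  show g.1 n * x.1 n * (g.1 n)⁻¹ = 1
  rw [hx n hn, mul_one, mul_inv_cancel]

theorem finite_Tr (B : ℕ) : {x : G | Tr B x}.Finite := by
  have : Finite (∀ n : Fin B, Hn n) := inferInstance
  refine Set.Finite.of_injOn (f := fun x : G => fun n : Fin B => x.1 n) (t := Set.univ)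
    (fun _ _ => Set.mem_univ _) ?_ Set.finite_univ
  intro x hx y hy hxy
  apply G_ext
  intro n
  by_cases hn : n < B
  · exact congrFun hxy ⟨n, hn⟩
  · rw [hx n (not_lt.mp hn), hy n (not_lt.mp hn)]

/-- `k_0, ..., k_i`, then `k^N z k^{-N}` in coordinate `i + 1`. -/
def uu (i N : ℕ) : G := ⟨fun n => if n ≤ i then k n else
    if n = i + 1 then k n ^ N * z n * (k n ^ N)⁻¹ else 1, by
  refine ⟨i + 2, fun n hn => ?_⟩
  dsimp only
  rw [if_neg (by omega), if_neg (by omega)]⟩

theorem uu_le {i N n : ℕ} (h : n ≤ i) : (uu i N).1 n = k n := if_pos h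

theorem uu_eq (i N : ℕ) : (uu i N).1 (i + 1) =
    k (i + 1) ^ N * z (i + 1) * (k (i + 1) ^ N)⁻¹ := by
  show (if i + 1 ≤ i then _ else if i + 1 = i + 1 then _ else _) = _
  rw [if_neg (by omega), if_pos rfl]

theorem uu_gt {i N n : ℕ} (h : i + 2 ≤ n) : (uu i N).1 n = 1 := by
  show (if n ≤ i then _ else if n = i + 1 then _ else _) = _
  rw [if_neg (by omega), if_neg (by omega)]

/-- `k_0, ..., k_i, z_{i+1}`. -/
def yy (i : ℕ) : G := uu i 0

theorem yy_eq (i : ℕ) : (yy i).1 (i + 1) = z (i + 1) := by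
  rw [yy, uu_eq, pow_zero, one_mul, inv_one, mul_one]

theorem yy_le {i n : ℕ} (h : n ≤ i) : (yy i).1 n = k n := uu_le h

theorem yy_gt {i n : ℕ} (h : i + 2 ≤ n) : (yy i).1 n = 1 := uu_gt h

theorem Tr_yy (i : ℕ) : Tr (i + 2) (yy i) := fun _ hn => yy_gt hn

theorem conj_ne (n N : ℕ) : k n ^ N * z n * (k n ^ N)⁻¹ ≠ 1 := by
  intro h
  rw [conj_eq_one_iff] at h
  exact z_ne n h

theorem uu_comm {i N : ℕ} (h : k (i + 1) ^ N * z (i + 1) * (k (i + 1) ^ N)⁻¹ = z (i + 1)) :
    uu i N = yy i := by
  apply G_ext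
  intro n
  rcases lt_trichotomy n (i + 1) with h1 | h1 | h1
  · rw [uu_le (by omega), yy_le (by omega)]
  · subst h1
    rw [uu_eq, yy_eq, h]
  · rw [uu_gt (by omega), yy_gt (by omega)]

theorem conj_uu {i j : ℕ} (h : i + 2 ≤ j) (N : ℕ) :
    yy j * uu i N * (yy j)⁻¹ = uu i (N + 1) := by
  apply G_ext
  intro n
  show (yy j).1 n * (uu i N).1 n * ((yy j).1 n)⁻¹ = _
  rcases lt_trichotomy n (i + 1) with h1 | h1 | h1
  · rw [uu_le (by omega), uu_le (by omega), yy_le (by omega), mul_inv_cancel_right]
  · subst h1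
    rw [uu_eq, uu_eq, yy_le (by omega), pow_succ']
    group
  · rw [uu_gt (by omega), uu_gt (by omega), mul_one, mul_inv_cancel]

/-- `x` ends with `k_j, z_{j+1}`. -/
def Ends (x : G) (j : ℕ) : Prop := x.1 j = k j ∧ x.1 (j + 1) = z (j + 1) ∧ Tr (j + 2) x

theorem Ends.top {x : G} {j n : ℕ} (h : Ends x j) (hn : x.1 n ≠ 1) : n ≤ j + 1 := by
  by_contra h1
  exact hn (h.2.2 n (by omega))

theorem Ends.ne {x : G} {j : ℕ} (h : Ends x j) : x.1 (j + 1) ≠ 1 := by
  rw [h.2.1]; exact z_ne _

theorem Ends.unique {x : G} {j j' : ℕ} (h : Ends x j) (h' : Ends x j') : j = j' := by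
  have h1 := h.top h'.ne
  have h2 := h'.top h.ne
  omega

theorem Ends.tr {x : G} {j : ℕ} (h : Ends x j) : Tr j (x * (yy j)⁻¹) := by
  intro n hn
  show x.1 n * ((yy j).1 n)⁻¹ = 1
  rcases Nat.lt_trichotomy n (j + 1) with h1 | h1 | h1
  · have : n = j := by omega
    subst this
    rw [h.1, yy_le le_rfl, mul_inv_cancel]
  · subst h1
    rw [h.2.1, yy_eq, mul_inv_cancel]
  · rw [h.2.2 n (by omega), yy_gt (by omega), inv_one, one_mul]

/-- The decoding relation. -/
inductive D : G → Finset ℕ → G → Prop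
  | core (x : G) (h : ∀ j, ¬ Ends x j) : D x ∅ x
  | step (x : G) (j : ℕ) (J : Finset ℕ) (c : G) (h : Ends x j) (hd : D (x * (yy j)⁻¹) J c) :
      D x (insert j J) c

theorem D_exists_aux (B : ℕ) : ∀ x : G, Tr B x → ∃ J c, D x J c := by
  induction B using Nat.strong_induction_on with
  | _ B ih =>
    intro x hx
    by_cases h : ∃ j, Ends x j
    · obtain ⟨j, hj⟩ := h
      have h1 : j + 1 < B := by
        by_contra h2
        exact hj.ne (hx _ (by omega))
      obtain ⟨J, c, hJ⟩ := ih j (by omega) _ hj.tr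
      exact ⟨_, _, D.step x j J c hj hJ⟩
    · push Not at h
      exact ⟨_, _, D.core x h⟩

theorem D_exists (x : G) : ∃ J c, D x J c := by
  obtain ⟨B, hB⟩ := exists_Tr x
  exact D_exists_aux B x hB

theorem D.unique {x : G} {J : Finset ℕ} {c : G} (h : D x J c) :
    ∀ {J' : Finset ℕ} {c' : G}, D x J' c' → J = J' ∧ c = c' := by
  induction h with
  | core x hx =>
    intro J' c' h'
    cases h' with
    | core _ _ => exact ⟨rfl, rfl⟩
    | step _ j _ _ hj _ => exact absurd hj (hx j)
  | step x j J c hj hd ih =>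
    intro J' c' h'
    cases h' with
    | core _ hx => exact absurd hj (hx j)
    | step _ j' J'' _ hj' hd' =>
      have := hj.unique hj'
      subst this
      obtain ⟨h1, h2⟩ := ih hd'
      exact ⟨by rw [h1], h2⟩

theorem D.bound {x : G} {J : Finset ℕ} {c : G} (h : D x J c) :
    ∀ {B : ℕ}, Tr B x → (∀ j ∈ J, j + 1 < B) ∧ Tr B c := by
  induction h with
  | core x hx =>
    intro B hB
    exact ⟨fun j hj => absurd hj (Finset.notMem_empty j), hB⟩
  | step x j J c hj hd ih =>
    intro B hB
    have h1 : j + 1 < B := by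
      by_contra h2
      exact hj.ne (hB _ (by omega))
    obtain ⟨h2, h3⟩ := ih hj.tr
    refine ⟨fun j' hj' => ?_, h3.mono (by omega)⟩
    rcases Finset.mem_insert.mp hj' with h4 | h4
    · omega
    · have := h2 j' h4
      omega

theorem D.notMem {x : G} {j : ℕ} {J : Finset ℕ} {c : G} (hj : Ends x j)
    (hd : D (x * (yy j)⁻¹) J c) : j ∉ J := by
  intro h
  have := (hd.bound hj.tr).1 j h
  omega

/-- `x` is bounded by its code. -/
theorem D.tr {x : G} {J : Finset ℕ} {c : G} (h : D x J c) :
    ∀ {B : ℕ}, Tr B c → (∀ j ∈ J, j + 1 < B) → Tr B x := by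
  induction h with
  | core x hx => intro B hB _; exact hB
  | step x j J c hj hd ih =>
    intro B hB hJ
    refine hj.2.2.mono ?_
    have := hJ j (Finset.mem_insert_self _ _)
    omega

/-! ### Multiplying by `y_i` -/

theorem D.far {x : G} {J : Finset ℕ} {c : G} (h : D x J c) {B i : ℕ} (hB : Tr B x) (hi : B ≤ i) :
    D (x * yy i) (insert i J) c := by
  refine D.step _ i J c ⟨?_, ?_, ?_⟩ ?_
  · show x.1 i * (yy i).1 i = k i
    rw [hB i hi, yy_le le_rfl, one_mul]
  · show x.1 (i + 1) * (yy i).1 (i + 1) = z (i + 1)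
    rw [hB _ (by omega), yy_eq, one_mul]
  · exact (hB.mono (by omega)).mul (Tr_yy i)
  · rw [mul_inv_cancel_right]
    exact h

theorem D.high {x : G} {J : Finset ℕ} {c : G} (h : D x J c) {B : ℕ} (hc : ¬ Tr (B + 1) c) :
    ∀ t : G, Tr B t → ∃ c', D (x * t) J c' := by
  induction h with
  | core x hx =>
    intro t ht
    refine ⟨x * t, D.core _ fun j hj => ?_⟩
    have hagree : ∀ n, B ≤ n → (x * t).1 n = x.1 n := by
      intro n hn
      show x.1 n * t.1 n = x.1 n
      rw [ht n hn, mul_one]
    have hj1 : B ≤ j := by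
      by_contra h1
      apply hc
      intro n hn
      rw [← hagree n (by omega)]
      exact hj.2.2 n (by omega)
    refine hx j ⟨?_, ?_, ?_⟩
    · rw [← hagree j hj1]; exact hj.1
    · rw [← hagree (j + 1) (by omega)]; exact hj.2.1
    · intro n hn
      rw [← hagree n (by omega)]; exact hj.2.2 n hn
  | step x j J c hj hd ih =>
    intro t ht
    have hagree : ∀ n, B ≤ n → (x * t).1 n = x.1 n := by
      intro n hn
      show x.1 n * t.1 n = x.1 n
      rw [ht n hn, mul_one]
    have hj1 : B + 1 < j := by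
      by_contra h1
      exact hc ((hd.bound hj.tr).2.mono (by omega))
    obtain ⟨c', hc'⟩ := ih hc (yy j * t * (yy j)⁻¹) (ht.conj _)
    refine ⟨c', D.step _ j J c' ⟨?_, ?_, ?_⟩ ?_⟩
    · rw [hagree j (by omega)]; exact hj.1
    · rw [hagree (j + 1) (by omega)]; exact hj.2.1
    · intro n hn
      rw [hagree n (by omega)]; exact hj.2.2 n hn
    · have : x * t * (yy j)⁻¹ = x * (yy j)⁻¹ * (yy j * t * (yy j)⁻¹) := by group
      rw [this]
      exact hc'

/-- The low case. -/
theorem D.low {x : G} {J : Finset ℕ} {c : G} (h : D x J c) {i : ℕ} (hx : Tr i x) {N : ℕ}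
    {J' : Finset ℕ} (hci : Tr i c) (h' : D (x * uu i N) J' c) :
    i ∉ J ∧ J' = insert i J ∧ k (i + 1) ^ (N + (J.filter (i < ·)).card) * z (i + 1) *
      (k (i + 1) ^ (N + (J.filter (i < ·)).card))⁻¹ = z (i + 1) := by
  have hb := (h.bound hx).1
  have hi1 : (x * uu i N).1 (i + 1) = k (i + 1) ^ N * z (i + 1) * (k (i + 1) ^ N)⁻¹ := by
    show x.1 (i + 1) * (uu i N).1 (i + 1) = _
    rw [hx _ (by omega), one_mul, uu_eq]
  have hfil : J.filter (i < ·) = ∅ := by
    rw [Finset.filter_eq_empty_iff]
    intro j hj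
    have := hb j hj
    omega
  rw [hfil, Finset.card_empty, add_zero]
  refine ⟨fun hi => by have := hb i hi; omega, ?_⟩
  cases h' with
  | core _ _ =>
    exact absurd (hci (i + 1) (by omega)) (by rw [hi1]; exact conj_ne _ _)
  | step _ j' J'' _ hj' hd' =>
    have h1 : i + 1 ≤ j' + 1 := hj'.top (by rw [hi1]; exact conj_ne _ _)
    have h2 : j' = i := by
      by_contra hne
      apply hj'.ne
      show x.1 (j' + 1) * (uu i N).1 (j' + 1) = 1
      rw [hx _ (by omega), uu_gt (by omega), one_mul]
    subst h2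
    have h3 := hj'.2.1
    rw [hi1] at h3
    refine ⟨?_, h3⟩
    rw [uu_comm h3, mul_inv_cancel_right] at hd'
    rw [(h.unique hd').1]

theorem D.main {x : G} {J : Finset ℕ} {c : G} (h : D x J c) {i : ℕ} (hci : Tr i c) :
    ∀ {N : ℕ} {J' : Finset ℕ}, D (x * uu i N) J' c →
    i ∉ J ∧ J' = insert i J ∧ k (i + 1) ^ (N + (J.filter (i < ·)).card) * z (i + 1) *
      (k (i + 1) ^ (N + (J.filter (i < ·)).card))⁻¹ = z (i + 1) := by
  induction h with
  | core x hx =>
    intro N J' h'
    exact D.low (D.core x hx) hci hci h'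
  | step x j J c hj hd ih =>
    intro N J' h'
    by_cases h1 : i + 2 ≤ j
    · -- high position
      have hagree : ∀ n, i + 2 ≤ n → (x * uu i N).1 n = x.1 n := by
        intro n hn
        show x.1 n * (uu i N).1 n = x.1 n
        rw [uu_gt hn, mul_one]
      have he : Ends (x * uu i N) j := by
        refine ⟨?_, ?_, ?_⟩
        · rw [hagree j h1]; exact hj.1
        · rw [hagree (j + 1) (by omega)]; exact hj.2.1
        · intro n hn
          rw [hagree n (by omega)]; exact hj.2.2 n hn
      cases h' with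
      | core _ hx => exact absurd he (hx j)
      | step _ j' J'' _ hj' hd' =>
        have := he.unique hj'
        subst this
        have h2 : x * uu i N * (yy j)⁻¹ = x * (yy j)⁻¹ * uu i (N + 1) := by
          rw [← conj_uu h1]; group
        rw [h2] at hd'
        obtain ⟨h3, h4, h5⟩ := ih hci hd'
        refine ⟨?_, ?_, ?_⟩
        · rw [Finset.mem_insert, not_or]
          exact ⟨by omega, h3⟩
        · rw [h4, Finset.insert_comm]
        · have h6 : ((insert j J).filter (i < ·)).card = (J.filter (i < ·)).card + 1 := by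
            rw [Finset.filter_insert, if_pos (by omega), Finset.card_insert_of_notMem]
            rw [Finset.mem_filter, not_and_or]
            exact Or.inl (D.notMem hj hd)
          rw [h6]
          have h7 : N + ((J.filter (i < ·)).card + 1) = N + 1 + (J.filter (i < ·)).card := by ring
          rw [h7]
          exact h5
    · by_cases h2 : j + 1 < i
      · exact D.low (D.step x j J c hj hd) (hj.2.2.mono (by omega)) hci h'
      · exfalso
        have h3 : j + 1 = i ∨ j = i ∨ j = i + 1 := by omega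
        rcases h3 with h3 | h3 | h3
        · -- `j + 1 = i`
          subst h3
          have e1 : (x * uu (j + 1) N).1 (j + 1 + 1) ≠ 1 := by
            show x.1 (j + 1 + 1) * (uu (j + 1) N).1 (j + 1 + 1) ≠ 1
            rw [hj.2.2 _ (by omega), one_mul, uu_eq]
            exact conj_ne _ _
          cases h' with
          | core _ _ => exact e1 (hci _ (by omega))
          | step _ j' J'' _ hj' hd' =>
            have h4 := hj'.top e1
            have h5 : j' = j + 1 := by
              by_contra hne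
              apply hj'.ne
              show x.1 (j' + 1) * (uu (j + 1) N).1 (j' + 1) = 1
              rw [hj.2.2 _ (by omega), uu_gt (by omega), one_mul]
            subst h5
            have h6 : x.1 (j + 1) * (uu (j + 1) N).1 (j + 1) = k (j + 1) := hj'.1
            rw [hj.2.1, uu_le le_rfl] at h6
            exact z_ne _ (mul_eq_right.mp h6)
        · -- `j = i`
          subst h3
          have e1 : (x * uu j N).1 j = k j * k j := by
            show x.1 j * (uu j N).1 j = _
            rw [hj.1, uu_le le_rfl]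
          cases h' with
          | core _ _ => exact kk_ne j (by rw [← e1]; exact hci _ le_rfl)
          | step _ j' J'' _ hj' hd' =>
            have h4 : j ≤ j' + 1 := hj'.top (by rw [e1]; exact kk_ne j)
            have h5 : j' + 1 = j ∨ j' = j := by
              by_contra hne
              apply hj'.ne
              show x.1 (j' + 1) * (uu j N).1 (j' + 1) = 1
              rw [hj.2.2 _ (by omega), uu_gt (by omega), one_mul]
            rcases h5 with h5 | h5
            · subst h5
              have h6 := hj'.2.1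
              rw [e1] at h6
              exact kk_ne_z _ h6
            · subst h5
              have h6 : x.1 (j' + 1) * (uu j' N).1 (j' + 1) = z (j' + 1) := hj'.2.1
              rw [hj.2.1, uu_eq, mul_eq_left] at h6
              exact conj_ne _ _ h6
        · -- `j = i + 1`
          subst h3
          have e1 : (x * uu i N).1 (i + 1 + 1) = z (i + 1 + 1) := by
            show x.1 (i + 1 + 1) * (uu i N).1 (i + 1 + 1) = _
            rw [hj.2.1, uu_gt (by omega), mul_one]
          cases h' with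
          | core _ _ => exact z_ne _ (by rw [← e1]; exact hci _ (by omega))
          | step _ j' J'' _ hj' hd' =>
            have h4 := hj'.top (by rw [e1]; exact z_ne _)
            have h5 : j' = i + 1 := by
              by_contra hne
              apply hj'.ne
              show x.1 (j' + 1) * (uu i N).1 (j' + 1) = 1
              rw [hj.2.2 _ (by omega), uu_gt (by omega), one_mul]
            subst h5
            have h6 : x.1 (i + 1) * (uu i N).1 (i + 1) = k (i + 1) := hj'.1
            rw [hj.1, uu_eq, mul_eq_left] at h6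
            exact conj_ne _ _ h6

/-! ### The decoding functions -/

/-- The positions. -/
def JJ (x : G) : Finset ℕ := (D_exists x).choose

/-- The core. -/
def cc (x : G) : G := (D_exists x).choose_spec.choose

theorem DD (x : G) : D x (JJ x) (cc x) := (D_exists x).choose_spec.choose_spec

theorem JJ_eq {x : G} {J : Finset ℕ} {c : G} (h : D x J c) : JJ x = J := ((DD x).unique h).1

theorem cc_eq {x : G} {J : Finset ℕ} {c : G} (h : D x J c) : cc x = c := ((DD x).unique h).2

theorem far (x : G) : ∃ B, ∀ i, B ≤ i → i ∉ JJ x ∧ JJ (x * yy i) = insert i (JJ x) ∧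
    cc (x * yy i) = cc x := by
  obtain ⟨B, hB⟩ := exists_Tr x
  refine ⟨B, fun i hi => ?_⟩
  have h := (DD x).far hB hi
  refine ⟨fun h1 => ?_, JJ_eq h, cc_eq h⟩
  have := ((DD x).bound hB).1 i h1
  omega

theorem high (x : G) (i : ℕ) (h : ¬ Tr (i + 3) (cc x)) : JJ (x * yy i) = JJ x := by
  obtain ⟨c', hc'⟩ := (DD x).high h (yy i) (Tr_yy i)
  exact JJ_eq hc'

theorem mid (x : G) (i : ℕ) (hci : Tr i (cc x)) (h : cc (x * yy i) = cc x) :
    i ∉ JJ x ∧ JJ (x * yy i) = insert i (JJ x) ∧
      ((JJ x).filter (i < ·) = ∅ ∨ i < (JJ x).card) := by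
  have h1 := DD (x * yy i)
  rw [h] at h1
  obtain ⟨h2, h3, h4⟩ := (DD x).main hci (N := 0) h1
  refine ⟨h2, h3, ?_⟩
  rw [zero_add] at h4
  rcases comm_dvd _ _ h4 with h5 | h5
  · exact Or.inl (Finset.card_eq_zero.mp h5)
  · right
    have := Finset.card_filter_le (JJ x) (i < ·)
    omega

/-! ### The ultrafilters -/

open Filter

theorem eventually_not_Tr {u : Ultrafilter G} (hu : ∀ x : G, u ≠ pure x) {S : Set G}
    (hS : S.Finite) : ∀ᶠ x in (u : Filter G), x ∉ S := by
  by_contra h
  have h1 : S ∈ u := by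
    by_contra h2
    apply h
    exact (Ultrafilter.compl_mem_iff_notMem.mpr h2)
  obtain ⟨x, hx⟩ := Ultrafilter.eq_pure_of_finite_mem hS h1
  exact hu x hx.2

/-- The limit of the elements `y_i`. -/
def vv : Ultrafilter G := Ultrafilter.map yy (Filter.hyperfilter ℕ)

theorem hyper_ge (B : ℕ) : ∀ᶠ i in (Filter.hyperfilter ℕ : Filter ℕ), B ≤ i := by
  have h : Set.Finite {i : ℕ | i < B} := Set.finite_lt_nat B
  have h1 := Set.Finite.compl_mem_hyperfilter h
  filter_upwards [h1] with i hi
  exact not_lt.mp hi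

theorem key {u : Ultrafilter G} (he : box u vv = dia u vv) (A : Set G) :
    (∀ᶠ x in (u : Filter G), ∀ᶠ i in (Filter.hyperfilter ℕ : Filter ℕ), x * yy i ∈ A) ↔
    (∀ᶠ i in (Filter.hyperfilter ℕ : Filter ℕ), ∀ᶠ x in (u : Filter G), x * yy i ∈ A) := by
  have h : A ∈ box u vv ↔ A ∈ dia u vv := by rw [he]
  exact h

/-- A parity function cannot behave differently on the two sides. -/
theorem parity {u : Ultrafilter G} (he : box u vv = dia u vv) (F f : G → ℕ)
    (h1 : ∀ᶠ x in (u : Filter G), ∀ᶠ i in (Filter.hyperfilter ℕ : Filter ℕ),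
      (Even (F (x * yy i)) ↔ Even (f x)))
    (h2 : ∀ᶠ i in (Filter.hyperfilter ℕ : Filter ℕ), ∀ᶠ x in (u : Filter G),
      (Even (F (x * yy i)) ↔ ¬ Even (f x))) : False := by
  have h3 := key he {g | Even (F g)}
  have h4 : (∀ᶠ x in (u : Filter G), ∀ᶠ i in (Filter.hyperfilter ℕ : Filter ℕ),
      x * yy i ∈ {g | Even (F g)}) ↔ ∀ᶠ x in (u : Filter G), Even (f x) := by
    constructor
    · intro h
      filter_upwards [h, h1] with x hx hx1
      obtain ⟨i, hi, hi1⟩ := (hx.and hx1).exists
      exact hi1.mp hi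
    · intro h
      filter_upwards [h, h1] with x hx hx1
      filter_upwards [hx1] with i hi
      exact hi.mpr hx
  have h5 : (∀ᶠ i in (Filter.hyperfilter ℕ : Filter ℕ), ∀ᶠ x in (u : Filter G),
      x * yy i ∈ {g | Even (F g)}) ↔ ∀ᶠ x in (u : Filter G), ¬ Even (f x) := by
    constructor
    · intro h
      obtain ⟨i, hi, hi1⟩ := (h.and h2).exists
      filter_upwards [hi, hi1] with x hx hx1
      exact hx1.mp hx
    · intro h
      filter_upwards [h2] with i hi
      filter_upwards [h, hi] with x hx hx1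
      exact hx1.mpr hx
  rw [h4, h5] at h3
  rcases Ultrafilter.em u (fun x => Even (f x)) with h6 | h6
  · have h7 := h3.mp h6
    obtain ⟨x, hx, hx'⟩ := (h6.and h7).exists
    exact hx' hx
  · have h7 := h3.mpr h6
    obtain ⟨x, hx, hx'⟩ := (h6.and h7).exists
    exact hx hx'

theorem box_ne_dia (u : Ultrafilter G) (hu : ∀ x : G, u ≠ pure x) : box u vv ≠ dia u vv := by
  intro he
  by_cases hB : ∃ c₀, ∀ᶠ x in (u : Filter G), cc x = c₀
  · obtain ⟨c₀, hc⟩ := hB
    obtain ⟨B₀, hB₀⟩ := exists_Tr c₀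
    have h1 := (key he {g | cc g = c₀}).mp (by
      filter_upwards [hc] with x hx
      obtain ⟨B, hB⟩ := far x
      filter_upwards [hyper_ge B] with i hi
      show cc (x * yy i) = c₀
      rw [(hB i hi).2.2, hx])
    refine parity he (fun g => ((JJ g).filter (· < (JJ g).card)).card)
      (fun x => ((JJ x).filter (· < (JJ x).card + 1)).card) ?_ ?_
    · refine Filter.Eventually.of_forall fun x => ?_
      obtain ⟨B, hB⟩ := far x
      filter_upwards [hyper_ge B, hyper_ge ((JJ x).card + 1)] with i hi hi2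
      obtain ⟨h3, h4, h5⟩ := hB i hi
      rw [h4, Finset.card_insert_of_notMem h3, Finset.filter_insert, if_neg (by omega)]
    · filter_upwards [h1, hyper_ge B₀] with i hi hi2
      filter_upwards [hi, hc, eventually_not_Tr hu (finite_Tr (max B₀ (i + 2)))] with x hx hx1 hx2
      have hx' : cc (x * yy i) = c₀ := hx
      obtain ⟨h3, h4, h5⟩ := mid x i (by rw [hx1]; exact hB₀.mono hi2) (by rw [hx', hx1])
      have h6 : i < (JJ x).card := by
        rcases h5 with h5 | h5
        · exfalso
          apply hx2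
          refine (DD x).tr (by rw [hx1]; exact hB₀.mono (le_max_left _ _)) ?_
          intro j hj
          have h7 : ¬ i < j := by
            intro h8
            have : j ∈ (JJ x).filter (i < ·) := Finset.mem_filter.mpr ⟨hj, h8⟩
            rw [h5] at this
            exact absurd this (Finset.notMem_empty j)
          exact lt_of_lt_of_le (by omega) (le_max_right B₀ (i + 2))
        · exact h5
      rw [h4, Finset.card_insert_of_notMem h3, Finset.filter_insert, if_pos (by omega),
        Finset.card_insert_of_notMem (by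
          rw [Finset.mem_filter, not_and_or]; exact Or.inl h3), Nat.even_add_one]
  · push Not at hB
    have hfin : ∀ S : Set G, S.Finite → ∀ᶠ x in (u : Filter G), cc x ∉ S := by
      intro S hS
      by_contra h
      have h1 : (∀ᶠ x in (u : Filter G), cc x ∈ S) := by
        rcases Ultrafilter.em u (fun x => cc x ∈ S) with h6 | h6
        · exact h6
        · exact absurd h6 h
      have h2 : S ∈ Ultrafilter.map cc u := h1
      obtain ⟨c, hc⟩ := Ultrafilter.eq_pure_of_finite_mem hS h2
      have h3 : {c} ∈ Ultrafilter.map cc u := by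
        rw [hc.2]; exact Set.mem_singleton c
      have h4 : ∀ᶠ x in (u : Filter G), cc x = c := h3
      obtain ⟨x, hx, hx'⟩ := ((hB c).and h4).exists
      exact hx hx'
    refine parity he (fun g => (JJ g).card) (fun x => (JJ x).card + 1) ?_ ?_
    · refine Filter.Eventually.of_forall fun x => ?_
      obtain ⟨B, hB⟩ := far x
      filter_upwards [hyper_ge B] with i hi
      obtain ⟨h3, h4, h5⟩ := hB i hi
      rw [h4, Finset.card_insert_of_notMem h3]
    · refine Filter.Eventually.of_forall fun i => ?_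
      filter_upwards [hfin _ (finite_Tr (i + 3))] with x hx
      rw [high x i hx, Nat.even_add_one, not_not]

/-! ### Properties of the group -/

theorem fc (g : G) : (Set.range fun h : G => h * g * h⁻¹).Finite := by
  obtain ⟨B, hB⟩ := exists_Tr g
  refine (finite_Tr B).subset ?_
  rintro _ ⟨h, rfl⟩
  exact hB.conj h

instance : Countable G := by
  have h : (Set.univ : Set G) = ⋃ B : ℕ, {x : G | Tr B x} := by
    ext x
    simp only [Set.mem_univ, Set.mem_iUnion, true_iff]
    exact exists_Tr x
  rw [← Set.countable_univ_iff, h]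
  exact Set.countable_iUnion fun B => (finite_Tr B).countable

theorem yy_inj : Function.Injective yy := by
  intro i j h
  have h1 : ∀ i : ℕ, Ends (yy i) i := fun i => ⟨yy_le le_rfl, yy_eq i, Tr_yy i⟩
  have h2 := h1 i
  rw [h] at h2
  exact h2.unique (h1 j)

instance : Infinite G := Infinite.of_injective yy yy_inj

theorem dtc_one : dtcNumber G = 1 := by
  have hmem : (1 : Cardinal) ∈ {κ : Cardinal | ∃ D : Set (Ultrafilter G), IsDTCSet D ∧
      Cardinal.mk D = κ} := by
    refine ⟨{vv}, fun u hu => ⟨vv, rfl, box_ne_dia u hu⟩, ?_⟩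
    exact Cardinal.mk_singleton vv
  refine le_antisymm (csInf_le' hmem) ?_
  rw [Cardinal.one_le_iff_ne_zero]
  intro h0
  have h1 := csInf_mem (s := {κ : Cardinal | ∃ D : Set (Ultrafilter G), IsDTCSet D ∧
      Cardinal.mk D = κ}) ⟨1, hmem⟩
  obtain ⟨D, hD, hD0⟩ := h1
  have h2 : Cardinal.mk D = 0 := hD0.trans h0
  rw [Cardinal.mk_set_eq_zero_iff] at h2
  subst h2
  obtain ⟨v, hv, _⟩ := hD (Filter.hyperfilter G) (by
    intro x hx
    have h3 : ({x} : Set G) ∈ (Filter.hyperfilter G : Ultrafilter G) := by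
      rw [hx]; exact Set.mem_singleton x
    have h4 := Set.Finite.compl_mem_hyperfilter (Set.finite_singleton x)
    have h5 : ({x}ᶜ : Set G) ∈ (Filter.hyperfilter G : Ultrafilter G) := h4
    exact (Ultrafilter.compl_mem_iff_notMem.mp h5) h3)
  exact hv

end Q22.DTC
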