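import Mathlib

/-! Definitions: the two Arens products of ultrafilters on a group, sets of ultrafilters that
determine the topological centre, and their least cardinality. -/

namespace Q22.DTC

/-- The members of the first product `u □ v`: the sets `A` such that, for `u`-almost all `x`, the
set `x⁻¹ A` belongs to `v`. -/
def box {G : Type} [Group G] (u v : Ultrafilter G) : Set (Set G) :=
  {A | {x | {y | x * y ∈ A} ∈ v} ∈ u}

/-- The members of the second product `u ◇ v`: the sets `A` such that, for `v`-almost all `x`, the
set `A x⁻¹` belongs to `u`. -/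
def dia {G : Type} [Group G] (u v : Ultrafilter G) : Set (Set G) :=
  {A | {x | {y | y * x ∈ A} ∈ u} ∈ v}

/-- `D` is a DTC set: for every nonprincipal `u` there is `v` in `D` with `u □ v ≠ u ◇ v`. -/
def IsDTCSet {G : Type} [Group G] (D : Set (Ultrafilter G)) : Prop :=
  ∀ u : Ultrafilter G, (∀ x : G, u ≠ pure x) → ∃ v ∈ D, box u v ≠ dia u v

/-- The least cardinality of a DTC set. -/
noncomputable def dtcNumber (G : Type) [Group G] : Cardinal :=
  sInf {κ : Cardinal | ∃ D : Set (Ultrafilter G), IsDTCSet D ∧ Cardinal.mk D = κ}

end Q22.DTC
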