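import Mathlib

/-! Algebraic entropy of actions of amenable groups on abelian groups: definitions. -/

namespace Q22.Entropy

open Filter

/-- The trajectory `T_F(α, X) = ∑_{g ∈ F} g • X`. -/
def trajectory {G A : Type*} [Group G] [AddCommGroup A] [DistribMulAction G A]
    (F : Finset G) (X : Set A) : Set A :=
  {a | ∃ x : G → A, (∀ g ∈ F, x g ∈ X) ∧ a = ∑ g ∈ F, g • x g}

open Classical in
/-- The right Følner filter of `G`, on the finite subsets of `G`: it is generated by the sets of
all finite nonempty `F` with `|{s ∈ F : sE ⊄ F}| ≤ ε |F|`, for `E` finite and `ε > 0`. A net of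
finite nonempty subsets is a right Følner net exactly when it tends to this filter. -/
noncomputable def rightFolner (G : Type*) [Group G] : Filter (Finset G) :=
  ⨅ (E : Finset G) (ε : {ε : ℝ // 0 < ε}),
    𝓟 {F | F.Nonempty ∧ ((F.filter fun s => ∃ e ∈ E, s * e ∉ F).card : ℝ) ≤ ε * F.card}

/-- `G` is amenable: right Følner nets exist. -/
def IsAmenable (G : Type*) [Group G] : Prop := (rightFolner G).NeBot

/-- `H_alg(α, X)`: the limit of `log |T_F(α, X)| / |F|` along the right Følner filter. -/
noncomputable def entropyAt (G : Type*) {A : Type*} [Group G] [AddCommGroup A]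
    [DistribMulAction G A] (X : Set A) : ℝ :=
  limUnder (rightFolner G) fun F => Real.log (Nat.card (trajectory F X)) / F.card

/-- `ent(α)`: the supremum of `H_alg(α, X)` over the finite subgroups `X`. -/
noncomputable def ent (G A : Type*) [Group G] [AddCommGroup A] [DistribMulAction G A] :
    ENNReal :=
  ⨆ X : {X : AddSubgroup A // Finite X}, ENNReal.ofReal (entropyAt G (X.1 : Set A))

/-- `h_alg(α)`: the supremum of `H_alg(α, X)` over the finite nonempty subsets `X`. -/
noncomputable def halg (G A : Type*) [Group G] [AddCommGroup A] [DistribMulAction G A] :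
    ENNReal :=
  ⨆ X : {X : Set A // X.Finite ∧ X.Nonempty}, ENNReal.ofReal (entropyAt G X.1)

end Q22.Entropy
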