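import Pool.Agent.Q22.Shearer
import Pool.Agent.Q22.EntropyDefs

/-! The infimum rule for algebraic entropy and the vanishing theorem. -/

namespace Q22.Entropy

open Filter Topology Finset

section Traj

variable {G A : Type*} [Group G] [AddCommGroup A] [DistribMulAction G A]

theorem trajectory_eq [DecidableEq G] [DecidableEq A] (X : Finset A) (hX : X.Nonempty)
    (F U : Finset G) (hU : U ⊆ F) :
    trajectory U (X : Set A) = ↑(Q22.Shearer.S (fun g : {g // g ∈ F} => X.image fun x => (g : G) • x)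
      (U.subtype (· ∈ F))) := by
  ext a
  have hsum : ∀ f : G → A, ∑ g ∈ U, f g = ∑ i ∈ U.subtype (· ∈ F), f i := by
    intro f
    rw [Finset.sum_subtype_of_mem f (fun x hx => hU hx)]
  simp only [Q22.Shearer.S, Finset.coe_image, Set.mem_image, Finset.mem_coe, Fintype.mem_piFinset,
    Finset.mem_image, trajectory, Set.mem_ofPred_eq]
  constructor
  · rintro ⟨x, hx, rfl⟩
    obtain ⟨x₀, hx₀⟩ := hX
    refine ⟨fun i => (i : G) • (if (i : G) ∈ U then x i else x₀), fun i => ?_, ?_⟩
    · refine ⟨_, ?_, rfl⟩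
      by_cases hi : (i : G) ∈ U
      · rw [if_pos hi]; exact hx _ hi
      · rw [if_neg hi]; exact hx₀
    · rw [hsum]
      refine Finset.sum_congr rfl fun i hi => ?_
      dsimp only
      rw [if_pos (Finset.mem_subtype.mp hi)]
  · rintro ⟨d, hd, rfl⟩
    choose x hx hxd using hd
    refine ⟨fun g => if h : g ∈ F then x ⟨g, h⟩ else 0, fun g hg => ?_, ?_⟩
    · dsimp only
      rw [dif_pos (hU hg)]; exact hx _
    · rw [hsum]
      refine Finset.sum_congr rfl fun i _ => ?_
      dsimp only
      rw [dif_pos i.2, ← hxd]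

theorem trajectory_finite {X : Set A} (hX : X.Finite) (hX0 : X.Nonempty) (F : Finset G) :
    (trajectory F X).Finite := by
  classical
  have h := trajectory_eq hX.toFinset (by simpa using hX0) F F subset_rfl
  rw [hX.coe_toFinset] at h
  rw [h]
  exact Finset.finite_toSet _

theorem trajectory_nonempty {X : Set A} (hX0 : X.Nonempty) (F : Finset G) :
    (trajectory F X).Nonempty := by
  obtain ⟨x, hx⟩ := hX0
  exact ⟨_, fun _ => x, fun _ _ => hx, rfl⟩

/-- The logarithm of the size of the trajectory. -/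
noncomputable def t (X : Set A) (F : Finset G) : ℝ := Real.log (Nat.card (trajectory F X))

theorem one_le_card {X : Set A} (hX : X.Finite) (hX0 : X.Nonempty) (F : Finset G) :
    1 ≤ Nat.card (trajectory F X) := by
  have := (trajectory_finite hX hX0 F).to_subtype
  have := (trajectory_nonempty hX0 F).to_subtype
  exact Nat.card_pos

theorem t_nonneg {X : Set A} (hX : X.Finite) (hX0 : X.Nonempty) (F : Finset G) : 0 ≤ t X F :=
  Real.log_nonneg (by exact_mod_cast one_le_card hX hX0 F)

theorem t_mono {X : Set A} (hX : X.Finite) (hX0 : X.Nonempty) {U V : Finset G} (h : U ⊆ V) :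
    t X U ≤ t X V := by
  classical
  obtain ⟨x₀, hx₀⟩ := hX0
  have hX0 : X.Nonempty := ⟨x₀, hx₀⟩
  refine Real.log_le_log (by exact_mod_cast one_le_card hX hX0 U) ?_
  have := (trajectory_finite hX hX0 V).to_subtype
  norm_cast
  refine Nat.card_le_card_of_injective
    (fun a : trajectory U X => (⟨a.1 + ∑ g ∈ V \ U, g • x₀, ?_⟩ : trajectory V X)) ?_
  · obtain ⟨x, hx, ha⟩ := a.2
    refine ⟨fun g => if g ∈ U then x g else x₀, fun g _ => ?_, ?_⟩
    · show (if g ∈ U then x g else x₀) ∈ X
      by_cases hg : g ∈ U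
      · rw [if_pos hg]; exact hx g hg
      · rw [if_neg hg]; exact hx₀
    · rw [ha, ← Finset.sum_sdiff h, add_comm]
      congr 1
      · refine Finset.sum_congr rfl fun g hg => ?_
        dsimp only
        rw [if_neg (Finset.mem_sdiff.mp hg).2]
      · refine Finset.sum_congr rfl fun g hg => ?_
        dsimp only
        rw [if_pos hg]
  · intro a b hab
    exact Subtype.ext (add_right_cancel (congrArg Subtype.val hab))

theorem t_translate [DecidableEq G] (X : Set A) (s : G) (F : Finset G) :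
    t X (F.image fun g => s * g) = t X F := by
  have h : trajectory (F.image fun g => s * g) X = (fun a => s • a) '' trajectory F X := by
    ext a
    constructor
    · rintro ⟨x, hx, rfl⟩
      refine ⟨∑ g ∈ F, g • x (s * g), ⟨fun g => x (s * g), fun g hg =>
        hx _ (Finset.mem_image_of_mem _ hg), rfl⟩, ?_⟩
      dsimp only
      rw [Finset.sum_image (fun a _ b _ h => mul_left_cancel h), Finset.smul_sum]
      exact Finset.sum_congr rfl fun g _ => (mul_smul s g _).symm
    · rintro ⟨_, ⟨x, hx, rfl⟩, rfl⟩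
      refine ⟨fun g => x (s⁻¹ * g), fun g hg => ?_, ?_⟩
      · obtain ⟨k, hk, rfl⟩ := Finset.mem_image.mp hg
        dsimp only
        rw [inv_mul_cancel_left]; exact hx k hk
      · dsimp only
        rw [Finset.sum_image (fun a _ b _ h => mul_left_cancel h), Finset.smul_sum]
        refine Finset.sum_congr rfl fun g _ => ?_
        rw [inv_mul_cancel_left, mul_smul]
  unfold t
  rw [h, Nat.card_image_of_injective (MulAction.injective s)]

/-- Shearer's inequality for trajectories. -/
theorem t_shearer [DecidableEq G] {X : Set A} (hX : X.Finite) (hX0 : X.Nonempty) (F : Finset G) {κ : Type*}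
    (s : Finset κ) (U : κ → Finset G) (hUF : ∀ j ∈ s, U j ⊆ F) (k : ℕ) (hk : 0 < k)
    (hcov : ∀ g ∈ F, (s.filter fun j => g ∈ U j).card = k) :
    k * t X F ≤ ∑ j ∈ s, t X (U j) := by
  classical
  have hF := trajectory_eq hX.toFinset (by simpa using hX0) F F subset_rfl
  have hU := fun j (hj : j ∈ s) => trajectory_eq hX.toFinset (by simpa using hX0) F (U j) (hUF j hj)
  rw [hX.coe_toFinset] at hF hU
  have huniv : F.subtype (· ∈ F) = Finset.univ := by
    ext i; simp
  rw [huniv] at hF
  have hB : ∀ g : {g // g ∈ F}, (hX.toFinset.image fun x => (g : G) • x).Nonempty := fun g =>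
    (by simpa using hX0 : hX.toFinset.Nonempty).image _
  have hmain := Q22.Shearer.shearer_sumset
    (fun g : {g // g ∈ F} => hX.toFinset.image fun x => (g : G) • x) hB s
    (fun j => (U j).subtype (· ∈ F)) k hk (by
      intro i
      rw [← hcov i i.2]
      congr 1
      ext j
      simp)
  have hcF : (Nat.card (trajectory F X) : ℝ) = ((Q22.Shearer.S
      (fun g : {g // g ∈ F} => hX.toFinset.image fun x => (g : G) • x) Finset.univ).card : ℝ) := by
    rw [hF, Nat.card_coe_set_eq, Set.ncard_coe_finset]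
  have hcU : ∀ j ∈ s, (Nat.card (trajectory (U j) X) : ℝ) = ((Q22.Shearer.S
      (fun g : {g // g ∈ F} => hX.toFinset.image fun x => (g : G) • x)
      ((U j).subtype (· ∈ F))).card : ℝ) := fun j hj => by
    rw [hU j hj, Nat.card_coe_set_eq, Set.ncard_coe_finset]
  have hpos : ∀ V : Finset G, (0 : ℝ) < Nat.card (trajectory V X) := fun V => by
    exact_mod_cast one_le_card hX hX0 V
  have h1 : (Nat.card (trajectory F X) : ℝ) ≤
      ∏ j ∈ s, (Nat.card (trajectory (U j) X) : ℝ) ^ ((1 : ℝ) / k) := by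
    rw [hcF]
    refine hmain.trans (le_of_eq ?_)
    exact Finset.prod_congr rfl fun j hj => by rw [hcU j hj]
  have h2 := Real.log_le_log (hpos F) h1
  rw [Real.log_prod (fun j _ => (Real.rpow_pos_of_pos (hpos _) _).ne')] at h2
  have h3 : ∑ j ∈ s, Real.log ((Nat.card (trajectory (U j) X) : ℝ) ^ ((1 : ℝ) / k)) =
      (1 / k) * ∑ j ∈ s, t X (U j) := by
    rw [Finset.mul_sum]
    exact Finset.sum_congr rfl fun j _ => Real.log_rpow (hpos _) _
  rw [h3] at h2
  have hk' : (0 : ℝ) < k := by exact_mod_cast hk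
  have h4 := mul_le_mul_of_nonneg_left h2 hk'.le
  have h5 : (k : ℝ) * ((1 / k) * ∑ j ∈ s, t X (U j)) = ∑ j ∈ s, t X (U j) := by
    field_simp
  rw [h5] at h4
  exact h4

/-- The main averaging inequality. -/
theorem t_avg [DecidableEq G] {X : Set A} (hX : X.Finite) (hX0 : X.Nonempty) (E F : Finset G)
    (hE : E.Nonempty) :
    (E.card : ℝ) * t X F ≤
      ((F ∪ E.biUnion fun e => (F.image fun g => g * e⁻¹)).card : ℝ) * t X E := by
  classical
  set P : Finset G := E.biUnion fun e => (F.image fun g => g * e⁻¹) with hP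
  have h1 := t_shearer hX hX0 F P (fun s => F.filter fun g => s⁻¹ * g ∈ E)
    (fun s _ => Finset.filter_subset _ _) E.card hE.card_pos (by
      intro g hg
      refine Finset.card_bij (fun s _ => s⁻¹ * g) ?_ ?_ ?_
      · intro s hs
        exact (Finset.mem_filter.mp (Finset.mem_filter.mp hs).2).2
      · intro s _ r _ h
        exact inv_injective (mul_right_cancel h)
      · intro e he
        refine ⟨g * e⁻¹, ?_, by group⟩
        rw [Finset.mem_filter, Finset.mem_filter]
        refine ⟨Finset.mem_biUnion.mpr ⟨e, he, Finset.mem_image_of_mem _ hg⟩, hg, ?_⟩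
        have : (g * e⁻¹)⁻¹ * g = e := by group
        rw [this]; exact he)
  refine h1.trans ?_
  have h2 : ∀ s ∈ P, t X (F.filter fun g => s⁻¹ * g ∈ E) ≤ t X E := by
    intro s _
    rw [← t_translate X s E]
    refine t_mono hX hX0 ?_
    intro g hg
    exact Finset.mem_image.mpr ⟨s⁻¹ * g, (Finset.mem_filter.mp hg).2, by group⟩
  refine (Finset.sum_le_sum h2).trans ?_
  rw [Finset.sum_const, nsmul_eq_mul]
  refine mul_le_mul_of_nonneg_right ?_ (t_nonneg hX hX0 E)
  exact_mod_cast Finset.card_le_card Finset.subset_union_right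

end Traj

section Folner

variable {G : Type*} [Group G]

open Classical in
/-- The basic sets of the right Følner filter. -/
noncomputable def Fo (E : Finset G) (ε : ℝ) : Set (Finset G) :=
  {F | F.Nonempty ∧ ((F.filter fun s => ∃ e ∈ E, s * e ∉ F).card : ℝ) ≤ ε * F.card}

theorem Fo_mem (E : Finset G) {ε : ℝ} (hε : 0 < ε) : Fo E ε ∈ rightFolner G :=
  mem_iInf_of_mem E (mem_iInf_of_mem ⟨ε, hε⟩ (mem_principal_self _))

theorem Fo_mono {E E' : Finset G} (hE : E ⊆ E') {ε ε' : ℝ} (hε : ε' ≤ ε) :
    Fo E' ε' ⊆ Fo E ε := by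
  classical
  rintro F ⟨h1, h2⟩
  refine ⟨h1, ?_⟩
  calc _ ≤ ((F.filter fun s => ∃ e ∈ E', s * e ∉ F).card : ℝ) := by
        norm_cast
        refine Finset.card_le_card fun s hs => ?_
        obtain ⟨h3, e, he, h4⟩ := Finset.mem_filter.mp hs
        exact Finset.mem_filter.mpr ⟨h3, e, hE he, h4⟩
    _ ≤ ε' * F.card := h2
    _ ≤ ε * F.card := mul_le_mul_of_nonneg_right hε (by positivity)

theorem mem_rightFolner {S : Set (Finset G)} :
    S ∈ rightFolner G ↔ ∃ (E : Finset G) (ε : ℝ), 0 < ε ∧ Fo E ε ⊆ S := by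
  classical
  constructor
  · intro h
    have h' : S ∈ ⨅ p : Finset G × {ε : ℝ // 0 < ε}, 𝓟 (Fo p.1 p.2.1) := by
      rw [iInf_prod]; exact h
    rw [mem_iInf_of_directed] at h'
    · obtain ⟨p, hp⟩ := h'
      exact ⟨p.1, p.2.1, p.2.2, mem_principal.mp hp⟩
    · intro p q
      refine ⟨(p.1 ∪ q.1, ⟨min p.2.1 q.2.1, lt_min p.2.2 q.2.2⟩), ?_, ?_⟩
      · exact principal_mono.mpr (Fo_mono Finset.subset_union_left (min_le_left _ _))
      · exact principal_mono.mpr (Fo_mono Finset.subset_union_right (min_le_right _ _))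
  · rintro ⟨E, ε, hε, h⟩
    exact mem_of_superset (Fo_mem E hε) h

theorem folner_neBot_iff : (rightFolner G).NeBot ↔ ∀ (E : Finset G) (ε : ℝ), 0 < ε → (Fo E ε).Nonempty := by
  constructor
  · intro h E ε hε
    exact h.nonempty_of_mem (Fo_mem E hε)
  · intro h
    rw [Filter.neBot_iff]
    intro hbot
    have : (∅ : Set (Finset G)) ∈ rightFolner G := by rw [hbot]; exact mem_bot
    obtain ⟨E, ε, hε, h'⟩ := mem_rightFolner.mp this
    exact (h E ε hε).ne_empty (Set.subset_empty_iff.mp h')

/-- Subgroups of amenable groups are amenable. -/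
theorem amenable_subgroup (hG : (rightFolner G).NeBot) (H : Subgroup G) :
    (rightFolner H).NeBot := by
  classical
  rw [folner_neBot_iff] at hG ⊢
  intro E ε hε
  obtain ⟨F, hF, hFε⟩ := hG (E.image Subtype.val) ε hε
  set bad := F.filter fun s => ∃ e ∈ E.image Subtype.val, s * e ∉ F with hbad
  let c : G → G ⧸ H := QuotientGroup.mk
  have hsum1 : F.card = ∑ x ∈ F.image c, (F.filter fun s => c s = x).card :=
    Finset.card_eq_sum_card_image c F
  have hsum2 : bad.card = ∑ x ∈ F.image c, (bad.filter fun s => c s = x).card :=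
    Finset.card_eq_sum_card_fiberwise fun s hs => Finset.mem_coe.mpr
      (Finset.mem_image_of_mem c (Finset.mem_filter.mp (Finset.mem_coe.mp hs)).1)
  obtain ⟨x, hx, hxle⟩ : ∃ x ∈ F.image c, ((bad.filter fun s => c s = x).card : ℝ) ≤
      ε * (F.filter fun s => c s = x).card := by
    by_contra hcon
    push Not at hcon
    have h1 : ∑ x ∈ F.image c, ε * ((F.filter fun s => c s = x).card : ℝ) <
        ∑ x ∈ F.image c, ((bad.filter fun s => c s = x).card : ℝ) :=
      Finset.sum_lt_sum_of_nonempty (hF.image c) hcon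
    rw [← Finset.mul_sum] at h1
    have h2 : (∑ x ∈ F.image c, ((F.filter fun s => c s = x).card : ℝ)) = F.card := by
      rw [hsum1]; push_cast; rfl
    have h3 : (∑ x ∈ F.image c, ((bad.filter fun s => c s = x).card : ℝ)) = bad.card := by
      rw [hsum2]; push_cast; rfl
    rw [h2, h3] at h1
    exact absurd hFε (not_le.mpr h1)
  obtain ⟨g, hg, hgx⟩ := Finset.mem_image.mp hx
  -- the section
  have hmem : ∀ s : G, c s = x ↔ ∃ h : H, g * h = s := by
    intro s
    rw [← hgx]
    constructor
    · intro h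
      have h1 : g⁻¹ * s ∈ H := QuotientGroup.eq.mp h.symm
      exact ⟨⟨g⁻¹ * s, h1⟩, by simp⟩
    · rintro ⟨h, rfl⟩
      exact (QuotientGroup.eq.mpr (by simp)).symm
  let F' : Finset H := F.preimage (fun h : H => g * (h : G)) (by
    intro a _ b _ hab
    exact Subtype.ext (mul_left_cancel hab))
  have hinj : Function.Injective fun h : H => g * (h : G) := fun a b hab =>
    Subtype.ext (mul_left_cancel hab)
  have hF' : ∀ h : H, h ∈ F' ↔ g * (h : G) ∈ F := fun h => Finset.mem_preimage
  have hcardF : F'.card = (F.filter fun s => c s = x).card := by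
    rw [← Finset.card_image_of_injective F' hinj]
    congr 1
    ext s
    rw [Finset.mem_image, Finset.mem_filter, hmem]
    constructor
    · rintro ⟨h, hh, rfl⟩
      exact ⟨(hF' h).mp hh, h, rfl⟩
    · rintro ⟨hs, h, rfl⟩
      exact ⟨h, (hF' h).mpr hs, rfl⟩
  have hcardB : (F'.filter fun s => ∃ e ∈ E, s * e ∉ F').card =
      (bad.filter fun s => c s = x).card := by
    rw [← Finset.card_image_of_injective _ hinj]
    congr 1
    ext s
    rw [Finset.mem_image, Finset.mem_filter, hmem, hbad, Finset.mem_filter]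
    constructor
    · rintro ⟨h, hh, rfl⟩
      obtain ⟨hh1, e, he, hhe⟩ := Finset.mem_filter.mp hh
      refine ⟨⟨(hF' h).mp hh1, e, Finset.mem_image_of_mem _ he, ?_⟩, h, rfl⟩
      rw [hF'] at hhe
      rwa [mul_assoc]
    · rintro ⟨⟨hs, e, he, hse⟩, h, rfl⟩
      obtain ⟨e', he', rfl⟩ := Finset.mem_image.mp he
      refine ⟨h, Finset.mem_filter.mpr ⟨(hF' h).mpr hs, e', he', ?_⟩, rfl⟩
      rw [hF']
      rwa [mul_assoc] at hse
  refine ⟨F', ⟨1, (hF' 1).mpr (by simpa using hg)⟩, ?_⟩
  rw [← hcardB, ← hcardF] at hxle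
  convert hxle

end Folner

section Limit

variable {G A : Type*} [Group G] [AddCommGroup A] [DistribMulAction G A]

/-- The infimum of the averages. -/
noncomputable def L (G : Type*) {A : Type*} [Group G] [AddCommGroup A] [DistribMulAction G A]
    (X : Set A) : ℝ :=
  sInf {r : ℝ | ∃ E : Finset G, E.Nonempty ∧ r = t X E / E.card}

theorem L_le {X : Set A} (hX : X.Finite) (hX0 : X.Nonempty) (E : Finset G) (hE : E.Nonempty) :
    L G X ≤ t X E / E.card := by
  refine csInf_le ⟨0, ?_⟩ ⟨E, hE, rfl⟩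
  rintro r ⟨F, _, rfl⟩
  exact div_nonneg (t_nonneg hX hX0 F) (by positivity)

theorem L_nonneg {X : Set A} (hX : X.Finite) (hX0 : X.Nonempty) : 0 ≤ L G X := by
  refine le_csInf ⟨_, {1}, Finset.singleton_nonempty 1, rfl⟩ ?_
  rintro r ⟨F, _, rfl⟩
  exact div_nonneg (t_nonneg hX hX0 F) (by positivity)

theorem le_L {X : Set A} {c : ℝ} (h : ∀ E : Finset G, E.Nonempty → c * E.card ≤ t X E) :
    c ≤ L G X := by
  refine le_csInf ⟨_, {1}, Finset.singleton_nonempty 1, rfl⟩ ?_
  rintro r ⟨F, hF, rfl⟩
  have : (0 : ℝ) < F.card := by exact_mod_cast hF.card_pos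
  rw [le_div_iff₀ this]
  exact h F hF

theorem tendsto_L {X : Set A} (hX : X.Finite) (hX0 : X.Nonempty) :
    Tendsto (fun F : Finset G => t X F / F.card) (rightFolner G) (𝓝 (L G X)) := by
  classical
  rw [tendsto_order]
  constructor
  · intro a ha
    filter_upwards [Fo_mem (G := G) ∅ one_pos] with F hF
    exact ha.trans_le (L_le hX hX0 F hF.1)
  · intro b hb
    have hne : {r : ℝ | ∃ E : Finset G, E.Nonempty ∧ r = t X E / E.card}.Nonempty :=
      ⟨_, {1}, Finset.singleton_nonempty 1, rfl⟩
    obtain ⟨r, ⟨E, hE, hrE⟩, hr⟩ := exists_lt_of_csInf_lt hne hb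
    have hr0 : 0 ≤ r := by rw [hrE]; exact div_nonneg (t_nonneg hX hX0 E) (by positivity)
    have hEc : (0 : ℝ) < E.card := by exact_mod_cast hE.card_pos
    obtain ⟨ε, hε0, hε⟩ : ∃ ε : ℝ, 0 < ε ∧ E.card * ε * (r + 1) = (b - r) / 2 := by
      refine ⟨(b - r) / (2 * E.card * (r + 1)), ?_, ?_⟩
      · have : 0 < b - r := by linarith
        positivity
      · field_simp
    filter_upwards [Fo_mem (G := G) (E.image fun e => e⁻¹) hε0] with F hF
    obtain ⟨hF0, hF1⟩ := hF
    have hFc : (0 : ℝ) < F.card := by exact_mod_cast hF0.card_pos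
    set bad := F.filter fun s => ∃ e ∈ E.image (fun e => e⁻¹), s * e ∉ F with hbad
    have h1 := t_avg hX hX0 E F hE
    have h2 : ((F ∪ E.biUnion fun e => (F.image fun g => g * e⁻¹)).card : ℝ) ≤
        F.card + E.card * (ε * F.card) := by
      have hsub : (F ∪ E.biUnion fun e => (F.image fun g => g * e⁻¹)) ⊆
          F ∪ E.biUnion fun e => (bad.image fun g => g * e⁻¹) := by
        intro s hs
        rcases Finset.mem_union.mp hs with hs | hs
        · exact Finset.mem_union_left _ hs
        · obtain ⟨e, he, hs⟩ := Finset.mem_biUnion.mp hs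
          obtain ⟨g, hg, rfl⟩ := Finset.mem_image.mp hs
          by_cases hgF : g * e⁻¹ ∈ F
          · exact Finset.mem_union_left _ hgF
          · refine Finset.mem_union_right _ (Finset.mem_biUnion.mpr ⟨e, he, ?_⟩)
            exact Finset.mem_image_of_mem _ (Finset.mem_filter.mpr
              ⟨hg, e⁻¹, Finset.mem_image_of_mem _ he, hgF⟩)
      have h3 : (F ∪ E.biUnion fun e => (F.image fun g => g * e⁻¹)).card ≤
          F.card + E.card * bad.card := by
        refine (Finset.card_le_card hsub).trans ((Finset.card_union_le _ _).trans ?_)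
        refine Nat.add_le_add_left ?_ _
        exact Finset.card_biUnion_le_card_mul _ _ _ fun e _ => Finset.card_image_le
      have h4 : ((F ∪ E.biUnion fun e => (F.image fun g => g * e⁻¹)).card : ℝ) ≤
          F.card + E.card * bad.card := by exact_mod_cast h3
      refine h4.trans ?_
      have := mul_le_mul_of_nonneg_left hF1 hEc.le
      linarith
    have ht : t X E = r * E.card := by rw [hrE, div_mul_cancel₀ _ hEc.ne']
    have h5 : E.card * t X F ≤ (F.card + E.card * (ε * F.card)) * (r * E.card) := by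
      refine h1.trans ?_
      rw [ht]
      exact mul_le_mul_of_nonneg_right h2 (mul_nonneg hr0 hEc.le)
    have h6 : t X F / F.card ≤ (1 + E.card * ε) * r := by
      rw [div_le_iff₀ hFc]
      have : E.card * t X F ≤ E.card * ((1 + E.card * ε) * r * F.card) := by
        refine h5.trans (le_of_eq ?_)
        ring
      exact le_of_mul_le_mul_left this hEc
    refine h6.trans_lt ?_
    have h8 : 0 ≤ E.card * ε := mul_nonneg hEc.le hε0.le
    nlinarith

theorem entropyAt_eq (hG : (rightFolner G).NeBot) {X : Set A} (hX : X.Finite)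
    (hX0 : X.Nonempty) : entropyAt G X = L G X :=
  (tendsto_L hX hX0).limUnder_eq

end Limit

section Main

variable {G A : Type*} [Group G] [AddCommGroup A] [DistribMulAction G A]

theorem trajectory_trajectory [DecidableEq G] (H : Subgroup G) (R : Finset G)
    (hR : ∀ r ∈ R, ∀ r' ∈ R, ∀ h h' : H, (h : G) * r = h' * r' → r = r') (X : Set A)
    (E : Finset H) :
    trajectory E (trajectory R X) = trajectory ((E ×ˢ R).image fun p => (p.1 : G) * p.2) X := by
  classical
  have hinj : Set.InjOn (fun p : H × G => (p.1 : G) * p.2) (E ×ˢ R : Finset (H × G)) := by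
    rintro ⟨h, r⟩ h1 ⟨h', r'⟩ h2 he
    have h1' := (Finset.mem_product.mp (Finset.mem_coe.mp h1)).2
    have h2' := (Finset.mem_product.mp (Finset.mem_coe.mp h2)).2
    have e1 : r = r' := hR r h1' r' h2' h h' he
    subst e1
    have e2 : (h : G) = h' := mul_right_cancel he
    rw [Subtype.ext e2]
  have hsum : ∀ f : G → A, ∑ g ∈ (E ×ˢ R).image (fun p => (p.1 : G) * p.2), f g =
      ∑ h ∈ E, ∑ r ∈ R, f (h * r) := by
    intro f
    rw [Finset.sum_image hinj, Finset.sum_product]
  ext a
  constructor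
  · rintro ⟨y, hy, rfl⟩
    have hy' : ∀ h : H, ∃ x : G → A, h ∈ E → (∀ r ∈ R, x r ∈ X) ∧ y h = ∑ r ∈ R, r • x r := by
      intro h
      by_cases hh : h ∈ E
      · obtain ⟨x, hx⟩ := hy h hh
        exact ⟨x, fun _ => hx⟩
      · exact ⟨fun _ => 0, fun h' => absurd h' hh⟩
    choose x hx using hy'
    let inv : G → H × G := Function.invFunOn (fun p : H × G => (p.1 : G) * p.2)
      (E ×ˢ R : Finset (H × G))
    have hinv : ∀ h ∈ E, ∀ r ∈ R, inv (h * r) = (h, r) := by
      intro h hh r hr
      have hp : (h, r) ∈ E ×ˢ R := Finset.mem_product.mpr ⟨hh, hr⟩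
      exact hinj.leftInvOn_invFunOn (Finset.mem_coe.mpr hp)
    refine ⟨fun g => x (inv g).1 (inv g).2, ?_, ?_⟩
    · intro g hg
      obtain ⟨⟨h, r⟩, hp, rfl⟩ := Finset.mem_image.mp hg
      obtain ⟨hh, hr⟩ := Finset.mem_product.mp hp
      dsimp only
      rw [hinv h hh r hr]
      exact (hx h hh).1 r hr
    · rw [hsum]
      refine Finset.sum_congr rfl fun h hh => ?_
      rw [(hx h hh).2, Subgroup.smul_def, Finset.smul_sum]
      refine Finset.sum_congr rfl fun r hr => ?_
      dsimp only
      rw [hinv h hh r hr, mul_smul]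
  · rintro ⟨x, hx, rfl⟩
    refine ⟨fun h => ∑ r ∈ R, r • x (h * r), ?_, ?_⟩
    · intro h hh
      exact ⟨fun r => x (h * r), fun r hr => hx _ (Finset.mem_image.mpr
        ⟨(h, r), Finset.mem_product.mpr ⟨hh, hr⟩, rfl⟩), rfl⟩
    · rw [hsum]
      refine Finset.sum_congr rfl fun h _ => ?_
      rw [Subgroup.smul_def, Finset.smul_sum]
      exact Finset.sum_congr rfl fun r _ => mul_smul _ _ _

theorem exists_cosets (H : Subgroup G) (hH : H.index = 0) (n : ℕ) :
    ∃ R : Finset G, R.card = n ∧
      ∀ r ∈ R, ∀ r' ∈ R, ∀ h h' : H, (h : G) * r = h' * r' → r = r' := by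
  classical
  have hinf : Infinite (G ⧸ H) := by
    rw [Subgroup.index, Nat.card_eq_zero] at hH
    rcases hH with h | h
    · exact absurd h (not_isEmpty_iff.mpr ⟨QuotientGroup.mk 1⟩)
    · exact h
  obtain ⟨C, _, hC⟩ := (Set.infinite_univ (α := G ⧸ H)).exists_subset_card_eq n
  have hsurj : Function.Surjective (QuotientGroup.mk : G → G ⧸ H) := QuotientGroup.mk_surjective
  let σ : G ⧸ H → G := Function.surjInv hsurj
  have hσ : ∀ c, (QuotientGroup.mk (σ c) : G ⧸ H) = c := Function.surjInv_eq hsurj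
  have hinj : Function.Injective fun c : G ⧸ H => (σ c)⁻¹ := by
    intro c d h
    have : σ c = σ d := inv_injective h
    rw [← hσ c, this, hσ d]
  refine ⟨C.image fun c => (σ c)⁻¹, ?_, ?_⟩
  · rw [Finset.card_image_of_injective _ hinj, hC]
  · intro r hr r' hr' h h' he
    obtain ⟨c, _, rfl⟩ := Finset.mem_image.mp hr
    obtain ⟨d, _, rfl⟩ := Finset.mem_image.mp hr'
    have h1 : (σ c)⁻¹ * σ d ∈ H := by
      have h2 : (σ c)⁻¹ = (h : G)⁻¹ * (h' * (σ d)⁻¹) := by
        rw [← he]; group
      have h3 : (σ c)⁻¹ * σ d = (h : G)⁻¹ * h' := by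
        rw [h2]; group
      rw [h3]
      exact H.mul_mem (H.inv_mem h.2) h'.2
    have h2 : c = d := by
      rw [← hσ c, ← hσ d]
      exact QuotientGroup.eq.mpr h1
    rw [h2]

theorem L_scale (H : Subgroup G) (R : Finset G)
    (hR : ∀ r ∈ R, ∀ r' ∈ R, ∀ h h' : H, (h : G) * r = h' * r' → r = r') (hR0 : R.Nonempty)
    {X : Set A} (hX : X.Finite) (hX0 : X.Nonempty) :
    R.card * L G X ≤ L H (trajectory R X) := by
  classical
  refine le_L fun E hE => ?_
  have h1 : t (trajectory R X) E = t X ((E ×ˢ R).image fun p => (p.1 : G) * p.2) := by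
    unfold t
    rw [trajectory_trajectory H R hR X E]
  have hinj : Set.InjOn (fun p : H × G => (p.1 : G) * p.2) (E ×ˢ R : Finset (H × G)) := by
    rintro ⟨h, r⟩ h1 ⟨h', r'⟩ h2 he
    have h1' := (Finset.mem_product.mp (Finset.mem_coe.mp h1)).2
    have h2' := (Finset.mem_product.mp (Finset.mem_coe.mp h2)).2
    have e1 : r = r' := hR r h1' r' h2' h h' he
    subst e1
    have e2 : (h : G) = h' := mul_right_cancel he
    rw [Subtype.ext e2]
  have hcard : ((E ×ˢ R).image fun p => (p.1 : G) * p.2).card = E.card * R.card := by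
    rw [Finset.card_image_of_injOn hinj, Finset.card_product]
  have hne : ((E ×ˢ R).image fun p => (p.1 : G) * p.2).Nonempty := (hE.product hR0).image _
  have h2 := L_le hX hX0 _ hne
  rw [hcard, ← h1, le_div_iff₀ (by
    have := hE.card_pos
    have := hR0.card_pos
    positivity)] at h2
  push_cast at h2
  linarith

theorem L_zero (hG : (rightFolner G).NeBot) (H : Subgroup G) (hH : H.index = 0) (C : ℝ)
    {X : Set A} (hX : X.Finite) (hX0 : X.Nonempty)
    (hC : ∀ R : Finset G, entropyAt H (trajectory R X) ≤ C) : entropyAt G X = 0 := by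
  rw [entropyAt_eq hG hX hX0]
  refine le_antisymm ?_ (L_nonneg hX hX0)
  by_contra hpos
  push Not at hpos
  obtain ⟨n, hn⟩ := exists_nat_gt (C / L G X)
  obtain ⟨R, hRc, hR⟩ := exists_cosets H hH (n + 1)
  have hR0 : R.Nonempty := Finset.card_pos.mp (by omega)
  have h1 := L_scale H R hR hR0 hX hX0
  have h2 := hC R
  rw [entropyAt_eq (amenable_subgroup hG H) (trajectory_finite hX hX0 R)
    (trajectory_nonempty hX0 R)] at h2
  rw [div_lt_iff₀ hpos] at hn
  rw [hRc] at h1
  push_cast at h1
  nlinarith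

theorem halg_eq_zero (hG : IsAmenable G) (H : Subgroup G) (hH : H.index = 0)
    (hfin : halg H A < ⊤) : halg G A = 0 := by
  rw [halg, ENNReal.iSup_eq_zero]
  rintro ⟨X, hX, hX0⟩
  rw [L_zero hG H hH (halg H A).toReal hX hX0 ?_, ENNReal.ofReal_zero]
  intro R
  have h1 : ENNReal.ofReal (entropyAt H (trajectory R X)) ≤ halg H A :=
    le_iSup (fun X : {X : Set A // X.Finite ∧ X.Nonempty} => ENNReal.ofReal (entropyAt H X.1))
      ⟨trajectory R X, trajectory_finite hX hX0 R, trajectory_nonempty hX0 R⟩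
  exact (ENNReal.ofReal_le_iff_le_toReal hfin.ne).mp h1

theorem ent_eq_zero (hG : IsAmenable G) (H : Subgroup G) (hH : H.index = 0)
    (hfin : ent H A < ⊤) : ent G A = 0 := by
  rw [ent, ENNReal.iSup_eq_zero]
  rintro ⟨X, hX⟩
  have hXf : (X : Set A).Finite := Set.toFinite _
  have hX0 : (X : Set A).Nonempty := ⟨0, X.zero_mem⟩
  rw [L_zero hG H hH (ent H A).toReal hXf hX0 ?_, ENNReal.ofReal_zero]
  intro R
  let Y : AddSubgroup A :=
    { carrier := trajectory R (X : Set A)
      zero_mem' := ⟨fun _ => 0, fun _ _ => X.zero_mem, by simp⟩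
      add_mem' := by
        rintro a b ⟨x, hx, rfl⟩ ⟨y, hy, rfl⟩
        refine ⟨fun g => x g + y g, fun g hg => X.add_mem (hx g hg) (hy g hg), ?_⟩
        rw [← Finset.sum_add_distrib]
        exact Finset.sum_congr rfl fun g _ => (smul_add g (x g) (y g)).symm
      neg_mem' := by
        rintro a ⟨x, hx, rfl⟩
        refine ⟨fun g => -x g, fun g hg => X.neg_mem (hx g hg), ?_⟩
        rw [← Finset.sum_neg_distrib]
        exact Finset.sum_congr rfl fun g _ => (smul_neg g (x g)).symm }
  have hY : Finite Y := (trajectory_finite hXf hX0 R).to_subtype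
  have h1 : ENNReal.ofReal (entropyAt H (trajectory R (X : Set A))) ≤ ent H A :=
    le_iSup (fun X : {X : AddSubgroup A // Finite X} =>
      ENNReal.ofReal (entropyAt H (X.1 : Set A))) ⟨Y, hY⟩
  exact (ENNReal.ofReal_le_iff_le_toReal hfin.ne).mp h1

end Main

end Q22.Entropy
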