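import Pool.Agent.Q22.Entropy
import Pool.Agent.Q22.EntropyDefsB

/-! The two descriptions of right Følner nets agree. -/

namespace Q22.EntropyB

open Filter Finset

variable {G : Type*} [Group G]

open Classical in
theorem card_symm (F : Finset G) (g : G) :
    (symmDiff (F.image fun s => s * g) F).card = 2 * (F.filter fun s => s * g ∉ F).card := by
  have hinj : Function.Injective fun s : G => s * g := mul_left_injective g
  have h1 : ((F.image fun s => s * g) \ F).card = (F.filter fun s => s * g ∉ F).card := by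
    rw [← Finset.card_image_of_injective (F.filter fun s => s * g ∉ F) hinj]
    congr 1
    ext x
    rw [Finset.mem_sdiff, Finset.mem_image, Finset.mem_image]
    constructor
    · rintro ⟨⟨s, hs, rfl⟩, h⟩
      exact ⟨s, Finset.mem_filter.mpr ⟨hs, h⟩, rfl⟩
    · rintro ⟨s, hs, rfl⟩
      obtain ⟨hs, h⟩ := Finset.mem_filter.mp hs
      exact ⟨⟨s, hs, rfl⟩, h⟩
  have h2 : (F \ (F.image fun s => s * g)).card = ((F.image fun s => s * g) \ F).card :=
    Finset.card_sdiff_comm (Finset.card_image_of_injective _ hinj).symm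
  rw [symmDiff_def, Finset.sup_eq_union, Finset.card_union_of_disjoint disjoint_sdiff_sdiff, h2,
    h1]
  ring

theorem rightFolner_eq : rightFolner G = Q22.Entropy.rightFolner G := by
  classical
  apply le_antisymm
  · refine le_iInf fun E => le_iInf fun ε => ?_
    rw [le_principal_iff]
    obtain ⟨ε, hε⟩ := ε
    have hmem : ∀ g : G, ∀ δ : ℝ, 0 < δ → {F : Finset G | F.Nonempty ∧
        ((symmDiff (F.image fun s => s * g) F).card : ℝ) ≤ δ * F.card} ∈ rightFolner G :=
      fun g δ hδ => mem_iInf_of_mem g (mem_iInf_of_mem ⟨δ, hδ⟩ (by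
        convert mem_principal_self _))
    have hδ : 0 < ε / (E.card + 1) := by positivity
    filter_upwards [hmem 1 1 one_pos, (Filter.biInter_finset_mem E).mpr
      fun e _ => hmem e (ε / (E.card + 1)) hδ] with F hF hFE
    refine ⟨hF.1, ?_⟩
    have h1 : (F.filter fun s => ∃ e ∈ E, s * e ∉ F) ⊆
        E.biUnion fun e => F.filter fun s => s * e ∉ F := by
      intro s hs
      obtain ⟨hs, e, he, h⟩ := Finset.mem_filter.mp hs
      exact Finset.mem_biUnion.mpr ⟨e, he, Finset.mem_filter.mpr ⟨hs, h⟩⟩
    have h2 : ((F.filter fun s => ∃ e ∈ E, s * e ∉ F).card : ℝ) ≤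
        ∑ e ∈ E, ((F.filter fun s => s * e ∉ F).card : ℝ) := by
      exact_mod_cast (Finset.card_le_card h1).trans Finset.card_biUnion_le
    have h3 : ∀ e ∈ E, ((F.filter fun s => s * e ∉ F).card : ℝ) ≤
        ε / (E.card + 1) * F.card := by
      intro e he
      have := (Set.mem_iInter₂.mp hFE e he).2
      rw [card_symm] at this
      push_cast at this
      have h0 : (0 : ℝ) ≤ ((F.filter fun s => s * e ∉ F).card : ℝ) := by positivity
      linarith
    have h4 := h2.trans (Finset.sum_le_sum h3)
    rw [Finset.sum_const, nsmul_eq_mul] at h4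
    have h5 : (E.card : ℝ) * (ε / (E.card + 1) * F.card) ≤ ε * F.card := by
      have h6 : (E.card : ℝ) * (ε / (E.card + 1)) ≤ ε := by
        rw [mul_div_assoc', div_le_iff₀ (by positivity)]
        nlinarith
      have h7 : (0 : ℝ) ≤ F.card := by positivity
      calc (E.card : ℝ) * (ε / (E.card + 1) * F.card) = (E.card : ℝ) * (ε / (E.card + 1)) * F.card := by
            ring
        _ ≤ ε * F.card := mul_le_mul_of_nonneg_right h6 h7
    convert h4.trans h5
  · refine le_iInf fun g => le_iInf fun ε => ?_
    rw [le_principal_iff]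
    obtain ⟨ε, hε⟩ := ε
    filter_upwards [Q22.Entropy.Fo_mem {g} (half_pos hε)] with F hF
    refine ⟨hF.1, ?_⟩
    have h1 := hF.2
    have h2 : (F.filter fun s => ∃ e ∈ ({g} : Finset G), s * e ∉ F) =
        F.filter fun s => s * g ∉ F := by
      ext s; simp
    have h3 := card_symm F g
    have h4 : ((symmDiff (F.image fun s => s * g) F).card : ℝ) =
        2 * ((F.filter fun s => ∃ e ∈ ({g} : Finset G), s * e ∉ F).card : ℝ) := by
      rw [h2, h3]; push_cast; ring
    have h5 : ((F.filter fun s => ∃ e ∈ ({g} : Finset G), s * e ∉ F).card : ℝ) ≤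
        ε / 2 * F.card := by convert h1
    have h6 : ((symmDiff (F.image fun s => s * g) F).card : ℝ) ≤ ε * F.card := by
      rw [h4]; linarith
    convert h6

theorem halg_eq (G A : Type*) [Group G] [AddCommGroup A] [DistribMulAction G A] :
    halg G A = Q22.Entropy.halg G A := by
  unfold halg Q22.Entropy.halg entropyAt Q22.Entropy.entropyAt
  rw [rightFolner_eq]
  rfl

theorem halg_eq_zero {G A : Type*} [Group G] [AddCommGroup A] [DistribMulAction G A]
    (hG : IsAmenable G) (H : Subgroup G) (hH : H.index = 0)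
    (hfin : halg H A < ⊤) : halg G A = 0 := by
  rw [halg_eq] at hfin ⊢
  refine Q22.Entropy.halg_eq_zero ?_ H hH hfin
  unfold IsAmenable at hG
  rw [rightFolner_eq] at hG
  exact hG

end Q22.EntropyB
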