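import Mathlib

/-! Coset avoidance (B. H. Neumann) and the FC-centre of a group. -/

namespace Q22

open scoped Pointwise

section Avoid

variable {G : Type*} [Group G]

theorem exists_avoid [Infinite G] {ι : Type*} (s : Finset ι) (H : ι → Subgroup G) (g : ι → G)
    (hH : ∀ i ∈ s, ¬ (H i).FiniteIndex) (F : Finset G) :
    ∃ b : G, b ∉ F ∧ ∀ i ∈ s, (g i)⁻¹ * b ∉ H i := by
  classical
  by_contra hcon
  push Not at hcon
  let s' : Finset (ι ⊕ G) := s.disjSum F
  let H' : ι ⊕ G → Subgroup G := Sum.elim H (fun _ => ⊥)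
  let g' : ι ⊕ G → G := Sum.elim g id
  have hc : ⋃ i ∈ s', (g' i) • (H' i : Set G) = Set.univ := by
    rw [Set.eq_univ_iff_forall]
    intro b
    by_cases hb : b ∈ F
    · refine Set.mem_iUnion₂.mpr ⟨Sum.inr b, by simp [s', hb], ?_⟩
      rw [mem_leftCoset_iff]
      simp [g', H']
    · obtain ⟨i, hi, hbi⟩ := hcon b hb
      refine Set.mem_iUnion₂.mpr ⟨Sum.inl i, by simp [s', hi], ?_⟩
      rw [mem_leftCoset_iff]
      simpa [g', H'] using hbi
  obtain ⟨k, hk, hfi⟩ := Subgroup.exists_finiteIndex_of_leftCoset_cover hc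
  rcases k with i | x
  · exact hH i (by simpa [s'] using hk) hfi
  · have : (⊥ : Subgroup G).FiniteIndex := hfi
    have h0 := this.index_ne_zero
    rw [Subgroup.index_bot] at h0
    exact h0 (Nat.card_eq_zero_of_infinite)

end Avoid

section FC

variable (G : Type*) [Group G]

/-- The FC-centre: elements with finitely many conjugates. -/
def fc : Subgroup G where
  carrier := {x | (Set.range fun g : G => g * x * g⁻¹).Finite}
  one_mem' := by
    refine (Set.finite_singleton (1 : G)).subset ?_
    rintro _ ⟨g, rfl⟩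
    simp
  mul_mem' := by
    intro a b ha hb
    refine (Set.Finite.mul ha hb).subset ?_
    rintro _ ⟨g, rfl⟩
    exact ⟨g * a * g⁻¹, ⟨g, rfl⟩, g * b * g⁻¹, ⟨g, rfl⟩, by group⟩
  inv_mem' := by
    intro a ha
    refine (Set.Finite.inv ha).subset ?_
    rintro _ ⟨g, rfl⟩
    exact ⟨g, by group⟩

variable {G}

theorem mem_fc {x : G} : x ∈ fc G ↔ (Set.range fun g : G => g * x * g⁻¹).Finite := Iff.rfl

instance fc_normal : (fc G).Normal := by
  constructor
  intro n hn g
  rw [mem_fc] at hn ⊢
  refine hn.subset ?_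
  rintro _ ⟨k, rfl⟩
  exact ⟨k * g, by group⟩

theorem centralizer_finiteIndex_of_mem_fc {x : G} (hx : x ∈ fc G) :
    (Subgroup.centralizer {x}).FiniteIndex := by
  rw [mem_fc] at hx
  have : Finite (G ⧸ Subgroup.centralizer {x}) := by
    have := hx.to_subtype
    let f : G ⧸ Subgroup.centralizer {x} → Set.range (fun g : G => g * x * g⁻¹) :=
      Quotient.lift (fun g => ⟨g * x * g⁻¹, ⟨g, rfl⟩⟩) (by
        intro a b hab
        have hab' : a⁻¹ * b ∈ Subgroup.centralizer {x} := QuotientGroup.leftRel_apply.mp hab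
        rw [Subgroup.mem_centralizer_singleton_iff] at hab'
        apply Subtype.ext
        show a * x * a⁻¹ = b * x * b⁻¹
        have : b * x * b⁻¹ = a * ((a⁻¹ * b) * x * (a⁻¹ * b)⁻¹) * a⁻¹ := by group
        rw [this, hab']
        group)
    refine Finite.of_injective f ?_
    intro a b
    induction a using QuotientGroup.induction_on
    induction b using QuotientGroup.induction_on
    rename_i a b
    intro hab
    have hab' : a * x * a⁻¹ = b * x * b⁻¹ := congrArg Subtype.val hab
    rw [QuotientGroup.eq, Subgroup.mem_centralizer_singleton_iff]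
    calc a⁻¹ * b * x = a⁻¹ * (b * x * b⁻¹) * b := by group
      _ = a⁻¹ * (a * x * a⁻¹) * b := by rw [hab']
      _ = x * (a⁻¹ * b) := by group
  exact Subgroup.finiteIndex_of_finite_quotient

theorem mem_fc_of_centralizer_finiteIndex {x : G}
    (hx : (Subgroup.centralizer {x}).FiniteIndex) : x ∈ fc G := by
  rw [mem_fc]
  have := hx
  have hfin : Finite (G ⧸ Subgroup.centralizer {x}) := Subgroup.finite_quotient_of_finiteIndex
  let f : G ⧸ Subgroup.centralizer {x} → G :=
      Quotient.lift (fun g => g * x * g⁻¹) (by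
        intro a b hab
        have hab' : a⁻¹ * b ∈ Subgroup.centralizer {x} := QuotientGroup.leftRel_apply.mp hab
        rw [Subgroup.mem_centralizer_singleton_iff] at hab'
        show a * x * a⁻¹ = b * x * b⁻¹
        have : b * x * b⁻¹ = a * ((a⁻¹ * b) * x * (a⁻¹ * b)⁻¹) * a⁻¹ := by group
        rw [this, hab']
        group)
  refine (Set.finite_range f).subset ?_
  rintro _ ⟨g, rfl⟩
  exact ⟨QuotientGroup.mk g, rfl⟩

/-- A finite FC-centre makes the quotient an ICC group. -/
theorem icc_quotient [Finite (fc G)] {y : G ⧸ fc G} (hy : y ≠ 1) :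
    ¬ (Subgroup.centralizer {y}).FiniteIndex := by
  intro hfi
  have hy' := mem_fc_of_centralizer_finiteIndex hfi
  rw [mem_fc] at hy'
  obtain ⟨x, rfl⟩ := QuotientGroup.mk_surjective y
  apply hy
  rw [QuotientGroup.eq_one_iff, mem_fc]
  have hfib : ∀ z : G ⧸ fc G, ((QuotientGroup.mk : G → G ⧸ fc G) ⁻¹' {z}).Finite := by
    intro z
    obtain ⟨w, rfl⟩ := QuotientGroup.mk_surjective z
    have h1 : ((fc G : Set G)).Finite := Set.toFinite _
    refine (h1.image (fun t => w * t)).subset ?_
    intro u hu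
    have hu' : (QuotientGroup.mk u : G ⧸ fc G) = QuotientGroup.mk w := hu
    refine ⟨w⁻¹ * u, ?_, by simp⟩
    exact QuotientGroup.eq.mp hu'.symm
  refine (hy'.preimage' (fun z _ => hfib z)).subset ?_
  rintro _ ⟨g, rfl⟩
  exact ⟨QuotientGroup.mk g, rfl⟩

/-- An infinite FC-centre contains an infinite commutative subgroup. -/
theorem exists_infinite_comm [Infinite (fc G)] :
    ∃ H : Subgroup G, Infinite H ∧ ∀ x ∈ H, ∀ y ∈ H, x * y = y * x := by
  classical
  let 𝒮 : Set (Set G) := {S | S ⊆ (fc G : Set G) ∧ ∀ x ∈ S, ∀ y ∈ S, x * y = y * x}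
  obtain ⟨M, hM⟩ := zorn_subset 𝒮 (by
    intro c hc hchain
    refine ⟨⋃₀ c, ⟨?_, ?_⟩, fun s hs => Set.subset_sUnion_of_mem hs⟩
    · exact Set.sUnion_subset fun s hs => (hc hs).1
    · rintro x ⟨s, hs, hxs⟩ y ⟨t, ht, hyt⟩
      rcases hchain.total hs ht with h | h
      · exact (hc ht).2 x (h hxs) y hyt
      · exact (hc hs).2 x hxs y (h hyt))
  have hMinf : M.Infinite := by
    intro hfin
    -- the intersection of the centralizers has finite index
    let C : Subgroup G := ⨅ x : M, Subgroup.centralizer {(x : G)}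
    have := hfin.to_subtype
    have hCfi : C.FiniteIndex := by
      have h1 : ∀ x : M, (Subgroup.centralizer {(x : G)}).FiniteIndex := fun x =>
        centralizer_finiteIndex_of_mem_fc (hM.1.1 x.2)
      exact Subgroup.finiteIndex_iInf h1
    -- hence its trace on the FC-centre is infinite
    have hinf : Infinite (C.subgroupOf (fc G)) := by
      by_contra hnot
      rw [not_infinite_iff_finite] at hnot
      have h2 : (C.subgroupOf (fc G)).FiniteIndex := inferInstance
      have h3 : Finite (fc G) := by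
        have h4 := (C.subgroupOf (fc G)).card_mul_index
        have h5 := h2.index_ne_zero
        have h6 : Nat.card (C.subgroupOf (fc G)) ≠ 0 := Nat.card_pos.ne'
        have h7 : Nat.card (fc G) ≠ 0 := by
          rw [← h4]; exact Nat.mul_ne_zero h6 h5
        exact Nat.finite_of_card_ne_zero h7
      exact not_finite (fc G)
    have : ((C.subgroupOf (fc G) : Set (fc G)) \ ((↑) ⁻¹' M)).Nonempty := by
      have h8 : (C.subgroupOf (fc G) : Set (fc G)).Infinite := Set.infinite_coe_iff.mp hinf
      have h9 : (((↑) : fc G → G) ⁻¹' M).Finite := hfin.preimage (Subtype.val_injective.injOn)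
      exact (h8.sdiff h9).nonempty
    obtain ⟨z, hzC, hzM⟩ := this
    have hzC' : (z : G) ∈ C := Subgroup.mem_subgroupOf.mp hzC
    have hzc : ∀ m ∈ M, m * (z : G) = z * m := by
      intro m hm
      have := (Subgroup.mem_iInf.mp hzC') ⟨m, hm⟩
      rw [Subgroup.mem_centralizer_singleton_iff] at this
      exact this.symm
    have hins : insert (z : G) M ∈ 𝒮 := by
      refine ⟨Set.insert_subset z.2 hM.1.1, ?_⟩
      rintro x (rfl | hx) y (rfl | hy)
      · rfl
      · exact (hzc y hy).symm
      · exact hzc x hx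
      · exact hM.1.2 x hx y hy
    have := hM.2 hins (Set.subset_insert _ _)
    exact hzM (this (Set.mem_insert _ _))
  refine ⟨Subgroup.closure M, ?_, ?_⟩
  · exact Set.infinite_coe_iff.mpr (hMinf.mono Subgroup.subset_closure)
  · intro x hx y hy
    letI := Subgroup.closureCommGroupOfComm (k := M) hM.1.2
    exact congrArg Subtype.val (mul_comm (⟨x, hx⟩ : Subgroup.closure M) ⟨y, hy⟩)

end FC

end Q22
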