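import Pool.Agent.Q22.FC

/-! Exact factorizations of countably infinite groups into two infinite subsets. -/

namespace Q22

section Factor

/-- `G` has an exact factorization into two infinite subsets. -/
def HasFact (G : Type*) [Group G] : Prop :=
  ∃ A B : Set G, A.Infinite ∧ B.Infinite ∧
    ∀ g : G, ∃! p : G × G, p.1 ∈ A ∧ p.2 ∈ B ∧ p.1 * p.2 = g

/-- Avoidance of twisted square roots of nontrivial elements. -/
def Avoids (G : Type*) [Group G] : Prop :=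
  ∀ (F : Finset G) (P : Finset (G × G)), (∀ p ∈ P, p.1 ≠ 1) →
    ∃ b : G, b ∉ F ∧ ∀ p ∈ P, (b * p.2) * (b * p.2) ≠ p.1

variable {G : Type*} [Group G]

theorem avoids_of_icc [Infinite G]
    (h : ∀ c : G, c ≠ 1 → ¬ (Subgroup.centralizer {c}).FiniteIndex) : Avoids G := by
  intro F P hP
  obtain ⟨b, hbF, hb⟩ := exists_avoid P
    (fun p => Subgroup.centralizer {p.2 * p.1 * p.2⁻¹}) (fun p => p.2⁻¹)
    (fun p hp => h _ (by
      intro he
      apply hP p hp
      have : p.1 = p.2⁻¹ * (p.2 * p.1 * p.2⁻¹) * p.2 := by group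
      rw [this, he]; group)) F
  refine ⟨b, hbF, fun p hp he => hb p hp ?_⟩
  rw [Subgroup.mem_centralizer_singleton_iff, ← he]
  group

/-- A state of the greedy construction. -/
def Good (A B : Finset G) : Prop :=
  ∀ a ∈ A, ∀ b ∈ B, ∀ a' ∈ A, ∀ b' ∈ B, a * b = a' * b' → a = a' ∧ b = b'

theorem good_step (hG : Avoids G) [DecidableEq G] (A B : Finset G) (hAB : Good A B) (g : G)
    (hg : ∀ a ∈ A, ∀ b ∈ B, a * b ≠ g) :
    ∃ a b, a ∉ A ∧ b ∉ B ∧ a * b = g ∧ Good (insert a A) (insert b B) := by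
  classical
  let F : Finset G := B ∪ (A.image fun a => a⁻¹ * g) ∪
    ((B ×ˢ B ×ˢ A).image fun t => t.1 * t.2.1⁻¹ * t.2.2⁻¹ * g) ∪
    ((A ×ˢ A ×ˢ B).image fun t => t.1⁻¹ * t.2.1 * t.2.2)
  let P : Finset (G × G) := (A ×ˢ B).image fun t => (t.1⁻¹ * g * t.2⁻¹, t.2⁻¹)
  obtain ⟨b, hbF, hbP⟩ := hG F P (by
    intro p hp
    simp only [P, Finset.mem_image, Finset.mem_product, Prod.exists] at hp
    obtain ⟨a, b, ⟨ha, hb⟩, rfl⟩ := hp
    intro he
    apply hg a ha b hb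
    have : g = a * (a⁻¹ * g * b⁻¹) * b := by group
    rw [this]
    simp only at he
    rw [he]; group)
  have hbB : b ∉ B := fun h => hbF (by simp [F, h])
  have h1 : ∀ a ∈ A, a⁻¹ * g ≠ b := fun a ha he => hbF (by
    simp only [F, Finset.mem_union, Finset.mem_image, Finset.mem_product, Prod.exists]
    exact Or.inl (Or.inl (Or.inr ⟨a, ha, he⟩)))
  have h2 : ∀ b₁ ∈ B, ∀ b₂ ∈ B, ∀ a ∈ A, b₁ * b₂⁻¹ * a⁻¹ * g ≠ b :=
    fun b₁ hb₁ b₂ hb₂ a ha he => hbF (by
      simp only [F, Finset.mem_union, Finset.mem_image, Finset.mem_product, Prod.exists]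
      exact Or.inl (Or.inr ⟨b₁, b₂, a, ⟨hb₁, hb₂, ha⟩, he⟩))
  have h3 : ∀ a₁ ∈ A, ∀ a₂ ∈ A, ∀ b₁ ∈ B, a₁⁻¹ * a₂ * b₁ ≠ b :=
    fun a₁ ha₁ a₂ ha₂ b₁ hb₁ he => hbF (by
      simp only [F, Finset.mem_union, Finset.mem_image, Finset.mem_product, Prod.exists]
      exact Or.inr ⟨a₁, a₂, b₁, ⟨ha₁, ha₂, hb₁⟩, he⟩)
  have h4 : ∀ a ∈ A, ∀ b₁ ∈ B, (b * b₁⁻¹) * (b * b₁⁻¹) ≠ a⁻¹ * g * b₁⁻¹ :=
    fun a ha b₁ hb₁ => hbP (a⁻¹ * g * b₁⁻¹, b₁⁻¹) (by
      simp only [P, Finset.mem_image, Finset.mem_product, Prod.exists]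
      exact ⟨a, b₁, ⟨ha, hb₁⟩, rfl⟩)
  have hA : g * b⁻¹ ∉ A := fun h => h1 _ h (by group)
  -- the basic inequalities
  have e1 : ∀ b₁ ∈ B, ∀ a₂ ∈ A, ∀ b₂ ∈ B, g * b⁻¹ * b₁ ≠ a₂ * b₂ := by
    intro b₁ hb₁ a₂ ha₂ b₂ hb₂ he
    apply h2 b₁ hb₁ b₂ hb₂ a₂ ha₂
    have : b = b₁ * (g * b⁻¹ * b₁)⁻¹ * g := by group
    rw [this, he]
    group
  have e2 : ∀ b₁ ∈ B, ∀ a₂ ∈ A, g * b⁻¹ * b₁ ≠ a₂ * b := by
    intro b₁ hb₁ a₂ ha₂ he
    apply h4 a₂ ha₂ b₁ hb₁
    have : g = (g * b⁻¹ * b₁) * b₁⁻¹ * b := by group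
    rw [this, he]
    group
  have e3 : ∀ a₂ ∈ A, ∀ a₃ ∈ A, ∀ b₃ ∈ B, a₂ * b ≠ a₃ * b₃ := by
    intro a₂ ha₂ a₃ ha₃ b₃ hb₃ he
    apply h3 a₂ ha₂ a₃ ha₃ b₃ hb₃
    rw [mul_assoc, ← he]; group
  refine ⟨g * b⁻¹, b, hA, hbB, by group, ?_⟩
  have e4 : g * b⁻¹ * b = g := by group
  intro a₁ ha₁ b₁ hb₁ a₂ ha₂ b₂ hb₂ he
  rw [Finset.mem_insert] at ha₁ hb₁ ha₂ hb₂
  rcases ha₁ with rfl | ha₁ <;> rcases hb₁ with rfl | hb₁ <;>
    rcases ha₂ with rfl | ha₂ <;> rcases hb₂ with rfl | hb₂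
  · exact ⟨rfl, rfl⟩
  · exact ⟨rfl, mul_left_cancel he⟩
  · rw [e4] at he
    exact absurd (by rw [he]; group) (h1 a₂ ha₂)
  · rw [e4] at he
    exact absurd he.symm (hg a₂ ha₂ b₂ hb₂)
  · exact ⟨rfl, mul_left_cancel he⟩
  · exact ⟨rfl, mul_left_cancel he⟩
  · exact absurd he (e2 b₁ hb₁ a₂ ha₂)
  · exact absurd he (e1 b₁ hb₁ a₂ ha₂ b₂ hb₂)
  · rw [e4] at he
    exact absurd (by rw [← he]; group) (h1 a₁ ha₁)
  · exact absurd he.symm (e2 b₂ hb₂ a₁ ha₁)
  · exact ⟨mul_right_cancel he, rfl⟩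
  · exact absurd he (e3 a₁ ha₁ a₂ ha₂ b₂ hb₂)
  · rw [e4] at he
    exact absurd he (hg a₁ ha₁ b₁ hb₁)
  · exact absurd he.symm (e1 b₂ hb₂ a₁ ha₁ b₁ hb₁)
  · exact absurd he.symm (e3 a₂ ha₂ a₁ ha₁ b₁ hb₁)
  · exact hAB a₁ ha₁ b₁ hb₁ a₂ ha₂ b₂ hb₂ he

theorem good_ext [Infinite G] (hG : Avoids G) (A B : Finset G) (hAB : Good A B) (g : G) :
    ∃ A' B' : Finset G, Good A' B' ∧ A ⊂ A' ∧ B ⊂ B' ∧ ∃ a ∈ A', ∃ b ∈ B', a * b = g := by
  classical
  obtain ⟨A₁, B₁, h₁, hA₁, hB₁, a, ha, b, hb, hab⟩ :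
      ∃ A' B' : Finset G, Good A' B' ∧ A ⊆ A' ∧ B ⊆ B' ∧ ∃ a ∈ A', ∃ b ∈ B', a * b = g := by
    by_cases hg : ∀ a ∈ A, ∀ b ∈ B, a * b ≠ g
    · obtain ⟨a, b, _, _, hab, hgood⟩ := good_step hG A B hAB g hg
      exact ⟨_, _, hgood, Finset.subset_insert _ _, Finset.subset_insert _ _, a,
        Finset.mem_insert_self _ _, b, Finset.mem_insert_self _ _, hab⟩
    · push Not at hg
      exact ⟨A, B, hAB, subset_rfl, subset_rfl, hg⟩
  obtain ⟨g', hg'⟩ := Infinite.exists_notMem_finset ((A₁ ×ˢ B₁).image fun t => t.1 * t.2)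
  obtain ⟨a', b', ha', hb', hab', hgood⟩ := good_step hG A₁ B₁ h₁ g' (by
    intro a ha b hb he
    exact hg' (Finset.mem_image.mpr ⟨(a, b), Finset.mem_product.mpr ⟨ha, hb⟩, he⟩))
  refine ⟨_, _, hgood, ?_, ?_, a, Finset.mem_insert_of_mem ha, b, Finset.mem_insert_of_mem hb, hab⟩
  · exact hA₁.trans_ssubset (Finset.ssubset_insert ha')
  · exact hB₁.trans_ssubset (Finset.ssubset_insert hb')

theorem hasFact_of_avoids [Countable G] [Infinite G] (hG : Avoids G) : HasFact G := by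
  classical
  obtain ⟨e, he⟩ := exists_surjective_nat G
  let S := {p : Finset G × Finset G // Good p.1 p.2}
  have step : ∀ (n : ℕ) (s : S), ∃ s' : S, s.1.1 ⊂ s'.1.1 ∧ s.1.2 ⊂ s'.1.2 ∧
      ∃ a ∈ s'.1.1, ∃ b ∈ s'.1.2, a * b = e n := by
    intro n s
    obtain ⟨A', B', h, hA, hB, hg⟩ := good_ext hG s.1.1 s.1.2 s.2 (e n)
    exact ⟨⟨(A', B'), h⟩, hA, hB, hg⟩
  choose f hf using step
  let seq : ℕ → S := fun n => Nat.rec ⟨(∅, ∅), by intro a ha; simp at ha⟩ f n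
  have hseq : ∀ n, seq (n + 1) = f n (seq n) := fun n => rfl
  have hA : StrictMono fun n => (seq n).1.1 := strictMono_nat_of_lt_succ fun n => by
    show (seq n).1.1 ⊂ (seq (n+1)).1.1
    rw [hseq]; exact (hf n _).1
  have hB : StrictMono fun n => (seq n).1.2 := strictMono_nat_of_lt_succ fun n => by
    show (seq n).1.2 ⊂ (seq (n+1)).1.2
    rw [hseq]; exact (hf n _).2.1
  have hinf : ∀ u : ℕ → Finset G, StrictMono u → (⋃ n, (u n : Set G)).Infinite := by
    intro u hu hfin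
    have hcard : StrictMono fun n => (u n).card := fun m n h => Finset.card_lt_card (hu h)
    have h1 := hcard.id_le (hfin.toFinset.card + 1)
    have h2 : u (hfin.toFinset.card + 1) ⊆ hfin.toFinset := by
      intro x hx
      rw [Set.Finite.mem_toFinset]
      exact Set.mem_iUnion.mpr ⟨_, hx⟩
    have h3 := Finset.card_le_card h2
    simp only [id] at h1
    omega
  refine ⟨⋃ n, ((seq n).1.1 : Set G), ⋃ n, ((seq n).1.2 : Set G), hinf _ hA, hinf _ hB, ?_⟩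
  intro g
  obtain ⟨n, rfl⟩ := he g
  obtain ⟨a, ha, b, hb, hab⟩ := (hf n (seq n)).2.2
  rw [← hseq] at ha hb
  refine ⟨(a, b), ⟨Set.mem_iUnion.mpr ⟨n + 1, ha⟩, Set.mem_iUnion.mpr ⟨n + 1, hb⟩, hab⟩, ?_⟩
  rintro ⟨a', b'⟩ ⟨ha', hb', hab'⟩
  obtain ⟨i, hi⟩ := Set.mem_iUnion.mp ha'
  obtain ⟨j, hj⟩ := Set.mem_iUnion.mp hb'
  have hgood := (seq (max (n + 1) (max i j))).2
  have hmA := hA.monotone
  have hmB := hB.monotone
  have := hgood a (hmA (le_max_left _ _) ha) b (hmB (le_max_left _ _) hb)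
    a' (hmA ((le_max_left i j).trans (le_max_right _ _)) hi)
    b' (hmB ((le_max_right i j).trans (le_max_right _ _)) hj) (by
      rw [hab]; exact hab'.symm)
  exact Prod.ext this.1.symm this.2.symm

/-- Lifting a factorization from a subgroup. -/
theorem hasFact_of_subgroup (H : Subgroup G) (h : HasFact H) : HasFact G := by
  obtain ⟨A, B, hA, hB, hAB⟩ := h
  obtain ⟨T, hT, h1T⟩ := H.exists_isComplement_left 1
  have hTu := Subgroup.isComplement_iff_existsUnique.mp hT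
  refine ⟨{x | ∃ t ∈ T, ∃ a ∈ A, x = t * a}, (↑) '' B, ?_, ?_, ?_⟩
  · refine (hA.image (Subtype.val_injective.injOn)).mono ?_
    rintro _ ⟨a, ha, rfl⟩
    exact ⟨1, h1T, a, ha, by simp⟩
  · exact hB.image Subtype.val_injective.injOn
  · intro g
    obtain ⟨⟨t, k⟩, htk, hu⟩ := hTu g
    obtain ⟨⟨a, b⟩, ⟨ha, hb, hab⟩, hu'⟩ := hAB k
    refine ⟨(t * a, b), ⟨⟨t, t.2, a, ha, rfl⟩, ⟨b, hb, rfl⟩, ?_⟩, ?_⟩
    · show (t : G) * a * b = g
      rw [← htk, mul_assoc]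
      show (t : G) * ((a * b : H) : G) = _
      simp only at hab
      rw [hab]
    · rintro ⟨x, y⟩ ⟨⟨t', ht', a', ha', rfl⟩, ⟨b', hb', rfl⟩, hxy⟩
      have h1 : (⟨t', ht'⟩, a' * b') = ((t, k) : T × H) := hu (⟨t', ht'⟩, a' * b') (by
        show t' * ((a' * b' : H) : G) = g
        rw [← hxy]
        simp [mul_assoc])
      have h2 : t' = t := congrArg (fun p => (p.1 : G)) h1
      have h3 : a' * b' = k := congrArg Prod.snd h1
      have h4 := hu' (a', b') ⟨ha', hb', h3⟩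
      have h5 : a' = a := congrArg Prod.fst h4
      have h6 : b' = b := congrArg Prod.snd h4
      rw [h2, h5, h6]

/-- Lifting a factorization from a quotient. -/
theorem hasFact_of_quotient (N : Subgroup G) [N.Normal] (h : HasFact (G ⧸ N)) : HasFact G := by
  obtain ⟨A, B, hA, hB, hAB⟩ := h
  let π : G → G ⧸ N := QuotientGroup.mk
  have hπ : Function.Surjective π := QuotientGroup.mk_surjective
  let σ : G ⧸ N → G := Function.surjInv hπ
  have hσ : ∀ x, π (σ x) = x := Function.surjInv_eq hπ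
  have hσi : Function.Injective σ := Function.injective_surjInv hπ
  refine ⟨π ⁻¹' A, σ '' B, ?_, hB.image hσi.injOn, ?_⟩
  · refine (hA.image hσi.injOn).mono ?_
    rintro _ ⟨a, ha, rfl⟩
    show π (σ a) ∈ A
    rw [hσ]; exact ha
  · intro g
    obtain ⟨⟨a, b⟩, ⟨ha, hb, hab⟩, hu⟩ := hAB (π g)
    refine ⟨(g * (σ b)⁻¹, σ b), ⟨?_, ⟨b, hb, rfl⟩, by group⟩, ?_⟩
    · show π (g * (σ b)⁻¹) ∈ A
      have : π (g * (σ b)⁻¹) = π g * (π (σ b))⁻¹ := rfl
      rw [this, hσ, ← hab]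
      simpa using ha
    · rintro ⟨x, y⟩ ⟨hx, ⟨b', hb', rfl⟩, hxy⟩
      have h1 := hu (π x, b') ⟨hx, hb', by
        show π x * b' = π g
        rw [← hxy]
        show π x * b' = π x * π (σ b')
        rw [hσ]⟩
      have h2 : b' = b := congrArg Prod.snd h1
      subst h2
      refine Prod.ext ?_ rfl
      show x = g * (σ b')⁻¹
      rw [← hxy]; group

theorem avoids_of_comm [Infinite G] (hc : ∀ x y : G, x * y = y * x)
    (h2 : {x : G | x * x = 1}.Finite) : Avoids G := by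
  classical
  intro F P _
  have hfin : ∀ p : G × G, {b : G | (b * p.2) * (b * p.2) = p.1}.Finite := by
    intro p
    by_cases hne : ∃ b₀, (b₀ * p.2) * (b₀ * p.2) = p.1
    · obtain ⟨b₀, hb₀⟩ := hne
      refine (h2.image (fun x => x * b₀)).subset ?_
      intro b hb
      refine ⟨b * b₀⁻¹, ?_, by simp⟩
      have hb' : (b * p.2) * (b * p.2) = (b₀ * p.2) * (b₀ * p.2) := hb.trans hb₀.symm
      show b * b₀⁻¹ * (b * b₀⁻¹) = 1
      have e1 : b * b = b₀ * b₀ := by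
        have : (b * b) * (p.2 * p.2) = (b₀ * b₀) * (p.2 * p.2) := by
          calc (b * b) * (p.2 * p.2) = (b * p.2) * (b * p.2) := by
                rw [mul_assoc b p.2, ← mul_assoc p.2 b, hc p.2 b]; simp only [mul_assoc]
            _ = (b₀ * p.2) * (b₀ * p.2) := hb'
            _ = (b₀ * b₀) * (p.2 * p.2) := by
                rw [mul_assoc b₀ p.2, ← mul_assoc p.2 b₀, hc p.2 b₀]; simp only [mul_assoc]
        exact mul_right_cancel this
      calc b * b₀⁻¹ * (b * b₀⁻¹) = b * (b₀⁻¹ * b) * b₀⁻¹ := by simp only [mul_assoc]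
        _ = b * (b * b₀⁻¹) * b₀⁻¹ := by rw [hc b₀⁻¹ b]
        _ = (b * b) * b₀⁻¹ * b₀⁻¹ := by simp only [mul_assoc]
        _ = 1 := by rw [e1]; simp
    · push Not at hne
      refine Set.finite_empty.subset ?_
      intro b hb
      exact absurd hb (hne b)
  have hbad : ((F : Set G) ∪ ⋃ p ∈ P, {b : G | (b * p.2) * (b * p.2) = p.1}).Finite :=
    F.finite_toSet.union (P.finite_toSet.biUnion fun p _ => hfin p)
  obtain ⟨b, hb⟩ := Infinite.exists_notMem_finset hbad.toFinset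
  rw [Set.Finite.mem_toFinset] at hb
  refine ⟨b, fun h => hb (Or.inl h), fun p hp he => hb (Or.inr ?_)⟩
  exact Set.mem_biUnion (show p ∈ (P : Set (G × G)) from hp) he

theorem avoids_of_two [Infinite G] (h2 : ∀ x : G, x * x = 1) : Avoids G := by
  intro F P hP
  obtain ⟨b, hb⟩ := Infinite.exists_notMem_finset F
  exact ⟨b, hb, fun p hp he => hP p hp (he.symm.trans (h2 _))⟩

theorem hasFact_of_comm [Countable G] [Infinite G] (hc : ∀ x y : G, x * y = y * x) :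
    HasFact G := by
  by_cases h2 : {x : G | x * x = 1}.Finite
  · exact hasFact_of_avoids (avoids_of_comm hc h2)
  · let H : Subgroup G :=
      { carrier := {x | x * x = 1}
        one_mem' := by simp
        mul_mem' := by
          intro a b ha hb
          have ha' : a * a = 1 := ha
          have hb' : b * b = 1 := hb
          show a * b * (a * b) = 1
          calc a * b * (a * b) = a * (b * a) * b := by simp only [mul_assoc]
            _ = a * (a * b) * b := by rw [hc b a]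
            _ = (a * a) * (b * b) := by simp only [mul_assoc]
            _ = 1 := by rw [ha', hb', one_mul]
        inv_mem' := by
          intro a ha
          have ha' : a * a = 1 := ha
          show a⁻¹ * a⁻¹ = 1
          rw [← mul_inv_rev, ha', inv_one] }
    have : Infinite H := Set.infinite_coe_iff.mpr h2
    refine hasFact_of_subgroup H (hasFact_of_avoids (avoids_of_two ?_))
    intro x
    exact Subtype.ext x.2

theorem hasFact [Countable G] [Infinite G] : HasFact G := by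
  rcases finite_or_infinite (fc G) with hf | hi
  · have hq : Infinite (G ⧸ fc G) := by
      by_contra hnot
      rw [not_infinite_iff_finite] at hnot
      have h4 := (fc G).card_mul_index
      have h5 : (fc G).index ≠ 0 := by
        rw [Subgroup.index]; exact Nat.card_pos.ne'
      have h6 : Nat.card (fc G) ≠ 0 := Nat.card_pos.ne'
      have h7 : Nat.card G ≠ 0 := by
        rw [← h4]; exact Nat.mul_ne_zero h6 h5
      have := Nat.finite_of_card_ne_zero h7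
      exact not_finite G
    have : Countable (G ⧸ fc G) := (QuotientGroup.mk_surjective (s := fc G)).countable
    exact hasFact_of_quotient (fc G) (hasFact_of_avoids (avoids_of_icc fun y hy =>
      icc_quotient hy))
  · obtain ⟨H, hH, hHc⟩ := exists_infinite_comm (G := G)
    exact hasFact_of_subgroup H (hasFact_of_comm fun x y => Subtype.ext (hHc x x.2 y y.2))

end Factor

end Q22
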