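import Mathlib

/-! Transitive groups of finitary permutations which are p-groups: finite blocks, and
local Sylow theory on finite blocks. -/

namespace Q22.FinSyl

open MulAction

section Closure

theorem exists_finite_subset {S : Type*} [Group S] {A : Set S} {x : S}
    (hx : x ∈ Subgroup.closure A) :
    ∃ T : Set S, T ⊆ A ∧ T.Finite ∧ x ∈ Subgroup.closure T := by
  induction hx using Subgroup.closure_induction with
  | mem y hy => exact ⟨{y}, by simpa using hy, Set.finite_singleton y,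
      Subgroup.subset_closure rfl⟩
  | one => exact ⟨∅, by simp, Set.finite_empty, Subgroup.one_mem _⟩
  | mul y z _ _ hy hz =>
    obtain ⟨T, hT, hTf, hyT⟩ := hy
    obtain ⟨U, hU, hUf, hzU⟩ := hz
    exact ⟨T ∪ U, Set.union_subset hT hU, hTf.union hUf,
      Subgroup.mul_mem _ (Subgroup.closure_mono Set.subset_union_left hyT)
        (Subgroup.closure_mono Set.subset_union_right hzU)⟩
  | inv y _ hy =>
    obtain ⟨T, hT, hTf, hyT⟩ := hy
    exact ⟨T, hT, hTf, Subgroup.inv_mem _ hyT⟩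

end Closure

section Local

variable {S Ω : Type*} [Group S] [MulAction S Ω] {p : ℕ} [Fact p.Prime]

/-- In a locally finite `p`-group, if `K` contains the stabilizer of `α` and `s ∉ K` then `s`
moves every point in the orbit of `α` under `⟨K, s⟩`. -/
theorem moved (hp : IsPGroup p S)
    (hloc : ∀ T : Set S, T.Finite → Finite (Subgroup.closure T)) (α : Ω) (K : Subgroup S)
    (hK : stabilizer S α ≤ K) (s : S) (hs : s ∉ K) (k : S)
    (hk : k ∈ Subgroup.closure ((K : Set S) ∪ {s})) : s • (k • α) ≠ k • α := by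
  intro hfix
  obtain ⟨T, hT, hTf, hkT⟩ := exists_finite_subset hk
  let F : Subgroup S := Subgroup.closure (T ∪ {s})
  have hFfin : Finite F := hloc _ (hTf.union (Set.finite_singleton s))
  have hkF : k ∈ F := Subgroup.closure_mono Set.subset_union_left hkT
  have hsF : s ∈ F := Subgroup.subset_closure (Or.inr rfl)
  have hne : K.subgroupOf F ≠ ⊤ := by
    intro h
    have : (⟨s, hsF⟩ : F) ∈ K.subgroupOf F := by rw [h]; trivial
    exact hs (Subgroup.mem_subgroupOf.mp this)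
  obtain ⟨L, hL, hKL⟩ := (eq_top_or_exists_le_coatom (K.subgroupOf F)).resolve_left hne
  have hnil : Group.IsNilpotent F := (hp.to_subgroup F).isNilpotent
  have hnorm : L.Normal :=
    Subgroup.NormalizerCondition.normal_of_coatom L Group.normalizerCondition_of_isNilpotent hL
  have hsL : (⟨s, hsF⟩ : F) ∈ L := by
    have h1 : k⁻¹ * s * k ∈ K := hK (by
      rw [mem_stabilizer_iff, mul_smul, mul_smul, hfix, inv_smul_smul])
    have h2 : (⟨k, hkF⟩ : F)⁻¹ * ⟨s, hsF⟩ * ⟨k, hkF⟩ ∈ L :=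
      hKL (Subgroup.mem_subgroupOf.mpr h1)
    have h3 := hnorm.conj_mem _ h2 ⟨k, hkF⟩
    have h5 : (⟨k, hkF⟩ : F) * ((⟨k, hkF⟩ : F)⁻¹ * ⟨s, hsF⟩ * ⟨k, hkF⟩) * (⟨k, hkF⟩ : F)⁻¹ =
        ⟨s, hsF⟩ := by group
    rwa [h5] at h3
  apply hL.1
  rw [eq_top_iff]
  have h4 : F ≤ L.map F.subtype := by
    rw [Subgroup.closure_le]
    rintro x (hx | hx)
    · rcases hT hx with hxK | hxs
      · exact ⟨⟨x, Subgroup.subset_closure (Or.inl hx)⟩,
          hKL (Subgroup.mem_subgroupOf.mpr hxK), rfl⟩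
      · rw [Set.mem_singleton_iff] at hxs
        subst hxs
        exact ⟨⟨x, hsF⟩, hsL, rfl⟩
    · rw [Set.mem_singleton_iff] at hx
      subst hx
      exact ⟨⟨x, hsF⟩, hsL, rfl⟩
  intro x _
  obtain ⟨y, hy, hyx⟩ := h4 x.2
  have : y = x := Subtype.ext hyx
  rwa [← this]

/-- Total imprimitivity: for a transitive locally finite `p`-group of finitary transformations
every finite set lies in a finite orbit `K • α` with `K` above the stabilizer of `α`. -/
theorem exists_finite_orbit (hp : IsPGroup p S)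
    (hloc : ∀ T : Set S, T.Finite → Finite (Subgroup.closure T))
    (hfin : ∀ s : S, {x : Ω | s • x ≠ x}.Finite)
    (htr : ∀ x y : Ω, ∃ s : S, s • x = y) (α : Ω) (Φ : Set Ω) (hΦ : Φ.Finite) :
    ∃ K : Subgroup S, stabilizer S α ≤ K ∧ {x : Ω | ∃ k ∈ K, k • α = x}.Finite ∧
      ∀ x ∈ Φ, ∃ k ∈ K, k • α = x := by
  induction Φ, hΦ using Set.Finite.induction_on with
  | empty =>
    refine ⟨stabilizer S α, le_rfl, (Set.finite_singleton α).subset ?_, by simp⟩
    rintro x ⟨k, hk, rfl⟩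
    exact mem_stabilizer_iff.mp hk
  | @insert β Φ _ _ ih =>
    obtain ⟨K, hK, hKf, hΦK⟩ := ih
    obtain ⟨s, hs⟩ := htr α β
    by_cases hsK : s ∈ K
    · refine ⟨K, hK, hKf, ?_⟩
      rintro x (rfl | hx)
      · exact ⟨s, hsK, hs⟩
      · exact hΦK x hx
    · refine ⟨Subgroup.closure ((K : Set S) ∪ {s}), ?_, ?_, ?_⟩
      · exact hK.trans fun x hx => Subgroup.subset_closure (Or.inl hx)
      · refine (hfin s).subset ?_
        rintro x ⟨k, hk, rfl⟩
        exact moved hp hloc α K hK s hsK k hk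
      · rintro x (rfl | hx)
        · exact ⟨s, Subgroup.subset_closure (Or.inr rfl), hs⟩
        · obtain ⟨k, hk, hkx⟩ := hΦK x hx
          exact ⟨k, Subgroup.subset_closure (Or.inl hk), hkx⟩

end Local

section Finitary

variable {G Ω : Type*} [Group G] [MulAction G Ω] [FaithfulSMul G Ω]

/-- Elements moving only points of the finite set `B` form a finite subgroup. -/
theorem finite_fixing (B : Set Ω) (hB : B.Finite) : Finite (fixingSubgroup G Bᶜ) := by
  have := hB.to_subtype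
  have hmaps : ∀ g ∈ fixingSubgroup G Bᶜ, ∀ x ∈ B, g • x ∈ B := by
    intro g hg x hx
    by_contra hn
    have h1 := (mem_fixingSubgroup_iff G).mp hg (g • x) hn
    have h2 : g • x = x := smul_left_cancel g h1
    exact hn (by rw [h2]; exact hx)
  let f : fixingSubgroup G Bᶜ → (B → B) := fun g x => ⟨(g : G) • (x : Ω), hmaps g g.2 x x.2⟩
  refine Finite.of_injective f ?_
  intro g h hgh
  apply Subtype.ext
  apply eq_of_smul_eq_smul (α := Ω)
  intro x
  by_cases hx : x ∈ B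
  · have := congrFun hgh ⟨x, hx⟩
    exact congrArg Subtype.val this
  · rw [(mem_fixingSubgroup_iff G).mp g.2 x hx, (mem_fixingSubgroup_iff G).mp h.2 x hx]

theorem locally_finite (hfin : ∀ g : G, {x : Ω | g • x ≠ x}.Finite) (T : Set G) (hT : T.Finite) :
    Finite (Subgroup.closure T) := by
  let B : Set Ω := ⋃ t ∈ T, {x : Ω | t • x ≠ x}
  have hB : B.Finite := hT.biUnion fun t _ => hfin t
  have := finite_fixing (G := G) B hB
  have hle : Subgroup.closure T ≤ fixingSubgroup G Bᶜ := by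
    rw [Subgroup.closure_le]
    intro t ht
    rw [SetLike.mem_coe, mem_fixingSubgroup_iff]
    intro y hy
    by_contra hne
    exact hy (Set.mem_biUnion ht hne)
  exact Finite.of_injective _ (Subgroup.inclusion_injective hle)

end Finitary

section Main

variable {G Ω : Type*} [Group G] [MulAction G Ω]

/-- `B` is a block for the subgroup `S`. -/
def IsBlk (S : Subgroup G) (B : Set Ω) : Prop :=
  ∀ s ∈ S, (∀ x ∈ B, s • x ∈ B) ∨ (∀ x ∈ B, s • x ∉ B)

theorem fixing_maps {B : Set Ω} {g : G} (hg : g ∈ fixingSubgroup G Bᶜ) {x : Ω} (hx : x ∈ B) :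
    g • x ∈ B := by
  by_contra hn
  have h1 := (mem_fixingSubgroup_iff G).mp hg (g • x) hn
  have h2 : g • x = x := smul_left_cancel g h1
  exact hn (by rw [h2]; exact hx)

/-- The setwise stabilizer in `S` of a nonempty block. -/
def blkStab (S : Subgroup G) (B : Set Ω) (hB0 : B.Nonempty) (hB : IsBlk S B) : Subgroup G where
  carrier := {s | s ∈ S ∧ ∀ x ∈ B, s • x ∈ B}
  one_mem' := ⟨S.one_mem, fun x hx => by rwa [one_smul]⟩
  mul_mem' := fun {a b} ha hb => ⟨S.mul_mem ha.1 hb.1, fun x hx => by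
    rw [mul_smul]; exact ha.2 _ (hb.2 x hx)⟩
  inv_mem' := fun {a} ha => ⟨S.inv_mem ha.1, by
    rcases hB a⁻¹ (S.inv_mem ha.1) with h | h
    · exact h
    · obtain ⟨x, hx⟩ := hB0
      exact absurd (by rwa [inv_smul_smul]) (h (a • x) (ha.2 x hx))⟩

variable {p : ℕ} [Fact p.Prime]

theorem le_of_invariant [FaithfulSMul G Ω] (S : Sylow p G)
    (htr : ∀ x y : Ω, ∃ s ∈ S, s • x = y)
    (B : Set Ω) (hB0 : B.Nonempty) (hB : IsBlk (S : Subgroup G) B) (Q : Subgroup G) [Finite Q]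
    (hQp : IsPGroup p Q) (hQB : Q ≤ fixingSubgroup G Bᶜ)
    (hQ : ∀ s ∈ blkStab (S : Subgroup G) B hB0 hB, ∀ q ∈ Q, s * q * s⁻¹ ∈ Q) :
    Q ≤ (S : Subgroup G) := by
  obtain ⟨b, hb⟩ := hB0
  let R : Subgroup G :=
    { carrier := {g | ∀ s ∈ S, ∃ q ∈ Q, ∀ x ∈ B, g • (s • x) = s • (q • x)}
      one_mem' := fun s _ => ⟨1, Q.one_mem, fun x _ => by simp⟩
      mul_mem' := by
        intro g h hg hh s hs
        obtain ⟨q, hq, hqx⟩ := hg s hs
        obtain ⟨r, hr, hrx⟩ := hh s hs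
        refine ⟨q * r, Q.mul_mem hq hr, fun x hx => ?_⟩
        rw [mul_smul, hrx x hx, hqx _ (fixing_maps (hQB hr) hx), mul_smul]
      inv_mem' := by
        intro g hg s hs
        obtain ⟨q, hq, hqx⟩ := hg s hs
        refine ⟨q⁻¹, Q.inv_mem hq, fun x hx => ?_⟩
        rw [inv_smul_eq_iff, hqx _ (fixing_maps (hQB (Q.inv_mem hq)) hx), smul_inv_smul] }
  have hRp : IsPGroup p R := by
    obtain ⟨n, hn⟩ := IsPGroup.iff_card.mp hQp
    intro g
    refine ⟨n, ?_⟩
    apply Subtype.ext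
    rw [Subgroup.coe_pow, Subgroup.coe_one]
    apply eq_of_smul_eq_smul (α := Ω)
    intro y
    obtain ⟨s, hs, rfl⟩ := htr b y
    obtain ⟨q, hq, hqx⟩ := g.2 s hs
    have hk : ∀ k : ℕ, ∀ x ∈ B, ((g : G) ^ k) • (s • x) = s • (q ^ k • x) := by
      intro k
      induction k with
      | zero => intro x _; simp
      | succ k ih =>
        intro x hx
        rw [pow_succ, mul_smul, hqx x hx, ih _ (fixing_maps (hQB hq) hx), pow_succ, mul_smul]
    have hq1 : q ^ p ^ n = 1 := by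
      have : (⟨q, hq⟩ : Q) ^ p ^ n = 1 := by rw [← hn]; exact pow_card_eq_one'
      exact congrArg Subtype.val this
    rw [hk _ b hb, hq1, one_smul, one_smul]
  have hnorm : (S : Subgroup G) ≤ Subgroup.normalizer (R : Set G) := by
    have key : ∀ t ∈ S, ∀ g ∈ R, t * g * t⁻¹ ∈ R := by
      intro t ht g hg s hs
      obtain ⟨q, hq, hqx⟩ := hg (t⁻¹ * s) (mul_mem (inv_mem ht) hs)
      refine ⟨q, hq, fun x hx => ?_⟩
      have := hqx x hx
      calc (t * g * t⁻¹) • s • x = t • g • (t⁻¹ * s) • x := by simp only [mul_smul]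
        _ = s • q • x := by rw [this, mul_smul, smul_inv_smul]
    intro t ht
    rw [Subgroup.mem_set_normalizer_iff]
    intro g
    refine ⟨key t ht g, fun h => ?_⟩
    have := key t⁻¹ (inv_mem ht) _ h
    have e : t⁻¹ * (t * g * t⁻¹) * t⁻¹⁻¹ = g := by group
    rwa [e] at this
  have hsup : IsPGroup p ((S : Subgroup G) ⊔ R : Subgroup G) :=
    IsPGroup.to_sup_of_normal_right' S.isPGroup' hRp hnorm
  have hRS : R ≤ (S : Subgroup G) := by
    have := S.is_maximal' hsup le_sup_left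
    rw [← this]; exact le_sup_right
  refine le_trans ?_ hRS
  intro q hq s hs
  rcases hB s hs with h | h
  · have hsB : s⁻¹ ∈ blkStab (S : Subgroup G) B ⟨b, hb⟩ hB := inv_mem ⟨hs, h⟩
    refine ⟨s⁻¹ * q * s, by simpa using hQ _ hsB q hq, fun x _ => ?_⟩
    simp only [mul_smul, smul_inv_smul]
  · refine ⟨1, Q.one_mem, fun x hx => ?_⟩
    rw [one_smul]
    exact (mem_fixingSubgroup_iff G).mp (hQB hq) _ (h x hx)

open scoped Pointwise in
/-- Local Sylow theory: for a finite block `B` of the transitive Sylow `p`-subgroup `S` and a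
subgroup `M` normalized by `S`, some Sylow `p`-subgroup of `M ∩ Sym(B)` lies in `S`. -/
theorem exists_local_sylow [FaithfulSMul G Ω] (S : Sylow p G)
    (htr : ∀ x y : Ω, ∃ s ∈ S, s • x = y)
    (B : Set Ω) (hB0 : B.Nonempty) (hBf : B.Finite) (hB : IsBlk (S : Subgroup G) B)
    (M : Subgroup G) (hM : ∀ s ∈ S, ∀ m ∈ M, s * m * s⁻¹ ∈ M) :
    ∃ Q : Sylow p (M ⊓ fixingSubgroup G Bᶜ : Subgroup G),
      (Q : Subgroup (M ⊓ fixingSubgroup G Bᶜ : Subgroup G)).map (Subgroup.subtype _) ≤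
        (S : Subgroup G) := by
  have hfin := finite_fixing (G := G) B hBf
  set H : Subgroup G := M ⊓ fixingSubgroup G Bᶜ with hH
  have hHfin : Finite H := Finite.of_injective _ (Subgroup.inclusion_injective
    (inf_le_right : M ⊓ fixingSubgroup G Bᶜ ≤ fixingSubgroup G Bᶜ))
  let D := blkStab (S : Subgroup G) B hB0 hB
  have hDH : ∀ d ∈ D, ∀ h ∈ H, d * h * d⁻¹ ∈ H := by
    intro d hd h hh
    refine ⟨hM d hd.1 h hh.1, ?_⟩
    show d * h * d⁻¹ ∈ fixingSubgroup G Bᶜ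
    rw [mem_fixingSubgroup_iff]
    intro y hy
    have h1 : d⁻¹ • y ∉ B := fun h1 => hy (by
      have := hd.2 _ h1
      rwa [smul_inv_smul] at this)
    have h2 := (mem_fixingSubgroup_iff G).mp hh.2 _ h1
    rw [mul_smul, mul_smul, h2, smul_inv_smul]
  let act : MulDistribMulAction D H :=
    { smul := fun d h => ⟨d * h * (d : G)⁻¹, hDH d d.2 h h.2⟩
      one_smul := fun h => Subtype.ext (by show ((1 : D) : G) * h * ((1 : D) : G)⁻¹ = h; simp)
      mul_smul := fun d e h => Subtype.ext (by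
        show ((d * e : D) : G) * h * ((d * e : D) : G)⁻¹ = d * (e * h * (e : G)⁻¹) * (d : G)⁻¹
        simp [mul_assoc])
      smul_mul := fun d h k => Subtype.ext (by
        show (d : G) * (h * k : H) * (d : G)⁻¹ = (d * h * (d : G)⁻¹) * (d * k * (d : G)⁻¹)
        simp [mul_assoc])
      smul_one := fun d => Subtype.ext (by
        show (d : G) * (1 : H) * (d : G)⁻¹ = (1 : H)
        simp) }
  have hDp : IsPGroup p D := S.isPGroup'.to_le fun d hd => hd.1
  obtain ⟨Q, hQ⟩ := hDp.nonempty_fixed_point_of_prime_not_dvd_card (Sylow p H)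
    (not_dvd_card_sylow p H)
  refine ⟨Q, ?_⟩
  have hQfin : Finite ((Q : Subgroup H).map H.subtype) := by
    refine Set.finite_coe_iff.mpr ?_
    show Set.Finite (((Q : Subgroup H).map H.subtype : Subgroup G) : Set G)
    rw [Subgroup.coe_map]
    exact (Set.toFinite _).image _
  refine le_of_invariant S htr B hB0 hB _ (Q.isPGroup'.map _) ?_ ?_
  · rintro _ ⟨q, _, rfl⟩
    exact q.2.2
  · rintro d hd _ ⟨q, hq, rfl⟩
    have h1 : (⟨d, hd⟩ : D) • Q = Q := hQ ⟨d, hd⟩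
    have h2 : (⟨d, hd⟩ : D) • q ∈ (Q : Subgroup H) := by
      rw [← h1, Sylow.pointwise_smul_def]
      exact Subgroup.smul_mem_pointwise_smul q (⟨d, hd⟩ : D) Q hq
    exact ⟨_, h2, rfl⟩

theorem exists_blk [FaithfulSMul G Ω] (hfin : ∀ g : G, {x : Ω | g • x ≠ x}.Finite)
    (S : Sylow p G) (htr : ∀ x y : Ω, ∃ s ∈ S, s • x = y) (α : Ω) (Φ : Set Ω) (hΦ : Φ.Finite) :
    ∃ B : Set Ω, B.Nonempty ∧ B.Finite ∧ IsBlk (S : Subgroup G) B ∧ Φ ⊆ B := by
  obtain ⟨K, hK, hKf, hKΦ⟩ := exists_finite_orbit (S := (S : Subgroup G)) (Ω := Ω) S.isPGroup'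
    (fun T hT => locally_finite (G := (S : Subgroup G)) (Ω := Ω) (fun s => hfin s) T hT)
    (fun s => hfin s) (fun x y => by
      obtain ⟨s, hs, h⟩ := htr x y
      exact ⟨⟨s, hs⟩, h⟩) α Φ hΦ
  refine ⟨{x : Ω | ∃ k ∈ K, k • α = x}, ⟨α, 1, K.one_mem, one_smul _ _⟩, hKf, ?_, hKΦ⟩
  intro s hs
  by_cases hsK : (⟨s, hs⟩ : (S : Subgroup G)) ∈ K
  · left
    rintro x ⟨k, hk, rfl⟩
    exact ⟨⟨s, hs⟩ * k, K.mul_mem hsK hk, mul_smul (⟨s, hs⟩ : (S : Subgroup G)) k α⟩
  · right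
    rintro x ⟨k, hk, rfl⟩ ⟨k', hk', he⟩
    apply hsK
    have h1 : k'⁻¹ * ⟨s, hs⟩ * k ∈ K := hK (by
      rw [mem_stabilizer_iff, mul_smul, mul_smul, inv_smul_eq_iff]
      exact he.symm)
    have h2 := K.mul_mem (K.mul_mem hk' h1) (K.inv_mem hk)
    have h3 : k' * (k'⁻¹ * ⟨s, hs⟩ * k) * k⁻¹ = ⟨s, hs⟩ := by group
    rwa [h3] at h2

/-- Q1: the trace on a normal subgroup. -/
theorem inter_sylow [FaithfulSMul G Ω] (hfin : ∀ g : G, {x : Ω | g • x ≠ x}.Finite)
    (S : Sylow p G) (htr : ∀ x y : Ω, ∃ s ∈ S, s • x = y) (N : Subgroup G) [N.Normal] :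
    ∃ P : Sylow p N, (P : Subgroup N) = (S : Subgroup G).subgroupOf N := by
  refine ⟨⟨(S : Subgroup G).subgroupOf N,
    S.isPGroup'.comap_of_injective _ N.subtype_injective, ?_⟩, rfl⟩
  intro Q hQ hSQ
  refine le_antisymm ?_ hSQ
  intro x hx
  rw [Subgroup.mem_subgroupOf]
  rcases isEmpty_or_nonempty Ω with hΩ | ⟨⟨α⟩⟩
  · have : (x : G) = 1 := eq_of_smul_eq_smul (α := Ω) (fun y => (hΩ.false y).elim)
    rw [this]; exact S.one_mem
  obtain ⟨B, hB0, hBf, hB, hBx⟩ := exists_blk hfin S htr α _ (hfin (x : G))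
  obtain ⟨T, hT⟩ := exists_local_sylow S htr B hB0 hBf hB N
    (fun s _ m hm => Subgroup.Normal.conj_mem inferInstance m hm s)
  have hxH : (x : G) ∈ N ⊓ fixingSubgroup G Bᶜ := by
    refine ⟨x.2, ?_⟩
    show (x : G) ∈ fixingSubgroup G Bᶜ
    rw [mem_fixingSubgroup_iff]
    intro y hy
    by_contra hne
    exact hy (hBx hne)
  let P' : Subgroup (N ⊓ fixingSubgroup G Bᶜ : Subgroup G) :=
    Q.comap (Subgroup.inclusion inf_le_left)
  have hP' : IsPGroup p P' := hQ.comap_of_injective _ (Subgroup.inclusion_injective _)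
  have hTP : (T : Subgroup _) ≤ P' := by
    intro y hy
    refine hSQ ?_
    rw [Subgroup.mem_subgroupOf]
    exact hT ⟨y, hy, rfl⟩
  have hPT := T.is_maximal' hP' hTP
  have hxP : (⟨x, hxH⟩ : (N ⊓ fixingSubgroup G Bᶜ : Subgroup G)) ∈ P' := hx
  rw [hPT] at hxP
  exact hT ⟨_, hxP, rfl⟩

theorem sup_eq_top {H : Type*} [Group H] [Finite H] (T : Sylow p H) (M : Subgroup H)
    [M.Normal] (hq : IsPGroup p (H ⧸ M)) : (T : Subgroup H) ⊔ M = ⊤ := by
  rw [← Subgroup.index_eq_one]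
  obtain ⟨n, hn⟩ := IsPGroup.iff_card.mp hq
  have h1 : ((T : Subgroup H) ⊔ M).index ∣ p ^ n := by
    rw [← hn]
    exact Subgroup.index_dvd_of_le le_sup_right
  have h2 : ((T : Subgroup H) ⊔ M).index ∣ (T : Subgroup H).index :=
    Subgroup.index_dvd_of_le le_sup_left
  obtain ⟨j, _, hj⟩ := (Nat.dvd_prime_pow Fact.out).mp h1
  rcases Nat.eq_zero_or_pos j with rfl | hpos
  · simpa using hj
  · exfalso
    have h3 : p ∣ (T : Subgroup H).index := by
      refine dvd_trans ?_ h2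
      rw [hj]; exact dvd_pow_self p hpos.ne'
    exact T.not_dvd_index h3

/-- Q2: the image in a quotient. -/
theorem map_sylow [FaithfulSMul G Ω] (hfin : ∀ g : G, {x : Ω | g • x ≠ x}.Finite)
    (S : Sylow p G) (htr : ∀ x y : Ω, ∃ s ∈ S, s • x = y) (N : Subgroup G) [N.Normal] :
    ∃ P : Sylow p (G ⧸ N), (P : Subgroup (G ⧸ N)) =
      (S : Subgroup G).map (QuotientGroup.mk' N) := by
  refine ⟨⟨(S : Subgroup G).map (QuotientGroup.mk' N), S.isPGroup'.map _, ?_⟩, rfl⟩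
  intro P hP hSP
  refine le_antisymm ?_ hSP
  intro z hz
  obtain ⟨x, rfl⟩ := QuotientGroup.mk'_surjective N z
  rcases isEmpty_or_nonempty Ω with hΩ | ⟨⟨α⟩⟩
  · have : (x : G) = 1 := eq_of_smul_eq_smul (α := Ω) (fun y => (hΩ.false y).elim)
    exact ⟨x, by rw [this]; exact S.one_mem, rfl⟩
  obtain ⟨B, hB0, hBf, hB, hBx⟩ := exists_blk hfin S htr α _ (hfin x)
  let M : Subgroup G := P.comap (QuotientGroup.mk' N)
  have hSM : ∀ s ∈ S, s ∈ M := fun s hs => hSP ⟨s, hs, rfl⟩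
  obtain ⟨T, hT⟩ := exists_local_sylow S htr B hB0 hBf hB M
    (fun s hs m hm => M.mul_mem (M.mul_mem (hSM s hs) hm) (M.inv_mem (hSM s hs)))
  have hxH : x ∈ M ⊓ fixingSubgroup G Bᶜ := by
    refine ⟨hz, ?_⟩
    show x ∈ fixingSubgroup G Bᶜ
    rw [mem_fixingSubgroup_iff]
    intro y hy
    by_contra hne
    exact hy (hBx hne)
  have hfin' := finite_fixing (G := G) B hBf
  have hHfin : Finite (M ⊓ fixingSubgroup G Bᶜ : Subgroup G) :=
    Finite.of_injective _ (Subgroup.inclusion_injective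
      (inf_le_right : M ⊓ fixingSubgroup G Bᶜ ≤ fixingSubgroup G Bᶜ))
  let Nh : Subgroup (M ⊓ fixingSubgroup G Bᶜ : Subgroup G) :=
    N.subgroupOf (M ⊓ fixingSubgroup G Bᶜ)
  have hquot : IsPGroup p ((M ⊓ fixingSubgroup G Bᶜ : Subgroup G) ⧸ Nh) := by
    intro w
    obtain ⟨h, rfl⟩ := QuotientGroup.mk_surjective w
    obtain ⟨k, hk⟩ := hP ⟨_, h.2.1⟩
    refine ⟨k, ?_⟩
    have h1 := congrArg Subtype.val hk
    rw [← QuotientGroup.mk_pow, QuotientGroup.eq_one_iff, Subgroup.mem_subgroupOf]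
    rw [← QuotientGroup.eq_one_iff]
    exact h1
  have htop : (T : Subgroup _) ⊔ Nh = ⊤ := by
    exact sup_eq_top T Nh hquot
  have hxT : (⟨x, hxH⟩ : (M ⊓ fixingSubgroup G Bᶜ : Subgroup G)) ∈ (T : Subgroup _) ⊔ Nh := by
    rw [htop]; exact Subgroup.mem_top _
  obtain ⟨t, ht, n, hn, htn⟩ := Subgroup.mem_sup_of_normal_right.mp hxT
  refine ⟨(t : G), hT ⟨t, ht, rfl⟩, ?_⟩
  have e : x = (t : G) * n := (congrArg Subtype.val htn).symm
  rw [e, map_mul]
  have hn' : QuotientGroup.mk' N (n : G) = 1 := (QuotientGroup.eq_one_iff _).mpr hn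
  rw [hn', mul_one]

end Main

end Q22.FinSyl
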