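import Pool.Agent.Q22.FrobDefs
import Pool.Agent.Helper180.FreeMetric

/-! Two different Frobenius partitions of a free group of rank three. -/

namespace Q22.Frob

open Pool.Agent.Helper180.FreeMetric

section Free

variable {ι : Type}

/-- The centralizer of an element. -/
def C (g : FreeGroup ι) : Subgroup (FreeGroup ι) := Subgroup.centralizer {g}

theorem mem_C {g x : FreeGroup ι} : x ∈ C g ↔ x * g = g * x :=
  Subgroup.mem_centralizer_singleton_iff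

theorem self_mem_C (g : FreeGroup ι) : g ∈ C g := mem_C.mpr rfl

theorem C_eq {g x : FreeGroup ι} (hx : x ≠ 1) (hg : g ≠ 1) (h : x ∈ C g) : C x = C g := by
  have hxg : x * g = g * x := mem_C.mp h
  ext y
  rw [mem_C, mem_C]
  constructor
  · intro hy
    exact comm_trans hx hy hxg.symm
  · intro hy
    exact comm_trans hg hy hxg

theorem zpow_inj {u : FreeGroup ι} (hu : u ≠ 1) {m n : ℤ} (h : u ^ m = u ^ n) : m = n := by
  by_contra hne
  have h1 : u ^ (m - n) = 1 := by rw [zpow_sub, h, mul_inv_cancel]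
  have h2 : m - n ≠ 0 := sub_ne_zero.mpr hne
  exact hu ((IsMulTorsionFree.zpow_eq_one_iff_left h2).mp h1)

theorem C_malnormal {g : FreeGroup ι} (hg : g ≠ 1) : Malnormal (C g) := by
  intro γ hγ x hx hxγ
  by_contra hx1
  apply hγ
  obtain ⟨u, hug, hu⟩ := centralizer_cyclic g hg
  have hu1 : u ≠ 1 := by
    rintro rfl
    obtain ⟨n, hn⟩ := hu g rfl
    rw [one_zpow] at hn
    exact hg hn
  have hCx : C x = C g := C_eq hx1 hg hx
  have hy1 : γ⁻¹ * x * γ ≠ 1 := by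
    intro h
    apply hx1
    have : x = γ * (γ⁻¹ * x * γ) * γ⁻¹ := by group
    rw [this, h]; group
  have hCy : C (γ⁻¹ * x * γ) = C g := C_eq hy1 hg hxγ
  have huC : u ∈ C g := mem_C.mpr hug
  -- conjugates of `u`
  have h1 : γ⁻¹ * u * γ ∈ C g := by
    rw [← hCy, mem_C]
    have : u * x = x * u := mem_C.mp (by rw [hCx]; exact huC)
    calc γ⁻¹ * u * γ * (γ⁻¹ * x * γ) = γ⁻¹ * (u * x) * γ := by group
      _ = γ⁻¹ * (x * u) * γ := by rw [this]
      _ = _ := by group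
  have h2 : γ * u * γ⁻¹ ∈ C g := by
    rw [← hCx, mem_C]
    have : u * (γ⁻¹ * x * γ) = (γ⁻¹ * x * γ) * u := mem_C.mp (by rw [hCy]; exact huC)
    calc γ * u * γ⁻¹ * x = γ * (u * (γ⁻¹ * x * γ)) * γ⁻¹ := by group
      _ = γ * ((γ⁻¹ * x * γ) * u) * γ⁻¹ := by rw [this]
      _ = _ := by group
  obtain ⟨n, hn⟩ := hu _ (mem_C.mp h1)
  obtain ⟨k, hk⟩ := hu _ (mem_C.mp h2)
  have h3 : u ^ (1 : ℤ) = u ^ (n * k) := by
    rw [zpow_one, zpow_mul, ← hn]
    have : (γ⁻¹ * u * γ) ^ k = γ⁻¹ * u ^ k * γ := by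
      have := conj_zpow (a := γ⁻¹) (b := u) (i := k)
      simpa using this
    rw [this, ← hk]; group
  have h4 : n * k = 1 := (zpow_inj hu1 h3).symm
  rcases Int.eq_one_or_neg_one_of_mul_eq_one h4 with rfl | rfl
  · rw [zpow_one] at hn
    have hγu : γ * u = u * γ := by
      have : u * γ = γ * (γ⁻¹ * u * γ) := by group
      rw [this, hn]
    exact mem_C.mpr (comm_trans hu1 hγu hug.symm)
  · exfalso
    rw [zpow_neg, zpow_one] at hn
    have h5 : γ⁻¹ * u⁻¹ * γ = u := by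
      have : γ⁻¹ * u⁻¹ * γ = (γ⁻¹ * u * γ)⁻¹ := by group
      rw [this, hn, inv_inv]
    have h6 : (γ * γ) * u = u * (γ * γ) := by
      have : u = γ⁻¹ * (γ⁻¹ * u * γ) * γ := by rw [hn]; exact h5.symm
      calc (γ * γ) * u = (γ * γ) * (γ⁻¹ * (γ⁻¹ * u * γ) * γ) := by rw [← this]
        _ = _ := by group
    obtain ⟨j, hj⟩ := hu (γ * γ) (comm_trans hu1 h6 hug.symm)
    have h7 : u ^ (-j) = u ^ j := by
      have : γ⁻¹ * (γ * γ) * γ = γ * γ := by group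
      rw [hj] at this
      have h8 : γ⁻¹ * u ^ j * γ = (γ⁻¹ * u * γ) ^ j := by
        have := conj_zpow (a := γ⁻¹) (b := u) (i := j)
        simpa using this.symm
      rw [h8, hn, inv_zpow, ← zpow_neg] at this
      exact this
    have h8 : j = 0 := by
      have := zpow_inj hu1 h7
      omega
    rw [h8, zpow_zero] at hj
    have h9 : γ = 1 := by
      have : γ ^ (2 : ℤ) = 1 := by rw [zpow_two]; exact hj
      exact (IsMulTorsionFree.zpow_eq_one_iff_left (by norm_num)).mp this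
    apply hγ
    rw [h9]
    exact (C g).one_mem

/-- Retracts of free groups are malnormal. -/
theorem retract_malnormal (ρ : FreeGroup ι →* FreeGroup ι) (hρ : ∀ x, ρ (ρ x) = ρ x) :
    Malnormal ρ.range := by
  intro γ hγ x hx hxγ
  by_contra hx1
  apply hγ
  have hfix : ∀ y ∈ ρ.range, ρ y = y := by
    rintro _ ⟨z, rfl⟩
    exact hρ z
  have h1 : (ρ γ)⁻¹ * x * ρ γ = γ⁻¹ * x * γ := by
    rw [← hfix _ hxγ, map_mul, map_mul, map_inv, hfix x hx]
  -- `k = γ (ρ γ)⁻¹` commutes with `x`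
  have h2 : (γ * (ρ γ)⁻¹) * x = x * (γ * (ρ γ)⁻¹) := by
    calc (γ * (ρ γ)⁻¹) * x = γ * ((ρ γ)⁻¹ * x * ρ γ) * (ρ γ)⁻¹ := by group
      _ = γ * (γ⁻¹ * x * γ) * (ρ γ)⁻¹ := by rw [h1]
      _ = _ := by group
  obtain ⟨u, hux, hu⟩ := centralizer_cyclic x hx1
  obtain ⟨n, hn⟩ := hu _ h2
  obtain ⟨m, hm⟩ := hu x rfl
  have h3 : ρ u ^ n = 1 := by
    rw [← map_zpow, ← hn, map_mul, map_inv, hρ, mul_inv_cancel]
  by_cases hn0 : n = 0
  · rw [hn0, zpow_zero] at hn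
    rw [mul_inv_eq_one.mp hn]
    exact ⟨γ, rfl⟩
  · exfalso
    have h4 : ρ u = 1 := (IsMulTorsionFree.zpow_eq_one_iff_left hn0).mp h3
    apply hx1
    rw [← hfix x hx, hm, map_zpow, h4, one_zpow]

end Free

section Partitions

variable {ι : Type}

theorem map_conj_C (g γ : FreeGroup ι) :
    (C g).map (MulAut.conj γ⁻¹).toMonoidHom = C (γ⁻¹ * g * γ) := by
  ext x
  rw [mem_C]
  constructor
  · rintro ⟨y, hy, rfl⟩
    have hy' : y * g = g * y := mem_C.mp hy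
    show (γ⁻¹ * y * γ⁻¹⁻¹) * (γ⁻¹ * g * γ) = (γ⁻¹ * g * γ) * (γ⁻¹ * y * γ⁻¹⁻¹)
    calc (γ⁻¹ * y * γ⁻¹⁻¹) * (γ⁻¹ * g * γ) = γ⁻¹ * (y * g) * γ := by group
      _ = γ⁻¹ * (g * y) * γ := by rw [hy']
      _ = _ := by group
  · intro hx
    refine ⟨γ * x * γ⁻¹, mem_C.mpr ?_, ?_⟩
    · calc γ * x * γ⁻¹ * g = γ * (x * (γ⁻¹ * g * γ)) * γ⁻¹ := by group
        _ = γ * ((γ⁻¹ * g * γ) * x) * γ⁻¹ := by rw [hx]
        _ = _ := by group
    · show γ⁻¹ * (γ * x * γ⁻¹) * γ⁻¹⁻¹ = x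
      group

theorem conj_ne_one {g γ : FreeGroup ι} (hg : g ≠ 1) : γ⁻¹ * g * γ ≠ 1 := by
  intro h
  apply hg
  have : g = γ * (γ⁻¹ * g * γ) * γ⁻¹ := by group
  rw [this, h]; group

/-- The first partition: all centralizers. -/
def 𝒞 (ι : Type) : Set (Subgroup (FreeGroup ι)) := {A | ∃ g : FreeGroup ι, g ≠ 1 ∧ A = C g}

/-- The conjugates of a subgroup. -/
def conjs (A : Subgroup (FreeGroup ι)) : Set (Subgroup (FreeGroup ι)) :=
  {B | ∃ γ : FreeGroup ι, B = A.map (MulAut.conj γ⁻¹).toMonoidHom}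

/-- The second partition: the conjugates of `A` and the centralizers of the elements outside. -/
def 𝒟 (A : Subgroup (FreeGroup ι)) : Set (Subgroup (FreeGroup ι)) :=
  conjs A ∪ {B | ∃ g : FreeGroup ι, g ≠ 1 ∧ (∀ D ∈ conjs A, g ∉ D) ∧ B = C g}

theorem mem_map_conj {A : Subgroup (FreeGroup ι)} {γ x : FreeGroup ι} :
    x ∈ A.map (MulAut.conj γ⁻¹).toMonoidHom ↔ γ * x * γ⁻¹ ∈ A := by
  constructor
  · rintro ⟨y, hy, rfl⟩
    show γ * (γ⁻¹ * y * γ⁻¹⁻¹) * γ⁻¹ ∈ A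
    have : γ * (γ⁻¹ * y * γ⁻¹⁻¹) * γ⁻¹ = y := by group
    rw [this]; exact hy
  · intro h
    refine ⟨_, h, ?_⟩
    show γ⁻¹ * (γ * x * γ⁻¹) * γ⁻¹⁻¹ = x
    group

theorem map_map_conj (A : Subgroup (FreeGroup ι)) (γ δ : FreeGroup ι) :
    (A.map (MulAut.conj γ⁻¹).toMonoidHom).map (MulAut.conj δ⁻¹).toMonoidHom =
      A.map (MulAut.conj (γ * δ)⁻¹).toMonoidHom := by
  ext x
  rw [mem_map_conj, mem_map_conj, mem_map_conj]
  have : γ * (δ * x * δ⁻¹) * γ⁻¹ = γ * δ * x * (γ * δ)⁻¹ := by group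
  rw [this]

theorem malnormal_map {A : Subgroup (FreeGroup ι)} (hA : Malnormal A) (γ : FreeGroup ι) :
    Malnormal (A.map (MulAut.conj γ⁻¹).toMonoidHom) := by
  intro δ hδ x hx hxδ
  rw [mem_map_conj] at hδ hx hxδ
  have h1 := hA (γ * δ * γ⁻¹) hδ (γ * x * γ⁻¹) hx (by
    have : (γ * δ * γ⁻¹)⁻¹ * (γ * x * γ⁻¹) * (γ * δ * γ⁻¹) = γ * (δ⁻¹ * x * δ) * γ⁻¹ := by group
    rw [this]; exact hxδ)
  have : x = γ⁻¹ * (γ * x * γ⁻¹) * γ := by group
  rw [this, h1]; group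

theorem partition_C (a b : FreeGroup ι) (hab : a * b ≠ b * a) :
    IsFrobeniusPartition (⊥ : Subgroup (FreeGroup ι)) (𝒞 ι) := by
  have ha : a ≠ 1 := by rintro rfl; exact hab (by group)
  have hb : b ≠ 1 := by rintro rfl; exact hab (by group)
  refine ⟨?_, inferInstance, ?_, ?_⟩
  · intro x hx
    refine ⟨C x, ⟨Or.inr ⟨x, hx, rfl⟩, self_mem_C x⟩, ?_⟩
    rintro B ⟨hB | ⟨g, hg, rfl⟩, hxB⟩
    · rw [hB] at hxB
      exact absurd (Subgroup.mem_bot.mp hxB) hx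
    · exact (C_eq hx hg hxB).symm
  · rintro _ ⟨g, hg, rfl⟩
    exact ⟨C_malnormal hg, fun γ => ⟨γ⁻¹ * g * γ, conj_ne_one hg, map_conj_C g γ⟩⟩
  · refine ⟨C a, Or.inr ⟨a, ha, rfl⟩, C b, Or.inr ⟨b, hb, rfl⟩, ?_, ?_, ?_⟩
    · intro h
      apply hab
      exact mem_C.mp (by rw [← h]; exact self_mem_C a)
    · intro h
      exact ha (Subgroup.mem_bot.mp (h ▸ self_mem_C a))
    · intro h
      exact hb (Subgroup.mem_bot.mp (h ▸ self_mem_C b))

theorem C_le {A : Subgroup (FreeGroup ι)} (hA : Malnormal A) {x : FreeGroup ι} (hx : x ∈ A)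
    (hx1 : x ≠ 1) : C x ≤ A := by
  intro y hy
  by_contra hyA
  apply hx1
  refine hA y hyA x hx ?_
  have : y * x = x * y := mem_C.mp hy
  have h2 : y⁻¹ * x * y = x := by
    rw [mul_assoc, ← this]; group
  rw [h2]; exact hx

theorem partition_D (A : Subgroup (FreeGroup ι)) (hA : Malnormal A) (a c : FreeGroup ι)
    (ha : a ∈ A) (ha1 : a ≠ 1) (hc : ∀ D ∈ conjs A, c ∉ D) :
    IsFrobeniusPartition (⊥ : Subgroup (FreeGroup ι)) (𝒟 A) := by
  have hconjA : A ∈ conjs A := ⟨1, by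
    ext x
    rw [mem_map_conj]; simp⟩
  have hc1 : c ≠ 1 := by
    rintro rfl
    exact hc A hconjA A.one_mem
  have hmal : ∀ D ∈ conjs A, Malnormal D := by
    rintro _ ⟨γ, rfl⟩
    exact malnormal_map hA γ
  refine ⟨?_, inferInstance, ?_, ?_⟩
  · intro x hx
    by_cases hxD : ∃ D ∈ conjs A, x ∈ D
    · obtain ⟨D, hD, hxD⟩ := hxD
      refine ⟨D, ⟨Or.inr (Or.inl hD), hxD⟩, ?_⟩
      rintro B ⟨hB | (hB | ⟨g, hg, hgD, rfl⟩), hxB⟩
      · rw [hB] at hxB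
        exact absurd (Subgroup.mem_bot.mp hxB) hx
      · obtain ⟨γ, rfl⟩ := hD
        obtain ⟨δ, rfl⟩ := hB
        rw [mem_map_conj] at hxD hxB
        -- `γ δ⁻¹ ∈ A`
        have h1 : γ * δ⁻¹ ∈ A := by
          by_contra hnot
          apply hx
          have h2 := hA _ hnot (γ * x * γ⁻¹) hxD (by
            have : (γ * δ⁻¹)⁻¹ * (γ * x * γ⁻¹) * (γ * δ⁻¹) = δ * x * δ⁻¹ := by group
            rw [this]; exact hxB)
          have : x = γ⁻¹ * (γ * x * γ⁻¹) * γ := by group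
          rw [this, h2]; group
        ext y
        rw [mem_map_conj, mem_map_conj]
        have e1 : γ * y * γ⁻¹ = (γ * δ⁻¹) * (δ * y * δ⁻¹) * (γ * δ⁻¹)⁻¹ := by group
        have e2 : δ * y * δ⁻¹ = (γ * δ⁻¹)⁻¹ * (γ * y * γ⁻¹) * (γ * δ⁻¹) := by group
        constructor
        · intro h
          rw [e1]
          exact A.mul_mem (A.mul_mem h1 h) (A.inv_mem h1)
        · intro h
          rw [e2]
          exact A.mul_mem (A.mul_mem (A.inv_mem h1) h) h1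
      · exfalso
        have h1 : C x = C g := C_eq hx hg hxB
        have h2 : g ∈ C x := by rw [h1]; exact self_mem_C g
        exact hgD D hD (C_le (hmal D hD) hxD hx h2)
    · push Not at hxD
      refine ⟨C x, ⟨Or.inr (Or.inr ⟨x, hx, hxD, rfl⟩), self_mem_C x⟩, ?_⟩
      rintro B ⟨hB | (hB | ⟨g, hg, hgD, rfl⟩), hxB⟩
      · rw [hB] at hxB
        exact absurd (Subgroup.mem_bot.mp hxB) hx
      · exact absurd hxB (hxD B hB)
      · exact (C_eq hx hg hxB).symm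
  · rintro B (hB | ⟨g, hg, hgD, rfl⟩)
    · refine ⟨hmal B hB, fun γ => Or.inl ?_⟩
      obtain ⟨δ, rfl⟩ := hB
      exact ⟨δ * γ, map_map_conj A δ γ⟩
    · refine ⟨C_malnormal hg, fun γ => Or.inr ⟨γ⁻¹ * g * γ, conj_ne_one hg, ?_, map_conj_C g γ⟩⟩
      rintro _ ⟨δ, rfl⟩ hmem
      rw [mem_map_conj] at hmem
      refine hgD _ ⟨δ * γ⁻¹, rfl⟩ ?_
      rw [mem_map_conj]
      have : δ * γ⁻¹ * g * (δ * γ⁻¹)⁻¹ = δ * (γ⁻¹ * g * γ) * δ⁻¹ := by group
      rw [this]; exact hmem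
  · refine ⟨A, Or.inr (Or.inl hconjA), C c, Or.inr (Or.inr ⟨c, hc1, hc, rfl⟩), ?_, ?_, ?_⟩
    · intro h
      exact hc A hconjA (h ▸ self_mem_C c)
    · intro h
      exact ha1 (Subgroup.mem_bot.mp (h ▸ ha))
    · intro h
      exact hc1 (Subgroup.mem_bot.mp (h ▸ self_mem_C c))

end Partitions

section Main

/-- The generators. -/
def a : FreeGroup (Fin 3) := FreeGroup.of 0
/-- The generators. -/
def b : FreeGroup (Fin 3) := FreeGroup.of 1
/-- The generators. -/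
def c : FreeGroup (Fin 3) := FreeGroup.of 2

/-- The retraction killing `c`. -/
def ρ : FreeGroup (Fin 3) →* FreeGroup (Fin 3) :=
  FreeGroup.lift fun i => if i = 2 then 1 else FreeGroup.of i

theorem ρ_idem (x : FreeGroup (Fin 3)) : ρ (ρ x) = ρ x := by
  have : ρ.comp ρ = ρ := by
    ext i
    fin_cases i <;> simp [ρ]
  exact DFunLike.congr_fun this x

theorem ab_ne : a * b ≠ b * a := by
  intro h
  have h1 := congrArg FreeGroup.toWord h
  revert h1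
  decide

theorem c_not (D : Subgroup (FreeGroup (Fin 3))) (hD : D ∈ conjs ρ.range) : c ∉ D := by
  obtain ⟨γ, rfl⟩ := hD
  rw [mem_map_conj]
  rintro ⟨x, hx⟩
  -- the exponent sum of `c`
  let e : FreeGroup (Fin 3) →* Multiplicative ℤ :=
    FreeGroup.lift fun i => if i = 2 then Multiplicative.ofAdd 1 else 1
  have h1 : e.comp ρ = 1 := by
    ext i
    fin_cases i <;> simp [e, ρ]
  have h2 : e (ρ x) = 1 := DFunLike.congr_fun h1 x
  rw [hx, map_mul, map_mul, map_inv, mul_comm (e γ), mul_assoc, mul_inv_cancel, mul_one] at h2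
  have h3 : e c = Multiplicative.ofAdd 1 := by simp [e, c]
  rw [h3] at h2
  have : (1 : ℤ) = 0 := h2
  omega

theorem C_cyc (g : FreeGroup (Fin 3)) (hg : g ≠ 1) (x y : C g) : x * y = y * x :=
  Subtype.ext (comm_trans hg (mem_C.mp x.2) (mem_C.mp y.2))

theorem aA : a ∈ ρ.range := ⟨a, by simp [ρ, a]⟩
theorem bA : b ∈ ρ.range := ⟨b, by simp [ρ, b]⟩

theorem a_ne : a ≠ 1 := by
  intro h
  exact ab_ne (by rw [h]; group)

theorem range_not_comm : ¬ ∀ x y : ρ.range, x * y = y * x := by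
  intro h
  exact ab_ne (congrArg Subtype.val (h ⟨a, aA⟩ ⟨b, bA⟩))

theorem range_mem : ρ.range ∈ 𝒟 ρ.range := Or.inl ⟨1, by
  ext x
  rw [mem_map_conj]; simp⟩

theorem part1 : IsFrobeniusPartition (⊥ : Subgroup (FreeGroup (Fin 3))) (𝒞 (Fin 3)) :=
  partition_C a b ab_ne

theorem part2 : IsFrobeniusPartition (⊥ : Subgroup (FreeGroup (Fin 3))) (𝒟 ρ.range) :=
  partition_D ρ.range (retract_malnormal ρ ρ_idem) a c aA a_ne c_not

theorem c_ne : c ≠ 1 := by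
  intro h
  exact c_not ρ.range ⟨1, by ext x; rw [mem_map_conj]; simp⟩ (h ▸ one_mem _)

theorem Cc_mem : C c ∈ 𝒟 ρ.range := Or.inr ⟨c, c_ne, c_not, rfl⟩

theorem ne_parts : 𝒟 ρ.range ≠ 𝒞 (Fin 3) := by
  intro h
  have h1 : ρ.range ∈ 𝒞 (Fin 3) := by rw [← h]; exact range_mem
  obtain ⟨g, hg, he⟩ := h1
  apply range_not_comm
  intro x y
  have hx : (x : FreeGroup (Fin 3)) ∈ C g := by rw [← he]; exact x.2
  have hy : (y : FreeGroup (Fin 3)) ∈ C g := by rw [← he]; exact y.2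
  exact Subtype.ext (comm_trans hg (mem_C.mp hx) (mem_C.mp hy))

theorem not_iso : ¬ Nonempty (ρ.range ≃* C c) := by
  rintro ⟨e⟩
  apply range_not_comm
  intro x y
  apply e.injective
  rw [map_mul, map_mul]
  exact C_cyc c c_ne (e x) (e y)

/-- No member of a Frobenius partition with trivial kernel is the whole group. -/
theorem no_complement {Γ : Type*} [Group Γ] {𝒜 : Set (Subgroup Γ)}
    (h : IsFrobeniusPartition (⊥ : Subgroup Γ) 𝒜) (A : Subgroup Γ) (hA : A ∈ 𝒜) :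
    ¬ Subgroup.IsComplement' (⊥ : Subgroup Γ) A := by
  intro hc
  have hA' : A = ⊤ := Subgroup.isComplement'_bot_left.mp hc
  obtain ⟨h1, _, _, B, hB, D, hD, hBD, hB1, hD1⟩ := h
  have key : ∀ B ∈ insert (⊥ : Subgroup Γ) 𝒜, B ≠ ⊥ → B = A := by
    intro B hB hB1
    obtain ⟨⟨x, hx⟩, hx1'⟩ := Subgroup.ne_bot_iff_exists_ne_one.mp hB1
    have hx1 : x ≠ 1 := fun h => hx1' (Subtype.ext h)
    exact (h1 x hx1).unique ⟨hB, hx⟩ ⟨Or.inr hA, by rw [hA']; trivial⟩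
  exact hBD ((key B hB hB1).trans (key D hD hD1).symm)

end Main

end Q22.Frob
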