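import Mathlib

/-! Frobenius partitions of groups. -/

namespace Q22.Frob

/-- `A` is malnormal: `γ⁻¹ A γ ∩ A = 1` for all `γ ∉ A`. -/
def Malnormal {Γ : Type*} [Group Γ] (A : Subgroup Γ) : Prop :=
  ∀ γ : Γ, γ ∉ A → ∀ x : Γ, x ∈ A → γ⁻¹ * x * γ ∈ A → x = 1

/-- `{Γ₁} ∪ 𝒜` is a nontrivial Frobenius partition of `Γ`: every non-identity element lies in
exactly one member, `Γ₁` is normal, the members of `𝒜` are malnormal and their conjugates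
`γ⁻¹ A γ` are members of `𝒜`, and at least two members of the partition are nontrivial. -/
def IsFrobeniusPartition {Γ : Type*} [Group Γ] (Γ₁ : Subgroup Γ) (𝒜 : Set (Subgroup Γ)) : Prop :=
  (∀ x : Γ, x ≠ 1 → ∃! A : Subgroup Γ, A ∈ insert Γ₁ 𝒜 ∧ x ∈ A) ∧
    Γ₁.Normal ∧
    (∀ A ∈ 𝒜, Malnormal A ∧ ∀ γ : Γ, A.map (MulAut.conj γ⁻¹).toMonoidHom ∈ 𝒜) ∧
    ∃ A ∈ insert Γ₁ 𝒜, ∃ B ∈ insert Γ₁ 𝒜, A ≠ B ∧ A ≠ ⊥ ∧ B ≠ ⊥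

end Q22.Frob
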