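import Mathlib

/-! Irreducible and faithful coset spaces of topological groups, minimal closed normal
subgroups. -/

namespace Q22.Irr

/-- `G/H` is an irreducible coset space: `H` is a proper closed subgroup and there is no closed
subgroup strictly between `H` and `G`. -/
def IsIrreducibleCoset {G : Type*} [Group G] [TopologicalSpace G] (H : Subgroup G) : Prop :=
  IsClosed (H : Set G) ∧ H ≠ ⊤ ∧
    ∀ K : Subgroup G, IsClosed (K : Set G) → ¬ (H < K ∧ K < ⊤)

/-- `G/H` is faithful: the intersection of the conjugates of `H` is trivial. -/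
def IsFaithfulCoset {G : Type*} [Group G] (H : Subgroup G) : Prop :=
  (⨅ g : G, H.map (MulAut.conj g).toMonoidHom) = ⊥

/-- `M` is minimal among the nontrivial closed normal subgroups of `G`. -/
def IsMinClosedNormal {G : Type*} [Group G] [TopologicalSpace G] (M : Subgroup G) : Prop :=
  (M.Normal ∧ IsClosed (M : Set G) ∧ M ≠ ⊥) ∧
    ∀ L : Subgroup G, L.Normal → IsClosed (L : Set G) → L ≠ ⊥ → L ≤ M → L = M

end Q22.Irr
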