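import Mathlib
import Pool.Agent.Q22.IrrDefs

/-! The abstract construction. -/

set_option linter.unusedSectionVars false
set_option linter.unusedSimpArgs false

namespace Q22.Irr

open Topology

variable {P : Type*} [Group P]

/-- Data for the construction. -/
structure Data (P : Type*) [Group P] [TopologicalSpace P] where
  A : Subgroup P
  H : Subgroup P
  V : Subgroup P
  N : Subgroup P
  Acl : IsClosed (A : Set P)
  Acomm : ∀ a ∈ A, ∀ b ∈ A, a * b = b * a
  Ainv : ∀ h ∈ H, ∀ a ∈ A, h * a * h⁻¹ ∈ A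
  disj : ∀ x ∈ H, x ∈ A → x = 1
  Hcl : (A : Set P) ⊆ closure (H : Set P)
  faith : ∀ h ∈ H, (∀ a ∈ A, h * a = a * h) → h = 1
  irr : ∀ D : Subgroup P, IsClosed (D : Set P) → D ≤ A →
    (∀ h ∈ H, ∀ d ∈ D, h * d * h⁻¹ ∈ D) → D ≠ ⊥ → D = A
  VA : V ≤ A
  NA : N ≤ A
  Vinv : ∀ h ∈ H, ∀ v ∈ V, h * v * h⁻¹ ∈ V
  Ninv : ∀ h ∈ H, ∀ v ∈ N, h * v * h⁻¹ ∈ N
  Vne : V ≠ ⊥
  Nne : N ≠ ⊥
  VN : ∀ x ∈ V, x ∈ N → x = 1

variable [TopologicalSpace P]

/-- The group `{(v x, n x)}`. -/
def Data.G (d : Data P) : Subgroup (P × P) where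
  carrier := {p | ∃ v ∈ d.V, ∃ n ∈ d.N, ∃ x ∈ d.H, p = (v * x, n * x)}
  one_mem' := ⟨1, d.V.one_mem, 1, d.N.one_mem, 1, d.H.one_mem, by ext <;> simp⟩
  mul_mem' := by
    rintro _ _ ⟨v, hv, n, hn, x, hx, rfl⟩ ⟨v', hv', n', hn', x', hx', rfl⟩
    refine ⟨v * (x * v' * x⁻¹), d.V.mul_mem hv (d.Vinv x hx v' hv'),
      n * (x * n' * x⁻¹), d.N.mul_mem hn (d.Ninv x hx n' hn'), x * x', d.H.mul_mem hx hx', ?_⟩
    ext
    · simp [mul_assoc]
    · simp [mul_assoc]
  inv_mem' := by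
    rintro _ ⟨v, hv, n, hn, x, hx, rfl⟩
    refine ⟨x⁻¹ * v⁻¹ * x⁻¹⁻¹, d.Vinv _ (d.H.inv_mem hx) _ (d.V.inv_mem hv),
      x⁻¹ * n⁻¹ * x⁻¹⁻¹, d.Ninv _ (d.H.inv_mem hx) _ (d.N.inv_mem hn), x⁻¹, d.H.inv_mem hx, ?_⟩
    ext
    · simp [mul_assoc]
    · simp [mul_assoc]

theorem Data.mem_G (d : Data P) {v n x : P} (hv : v ∈ d.V) (hn : n ∈ d.N) (hx : x ∈ d.H) :
    (v * x, n * x) ∈ d.G := ⟨v, hv, n, hn, x, hx, rfl⟩

/-- The diagonal subgroup. -/
def Data.K (d : Data P) : Subgroup d.G where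
  carrier := {g | (g : P × P).1 = (g : P × P).2}
  one_mem' := by simp
  mul_mem' := by
    intro a b ha hb
    simp only [Set.mem_ofPred_eq, Subgroup.coe_mul, Prod.fst_mul, Prod.snd_mul] at *
    rw [ha, hb]
  inv_mem' := by
    intro a ha
    simp only [Set.mem_ofPred_eq, Subgroup.coe_inv, Prod.fst_inv, Prod.snd_inv] at *
    rw [ha]

/-- The subgroup of all `(v, 1)`. -/
def Data.M (d : Data P) : Subgroup d.G where
  carrier := {g | (g : P × P).2 = 1}
  one_mem' := by simp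
  mul_mem' := by
    intro a b ha hb
    simp only [Set.mem_ofPred_eq, Subgroup.coe_mul, Prod.fst_mul, Prod.snd_mul] at *
    rw [ha, hb, one_mul]
  inv_mem' := by
    intro a ha
    simp only [Set.mem_ofPred_eq, Subgroup.coe_inv, Prod.fst_inv, Prod.snd_inv] at *
    rw [ha, inv_one]

theorem Data.mem_K (d : Data P) (g : d.G) : g ∈ d.K ↔ (g : P × P).1 = (g : P × P).2 := Iff.rfl

theorem Data.mem_M (d : Data P) (g : d.G) : g ∈ d.M ↔ (g : P × P).2 = 1 := Iff.rfl

theorem Data.K_form (d : Data P) (g : d.G) (hg : g ∈ d.K) :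
    ∃ x ∈ d.H, (g : P × P) = (x, x) := by
  obtain ⟨g, v, hv, n, hn, x, hx, rfl⟩ := g
  rw [d.mem_K] at hg
  have hg' : v * x = n * x := hg
  have h1 : v = n := mul_right_cancel hg'
  have h2 : v = 1 := d.VN v hv (h1 ▸ hn)
  refine ⟨x, hx, ?_⟩
  subst h1
  simp [h2]

theorem Data.M_form (d : Data P) (g : d.G) (hg : g ∈ d.M) :
    ∃ v ∈ d.V, (g : P × P) = (v, 1) := by
  obtain ⟨g, v, hv, n, hn, x, hx, rfl⟩ := g
  rw [d.mem_M] at hg
  have hg' : n * x = 1 := hg
  have h1 : x = n⁻¹ := eq_inv_of_mul_eq_one_right hg'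
  have h2 : x = 1 := d.disj x hx (h1 ▸ d.A.inv_mem (d.NA hn))
  refine ⟨v, hv, ?_⟩
  subst h2
  simp only [mul_one] at hg' ⊢
  rw [hg']

variable [IsTopologicalGroup P] [T2Space P]

theorem Data.K_closed (d : Data P) : IsClosed (d.K : Set d.G) := by
  have : (d.K : Set d.G) = {g : d.G | (g : P × P).1 = (g : P × P).2} := rfl
  rw [this]
  exact isClosed_eq (continuous_fst.comp continuous_subtype_val)
    (continuous_snd.comp continuous_subtype_val)

theorem Data.M_closed (d : Data P) : IsClosed (d.M : Set d.G) := by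
  have : (d.M : Set d.G) = {g : d.G | (g : P × P).2 = 1} := rfl
  rw [this]
  exact isClosed_eq (continuous_snd.comp continuous_subtype_val) continuous_const

theorem Data.M_normal (d : Data P) : d.M.Normal := by
  constructor
  intro a ha b
  rw [d.mem_M] at *
  simp [ha]

theorem Data.exists_V (d : Data P) : ∃ v ∈ d.V, v ≠ 1 := by
  by_contra h
  push Not at h
  exact d.Vne ((Subgroup.eq_bot_iff_forall _).2 h)

theorem Data.exists_N (d : Data P) : ∃ v ∈ d.N, v ≠ 1 := by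
  by_contra h
  push Not at h
  exact d.Nne ((Subgroup.eq_bot_iff_forall _).2 h)

theorem Data.V_mem (d : Data P) {v : P} (hv : v ∈ d.V) : (v, (1 : P)) ∈ d.G :=
  ⟨v, hv, 1, d.N.one_mem, 1, d.H.one_mem, by simp⟩

theorem Data.N_mem (d : Data P) {v : P} (hv : v ∈ d.N) : ((1 : P), v) ∈ d.G :=
  ⟨1, d.V.one_mem, v, hv, 1, d.H.one_mem, by simp⟩

theorem Data.H_mem (d : Data P) {v : P} (hv : v ∈ d.H) : (v, v) ∈ d.G :=
  ⟨1, d.V.one_mem, 1, d.N.one_mem, v, hv, by simp⟩

theorem Data.K_ne_top (d : Data P) : d.K ≠ ⊤ := by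
  obtain ⟨n, hn, hn1⟩ := d.exists_N
  intro h
  have : (⟨((1 : P), n), d.N_mem hn⟩ : d.G) ∈ d.K := by rw [h]; trivial
  rw [d.mem_K] at this
  exact hn1 this.symm

/-- Closedness in the subspace: an element of `G` in the closure in `P × P` of a closed subgroup
lies in that subgroup. -/
theorem mem_of_closure {Q : Type*} [TopologicalSpace Q] {S : Set Q} {T : Set S} (hT : IsClosed T)
    (g : S) (hg : (g : Q) ∈ closure ((↑) '' T : Set Q)) : g ∈ T := by
  rw [← hT.closure_eq, (Topology.IsInducing.subtypeVal (t := S)).closure_eq_preimage_closure_image T]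
  exact hg

theorem Data.maximal (d : Data P) (K : Subgroup d.G) (hK : IsClosed (K : Set d.G))
    (hle : d.K < K) : K = ⊤ := by
  obtain ⟨hle, hnot⟩ := hle
  -- the closure of `K` in `P × P`
  set C : Subgroup (P × P) := (K.map d.G.subtype).topologicalClosure with hC
  have hCcl : IsClosed (C : Set (P × P)) := Subgroup.isClosed_topologicalClosure _
  have hKC : ∀ g : d.G, g ∈ K → (g : P × P) ∈ C := fun g hg =>
    Subgroup.le_topologicalClosure _ ⟨g, hg, rfl⟩
  have hHC : ∀ x ∈ d.H, (x, x) ∈ C := by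
    intro x hx
    exact hKC ⟨(x, x), d.H_mem hx⟩ (hle rfl)
  have hAC : ∀ a ∈ d.A, (a, a) ∈ C := by
    intro a ha
    have h1 : a ∈ closure (d.H : Set P) := d.Hcl ha
    have hcont : Continuous (fun x : P => (x, x)) := continuous_id.prodMk continuous_id
    have h2 : IsClosed ((fun x : P => (x, x)) ⁻¹' (C : Set (P × P))) := hCcl.preimage hcont
    have h3 : (d.H : Set P) ⊆ ((fun x : P => (x, x)) ⁻¹' (C : Set (P × P))) := hHC
    exact (closure_minimal h3 h2) h1
  -- the slice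
  let D : Subgroup P := 
    { carrier := {a | a ∈ d.A ∧ (a, (1 : P)) ∈ C}
      one_mem' := ⟨d.A.one_mem, C.one_mem⟩
      mul_mem' := by
        rintro a b ⟨ha, ha'⟩ ⟨hb, hb'⟩
        refine ⟨d.A.mul_mem ha hb, ?_⟩
        have := C.mul_mem ha' hb'
        simpa using this
      inv_mem' := by
        rintro a ⟨ha, ha'⟩
        refine ⟨d.A.inv_mem ha, ?_⟩
        have := C.inv_mem ha'
        simpa using this }
  have hDmem : ∀ a, a ∈ D ↔ a ∈ d.A ∧ (a, (1 : P)) ∈ C := fun a => Iff.rfl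
  have hDcl : IsClosed (D : Set P) := by
    have : (D : Set P) = (d.A : Set P) ∩ (fun a => (a, (1 : P))) ⁻¹' (C : Set (P × P)) := rfl
    rw [this]
    exact d.Acl.inter (hCcl.preimage (by fun_prop))
  -- an element outside
  have hex : ∃ g ∈ K, g ∉ d.K := by
    by_contra h
    push Not at h
    exact hnot h
  obtain ⟨⟨g, v, hv, n, hn, x, hx, rfl⟩, hgK, hgn⟩ := hex
  have hgC := hKC _ hgK
  have hvn : v * n⁻¹ ≠ 1 := by
    intro h
    have h1 : v = n := mul_inv_eq_one.1 h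
    apply hgn
    rw [d.mem_K]
    simp [h1]
  have hvnC : (v * n⁻¹, (1 : P)) ∈ C := by
    have h1 : (x⁻¹, x⁻¹) ∈ C := hHC _ (d.H.inv_mem hx)
    have h2 : (n⁻¹, n⁻¹) ∈ C := hAC _ (d.A.inv_mem (d.NA hn))
    have := C.mul_mem (C.mul_mem hgC h1) h2
    simpa using this
  have hDinv : ∀ h ∈ d.H, ∀ a ∈ D, h * a * h⁻¹ ∈ D := by
    rintro h hh a ⟨ha, ha'⟩
    have h1 : (h * a * h⁻¹, (1 : P)) ∈ C := by
      have := C.mul_mem (C.mul_mem (hHC h hh) ha') (C.inv_mem (hHC h hh))
      simpa using this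
    exact ⟨d.Ainv h hh a ha, h1⟩
  have hDA : D = d.A := by
    refine d.irr D hDcl (fun a ha => ha.1) hDinv ?_
    intro h
    have h1 : v * n⁻¹ ∈ D := ⟨d.A.mul_mem (d.VA hv) (d.A.inv_mem (d.NA hn)), hvnC⟩
    rw [h, Subgroup.mem_bot] at h1
    exact hvn h1
  have hAC' : ∀ a ∈ d.A, (a, (1 : P)) ∈ C := by
    intro a ha
    rw [← hDA] at ha
    exact ha.2
  -- all of `G` is in `C`
  rw [eq_top_iff]
  rintro ⟨g, v', hv', n', hn', x', hx', rfl⟩ -
  have hmem : (v' * x', n' * x') ∈ C := by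
    have h1 := hAC' (v' * n'⁻¹) (d.A.mul_mem (d.VA hv') (d.A.inv_mem (d.NA hn')))
    have h2 := hAC n' (d.NA hn')
    have h3 := hHC x' hx'
    have := C.mul_mem (C.mul_mem h1 h2) h3
    simpa using this
  refine mem_of_closure (S := (d.G : Set (P × P))) (T := (K : Set d.G)) hK _ ?_
  exact hmem

theorem Data.core (d : Data P) (g : d.G) (hg : ∀ b : d.G, b * g * b⁻¹ ∈ d.K) : g = 1 := by
  have h0 : g ∈ d.K := by simpa using hg 1
  obtain ⟨x, hx, hgx⟩ := d.K_form g h0
  have hcomm : ∀ v ∈ d.V, x * v = v * x := by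
    intro v hv
    have h1 := hg ⟨(v, 1), d.V_mem hv⟩
    rw [d.mem_K] at h1
    simp only [Subgroup.coe_mul, Subgroup.coe_inv, hgx, Prod.mk_mul_mk, Prod.inv_mk, one_mul,
      inv_one, mul_one] at h1
    rw [mul_inv_eq_iff_eq_mul] at h1
    exact h1.symm
  -- the closure of `V`
  have hVcl : d.V.topologicalClosure = d.A := by
    refine d.irr _ (Subgroup.isClosed_topologicalClosure _) ?_ ?_ ?_
    · exact Subgroup.topologicalClosure_minimal _ d.VA d.Acl
    · intro h hh a ha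
      have hcont : Continuous (fun a : P => h * a * h⁻¹) := by fun_prop
      have h2 : IsClosed ((fun a : P => h * a * h⁻¹) ⁻¹'
          (d.V.topologicalClosure : Set P)) :=
        (Subgroup.isClosed_topologicalClosure _).preimage hcont
      have h3 : (d.V : Set P) ⊆ (fun a : P => h * a * h⁻¹) ⁻¹'
          (d.V.topologicalClosure : Set P) := fun v hv =>
        Subgroup.le_topologicalClosure _ (d.Vinv h hh v hv)
      exact (closure_minimal h3 h2) ha
    · intro h
      obtain ⟨v, hv, hv1⟩ := d.exists_V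
      have h1 : v ∈ d.V.topologicalClosure := Subgroup.le_topologicalClosure _ hv
      rw [h, Subgroup.mem_bot] at h1
      exact hv1 h1
  have hall : ∀ a ∈ d.A, x * a = a * x := by
    intro a ha
    rw [← hVcl] at ha
    have h2 : IsClosed {a : P | x * a = a * x} := isClosed_eq (by fun_prop) (by fun_prop)
    exact (closure_minimal (s := (d.V : Set P)) hcomm h2) ha
  have hx1 := d.faith x hx hall
  ext
  · simp [hgx, hx1]
  · simp [hgx, hx1]

theorem Data.M_comm (d : Data P) : ∀ a ∈ d.M, ∀ b ∈ d.M, a * b = b * a := by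
  intro a ha b hb
  obtain ⟨v, hv, hav⟩ := d.M_form a ha
  obtain ⟨w, hw, hbw⟩ := d.M_form b hb
  ext
  · simp [hav, hbw, d.Acomm v (d.VA hv) w (d.VA hw)]
  · simp [hav, hbw]

theorem Data.M_min (d : Data P) (L : Subgroup d.G) (hL : L.Normal)
    (hLcl : IsClosed (L : Set d.G)) (hLne : L ≠ ⊥) (hLM : L ≤ d.M) : L = d.M := by
  apply le_antisymm hLM
  -- the projection of `L`
  let W : Subgroup P := L.map ((MonoidHom.fst P P).comp d.G.subtype)
  have hW : ∀ a, a ∈ W ↔ ∃ g ∈ L, (g : P × P).1 = a := by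
    intro a
    rfl
  have hWA : W ≤ d.A := by
    intro a ha
    obtain ⟨g, hg, rfl⟩ := (hW a).1 ha
    obtain ⟨v, hv, hgv⟩ := d.M_form g (hLM hg)
    rw [hgv]
    exact d.VA hv
  have hWcl : W.topologicalClosure = d.A := by
    refine d.irr _ (Subgroup.isClosed_topologicalClosure _) ?_ ?_ ?_
    · exact Subgroup.topologicalClosure_minimal _ hWA d.Acl
    · intro h hh a ha
      have hcont : Continuous (fun a : P => h * a * h⁻¹) := by fun_prop
      have h2 : IsClosed ((fun a : P => h * a * h⁻¹) ⁻¹' (W.topologicalClosure : Set P)) :=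
        (Subgroup.isClosed_topologicalClosure _).preimage hcont
      have h3 : (W : Set P) ⊆ (fun a : P => h * a * h⁻¹) ⁻¹' (W.topologicalClosure : Set P) := by
        intro v hv
        obtain ⟨g, hg, rfl⟩ := (hW v).1 hv
        apply Subgroup.le_topologicalClosure
        refine (hW _).2 ⟨⟨(h, h), d.H_mem hh⟩ * g * ⟨(h, h), d.H_mem hh⟩⁻¹,
          hL.conj_mem g hg _, ?_⟩
        simp
      exact (closure_minimal h3 h2) ha
    · intro h
      apply hLne
      rw [Subgroup.eq_bot_iff_forall]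
      intro g hg
      have h1 : (g : P × P).1 ∈ W.topologicalClosure :=
        Subgroup.le_topologicalClosure _ ((hW _).2 ⟨g, hg, rfl⟩)
      rw [h, Subgroup.mem_bot] at h1
      have h2 : (g : P × P).2 = 1 := hLM hg
      ext
      · simpa using h1
      · simpa using h2
  intro g hg
  obtain ⟨v, hv, hgv⟩ := d.M_form g hg
  refine mem_of_closure (S := (d.G : Set (P × P))) (T := (L : Set d.G)) hLcl _ ?_
  rw [hgv]
  have hvA : v ∈ closure (W : Set P) := by
    have : v ∈ W.topologicalClosure := by rw [hWcl]; exact d.VA hv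
    exact this
  have hcont : Continuous (fun a : P => (a, (1 : P))) := by fun_prop
  have h3 : (W : Set P) ⊆ (fun a : P => (a, (1 : P))) ⁻¹'
      (closure ((fun g : d.G => (g : P × P)) '' (L : Set d.G))) := by
    intro w hw
    obtain ⟨g', hg', rfl⟩ := (hW w).1 hw
    apply subset_closure
    refine ⟨g', hg', ?_⟩
    have h2 : (g' : P × P).2 = 1 := hLM hg'
    exact Prod.ext rfl h2
  exact (closure_minimal h3 (isClosed_closure.preimage hcont)) hvA

theorem Data.main (d : Data P) :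
    IsIrreducibleCoset d.K ∧ IsFaithfulCoset d.K ∧ IsMinClosedNormal d.M ∧
      (∀ a ∈ d.M, ∀ b ∈ d.M, a * b = b * a) ∧ d.M < Subgroup.centralizer (d.M : Set d.G) := by
  refine ⟨⟨d.K_closed, d.K_ne_top, ?_⟩, ?_, ⟨⟨d.M_normal, d.M_closed, ?_⟩, d.M_min⟩, d.M_comm, ?_⟩
  · rintro K hK ⟨h1, h2⟩
    exact h2.ne (d.maximal K hK h1)
  · rw [IsFaithfulCoset, Subgroup.eq_bot_iff_forall]
    intro g hg
    rw [Subgroup.mem_iInf] at hg
    apply d.core
    intro b
    obtain ⟨k, hk, hkg⟩ := hg b⁻¹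
    have : b * g * b⁻¹ = k := by
      rw [← hkg]
      simp [mul_assoc]
    rw [this]
    exact hk
  · intro h
    obtain ⟨v, hv, hv1⟩ := d.exists_V
    have h1 : (⟨(v, 1), d.V_mem hv⟩ : d.G) ∈ d.M := rfl
    rw [h, Subgroup.mem_bot] at h1
    apply hv1
    have := congrArg (fun g : d.G => (g : P × P).1) h1
    simpa using this
  · constructor
    · intro a ha
      rw [Subgroup.mem_centralizer_iff]
      intro b hb
      exact d.M_comm b hb a ha
    · intro h
      obtain ⟨n, hn, hn1⟩ := d.exists_N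
      have h1 : (⟨(1, n), d.N_mem hn⟩ : d.G) ∈ Subgroup.centralizer (d.M : Set d.G) := by
        rw [Subgroup.mem_centralizer_iff]
        intro b hb
        obtain ⟨v, hv, hbv⟩ := d.M_form b hb
        ext
        · simp [hbv]
        · simp [hbv]
      have h2 := h h1
      rw [d.mem_M] at h2
      exact hn1 h2

end Q22.Irr
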