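import Mathlib
import Pool.Agent.Q22.IrrDefs
import Pool.Agent.Q22.Irr

set_option linter.unusedSectionVars false
set_option linter.unusedSimpArgs false

/-! The example: `SL₂` over the dual numbers. -/

namespace Q22.Irr

open Topology Polynomial TrivSqZeroExt Matrix

/-- The dual numbers over `ℝ`. -/
abbrev 𝔻 : Type := DualNumber ℝ

/-- `SL₂` over the dual numbers. -/
abbrev PP : Type := Matrix.SpecialLinearGroup (Fin 2) 𝔻

section Entries

variable {R S : Type*} [CommRing R] [CommRing S]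

theorem map_entry (f : R →+* S) (p : Matrix.SpecialLinearGroup (Fin 2) R) (i j : Fin 2) :
    (Matrix.SpecialLinearGroup.map f p) i j = f (p i j) := rfl

theorem mul_entry (p q : Matrix.SpecialLinearGroup (Fin 2) R) (i j : Fin 2) :
    (p * q) i j = p i 0 * q 0 j + p i 1 * q 1 j := by
  simp [Matrix.SpecialLinearGroup.coe_mul, Matrix.mul_apply, Fin.sum_univ_two]

theorem one_entry00 : (1 : Matrix.SpecialLinearGroup (Fin 2) R) 0 0 = 1 := rfl
theorem one_entry01 : (1 : Matrix.SpecialLinearGroup (Fin 2) R) 0 1 = 0 := rfl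
theorem one_entry10 : (1 : Matrix.SpecialLinearGroup (Fin 2) R) 1 0 = 0 := rfl
theorem one_entry11 : (1 : Matrix.SpecialLinearGroup (Fin 2) R) 1 1 = 1 := rfl

theorem sl_ext {p q : Matrix.SpecialLinearGroup (Fin 2) R} (h00 : p 0 0 = q 0 0)
    (h01 : p 0 1 = q 0 1) (h10 : p 1 0 = q 1 0) (h11 : p 1 1 = q 1 1) : p = q := by
  apply Matrix.SpecialLinearGroup.ext
  intro i j
  fin_cases i <;> fin_cases j
  · exact h00
  · exact h01
  · exact h10
  · exact h11

theorem det_entry (p : Matrix.SpecialLinearGroup (Fin 2) R) :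
    p 0 0 * p 1 1 - p 0 1 * p 1 0 = 1 := by
  have := p.2
  rw [Matrix.det_fin_two] at this
  exact this

end Entries

/-- A transcendental number. -/
noncomputable def tt : ℝ := liouvilleNumber 2

theorem tt_trans : Transcendental ℤ tt := transcendental_liouvilleNumber (le_refl 2)

theorem tt_transQ : Transcendental ℚ tt := fun h =>
  tt_trans ((IsFractionRing.isAlgebraic_iff ℤ ℚ ℝ).2 h)

theorem tt_ne : tt ≠ 0 := by
  intro h
  apply tt_trans
  rw [h]
  exact isAlgebraic_zero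

/-- Evaluation at `t`. -/
noncomputable def ev : ℚ[X] →+* ℝ := (aeval (R := ℚ) tt).toRingHom

theorem ev_inj {f : ℚ[X]} (h : ev f = 0) : f = 0 :=
  (transcendental_iff.1 tt_transQ) f h

/-- Evaluation at `t + ε`. -/
noncomputable def phi : ℚ[X] →+* 𝔻 := (aeval (R := ℚ) (inl tt + DualNumber.eps : 𝔻)).toRingHom

theorem phi_fst (f : ℚ[X]) : (phi f).fst = ev f := by
  have h : ((fstHom ℚ ℝ ℝ).comp (aeval (R := ℚ) (inl tt + DualNumber.eps : 𝔻))) =
      aeval (R := ℚ) tt := by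
    apply Polynomial.algHom_ext
    simp
  have := congrArg (fun g : ℚ[X] →ₐ[ℚ] ℝ => g f) h
  simp only [AlgHom.comp_apply] at this
  exact this

/-- Elementary matrix. -/
noncomputable def E12 {R : Type*} [CommRing R] (r : R) : Matrix.SpecialLinearGroup (Fin 2) R :=
  ⟨!![1, r; 0, 1], by simp [Matrix.det_fin_two]⟩

/-- Elementary matrix. -/
noncomputable def E21 {R : Type*} [CommRing R] (r : R) : Matrix.SpecialLinearGroup (Fin 2) R :=
  ⟨!![1, 0; r, 1], by simp [Matrix.det_fin_two]⟩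

/-- The countable group `H`. -/
noncomputable def HH : Subgroup PP :=
  ((Matrix.SpecialLinearGroup.map (n := Fin 2) (Polynomial.evalRingHom (0 : ℚ))).ker).map
    (Matrix.SpecialLinearGroup.map (n := Fin 2) phi)

theorem E12_mem {f : ℚ[X]} (hf : f.eval 0 = 0) : (E12 (phi f) : PP) ∈ HH := by
  refine ⟨E12 f, ?_, ?_⟩
  · rw [SetLike.mem_coe, MonoidHom.mem_ker]
    apply sl_ext <;> rw [map_entry] <;> simp [E12, hf]
  · apply sl_ext <;> rw [map_entry] <;> simp [E12]

theorem E21_mem {f : ℚ[X]} (hf : f.eval 0 = 0) : (E21 (phi f) : PP) ∈ HH := by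
  refine ⟨E21 f, ?_, ?_⟩
  · rw [SetLike.mem_coe, MonoidHom.mem_ker]
    apply sl_ext <;> rw [map_entry] <;> simp [E21, hf]
  · apply sl_ext <;> rw [map_entry] <;> simp [E21]

theorem E12_cont : Continuous (E12 : 𝔻 → PP) := by
  apply Continuous.subtype_mk
  apply continuous_matrix
  intro i j
  fin_cases i <;> fin_cases j <;> simp <;> fun_prop

theorem E21_cont : Continuous (E21 : 𝔻 → PP) := by
  apply Continuous.subtype_mk
  apply continuous_matrix
  intro i j
  fin_cases i <;> fin_cases j <;> simp <;> fun_prop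

/-- The set `{φ f : f(0) = 0}` is dense. -/
theorem dense_phi : Dense {r : 𝔻 | ∃ f : ℚ[X], f.eval 0 = 0 ∧ phi f = r} := by
  let psi : ℝ × ℝ → 𝔻 := fun p => inl p.1 * (inl tt + DualNumber.eps) +
    inl p.2 * (inl tt + DualNumber.eps) ^ 2
  have hcont : Continuous psi := by
    have h1 : Continuous (fun p : ℝ × ℝ => (inl p.1 : 𝔻)) :=
      TrivSqZeroExt.continuous_inl.comp _root_.continuous_fst
    have h2 : Continuous (fun p : ℝ × ℝ => (inl p.2 : 𝔻)) :=
      TrivSqZeroExt.continuous_inl.comp _root_.continuous_snd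
    exact (h1.mul continuous_const).add (h2.mul continuous_const)
  have hsurj : Function.Surjective psi := by
    intro r
    have ht := tt_ne
    refine ⟨((2 * r.fst - tt * r.snd) / tt, (tt * r.snd - r.fst) / tt ^ 2), ?_⟩
    ext
    · simp [psi, pow_two]
      field_simp
      ring
    · simp [psi, pow_two]
      field_simp
      ring
  have hd : DenseRange (fun q : ℚ × ℚ => (((q.1 : ℚ) : ℝ), ((q.2 : ℚ) : ℝ))) :=
    Rat.denseRange_cast.prodMap Rat.denseRange_cast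
  have hd2 : DenseRange (psi ∘ (fun q : ℚ × ℚ => (((q.1 : ℚ) : ℝ), ((q.2 : ℚ) : ℝ)))) :=
    hsurj.denseRange.comp hd hcont
  refine Dense.mono ?_ hd2
  rintro _ ⟨q, rfl⟩
  refine ⟨C q.1 * X + C q.2 * X ^ 2, by simp, ?_⟩
  simp only [phi, psi, AlgHom.toRingHom_eq_coe, RingHom.coe_coe, map_add, map_mul, aeval_C,
    aeval_X, map_pow, Function.comp_apply]
  rfl

theorem E12_closure (r : 𝔻) : (E12 r : PP) ∈ closure (HH : Set PP) := by
  have h1 : r ∈ closure {r : 𝔻 | ∃ f : ℚ[X], f.eval 0 = 0 ∧ phi f = r} := dense_phi r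
  have h2 : {r : 𝔻 | ∃ f : ℚ[X], f.eval 0 = 0 ∧ phi f = r} ⊆
      (E12 : 𝔻 → PP) ⁻¹' closure (HH : Set PP) := by
    rintro _ ⟨f, hf, rfl⟩
    exact subset_closure (E12_mem hf)
  exact (closure_minimal h2 (isClosed_closure.preimage E12_cont)) h1

theorem E21_closure (r : 𝔻) : (E21 r : PP) ∈ closure (HH : Set PP) := by
  have h1 : r ∈ closure {r : 𝔻 | ∃ f : ℚ[X], f.eval 0 = 0 ∧ phi f = r} := dense_phi r
  have h2 : {r : 𝔻 | ∃ f : ℚ[X], f.eval 0 = 0 ∧ phi f = r} ⊆
      (E21 : 𝔻 → PP) ⁻¹' closure (HH : Set PP) := by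
    rintro _ ⟨f, hf, rfl⟩
    exact subset_closure (E21_mem hf)
  exact (closure_minimal h2 (isClosed_closure.preimage E21_cont)) h1

/-- The reduction `ε = 0`. -/
noncomputable def red : PP →* Matrix.SpecialLinearGroup (Fin 2) ℝ :=
  Matrix.SpecialLinearGroup.map (n := Fin 2) (fstHom ℝ ℝ ℝ).toRingHom

theorem red_cont : Continuous red :=
  Continuous.specialLinearGroup_map (f := (fstHom ℝ ℝ ℝ).toRingHom) TrivSqZeroExt.continuous_fst

/-- The kernel of the reduction. -/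
noncomputable def AA : Subgroup PP := red.ker

theorem AA_closed : IsClosed (AA : Set PP) := by
  have : (AA : Set PP) = red ⁻¹' {1} := rfl
  rw [this]
  exact isClosed_singleton.preimage red_cont

theorem mem_AA (p : PP) : p ∈ AA ↔ (p 0 0).fst = 1 ∧ (p 0 1).fst = 0 ∧ (p 1 0).fst = 0 ∧
    (p 1 1).fst = 1 := by
  rw [AA, MonoidHom.mem_ker]
  constructor
  · intro h
    have h' : ∀ i j, (red p) i j = (1 : Matrix.SpecialLinearGroup (Fin 2) ℝ) i j := by
      intro i j; rw [h]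
    refine ⟨?_, ?_, ?_, ?_⟩
    · simpa [red] using h' 0 0
    · simpa [red] using h' 0 1
    · simpa [red] using h' 1 0
    · simpa [red] using h' 1 1
  · rintro ⟨h1, h2, h3, h4⟩
    ext i j
    fin_cases i <;> fin_cases j <;> simp [red, h1, h2, h3, h4]

/-- The parametrisation of `A`. -/
noncomputable def tau (a b c : ℝ) : PP :=
  ⟨!![1 + inr a, inr b; inr c, 1 - inr a], by
    ext
    · simp [Matrix.det_fin_two]
    · simp [Matrix.det_fin_two]⟩

theorem tau00 (a b c : ℝ) : (tau a b c) 0 0 = 1 + inr a := rfl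
theorem tau01 (a b c : ℝ) : (tau a b c) 0 1 = inr b := rfl
theorem tau10 (a b c : ℝ) : (tau a b c) 1 0 = inr c := rfl
theorem tau11 (a b c : ℝ) : (tau a b c) 1 1 = 1 - inr a := rfl

theorem tau_mem (a b c : ℝ) : tau a b c ∈ AA := by
  rw [mem_AA, tau00, tau01, tau10, tau11]
  simp

theorem tau_mul (a b c a' b' c' : ℝ) :
    tau a b c * tau a' b' c' = tau (a + a') (b + b') (c + c') := by
  apply sl_ext <;> simp only [mul_entry, tau00, tau01, tau10, tau11] <;> 
    apply TrivSqZeroExt.ext <;> simp <;> ring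

theorem tau_one : tau 0 0 0 = 1 := by
  apply sl_ext <;> simp only [tau00, tau01, tau10, tau11, one_entry00, one_entry01,
    one_entry10, one_entry11] <;> simp

theorem tau_inv (a b c : ℝ) : (tau a b c)⁻¹ = tau (-a) (-b) (-c) := by
  rw [inv_eq_iff_mul_eq_one, tau_mul]
  simp [tau_one]

theorem eq_tau {p : PP} (hp : p ∈ AA) : p = tau (p 0 0).snd (p 0 1).snd (p 1 0).snd := by
  rw [mem_AA] at hp
  obtain ⟨h1, h2, h3, h4⟩ := hp
  have hdet := det_entry p
  have hs := congrArg TrivSqZeroExt.snd hdet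
  simp [h1, h2, h3, h4] at hs
  apply sl_ext <;> simp only [tau00, tau01, tau10, tau11] <;> apply TrivSqZeroExt.ext <;>
    simp [h1, h2, h3, h4]
  linarith

/-- Conjugation of `A` by an element `h`. -/
theorem conj_tau (h : PP) (a b c : ℝ) :
    h * tau a b c * h⁻¹ = tau
      (a * ((h 0 0).fst * (h 1 1).fst + (h 0 1).fst * (h 1 0).fst)
        + (h 0 1).fst * (h 1 1).fst * c - (h 0 0).fst * (h 1 0).fst * b)
      (-2 * (h 0 0).fst * (h 0 1).fst * a - (h 0 1).fst ^ 2 * c + (h 0 0).fst ^ 2 * b)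
      (2 * (h 1 0).fst * (h 1 1).fst * a + (h 1 1).fst ^ 2 * c - (h 1 0).fst ^ 2 * b) := by
  rw [mul_inv_eq_iff_eq_mul]
  have hdet := det_entry h
  have hs := congrArg TrivSqZeroExt.fst hdet
  simp at hs
  generalize hp : (h 0 0).fst = p at *
  generalize hq : (h 0 1).fst = q at *
  generalize hr : (h 1 0).fst = r at *
  generalize hss : (h 1 1).fst = s at *
  apply sl_ext <;> simp only [mul_entry, tau00, tau01, tau10, tau11] <;> 
    apply TrivSqZeroExt.ext <;> simp [hp, hq, hr, hss]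
  · linear_combination (-(p * a) - q * c) * hs
  · linear_combination (-(p * b) + q * a) * hs
  · linear_combination (-(r * a) - s * c) * hs
  · linear_combination (-(r * b) + s * a) * hs

theorem E12_fst (x : ℝ) : ((E12 (inl x) : PP) 0 0).fst = 1 ∧ ((E12 (inl x) : PP) 0 1).fst = x ∧
    ((E12 (inl x) : PP) 1 0).fst = 0 ∧ ((E12 (inl x) : PP) 1 1).fst = 1 := by
  refine ⟨?_, ?_, ?_, ?_⟩ <;> simp [E12]

theorem E21_fst (x : ℝ) : ((E21 (inl x) : PP) 0 0).fst = 1 ∧ ((E21 (inl x) : PP) 0 1).fst = 0 ∧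
    ((E21 (inl x) : PP) 1 0).fst = x ∧ ((E21 (inl x) : PP) 1 1).fst = 1 := by
  refine ⟨?_, ?_, ?_, ?_⟩ <;> simp [E21]

theorem conj12 (x a b c : ℝ) : (E12 (inl x) : PP) * tau a b c * (E12 (inl x) : PP)⁻¹ =
    tau (a + x * c) (b - 2 * a * x - c * x ^ 2) c := by
  rw [conj_tau]
  obtain ⟨h1, h2, h3, h4⟩ := E12_fst x
  rw [h1, h2, h3, h4]
  congr 1 <;> ring

theorem conj21 (x a b c : ℝ) : (E21 (inl x) : PP) * tau a b c * (E21 (inl x) : PP)⁻¹ =
    tau (a - x * b) b (c + 2 * a * x - b * x ^ 2) := by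
  rw [conj_tau]
  obtain ⟨h1, h2, h3, h4⟩ := E21_fst x
  rw [h1, h2, h3, h4]
  congr 1 <;> ring

section Irred

variable (D : Subgroup PP)

theorem step12 (h12 : ∀ x a b c : ℝ, tau a b c ∈ D → tau (a + x * c) (b - 2 * a * x - c * x ^ 2) c ∈ D)
    {a b c : ℝ} (hc : c ≠ 0) (h : tau a b c ∈ D) (y : ℝ) : tau 0 y 0 ∈ D := by
  have h0 := h
  have h1 := h12 1 a b c h
  have hx := h12 (1 - y / (2 * c)) a b c h
  have hx' := h12 (-(y / (2 * c))) a b c h
  have hh := D.mul_mem (D.mul_mem (D.mul_mem hx (D.inv_mem hx')) (D.inv_mem h1)) h0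
  rw [tau_inv, tau_inv, tau_mul, tau_mul, tau_mul] at hh
  convert hh using 1
  congr 1 <;> field_simp <;> ring

theorem step21 (h21 : ∀ x a b c : ℝ, tau a b c ∈ D → tau (a - x * b) b (c + 2 * a * x - b * x ^ 2) ∈ D)
    {a b c : ℝ} (hb : b ≠ 0) (h : tau a b c ∈ D) (y : ℝ) : tau 0 0 y ∈ D := by
  have h0 := h
  have h1 := h21 1 a b c h
  have hx := h21 (1 - y / (2 * b)) a b c h
  have hx' := h21 (-(y / (2 * b))) a b c h
  have hh := D.mul_mem (D.mul_mem (D.mul_mem hx (D.inv_mem hx')) (D.inv_mem h1)) h0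
  rw [tau_inv, tau_inv, tau_mul, tau_mul, tau_mul] at hh
  convert hh using 1
  congr 1 <;> field_simp <;> ring

theorem all_of_ne
    (h12 : ∀ x a b c : ℝ, tau a b c ∈ D → tau (a + x * c) (b - 2 * a * x - c * x ^ 2) c ∈ D)
    (h21 : ∀ x a b c : ℝ, tau a b c ∈ D → tau (a - x * b) b (c + 2 * a * x - b * x ^ 2) ∈ D)
    {a b c : ℝ} (h : tau a b c ∈ D) (hne : ¬ (a = 0 ∧ b = 0 ∧ c = 0)) (a' b' c' : ℝ) :
    tau a' b' c' ∈ D := by
  -- reduce to `b ≠ 0` or `c ≠ 0`
  have hkey : (∀ y, tau 0 y 0 ∈ D) ∧ (∀ y, tau 0 0 y ∈ D) := by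
    have hB : ∀ {a b c : ℝ}, tau a b c ∈ D → b ≠ 0 → (∀ y, tau 0 y 0 ∈ D) ∧ (∀ y, tau 0 0 y ∈ D) := by
      intro a b c h hb
      have h2 := step21 D h21 hb h
      exact ⟨step12 D h12 one_ne_zero (h2 1), h2⟩
    have hC : ∀ {a b c : ℝ}, tau a b c ∈ D → c ≠ 0 → (∀ y, tau 0 y 0 ∈ D) ∧ (∀ y, tau 0 0 y ∈ D) := by
      intro a b c h hc
      have h2 := step12 D h12 hc h
      exact ⟨h2, step21 D h21 one_ne_zero (h2 1)⟩
    by_cases hb : b = 0
    · by_cases hc : c = 0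
      · have ha : a ≠ 0 := fun ha => hne ⟨ha, hb, hc⟩
        have h1 := h12 1 a b c h
        refine hB h1 ?_
        rw [hb, hc]
        intro h
        apply ha
        linarith
      · exact hC h hc
    · exact hB h hb
  obtain ⟨hk1, hk2⟩ := hkey
  have h3 := h21 (-a') 0 1 0 (hk1 1)
  have h4 := D.mul_mem h3 (D.mul_mem (hk1 (b' - 1)) (hk2 (c' + a' ^ 2)))
  rw [tau_mul, tau_mul] at h4
  convert h4 using 1
  congr 1 <;> ring

theorem irred (hcl : IsClosed (D : Set PP)) (hDA : D ≤ AA)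
    (hinv : ∀ h ∈ HH, ∀ d ∈ D, h * d * h⁻¹ ∈ D) (hne : D ≠ ⊥) : D = AA := by
  have hcl' : ∀ h ∈ closure (HH : Set PP), ∀ d ∈ D, h * d * h⁻¹ ∈ D := by
    intro h hh d hd
    have hcont : Continuous (fun h : PP => h * d * h⁻¹) := by fun_prop
    have h2 : (HH : Set PP) ⊆ (fun h : PP => h * d * h⁻¹) ⁻¹' (D : Set PP) :=
      fun k hk => hinv k hk d hd
    exact (closure_minimal h2 (hcl.preimage hcont)) hh
  have h12 : ∀ x a b c : ℝ, tau a b c ∈ D → tau (a + x * c) (b - 2 * a * x - c * x ^ 2) c ∈ D := by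
    intro x a b c h
    rw [← conj12]
    exact hcl' _ (E12_closure _) _ h
  have h21 : ∀ x a b c : ℝ, tau a b c ∈ D → tau (a - x * b) b (c + 2 * a * x - b * x ^ 2) ∈ D := by
    intro x a b c h
    rw [← conj21]
    exact hcl' _ (E21_closure _) _ h
  apply le_antisymm hDA
  obtain ⟨p, hp, hp1⟩ : ∃ p ∈ D, p ≠ 1 := by
    by_contra h
    push Not at h
    exact hne ((Subgroup.eq_bot_iff_forall _).2 h)
  have hpt := eq_tau (hDA hp)
  rw [hpt] at hp hp1
  have hne' : ¬ ((p 0 0).snd = 0 ∧ (p 0 1).snd = 0 ∧ (p 1 0).snd = 0) := by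
    rintro ⟨h1, h2, h3⟩
    rw [h1, h2, h3] at hp1
    exact hp1 tau_one
  intro q hq
  rw [eq_tau hq]
  exact all_of_ne D h12 h21 hp hne' _ _ _

end Irred

theorem AA_subset : (AA : Set PP) ⊆ closure (HH : Set PP) := by
  -- the closed subgroup `A ∩ cl H` is not trivial
  set C : Subgroup PP := HH.topologicalClosure with hC
  have hCc : (C : Set PP) = closure (HH : Set PP) := rfl
  have h1 : AA ⊓ C = AA := by
    apply irred
    · exact AA_closed.inter (Subgroup.isClosed_topologicalClosure _)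
    · exact inf_le_left
    · rintro h hh d ⟨hd1, hd2⟩
      refine ⟨?_, ?_⟩
      · have : AA.Normal := MonoidHom.normal_ker _
        exact this.conj_mem d hd1 h
      · have hh' : h ∈ C := Subgroup.le_topologicalClosure _ hh
        exact C.mul_mem (C.mul_mem hh' hd2) (C.inv_mem hh')
    · intro h
      have h2 : (E12 (inr 1) : PP) ∈ AA ⊓ C := by
        refine ⟨?_, E12_closure _⟩
        refine (mem_AA _).2 ?_
        simp [E12]
      rw [h, Subgroup.mem_bot] at h2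
      have h3 : (E12 (inr 1) : PP) 0 1 = (1 : PP) 0 1 := by rw [h2]
      rw [one_entry01] at h3
      have h4 := congrArg TrivSqZeroExt.snd h3
      simp [E12] at h4
  intro a ha
  have : a ∈ AA ⊓ C := by rw [h1]; exact ha
  exact this.2

theorem HH_form {h : PP} (hh : h ∈ HH) : ∃ g : Matrix.SpecialLinearGroup (Fin 2) ℚ[X],
    (∀ i j, h i j = phi (g i j)) ∧ (g 0 0).eval 0 = 1 ∧ (g 0 1).eval 0 = 0 ∧
    (g 1 0).eval 0 = 0 ∧ (g 1 1).eval 0 = 1 := by
  obtain ⟨g, hg, rfl⟩ := hh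
  rw [SetLike.mem_coe, MonoidHom.mem_ker] at hg
  refine ⟨g, fun i j => rfl, ?_, ?_, ?_, ?_⟩
  · have := congrArg (fun p : Matrix.SpecialLinearGroup (Fin 2) ℚ => p 0 0) hg
    exact this
  · have := congrArg (fun p : Matrix.SpecialLinearGroup (Fin 2) ℚ => p 0 1) hg
    exact this
  · have := congrArg (fun p : Matrix.SpecialLinearGroup (Fin 2) ℚ => p 1 0) hg
    exact this
  · have := congrArg (fun p : Matrix.SpecialLinearGroup (Fin 2) ℚ => p 1 1) hg
    exact this

theorem HH_disj (h : PP) (hh : h ∈ HH) (hA : h ∈ AA) : h = 1 := by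
  obtain ⟨g, hg, -⟩ := HH_form hh
  rw [mem_AA] at hA
  simp only [hg, phi_fst] at hA
  obtain ⟨h1, h2, h3, h4⟩ := hA
  have h1' : g 0 0 = 1 := by
    have : ev (g 0 0 - 1) = 0 := by rw [map_sub, map_one, h1, sub_self]
    exact sub_eq_zero.1 (ev_inj this)
  have h4' : g 1 1 = 1 := by
    have : ev (g 1 1 - 1) = 0 := by rw [map_sub, map_one, h4, sub_self]
    exact sub_eq_zero.1 (ev_inj this)
  have h2' := ev_inj h2
  have h3' := ev_inj h3
  apply sl_ext
  · rw [hg, h1', map_one, one_entry00]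
  · rw [hg, h2', map_zero, one_entry01]
  · rw [hg, h3', map_zero, one_entry10]
  · rw [hg, h4', map_one, one_entry11]

theorem HH_faith (h : PP) (hh : h ∈ HH) (hc : ∀ a ∈ AA, h * a = a * h) : h = 1 := by
  obtain ⟨g, hg, hg0, -⟩ := HH_form hh
  have e1 := hc _ (tau_mem 0 1 0)
  have e2 := hc _ (tau_mem 0 0 1)
  have e11 := congrArg (fun p : PP => (p 0 0).snd) e1
  have e12 := congrArg (fun p : PP => (p 0 1).snd) e1
  have e21 := congrArg (fun p : PP => (p 0 0).snd) e2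
  simp only [mul_entry, tau00, tau01, tau10, tau11] at e11 e12 e21
  simp at e11 e12 e21
  rw [hg, phi_fst] at e11 e21
  rw [hg 0 0, hg 1 1, phi_fst, phi_fst] at e12
  have h10 := ev_inj e11
  have h01 := ev_inj e21
  have h00 : g 0 0 = g 1 1 := by
    have : ev (g 0 0 - g 1 1) = 0 := by rw [map_sub]; linarith
    exact sub_eq_zero.1 (ev_inj this)
  have hdet := det_entry g
  rw [h10, h01, ← h00, mul_zero, sub_zero] at hdet
  have h1 : g 0 0 = 1 := by
    rcases mul_self_eq_one_iff.1 hdet with h | h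
    · exact h
    · exfalso
      rw [h] at hg0
      simp at hg0
      norm_num at hg0
  apply sl_ext
  · rw [hg, h1, map_one, one_entry00]
  · rw [hg, h01, map_zero, one_entry01]
  · rw [hg, h10, map_zero, one_entry10]
  · rw [hg, ← h00, h1, map_one, one_entry11]

/-- The subgroup of `A` given by an additive subgroup of `ℝ`. -/
noncomputable def VV (L : AddSubgroup ℝ) : Subgroup PP where
  carrier := {p | ∃ a ∈ L, ∃ b ∈ L, ∃ c ∈ L, p = tau a b c}
  one_mem' := ⟨0, L.zero_mem, 0, L.zero_mem, 0, L.zero_mem, tau_one.symm⟩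
  mul_mem' := by
    rintro _ _ ⟨a, ha, b, hb, c, hc, rfl⟩ ⟨a', ha', b', hb', c', hc', rfl⟩
    exact ⟨_, L.add_mem ha ha', _, L.add_mem hb hb', _, L.add_mem hc hc', tau_mul _ _ _ _ _ _⟩
  inv_mem' := by
    rintro _ ⟨a, ha, b, hb, c, hc, rfl⟩
    exact ⟨_, L.neg_mem ha, _, L.neg_mem hb, _, L.neg_mem hc, tau_inv _ _ _⟩

theorem VV_le (L : AddSubgroup ℝ) : VV L ≤ AA := by
  rintro _ ⟨a, ha, b, hb, c, hc, rfl⟩
  exact tau_mem a b c

theorem VV_inv (L : AddSubgroup ℝ) (hL : ∀ f : ℚ[X], ∀ a ∈ L, ev f * a ∈ L) (h : PP)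
    (hh : h ∈ HH) (v : PP) (hv : v ∈ VV L) : h * v * h⁻¹ ∈ VV L := by
  obtain ⟨a, ha, b, hb, c, hc, rfl⟩ := hv
  obtain ⟨g, hg, -⟩ := HH_form hh
  rw [conj_tau]
  simp only [hg, phi_fst]
  refine ⟨_, ?_, _, ?_, _, ?_, rfl⟩
  · have := L.sub_mem (L.add_mem (hL (g 0 0 * g 1 1 + g 0 1 * g 1 0) a ha)
      (hL (g 0 1 * g 1 1) c hc)) (hL (g 0 0 * g 1 0) b hb)
    simp only [map_add, map_mul] at this
    convert this using 1
    ring
  · have := L.add_mem (L.sub_mem (hL (-2 * g 0 0 * g 0 1) a ha)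
      (hL (g 0 1 ^ 2) c hc)) (hL (g 0 0 ^ 2) b hb)
    simp only [map_neg, map_mul, map_pow, map_ofNat] at this
    exact this
  · have := L.sub_mem (L.add_mem (hL (2 * g 1 0 * g 1 1) a ha)
      (hL (g 1 1 ^ 2) c hc)) (hL (g 1 0 ^ 2) b hb)
    simp only [map_neg, map_mul, map_pow, map_ofNat] at this
    exact this

theorem VV_ne (L : AddSubgroup ℝ) {x : ℝ} (hx : x ∈ L) (hx0 : x ≠ 0) : VV L ≠ ⊥ := by
  intro h
  have h1 : tau x 0 0 ∈ VV L := ⟨x, hx, 0, L.zero_mem, 0, L.zero_mem, rfl⟩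
  rw [h, Subgroup.mem_bot] at h1
  have h2 := congrArg (fun p : PP => (p 0 0).snd) h1
  simp only [tau00, one_entry00] at h2
  simp at h2
  exact hx0 h2

theorem VV_disj (L L' : AddSubgroup ℝ) (h : ∀ x ∈ L, x ∈ L' → x = 0) (p : PP) (h1 : p ∈ VV L)
    (h2 : p ∈ VV L') : p = 1 := by
  obtain ⟨a, ha, b, hb, c, hc, rfl⟩ := h1
  obtain ⟨a', ha', b', hb', c', hc', he⟩ := h2
  have e1 := congrArg (fun p : PP => (p 0 0).snd) he
  have e2 := congrArg (fun p : PP => (p 0 1).snd) he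
  have e3 := congrArg (fun p : PP => (p 1 0).snd) he
  simp only [tau00, tau01, tau10] at e1 e2 e3
  simp at e1 e2 e3
  rw [h a ha (e1 ▸ ha'), h b hb (e2 ▸ hb'), h c hc (e3 ▸ hc'), tau_one]

/-- The additive group `ℚ[t]`. -/
noncomputable def L1 : AddSubgroup ℝ := ev.toAddMonoidHom.range

/-- The additive group `√2 ℚ[t]`. -/
noncomputable def L2 : AddSubgroup ℝ := L1.map (AddMonoidHom.mulLeft (Real.sqrt 2))

theorem L1_mul (f : ℚ[X]) (a : ℝ) (ha : a ∈ L1) : ev f * a ∈ L1 := by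
  obtain ⟨g, rfl⟩ := ha
  exact ⟨f * g, map_mul ev f g⟩

theorem L2_mul (f : ℚ[X]) (a : ℝ) (ha : a ∈ L2) : ev f * a ∈ L2 := by
  obtain ⟨b, hb, rfl⟩ := ha
  refine ⟨ev f * b, L1_mul f b hb, ?_⟩
  simp only [AddMonoidHom.coe_mulLeft]
  ring

theorem L_disj (x : ℝ) (h1 : x ∈ L1) (h2 : x ∈ L2) : x = 0 := by
  obtain ⟨f, rfl⟩ := h1
  obtain ⟨_, ⟨g, rfl⟩, hg⟩ := h2
  have hg' : Real.sqrt 2 * ev g = ev f := hg
  have h3 : ev (f ^ 2 - 2 * g ^ 2) = 0 := by
    simp only [map_sub, map_pow, map_mul, map_ofNat]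
    rw [← hg', mul_pow, Real.sq_sqrt (by norm_num), sub_self]
  have h4 := sub_eq_zero.1 (ev_inj h3)
  by_cases hg0 : g = 0
  · show ev f = 0
    rw [← hg', hg0, map_zero, mul_zero]
  exfalso
  have h5 := congrArg Polynomial.leadingCoeff h4
  have h2C : (2 : ℚ[X]) = C 2 := rfl
  rw [h2C, leadingCoeff_mul, leadingCoeff_pow, leadingCoeff_pow, leadingCoeff_C] at h5
  have hr : g.leadingCoeff ≠ 0 := leadingCoeff_ne_zero.2 hg0
  generalize f.leadingCoeff = q at h5
  generalize g.leadingCoeff = r at h5 hr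
  have h6 : (q / r) ^ 2 = 2 := by
    rw [div_pow, h5]
    field_simp
  apply irrational_sqrt_two
  refine ⟨|q / r|, ?_⟩
  have h7 : ((q / r : ℚ) : ℝ) ^ 2 = 2 := by exact_mod_cast h6
  rw [← h7, Real.sqrt_sq_eq_abs]
  push_cast
  rfl

/-- The data of the example. -/
noncomputable def dat : Data PP where
  A := AA
  H := HH
  V := VV L1
  N := VV L2
  Acl := AA_closed
  Acomm := by
    intro a ha b hb
    rw [eq_tau ha, eq_tau hb, tau_mul, tau_mul]
    congr 1 <;> ring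
  Ainv := by
    intro h _ a ha
    have : AA.Normal := MonoidHom.normal_ker _
    exact this.conj_mem a ha h
  disj := HH_disj
  Hcl := AA_subset
  faith := HH_faith
  irr := fun D h1 h2 h3 h4 => irred D h1 h2 h3 h4
  VA := VV_le _
  NA := VV_le _
  Vinv := VV_inv _ L1_mul
  Ninv := VV_inv _ L2_mul
  Vne := VV_ne _ (x := 1) ⟨1, map_one ev⟩ one_ne_zero
  Nne := VV_ne _ (x := Real.sqrt 2) ⟨1, ⟨1, map_one ev⟩, by simp⟩ (by positivity)
  VN := VV_disj _ _ L_disj

theorem example_exists : ∃ (G : Type) (_ : Group G) (_ : TopologicalSpace G)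
    (_ : IsTopologicalGroup G) (_ : T2Space G) (H M : Subgroup G),
    IsIrreducibleCoset H ∧ IsFaithfulCoset H ∧ IsMinClosedNormal M ∧
      (∀ a ∈ M, ∀ b ∈ M, a * b = b * a) ∧ M < Subgroup.centralizer (M : Set G) :=
  ⟨dat.G, inferInstance, inferInstance, inferInstance, inferInstance, dat.K, dat.M, dat.main⟩

end Q22.Irr
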