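import Pool.Agent.Q22.SD
import Pool.Agent.Helper611.PcFit

/-! McLain's group over the rationals and the field with two elements, acting on the finitely
supported functions from its natural module to itself. -/

noncomputable section

namespace Q22.ML

open Subgroup

/-- The natural module. -/
abbrev Wm : Type := ℚ →₀ ZMod 2

theorem z2 (x : ZMod 2) : x + x = 0 := by revert x; decide

theorem w2 (w : Wm) : w + w = 0 := by
  ext i; exact z2 _

/-- The transvection `w ↦ w + w(b) e_a`. -/
def T {a b : ℚ} (h : a < b) : Wm ≃ₗ[ZMod 2] Wm :=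
  LinearEquiv.ofInvolutive (LinearMap.id + (Finsupp.lsingle a).comp (Finsupp.lapply b)) (by
    intro w
    have hab : (Finsupp.single a (w b) : Wm) b = 0 := Finsupp.single_eq_of_ne (by exact h.ne')
    show (w + Finsupp.single a (w b)) + Finsupp.single a ((w + Finsupp.single a (w b)) b) = w
    rw [Finsupp.add_apply, hab, add_zero, add_assoc, w2, add_zero])

theorem T_apply {a b : ℚ} (h : a < b) (w : Wm) : T h w = w + Finsupp.single a (w b) := rfl

theorem T_inv {a b : ℚ} (h : a < b) : (T h)⁻¹ = T h := by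
  rw [inv_eq_iff_mul_eq_one]
  ext1 w
  have hab : (Finsupp.single a (w b) : Wm) b = 0 := Finsupp.single_eq_of_ne (by exact h.ne')
  show (w + Finsupp.single a (w b)) + Finsupp.single a ((w + Finsupp.single a (w b)) b) = w
  rw [Finsupp.add_apply, hab, add_zero, add_assoc, w2, add_zero]

/-- McLain's group. -/
def Mc : Subgroup (Wm ≃ₗ[ZMod 2] Wm) := closure {g | ∃ (a b : ℚ) (h : a < b), g = T h}

/-- Transvections as elements of McLain's group. -/
def t {a b : ℚ} (h : a < b) : Mc := ⟨T h, subset_closure ⟨a, b, h, rfl⟩⟩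

theorem t_inv {a b : ℚ} (h : a < b) : (t h)⁻¹ = t h := Subtype.ext (T_inv h)

/-- Induction along generators. -/
theorem mc_induction {P : Mc → Prop} (hone : P 1) (ht : ∀ (a b : ℚ) (h : a < b), P (t h))
    (hmul : ∀ x y, P x → P y → P (x * y)) (hinv : ∀ x, P x → P x⁻¹) (x : Mc) : P x := by
  obtain ⟨x, hx⟩ := x
  induction hx using closure_induction with
  | mem y hy =>
    obtain ⟨a, b, h, rfl⟩ := hy
    exact ht a b h
  | one => exact hone
  | mul y z hy hz ihy ihz => exact hmul _ _ ihy ihz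
  | inv y hy ihy => exact hinv _ ihy

/-- Elements of McLain's group are finitary. -/
theorem fin_supp (m : Mc) : ∃ J : Finset ℚ, (∀ w : Wm, ∀ q, q ∉ J → m.1 w q = w q) ∧
    ∀ w : Wm, (∀ q ∈ J, w q = 0) → m.1 w = w := by
  classical
  induction m using mc_induction with
  | hone => exact ⟨∅, fun w q _ => rfl, fun w _ => rfl⟩
  | ht a b h =>
    refine ⟨{a, b}, ?_, ?_⟩
    · intro w q hq
      show (w + Finsupp.single a (w b)) q = w q
      have : q ≠ a := fun h => hq (by simp [h])
      rw [Finsupp.add_apply, Finsupp.single_eq_of_ne this, add_zero]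
    · intro w hw
      show w + Finsupp.single a (w b) = w
      rw [hw b (by simp), Finsupp.single_zero, add_zero]
  | hmul x y hx hy =>
    obtain ⟨J, hJ1, hJ2⟩ := hx
    obtain ⟨K, hK1, hK2⟩ := hy
    refine ⟨J ∪ K, ?_, ?_⟩
    · intro w q hq
      rw [Finset.mem_union, not_or] at hq
      show x.1 (y.1 w) q = w q
      rw [hJ1 _ _ hq.1, hK1 _ _ hq.2]
    · intro w hw
      show x.1 (y.1 w) = w
      rw [hK2 w fun q hq => hw q (Finset.mem_union_right _ hq),
        hJ2 w fun q hq => hw q (Finset.mem_union_left _ hq)]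
  | hinv x hx =>
    obtain ⟨J, hJ1, hJ2⟩ := hx
    have h1 : ∀ w, x.1 ((x⁻¹).1 w) = w := fun w => x.1.apply_symm_apply w
    have h2 : ∀ w, (x⁻¹).1 (x.1 w) = w := fun w => x.1.symm_apply_apply w
    refine ⟨J, ?_, ?_⟩
    · intro w q hq
      rw [← hJ1 _ q hq, h1]
    · intro w hw
      conv_lhs => rw [← hJ2 w hw]
      exact h2 w

/-- Elements of McLain's group are unitriangular. -/
theorem triang (m : Mc) : ∀ (w : Wm) (q : ℚ), (∀ i, q < i → w i = 0) →
    (∀ i, q < i → m.1 w i = 0) ∧ m.1 w q = w q := by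
  have key : ∀ m : Mc, (∀ (w : Wm) (q : ℚ), (∀ i, q < i → w i = 0) →
      (∀ i, q < i → m.1 w i = 0) ∧ m.1 w q = w q) ∧
      (∀ (w : Wm) (q : ℚ), (∀ i, q < i → w i = 0) →
      (∀ i, q < i → (m⁻¹).1 w i = 0) ∧ (m⁻¹).1 w q = w q) := by
    intro m
    induction m using mc_induction with
    | hone => exact ⟨fun w q h => ⟨h, rfl⟩, fun w q h => by
        rw [inv_one]; exact ⟨h, rfl⟩⟩
    | ht a b h =>
      have h1 : ∀ (w : Wm) (q : ℚ), (∀ i, q < i → w i = 0) →
          (∀ i, q < i → (t h).1 w i = 0) ∧ (t h).1 w q = w q := by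
        intro w q hw
        have h2 : ∀ i, q ≤ i → (t h).1 w i = w i := by
          intro i hi
          show (w + Finsupp.single a (w b)) i = w i
          rw [Finsupp.add_apply]
          by_cases hia : i = a
          · subst hia
            rw [hw b (lt_of_le_of_lt hi h), Finsupp.single_zero, Finsupp.zero_apply, add_zero]
          · rw [Finsupp.single_eq_of_ne hia, add_zero]
        exact ⟨fun i hi => by rw [h2 i hi.le, hw i hi], h2 q le_rfl⟩
      refine ⟨h1, ?_⟩
      rw [t_inv]
      exact h1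
    | hmul x y hx hy =>
      refine ⟨?_, ?_⟩
      · intro w q hw
        obtain ⟨h1, h2⟩ := hy.1 w q hw
        obtain ⟨h3, h4⟩ := hx.1 (y.1 w) q h1
        exact ⟨h3, h4.trans h2⟩
      · intro w q hw
        rw [mul_inv_rev]
        obtain ⟨h1, h2⟩ := hx.2 w q hw
        obtain ⟨h3, h4⟩ := hy.2 ((x⁻¹).1 w) q h1
        exact ⟨h3, h4.trans h2⟩
    | hinv x hx =>
      refine ⟨hx.2, ?_⟩
      rw [inv_inv]
      exact hx.1
  exact (key m).1

/-- Commutators of transvections. -/
theorem t_comm {a b c : ℚ} (h1 : a < b) (h2 : b < c) :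
    t h1 * t h2 * (t h1)⁻¹ * (t h2)⁻¹ = t (h1.trans h2) := by
  rw [t_inv, t_inv]
  apply Subtype.ext
  ext1 w
  show T h1 (T h2 (T h1 (T h2 w))) = T (h1.trans h2) w
  simp only [T_apply, Finsupp.add_apply]
  have e1 : ∀ x : ZMod 2, (Finsupp.single a x : Wm) b = 0 := fun x =>
    Finsupp.single_eq_of_ne h1.ne'
  have e2 : ∀ x : ZMod 2, (Finsupp.single a x : Wm) c = 0 := fun x =>
    Finsupp.single_eq_of_ne (h1.trans h2).ne'
  have e3 : ∀ x : ZMod 2, (Finsupp.single b x : Wm) c = 0 := fun x =>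
    Finsupp.single_eq_of_ne h2.ne'
  have e4 : ∀ x : ZMod 2, (Finsupp.single b x : Wm) b = x := fun x => Finsupp.single_eq_same
  simp only [e1, e2, e3, e4, add_zero]
  ext i
  simp only [Finsupp.add_apply, Finsupp.single_apply]
  generalize w b = x
  generalize w c = y
  generalize w i = z
  revert x y z
  by_cases hia : a = i
  · have hib : b ≠ i := fun h => h1.ne (hia.trans h.symm)
    simp only [if_pos hia, if_neg hib]
    decide
  · by_cases hib : b = i
    · simp only [if_neg hia, if_pos hib]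
      decide
    · simp only [if_neg hia, if_neg hib]
      decide

/-! ### Abelian normal subgroups -/

/-- The elements moving only coordinates `≤ a` and fixing the vectors supported below `b`. -/
def Eab {a b : ℚ} (_ : a < b) : Subgroup Mc where
  carrier := {m | (∀ (w : Wm) i, a < i → m.1 w i = w i) ∧
    ∀ w : Wm, (∀ i, b ≤ i → w i = 0) → m.1 w = w}
  one_mem' := ⟨fun _ _ _ => rfl, fun _ _ => rfl⟩
  mul_mem' := by
    rintro x y ⟨hx1, hx2⟩ ⟨hy1, hy2⟩
    refine ⟨fun w i hi => ?_, fun w hw => ?_⟩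
    · show x.1 (y.1 w) i = w i
      rw [hx1 _ i hi, hy1 _ i hi]
    · show x.1 (y.1 w) = w
      rw [hy2 w hw, hx2 w hw]
  inv_mem' := by
    rintro x ⟨hx1, hx2⟩
    have h1 : ∀ w, x.1 ((x⁻¹).1 w) = w := fun w => x.1.apply_symm_apply w
    have h2 : ∀ w, (x⁻¹).1 (x.1 w) = w := fun w => x.1.symm_apply_apply w
    refine ⟨fun w i hi => ?_, fun w hw => ?_⟩
    · rw [← hx1 _ i hi, h1]
    · conv_lhs => rw [← hx2 w hw]
      exact h2 w

theorem t_mem_Eab {a b : ℚ} (h : a < b) : t h ∈ Eab h := by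
  refine ⟨fun w i hi => ?_, fun w hw => ?_⟩
  · show (w + Finsupp.single a (w b)) i = w i
    rw [Finsupp.add_apply, Finsupp.single_eq_of_ne hi.ne', add_zero]
  · show w + Finsupp.single a (w b) = w
    rw [hw b le_rfl, Finsupp.single_zero, add_zero]

theorem Eab_normal {a b : ℚ} (h : a < b) : (Eab h).Normal := by
  constructor
  rintro m ⟨hm1, hm2⟩ g
  have h1 : ∀ w, g.1 ((g⁻¹).1 w) = w := fun w => g.1.apply_symm_apply w
  refine ⟨fun w i hi => ?_, fun w hw => ?_⟩
  · show g.1 (m.1 ((g⁻¹).1 w)) i = w i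
    set w' := (g⁻¹).1 w with hw'
    have h2 : m.1 w' = w' + (m.1 w' - w') := by abel
    have h3 := (triang g (m.1 w' - w') a (fun i hi => by
      rw [Finsupp.sub_apply, hm1 _ i hi, sub_self])).1 i hi
    rw [h2, map_add, Finsupp.add_apply, h3, add_zero, hw', h1]
  · show g.1 (m.1 ((g⁻¹).1 w)) = w
    rw [hm2, h1]
    intro i hi
    rw [(triang g⁻¹ w i (fun j hj => hw j (hi.trans hj.le))).2, hw i hi]

theorem Eab_low {a b : ℚ} (h : a < b) {x : Mc} (hx : x ∈ Eab h) (w : Wm) :
    ∀ i, b ≤ i → (x.1 w - w) i = 0 := by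
  intro i hi
  rw [Finsupp.sub_apply, hx.1 w i (h.trans_le hi), sub_self]

theorem Eab_comm {a b : ℚ} (h : a < b) {x y : Mc} (hx : x ∈ Eab h) (hy : y ∈ Eab h) :
    x * y = y * x := by
  apply Subtype.ext
  ext1 w
  show x.1 (y.1 w) = y.1 (x.1 w)
  have h1 : y.1 w = w + (y.1 w - w) := by abel
  have h2 : x.1 w = w + (x.1 w - w) := by abel
  have h3 : x.1 (y.1 w) = x.1 w + (y.1 w - w) := by
    conv_lhs => rw [h1]
    rw [map_add, hx.2 _ (Eab_low h hy w)]
  have h4 : y.1 (x.1 w) = y.1 w + (x.1 w - w) := by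
    conv_lhs => rw [h2]
    rw [map_add, hy.2 _ (Eab_low h hx w)]
  rw [h3, h4]; abel

theorem Eab_sq {a b : ℚ} (h : a < b) {x : Mc} (hx : x ∈ Eab h) : x * x = 1 := by
  apply Subtype.ext
  ext1 w
  show x.1 (x.1 w) = w
  have h2 : x.1 w = w + (x.1 w - w) := by abel
  have h3 : x.1 (x.1 w) = x.1 w + (x.1 w - w) := by
    conv_lhs => rw [h2]
    rw [map_add, hx.2 _ (Eab_low h hx w)]
  rw [h3]
  have h4 := w2 (x.1 w)
  have h5 : x.1 w + (x.1 w - w) = (x.1 w + x.1 w) - w := by abel
  rw [h5, h4, zero_sub]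
  exact neg_eq_of_add_eq_zero_left (w2 w)

theorem fitting (m : Mc) : ∃ N : Subgroup Mc, N.Normal ∧ Group.IsNilpotent N ∧ IsPGroup 2 N ∧
    m ∈ N := by
  induction m using mc_induction with
  | hone => exact ⟨⊥, inferInstance, inferInstance, IsPGroup.of_bot, one_mem _⟩
  | ht a b h =>
    refine ⟨Eab h, Eab_normal h, ?_, ?_, t_mem_Eab h⟩
    · let _ : CommGroup (Eab h) :=
        { (inferInstance : Group (Eab h)) with
          mul_comm := fun x y => Subtype.ext (Eab_comm h x.2 y.2) }
      exact CommGroup.isNilpotent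
    · intro x
      refine ⟨1, Subtype.ext ?_⟩
      show (x : Mc) ^ (2 ^ 1) = 1
      rw [pow_one, pow_two]
      exact Eab_sq h x.2
  | hmul x y hx hy =>
    obtain ⟨N, hN1, hN2, hN3, hN4⟩ := hx
    obtain ⟨K, hK1, hK2, hK3, hK4⟩ := hy
    refine ⟨N ⊔ K, inferInstance, ?_, hN3.to_sup_of_normal_right hK3,
      mul_mem (mem_sup_left hN4) (mem_sup_right hK4)⟩
    exact Pool.Agent.Helper611.PcFit.fitting N K hN2 hK2
  | hinv x hx =>
    obtain ⟨N, hN1, hN2, hN3, hN4⟩ := hx
    exact ⟨N, hN1, hN2, hN3, N.inv_mem hN4⟩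

/-! ### The module -/

/-- The finitely supported functions from the natural module to itself. -/
def V : Type := Wm →₀ Wm

instance : AddCommGroup V := inferInstanceAs (AddCommGroup (Wm →₀ Wm))

/-- Evaluation. -/
def ap (f : V) (w : Wm) : Wm := (show Wm →₀ Wm from f) w

theorem V_ext {f g : V} (h : ∀ w, ap f w = ap g w) : f = g := Finsupp.ext h

theorem ap_add (f g : V) (w : Wm) : ap (f + g) w = ap f w + ap g w := rfl
theorem ap_zero (w : Wm) : ap 0 w = 0 := rfl
theorem ap_sub (f g : V) (w : Wm) : ap (f - g) w = ap f w - ap g w := rfl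

/-- The action. -/
def act (m : Mc) (f : V) : V :=
  Finsupp.equivMapDomain m.1.toEquiv (Finsupp.mapRange m.1 (map_zero _) f)

theorem ap_act (m : Mc) (f : V) (w : Wm) : ap (act m f) w = m.1 (ap f ((m⁻¹).1 w)) := rfl

instance : DistribMulAction Mc V where
  smul := act
  one_smul f := V_ext fun w => by
    show ap (act 1 f) w = ap f w
    rw [ap_act, inv_one]; rfl
  mul_smul x y f := V_ext fun w => by
    show ap (act (x * y) f) w = ap (act x (act y f)) w
    rw [ap_act, ap_act, ap_act, mul_inv_rev]; rfl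
  smul_zero x := V_ext fun w => by
    show ap (act x 0) w = ap 0 w
    rw [ap_act, ap_zero, ap_zero, map_zero]
  smul_add x f g := V_ext fun w => by
    show ap (act x (f + g)) w = ap (act x f + act x g) w
    rw [ap_add, ap_act, ap_act, ap_act, ap_add, map_add]

theorem ap_smul (m : Mc) (f : V) (w : Wm) : ap (m • f) w = m.1 (ap f ((m⁻¹).1 w)) := rfl

theorem V2 (f : V) : f + f = 0 := V_ext fun w => by rw [ap_add, ap_zero, w2]

/-- Singletons. -/
def sg (w x : Wm) : V := Finsupp.single w x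

theorem ap_sg_same (w x : Wm) : ap (sg w x) w = x := Finsupp.single_eq_same
theorem ap_sg_ne {w w' : Wm} (h : w' ≠ w) (x : Wm) : ap (sg w x) w' = 0 :=
  Finsupp.single_eq_of_ne h

theorem smul_sg (m : Mc) (w x : Wm) : m • sg w x = sg (m.1 w) (m.1 x) := by
  have h1 : ∀ w, m.1 ((m⁻¹).1 w) = w := fun w => m.1.apply_symm_apply w
  have h2 : ∀ w, (m⁻¹).1 (m.1 w) = w := fun w => m.1.symm_apply_apply w
  apply V_ext
  intro w'
  rw [ap_smul]
  by_cases h : w' = m.1 w
  · subst h
    rw [h2, ap_sg_same, ap_sg_same]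
  · rw [ap_sg_ne h, ap_sg_ne, map_zero]
    intro h'
    apply h
    rw [← h', h1]

/-- Additive induction on the module. -/
theorem V_induction {P : V → Prop} (h0 : P 0) (hadd : ∀ f g, P f → P g → P (f + g))
    (hs : ∀ (w : Wm) (a : ℚ), P (sg w (Finsupp.single a 1))) (f : V) : P f := by
  have hw : ∀ (w x : Wm), P (sg w x) := by
    intro w x
    induction x using Finsupp.induction_linear with
    | zero =>
      have : sg w 0 = 0 := Finsupp.single_zero w
      rw [this]; exact h0
    | add x y hx hy =>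
      have : sg w (x + y) = sg w x + sg w y := Finsupp.single_add w x y
      rw [this]; exact hadd _ _ hx hy
    | single a b =>
      have hb : b = 0 ∨ b = 1 := by revert b; decide
      rcases hb with rfl | rfl
      · have : sg w (Finsupp.single a 0) = 0 := by
          rw [Finsupp.single_zero]; exact Finsupp.single_zero w
        rw [this]; exact h0
      · exact hs w a
  have : ∀ f : Wm →₀ Wm, P f := by
    intro f
    induction f using Finsupp.induction_linear with
    | zero => exact h0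
    | add f g hf hg => exact hadd _ _ hf hg
    | single w x => exact hw w x
  exact this f

end Q22.ML
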