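import Pool.Agent.Q22.McLain

/-! The semidirect product is pseudocentral, a Baer group, and not a Fitting group. -/

noncomputable section

namespace Q22.ML

open Subgroup SD

/-- The group. -/
abbrev Gr : Type := SD V Mc

theorem baer (g : Gr) : (zpowers g).IsSubnormal := by
  obtain ⟨N, hN1, hN2, hN3, hN4⟩ := fitting g.m
  obtain ⟨k, hk⟩ := hN3 ⟨g.m, hN4⟩
  exact SD.zpowers_isSubnormal V2 g k (congrArg Subtype.val hk)
    (zpowers_isSubnormal_of_mem hN1 hN2 hN4)

/-! ### Pseudocentral -/

/-- Almost all transvections centralize a given element. -/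
theorem exists_J (g : Gr) : ∃ J : Finset ℚ, ∀ (c d : ℚ) (h : c < d), c ∉ J → d ∉ J →
    (ι (t h) : Gr) ∈ centralizer {g} := by
  classical
  obtain ⟨J, hJ1, hJ2⟩ := fin_supp g.m
  let f : Wm →₀ Wm := g.v
  let K : Finset ℚ := f.support.biUnion fun w => w.support ∪ (f w).support
  refine ⟨J ∪ K, fun c d h hc hd => ?_⟩
  rw [Finset.mem_union, not_or] at hc hd
  rw [mem_centralizer_singleton_iff]
  have hfix : ∀ w : Wm, w d = 0 → (t h).1 w = w := by
    intro w hw
    show w + Finsupp.single c (w d) = w
    rw [hw, Finsupp.single_zero, add_zero]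
  have hsupp : ∀ w ∈ f.support, w d = 0 ∧ (f w) d = 0 := by
    intro w hw
    have : d ∉ w.support ∪ (f w).support := fun h' =>
      hd.2 (Finset.mem_biUnion.mpr ⟨w, hw, h'⟩)
    rw [Finset.mem_union, not_or] at this
    exact ⟨Finsupp.notMem_support_iff.mp this.1, Finsupp.notMem_support_iff.mp this.2⟩
  have htt : ∀ w, (t h).1 ((t h).1 w) = w := fun w => by
    have := congrArg (fun z : Mc => z.1 w) (mul_inv_cancel (t h))
    rw [t_inv] at this
    exact this
  have hv : t h • g.v = g.v := by
    apply V_ext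
    intro w
    rw [ap_smul, t_inv]
    by_cases hw : (t h).1 w ∈ f.support
    · obtain ⟨h1, h2⟩ := hsupp _ hw
      have h3 : (t h).1 w = w := by
        have := hfix _ h1
        rw [htt] at this
        exact this.symm
      rw [h3] at hw ⊢
      exact hfix _ (hsupp w hw).2
    · have h1 : ap g.v ((t h).1 w) = 0 := Finsupp.notMem_support_iff.mp hw
      rw [h1, map_zero]
      by_contra hne
      have hw' : w ∈ f.support := Finsupp.mem_support_iff.mpr (Ne.symm hne)
      rw [hfix w (hsupp w hw').1] at hw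
      exact hw hw'
  have hm : t h * g.m = g.m * t h := by
    apply Subtype.ext
    ext1 w
    show (t h).1 (g.m.1 w) = g.m.1 ((t h).1 w)
    show g.m.1 w + Finsupp.single c (g.m.1 w d) = g.m.1 (w + Finsupp.single c (w d))
    rw [map_add, hJ1 w d hd.1, hJ2 (Finsupp.single c (w d))]
    intro q hq
    exact Finsupp.single_eq_of_ne (by rintro rfl; exact hc.1 hq)
  ext1
  · show 0 + t h • g.v = g.v + g.m • (0 : V)
    rw [hv, smul_zero, zero_add, add_zero]
  · exact hm

/-- A rational number avoiding a finite set in an interval. -/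
theorem exists_between_avoid (J : Finset ℚ) {a b : ℚ} (h : a < b) :
    ∃ c, a < c ∧ c < b ∧ c ∉ J := by
  have hinf : (Set.Ioo a b).Infinite := Set.Ioo_infinite h
  obtain ⟨c, hc, hcJ⟩ := hinf.exists_notMem_finset J
  exact ⟨c, hc.1, hc.2, hcJ⟩

theorem normalClosure_eq_top (g : Gr) :
    normalClosure ((centralizer {g} : Subgroup Gr) : Set Gr) = ⊤ := by
  obtain ⟨J, hJ⟩ := exists_J g
  set N := normalClosure ((centralizer {g} : Subgroup Gr) : Set Gr) with hN
  have hNn : N.Normal := normalClosure_normal
  have hcomm : ∀ x y : Gr, y ∈ N → x * y * x⁻¹ * y⁻¹ ∈ N := fun x y hy =>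
    N.mul_mem (hNn.conj_mem y hy x) (N.inv_mem hy)
  have hcomm' : ∀ x y : Gr, x ∈ N → x * y * x⁻¹ * y⁻¹ ∈ N := fun x y hx => by
    have : x * y * x⁻¹ * y⁻¹ = x * (y * x⁻¹ * y⁻¹) := by group
    rw [this]
    exact N.mul_mem hx (hNn.conj_mem _ (N.inv_mem hx) y)
  have ht : ∀ (a b : ℚ) (h : a < b), (ι (t h) : Gr) ∈ N := by
    intro a b h
    obtain ⟨c, hac, hcb, hcJ⟩ := exists_between_avoid J h
    obtain ⟨d, hcd, hdb, hdJ⟩ := exists_between_avoid J hcb
    have h1 : (ι (t hcd) : Gr) ∈ N := subset_normalClosure (hJ c d hcd hcJ hdJ)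
    have h2 : (ι (t (hac.trans hcd)) : Gr) ∈ N := by
      rw [← t_comm hac hcd]
      simp only [map_mul, map_inv]
      exact hcomm _ _ h1
    have h3 : (ι (t ((hac.trans hcd).trans hdb)) : Gr) ∈ N := by
      rw [← t_comm (hac.trans hcd) hdb]
      simp only [map_mul, map_inv]
      exact hcomm' _ _ h2
    exact h3
  have hM : ∀ m : Mc, (ι m : Gr) ∈ N := by
    intro m
    induction m using mc_induction with
    | hone => rw [map_one]; exact N.one_mem
    | ht a b h => exact ht a b h
    | hmul x y hx hy => rw [map_mul]; exact N.mul_mem hx hy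
    | hinv x hx => rw [map_inv]; exact N.inv_mem hx
  have hV : ∀ f : V, (el f : Gr) ∈ N := by
    intro f
    induction f using V_induction with
    | h0 => exact N.one_mem
    | hadd f g hf hg => rw [el_add]; exact N.mul_mem hf hg
    | hs w a =>
      obtain ⟨b, hab, _, hbw⟩ := exists_between_avoid w.support (lt_add_one a)
      have h1 := hcomm' (ι (t hab) : Gr) (el (sg w (Finsupp.single b 1))) (hM _)
      rw [comm_el] at h1
      have h2 : (t hab).1 w = w := by
        show w + Finsupp.single a (w b) = w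
        rw [Finsupp.notMem_support_iff.mp hbw, Finsupp.single_zero, add_zero]
      have h3 : (t hab).1 (Finsupp.single b 1) = Finsupp.single b 1 + Finsupp.single a 1 := by
        show (Finsupp.single b 1 : Wm) + Finsupp.single a ((Finsupp.single b 1 : Wm) b) = _
        rw [Finsupp.single_eq_same]
      have h4 : (ι (t hab) : Gr).m • sg w (Finsupp.single b 1) - sg w (Finsupp.single b 1) =
          sg w (Finsupp.single a 1) := by
        show t hab • sg w (Finsupp.single b 1) - sg w (Finsupp.single b 1) = _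
        rw [smul_sg, h2, h3]
        have : sg w (Finsupp.single b 1 + Finsupp.single a 1) =
          sg w (Finsupp.single b 1) + sg w (Finsupp.single a 1) := Finsupp.single_add _ _ _
        rw [this]; abel
      rwa [h4] at h1
  rw [eq_top_iff]
  intro x _
  rw [decomp x]
  exact N.mul_mem (hV _) (hM _)

/-! ### Not Fitting -/

/-- A nilpotent normal subgroup acts trivially on the module part: it has trivial image in
McLain's group. -/
theorem nilpotent_le (K : Subgroup Gr) (hK : K.Normal) (hnil : Group.IsNilpotent K) (g : Gr)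
    (hg : g ∈ K) : g.m = 1 := by
  classical
  by_contra hm
  obtain ⟨J, hJ1, hJ2⟩ := fin_supp g.m
  set m := g.m with hmdef
  -- the smallest basis vector that is moved
  have hmoved : ∃ q, m.1 (Finsupp.single q 1) ≠ Finsupp.single q 1 := by
    by_contra hcon
    push Not at hcon
    apply hm
    apply Subtype.ext
    ext1 w
    show m.1 w = w
    induction w using Finsupp.induction_linear with
    | zero => exact map_zero _
    | add x y hx hy => rw [map_add, hx, hy]
    | single a b =>
      have hb : b = 0 ∨ b = 1 := by revert b; decide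
      rcases hb with rfl | rfl
      · rw [Finsupp.single_zero, map_zero]
      · exact hcon a
  have hinJ : ∀ q, m.1 (Finsupp.single q 1) ≠ Finsupp.single q 1 → q ∈ J := by
    intro q hq
    by_contra hqJ
    apply hq
    apply hJ2
    intro r hr
    exact Finsupp.single_eq_of_ne (by rintro rfl; exact hqJ hr)
  obtain ⟨j0, hj0, hmin⟩ : ∃ j0, m.1 (Finsupp.single j0 1) ≠ Finsupp.single j0 1 ∧
      ∀ j, j < j0 → m.1 (Finsupp.single j 1) = Finsupp.single j 1 := by
    obtain ⟨q, hq⟩ := hmoved
    obtain ⟨j0, hj0, hmin⟩ := Finset.exists_min_image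
      (J.filter fun q => m.1 (Finsupp.single q 1) ≠ Finsupp.single q 1) id
      ⟨q, Finset.mem_filter.mpr ⟨hinJ q hq, hq⟩⟩
    refine ⟨j0, (Finset.mem_filter.mp hj0).2, fun j hj => ?_⟩
    by_contra hne
    have := hmin j (Finset.mem_filter.mpr ⟨hinJ j hne, hne⟩)
    exact absurd this (not_le.mpr hj)
  obtain ⟨u, hu⟩ : ∃ u : Wm, m.1 (Finsupp.single j0 1) = Finsupp.single j0 1 + u :=
    ⟨m.1 (Finsupp.single j0 1) - Finsupp.single j0 1, by abel⟩
  have hu0 : u ≠ 0 := by
    rintro rfl
    exact hj0 (by rw [hu, add_zero])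
  have hulow : ∀ i, j0 ≤ i → u i = 0 := by
    intro i hi
    have h1 := triang m (Finsupp.single j0 1) j0 (fun i hi => Finsupp.single_eq_of_ne hi.ne')
    rcases hi.eq_or_lt with rfl | hlt
    · have h2 := h1.2
      rw [hu, Finsupp.add_apply] at h2
      simpa using h2
    · have h2 := h1.1 i hlt
      rw [hu, Finsupp.add_apply, Finsupp.single_eq_of_ne hlt.ne', zero_add] at h2
      exact h2
  have huJ : ∀ i, i ∉ J → u i = 0 := by
    intro i hi
    have h1 := hJ1 (Finsupp.single j0 1) i hi
    rw [hu, Finsupp.add_apply] at h1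
    simpa using h1
  have hmu : m.1 u = u := by
    have key : ∀ v : Wm, (∀ i, j0 ≤ i → v i = 0) → m.1 v = v := by
      intro v hv
      have h1 : v = ∑ i ∈ v.support, Finsupp.single i (v i) := (Finsupp.sum_single v).symm
      conv_lhs => rw [h1]
      rw [map_sum]
      conv_rhs => rw [h1]
      refine Finset.sum_congr rfl fun i hi => ?_
      have hne : v i ≠ 0 := Finsupp.mem_support_iff.mp hi
      have h1' : v i = 1 := by
        have : ∀ z : ZMod 2, z ≠ 0 → z = 1 := by decide
        exact this _ hne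
      rw [h1']
      apply hmin
      by_contra hcon
      exact hne (hv i (not_lt.mp hcon))
    exact key u hulow
  obtain ⟨i0, hi0⟩ : ∃ i0, u i0 ≠ 0 := by
    by_contra hcon
    push Not at hcon
    exact hu0 (Finsupp.ext hcon)
  have hi01 : u i0 = 1 := by
    have : ∀ z : ZMod 2, z ≠ 0 → z = 1 := by decide
    exact this _ hi0
  have hi0j : i0 < j0 := by
    by_contra hcon
    exact hi0 (hulow i0 (not_lt.mp hcon))
  -- an index above everything
  obtain ⟨d, hd, _, hdJ⟩ := exists_between_avoid J (lt_add_one j0)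
  -- infinitely many indices below `i0`
  have hinf : (Set.Iio i0 \ (J : Set ℚ)).Infinite := (Set.Iio_infinite i0).sdiff J.finite_toSet
  let c : ℕ → ℚ := fun n => (hinf.natEmbedding _ n : ℚ)
  have hci : Function.Injective c := fun x y h =>
    (hinf.natEmbedding _).injective (Subtype.ext h)
  have hc1 : ∀ n, c n < i0 := fun n => (hinf.natEmbedding _ n).2.1
  have hcJ : ∀ n, c n ∉ J := fun n => (hinf.natEmbedding _ n).2.2
  have hcd : ∀ n, c n ≠ d := fun n => ((hc1 n).trans (hi0j.trans hd)).ne
  have hci0 : ∀ n, c n ≠ i0 := fun n => (hc1 n).ne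
  have hud : u d = 0 := hulow d hd.le
  have huc : ∀ n, u (c n) = 0 := fun n => huJ _ (hcJ n)
  -- the conjugates
  let k : ℕ → Mc := fun n => t (hc1 n) * t hd
  let mm : ℕ → Mc := fun n => k n * m * (k n)⁻¹
  have hkinv : ∀ n, (k n)⁻¹ = t hd * t (hc1 n) := fun n => by
    show (t (hc1 n) * t hd)⁻¹ = _
    rw [mul_inv_rev, t_inv, t_inv]
  have hmm : ∀ n w, (mm n).1 w =
      T (hc1 n) (T hd (m.1 (T hd (T (hc1 n) w)))) := by
    intro n w
    show ((k n) * m * (k n)⁻¹).1 w = _
    rw [hkinv]
    rfl
  have hm_c : ∀ n, m.1 (Finsupp.single (c n) 1) = Finsupp.single (c n) 1 := by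
    intro n
    apply hJ2
    intro r hr
    exact Finsupp.single_eq_of_ne (by rintro rfl; exact hcJ n hr)
  have hm_d : m.1 (Finsupp.single d 1) = Finsupp.single d 1 := by
    apply hJ2
    intro r hr
    exact Finsupp.single_eq_of_ne (by rintro rfl; exact hdJ hr)
  have hdi0 : d ≠ i0 := (hi0j.trans hd).ne'
  have hdj0 : d ≠ j0 := hd.ne'
  -- action on `e_d`
  have e1 : ∀ n, (mm n).1 (Finsupp.single d 1) =
      Finsupp.single d 1 + (u + Finsupp.single (c n) 1) := by
    intro n
    have s1 : T (hc1 n) (Finsupp.single d 1 : Wm) = Finsupp.single d 1 := by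
      rw [T_apply, Finsupp.single_eq_of_ne hdi0.symm, Finsupp.single_zero, add_zero]
    have s2 : T hd (Finsupp.single d 1 : Wm) = Finsupp.single d 1 + Finsupp.single j0 1 := by
      rw [T_apply, Finsupp.single_eq_same]
    have s3 : m.1 (Finsupp.single d 1 + Finsupp.single j0 1) =
        Finsupp.single d 1 + (Finsupp.single j0 1 + u) := by
      rw [map_add, hm_d, hu]
    have s4 : T hd (Finsupp.single d 1 + (Finsupp.single j0 1 + u) : Wm) =
        Finsupp.single d 1 + u := by
      rw [T_apply, Finsupp.add_apply, Finsupp.add_apply, Finsupp.single_eq_same,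
        Finsupp.single_eq_of_ne hdj0, hud, add_zero, add_zero]
      have := w2 (Finsupp.single j0 1)
      calc Finsupp.single d 1 + (Finsupp.single j0 1 + u) + Finsupp.single j0 1
          = Finsupp.single d 1 + u + (Finsupp.single j0 1 + Finsupp.single j0 1) := by abel
        _ = _ := by rw [this, add_zero]
    have s5 : T (hc1 n) (Finsupp.single d 1 + u : Wm) =
        Finsupp.single d 1 + (u + Finsupp.single (c n) 1) := by
      rw [T_apply, Finsupp.add_apply, Finsupp.single_eq_of_ne hdi0.symm, zero_add, hi01]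
      abel
    rw [hmm, s1, s2, s3, s4, s5]
  have e2 : ∀ n k, (mm n).1 (Finsupp.single (c k) 1) = Finsupp.single (c k) 1 := by
    intro n k
    have s1 : T (hc1 n) (Finsupp.single (c k) 1 : Wm) = Finsupp.single (c k) 1 := by
      rw [T_apply, Finsupp.single_eq_of_ne (hci0 k).symm, Finsupp.single_zero, add_zero]
    have s2 : T hd (Finsupp.single (c k) 1 : Wm) = Finsupp.single (c k) 1 := by
      rw [T_apply, Finsupp.single_eq_of_ne (hcd k).symm, Finsupp.single_zero, add_zero]
    rw [hmm, s1, s2, hm_c, s2, s1]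
  have e3 : ∀ n, (mm n).1 u = u := by
    intro n
    have s1 : T (hc1 n) u = u + Finsupp.single (c n) 1 := by
      rw [T_apply, hi01]
    have s2 : T hd (u + Finsupp.single (c n) 1) = u + Finsupp.single (c n) 1 := by
      rw [T_apply, Finsupp.add_apply, hud, Finsupp.single_eq_of_ne (hcd n).symm, add_zero,
        Finsupp.single_zero, add_zero]
    have s3 : m.1 (u + Finsupp.single (c n) 1) = u + Finsupp.single (c n) 1 := by
      rw [map_add, hmu, hm_c]
    have s4 : T (hc1 n) (u + Finsupp.single (c n) 1) = u := by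
      rw [T_apply, Finsupp.add_apply, hi01, Finsupp.single_eq_of_ne (hci0 n).symm, add_zero,
        add_assoc, w2, add_zero]
    rw [hmm, s1, s2, s3, s2, s4]
  -- the sequence of module elements
  let x : Wm := Finsupp.single (c 0) 1
  let f : ℕ → V := fun n => Nat.rec (sg (Finsupp.single d 1) x) (fun n f => mm n • f - f) n
  have hf0 : f 0 = sg (Finsupp.single d 1) x := rfl
  have hfs : ∀ n, f (n + 1) = mm n • f n - f n := fun n => rfl
  have hinv : ∀ n, (∀ w, ap (f n) w ≠ 0 → ap (f n) w = x ∧
      (∀ k, (mm k).1 w = w + (u + Finsupp.single (c k) 1)) ∧ ∀ k, n ≤ k → w (c k) = 0) ∧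
      ∃ w, ap (f n) w ≠ 0 := by
    intro n
    induction n with
    | zero =>
      refine ⟨?_, Finsupp.single d 1, ?_⟩
      · intro w hw
        rw [hf0] at hw ⊢
        have hwd : w = Finsupp.single d 1 := by
          by_contra hne
          exact hw (ap_sg_ne hne x)
        subst hwd
        refine ⟨ap_sg_same _ _, e1, fun k _ => ?_⟩
        exact Finsupp.single_eq_of_ne (hcd k)
      · rw [hf0, ap_sg_same]
        show (Finsupp.single (c 0) 1 : Wm) ≠ 0
        rw [Ne, Finsupp.single_eq_zero]
        decide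
    | succ n ih =>
      obtain ⟨ih1, w0, hw0⟩ := ih
      have hmx : ∀ k, (mm k).1 x = x := fun k => e2 k 0
      have hminv : ∀ k w, (mm k).1 (((mm k)⁻¹).1 w) = w := fun k w =>
        (mm k).1.apply_symm_apply w
      have hminv' : ∀ k w, ((mm k)⁻¹).1 ((mm k).1 w) = w := fun k w =>
        (mm k).1.symm_apply_apply w
      have hval : ∀ w, ap (f (n + 1)) w =
          (mm n).1 (ap (f n) (((mm n)⁻¹).1 w)) - ap (f n) w := fun w => by
        rw [hfs, ap_sub, ap_smul]
      -- points in the translated support have `c n`-coordinate one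
      have htrans : ∀ w, ap (f n) (((mm n)⁻¹).1 w) ≠ 0 → w (c n) = 1 ∧
          (∀ k, (mm k).1 w = w + (u + Finsupp.single (c k) 1)) ∧
          (∀ k, n + 1 ≤ k → w (c k) = 0) ∧ ap (f n) (((mm n)⁻¹).1 w) = x := by
        intro w hw
        obtain ⟨h1, h2, h3⟩ := ih1 _ hw
        set w' := ((mm n)⁻¹).1 w with hw'
        have hww : w = w' + (u + Finsupp.single (c n) 1) := by
          rw [← h2 n, hw', hminv]
        refine ⟨?_, ?_, ?_, h1⟩
        · rw [hww, Finsupp.add_apply, Finsupp.add_apply, h3 n le_rfl, huc n,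
            Finsupp.single_eq_same]
          rfl
        · intro k
          rw [hww, map_add, map_add, h2 k, e3 k, e2 k n]
          abel
        · intro k hk
          have hne : c k ≠ c n := fun h => by
            have := hci h
            omega
          rw [hww, Finsupp.add_apply, Finsupp.add_apply, h3 k (by omega), huc k,
            Finsupp.single_eq_of_ne hne]
          rfl
      refine ⟨?_, w0, ?_⟩
      · intro w hw
        rw [hval] at hw ⊢
        by_cases h1 : ap (f n) (((mm n)⁻¹).1 w) = 0
        · rw [h1, map_zero, zero_sub] at hw ⊢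
          have h2 : ap (f n) w ≠ 0 := fun h => hw (by rw [h, neg_zero])
          obtain ⟨h3, h4, h5⟩ := ih1 w h2
          refine ⟨?_, h4, fun k hk => h5 k (by omega)⟩
          rw [h3]
          exact neg_eq_of_add_eq_zero_left (w2 x)
        · obtain ⟨h2, h3, h4, h5⟩ := htrans w h1
          have h6 : ap (f n) w = 0 := by
            by_contra hne
            have := (ih1 w hne).2.2 n le_rfl
            rw [this] at h2
            exact absurd h2 (by decide)
          refine ⟨?_, h3, h4⟩
          rw [h6, h5, hmx, sub_zero]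
      · rw [hval]
        have h1 : ap (f n) (((mm n)⁻¹).1 w0) = 0 := by
          by_contra hne
          have h2 := (htrans w0 hne).1
          rw [(ih1 w0 hw0).2.2 n le_rfl] at h2
          exact absurd h2 (by decide)
        rw [h1, map_zero, zero_sub]
        intro h
        exact hw0 (neg_eq_zero.mp h)
  -- membership in the lower central series
  obtain ⟨n, hn⟩ := (Subgroup.isNilpotent_iff_lowerCentralSeries K).mp hnil
  have hconj : ∀ k : ℕ, ∃ y ∈ K, y.m = mm k := by
    intro k
    refine ⟨ι (t (hc1 k) * t hd) * g * (ι (t (hc1 k) * t hd))⁻¹, hK.conj_mem g hg _, ?_⟩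
    rfl
  have hmem : ∀ i, (el (f (i + 1)) : Gr) ∈ K.lowerCentralSeries i := by
    intro i
    induction i with
    | zero =>
      obtain ⟨y, hy, hym⟩ := hconj 0
      show (el (f 1) : Gr) ∈ K
      have h1 : y * el (f 0) * y⁻¹ * (el (f 0))⁻¹ = el (f 1) := by
        have h0 := comm_el y (f 0)
        rw [hym, ← hfs 0] at h0
        exact h0
      rw [← h1]
      have : y * el (f 0) * y⁻¹ * (el (f 0))⁻¹ = y * (el (f 0) * y⁻¹ * (el (f 0))⁻¹) := by group
      rw [this]
      exact K.mul_mem hy (hK.conj_mem _ (K.inv_mem hy) _)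
    | succ i ih =>
      obtain ⟨y, hy, hym⟩ := hconj (i + 1)
      have h1 : y * el (f (i + 1)) * y⁻¹ * (el (f (i + 1)))⁻¹ = el (f (i + 1 + 1)) := by
        have h0 := comm_el y (f (i + 1))
        rw [hym, ← hfs (i + 1)] at h0
        exact h0
      have h2 := Subgroup.commutator_mem_commutator ih hy
      have h3 := inv_mem h2
      rw [commutatorElement_inv, commutatorElement_def, h1] at h3
      exact h3
  have h1 := hmem n
  rw [hn, mem_bot] at h1
  obtain ⟨w, hw⟩ := (hinv (n + 1)).2
  apply hw
  have h2 : f (n + 1) = 0 := congrArg SD.v h1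
  rw [h2]; rfl

theorem exists_ne_one : ∃ m : Mc, m ≠ 1 := by
  refine ⟨t (zero_lt_one), fun h => ?_⟩
  have h1 := congrArg (fun z : Mc => z.1 (Finsupp.single 1 1) 0) h
  have h2 : (Finsupp.single (1 : ℚ) (1 : ZMod 2) + Finsupp.single (0 : ℚ)
      ((Finsupp.single (1 : ℚ) (1 : ZMod 2) : Wm) 1) : Wm) 0 =
      (Finsupp.single (1 : ℚ) (1 : ZMod 2) : Wm) 0 := h1
  rw [Finsupp.single_eq_same, Finsupp.add_apply, Finsupp.single_eq_same,
    Finsupp.single_eq_of_ne (by norm_num)] at h2
  exact absurd h2 (by decide)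

theorem not_fitting : sSup {N : Subgroup Gr | N.Normal ∧ Group.IsNilpotent N} ≠ ⊤ := by
  intro h
  have hle : sSup {N : Subgroup Gr | N.Normal ∧ Group.IsNilpotent N} ≤ (SD.π : Gr →* Mc).ker := by
    refine sSup_le ?_
    rintro K ⟨hK, hnil⟩ g hg
    exact nilpotent_le K hK hnil g hg
  obtain ⟨m, hm⟩ := exists_ne_one
  have h1 : (ι m : Gr) ∈ (SD.π : Gr →* Mc).ker := hle (by rw [h]; trivial)
  exact hm h1

end Q22.ML
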