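import Pool.Agent.Q22.FC

/-! Product intersection sets: every infinite group has a decreasing sequence of subsets whose
product intersection set is `{1, 2}`. -/

namespace Q22.ProdInter

open scoped Pointwise

section Defs

variable {G : Type*} [Group G]

/-- The property we want. -/
def P (G : Type*) [Group G] : Prop :=
  ∃ A : ℕ → Set G, Antitone A ∧ (∀ N, ∃ q, N ≤ q ∧ A (q + 1) ≠ A q) ∧
    {h : ℕ | 1 ≤ h ∧ (⋂ q, A q) ^ h = ⋂ q, A q ^ h} = {1, 2}

/-- Triples with a fixed product and prescribed avoidance. -/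
def Trip (G : Type*) [Group G] : Prop :=
  ∃ g : G, g ≠ 1 ∧ ∀ O X : Set G, O.Finite → X.Finite → (1 : G) ∉ X → ∃ p q r : G,
    p * q * r = g ∧ ∀ u ∈ ({p, q, r} : Set G), ∀ v ∈ O ∪ {p, q, r}, u * v ∉ X ∧ v * u ∉ X

theorem trip_of (g : G) (hg : g ≠ 1) (I : Set G → Prop)
    (hfin : ∀ S : Set G, S.Finite → I S) (hU : ∀ S T, I S → I T → I (S ∪ T))
    (hmono : ∀ S T, S ⊆ T → I T → I S) (huniv : ¬ I Set.univ)
    (h1 : ∀ x : G, x ≠ 1 → I {q | q * q = x})
    (h2 : ∀ x d : G, x ≠ 1 → I {q | (q⁻¹ * d) * (q⁻¹ * d) = x})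
    (h3 : ∀ x c : G, x ≠ 1 → c ≠ x → I {q | q⁻¹ * c * q = x}) : Trip G := by
  classical
  have hbU : ∀ (X : Set G), X.Finite → ∀ (f : G → Set G), (∀ x ∈ X, I (f x)) →
      I (⋃ x ∈ X, f x) := by
    intro X hX f
    induction X, hX using Set.Finite.induction_on with
    | empty => intro _; simpa using hfin ∅ Set.finite_empty
    | @insert a s _ _ ih =>
      intro hf
      rw [Set.biUnion_insert]
      exact hU _ _ (hf a (Set.mem_insert _ _)) (ih fun x hx => hf x (Set.mem_insert_of_mem _ hx))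
  have hpick : ∀ S, I S → ∃ z, z ∉ S := by
    intro S hS
    by_contra hcon
    push Not at hcon
    exact huniv (hmono _ _ (fun z _ => hcon z) hS)
  refine ⟨g, hg, ?_⟩
  intro O X hO hX h1X
  have hXne : ∀ x ∈ X, x ≠ 1 := fun x hx he => h1X (he ▸ hx)
  -- choose p
  obtain ⟨p, hp⟩ := hpick (X * O⁻¹ ∪ O⁻¹ * X ∪ ({g} * X⁻¹) ∪ ⋃ x ∈ X, {q | q * q = x})
    (hU _ _ (hfin _ (((hX.mul hO.inv).union (hO.inv.mul hX)).union
      ((Set.finite_singleton g).mul hX.inv))) (hbU X hX _ fun x hx => h1 x (hXne x hx)))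
  simp only [Set.mem_union, not_or] at hp
  obtain ⟨⟨⟨hp1, hp2⟩, hp3⟩, hp4⟩ := hp
  -- choose q
  obtain ⟨q, hq⟩ := hpick (
      (X * O⁻¹ ∪ O⁻¹ * X ∪ ({p⁻¹ * g} * (O * X⁻¹)) ∪ ({p⁻¹ * g} * (X⁻¹ * O)) ∪ ({p⁻¹} * X) ∪
        (X * {p⁻¹}) ∪ ({p⁻¹ * g} * (X⁻¹ * {p})) ∪ ({p⁻¹ * g * p} * X⁻¹)) ∪
      ((⋃ x ∈ X, {q | q * q = x}) ∪
      ((⋃ x ∈ X, {q | (q⁻¹ * (p⁻¹ * g)) * (q⁻¹ * (p⁻¹ * g)) = x}) ∪
      (⋃ x ∈ X, {q | q⁻¹ * (p⁻¹ * g) * q = x}))))
    (hU _ _ (hfin _ ((((((((hX.mul hO.inv).union (hO.inv.mul hX)).union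
        ((Set.finite_singleton _).mul (hO.mul hX.inv))).union
        ((Set.finite_singleton _).mul (hX.inv.mul hO))).union
        ((Set.finite_singleton _).mul hX)).union (hX.mul (Set.finite_singleton _))).union
        ((Set.finite_singleton _).mul (hX.inv.mul (Set.finite_singleton _)))).union
        ((Set.finite_singleton _).mul hX.inv)))
      (hU _ _ (hbU X hX _ fun x hx => h1 x (hXne x hx))
      (hU _ _ (hbU X hX _ fun x hx => h2 x _ (hXne x hx))
      (hbU X hX _ fun x hx => h3 x _ (hXne x hx) (by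
        intro he
        apply hp3
        rw [Set.singleton_mul]
        exact ⟨x⁻¹, Set.inv_mem_inv.mpr hx, by
          show g * x⁻¹ = p
          rw [← he]; group⟩)))))
  simp only [Set.mem_union, not_or] at hq
  obtain ⟨⟨⟨⟨⟨⟨⟨⟨hq1, hq2⟩, hq3⟩, hq4⟩, hq5⟩, hq6⟩, hq7⟩, hq8⟩, hq9, hq10, hq11⟩ := hq
  have ev1 : ∀ {y v : G}, v ∈ O → y ∉ X * O⁻¹ → y * v ∉ X := fun {y v} hv hy hx =>
    hy ⟨y * v, hx, v⁻¹, Set.inv_mem_inv.mpr hv, by simp⟩
  have ev2 : ∀ {y v : G}, v ∈ O → y ∉ O⁻¹ * X → v * y ∉ X := fun {y v} hv hy hx =>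
    hy ⟨v⁻¹, Set.inv_mem_inv.mpr hv, v * y, hx, by simp⟩
  refine ⟨p, q, q⁻¹ * (p⁻¹ * g), by group, ?_⟩
  have r1 : ∀ v ∈ O, q⁻¹ * (p⁻¹ * g) * v ∉ X := fun v hv hx => hq3
    ⟨p⁻¹ * g, rfl, v * (q⁻¹ * (p⁻¹ * g) * v)⁻¹,
      ⟨v, hv, _, Set.inv_mem_inv.mpr hx, rfl⟩, by group⟩
  have r2 : ∀ v ∈ O, v * (q⁻¹ * (p⁻¹ * g)) ∉ X := fun v hv hx => hq4
    ⟨p⁻¹ * g, rfl, (v * (q⁻¹ * (p⁻¹ * g)))⁻¹ * v,
      ⟨_, Set.inv_mem_inv.mpr hx, v, hv, rfl⟩, by group⟩
  have pq : p * q ∉ X := fun hx => hq5 ⟨p⁻¹, rfl, _, hx, by group⟩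
  have qp : q * p ∉ X := fun hx => hq6 ⟨_, hx, p⁻¹, rfl, by group⟩
  have pr : p * (q⁻¹ * (p⁻¹ * g)) ∉ X := fun hx => hq7
    ⟨p⁻¹ * g, rfl, (p * (q⁻¹ * (p⁻¹ * g)))⁻¹ * p, ⟨_, Set.inv_mem_inv.mpr hx, p, rfl, rfl⟩,
      by group⟩
  have rp : q⁻¹ * (p⁻¹ * g) * p ∉ X := fun hx => hq8
    ⟨p⁻¹ * g * p, rfl, (q⁻¹ * (p⁻¹ * g) * p)⁻¹, Set.inv_mem_inv.mpr hx, by group⟩
  have qr : q * (q⁻¹ * (p⁻¹ * g)) ∉ X := fun hx => hp3
    ⟨g, rfl, (q * (q⁻¹ * (p⁻¹ * g)))⁻¹, Set.inv_mem_inv.mpr hx, by group⟩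
  have rq : q⁻¹ * (p⁻¹ * g) * q ∉ X := fun hx => hq11 (Set.mem_biUnion hx rfl)
  have pp : p * p ∉ X := fun hx => hp4 (Set.mem_biUnion hx rfl)
  have qq : q * q ∉ X := fun hx => hq9 (Set.mem_biUnion hx rfl)
  have rr : q⁻¹ * (p⁻¹ * g) * (q⁻¹ * (p⁻¹ * g)) ∉ X := fun hx => hq10 (Set.mem_biUnion hx rfl)
  rintro u (rfl | rfl | rfl) v (hv | rfl | rfl | rfl)
  · exact ⟨ev1 hv hp1, ev2 hv hp2⟩
  · exact ⟨pp, pp⟩
  · exact ⟨pq, qp⟩
  · exact ⟨pr, rp⟩
  · exact ⟨ev1 hv hq1, ev2 hv hq2⟩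
  · exact ⟨qp, pq⟩
  · exact ⟨qq, qq⟩
  · exact ⟨qr, rq⟩
  · exact ⟨r1 v hv, r2 v hv⟩
  · exact ⟨rp, pr⟩
  · exact ⟨rq, qr⟩
  · exact ⟨rr, rr⟩

end Defs

section Seq

variable {G : Type*} [Group G]

theorem P_of_trip [Countable G] (h : Trip G) : P G := by
  classical
  obtain ⟨e, he⟩ := exists_surjective_nat G
  obtain ⟨g, hg, h⟩ := h
  let X : ℕ → Set G := fun n => {x | x ≠ 1 ∧ ∃ k ≤ n, e k = x}
  have hXf : ∀ n, (X n).Finite := fun n => by
    refine ((Set.finite_le_nat n).image e).subset ?_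
    rintro x ⟨_, k, hk, rfl⟩
    exact ⟨k, hk, rfl⟩
  have step : ∀ (n : ℕ) (O : {O : Set G // O.Finite}), ∃ E : {E : Set G // E.Finite},
      (∃ p ∈ E.1, ∃ q ∈ E.1, ∃ r ∈ E.1, p * q * r = g) ∧
      ∀ u ∈ E.1, ∀ v ∈ O.1 ∪ E.1, u * v ∉ X n ∧ v * u ∉ X n := by
    intro n O
    obtain ⟨p, q, r, hpqr, hE⟩ := h O.1 (X n) O.2 (hXf n) (fun h => h.1 rfl)
    exact ⟨⟨{p, q, r}, Set.toFinite _⟩, ⟨p, by simp, q, by simp, r, by simp, hpqr⟩, hE⟩
  choose f hf1 hf2 using step
  let O : ℕ → {O : Set G // O.Finite} := fun n => Nat.rec ⟨{1}, Set.finite_singleton 1⟩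
    (fun n o => ⟨o.1 ∪ (f n o).1, o.2.union (f n o).2⟩) n
  let E : ℕ → Set G := fun n => (f n (O n)).1
  have hOs : ∀ n, (O (n + 1)).1 = (O n).1 ∪ E n := fun n => rfl
  have hOmono : Monotone fun n => (O n).1 := monotone_nat_of_le_succ fun n => by
    show (O n).1 ⊆ (O (n + 1)).1
    rw [hOs]; exact Set.subset_union_left
  have h1O : ∀ n, (1 : G) ∈ (O n).1 := fun n => hOmono (Nat.zero_le n) (Set.mem_singleton _)
  have hEO : ∀ m n, m < n → E m ⊆ (O n).1 := fun m n hmn => by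
    refine Set.Subset.trans ?_ (hOmono (Nat.succ_le_of_lt hmn))
    show E m ⊆ (O (m + 1)).1
    rw [hOs]; exact Set.subset_union_right
  let A : ℕ → Set G := fun q => {1} ∪ ⋃ n ∈ {n | q ≤ n}, E n
  have hA1 : ∀ q, (1 : G) ∈ A q := fun q => Or.inl rfl
  have hanti : Antitone A := by
    intro m n hmn
    refine Set.union_subset_union_right _ ?_
    exact Set.biUnion_subset_biUnion_left fun k (hk : n ≤ k) => hmn.trans hk
  have hkey : ∀ x : G, x ≠ 1 → ∃ k, x ∉ A k * A k := by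
    intro x hx
    obtain ⟨k, rfl⟩ := he x
    refine ⟨k, ?_⟩
    have hXk : ∀ n, k ≤ n → e k ∈ X n := fun n hn => ⟨hx, k, hn, rfl⟩
    rintro ⟨u, hu, v, hv, huv⟩
    simp only at huv
    rcases hu with hu | hu <;> rcases hv with hv | hv
    · rw [Set.mem_singleton_iff] at hu hv
      apply hx
      rw [← huv, hu, hv, mul_one]
    · rw [Set.mem_singleton_iff] at hu
      obtain ⟨n, hn, hvn⟩ := Set.mem_iUnion₂.mp hv
      have := (hf2 n (O n) v hvn u (Or.inl (hu ▸ h1O n))).2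
      rw [huv] at this
      exact this (hXk n hn)
    · rw [Set.mem_singleton_iff] at hv
      obtain ⟨n, hn, hun⟩ := Set.mem_iUnion₂.mp hu
      have := (hf2 n (O n) u hun v (Or.inl (hv ▸ h1O n))).1
      rw [huv] at this
      exact this (hXk n hn)
    · obtain ⟨n, hn, hun⟩ := Set.mem_iUnion₂.mp hu
      obtain ⟨m, hm, hvm⟩ := Set.mem_iUnion₂.mp hv
      rcases lt_trichotomy m n with hmn | rfl | hmn
      · have := (hf2 n (O n) u hun v (Or.inl (hEO m n hmn hvm))).1
        rw [huv] at this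
        exact this (hXk n hn)
      · have := (hf2 m (O m) u hun v (Or.inr hvm)).1
        rw [huv] at this
        exact this (hXk m hn)
      · have := (hf2 m (O m) v hvm u (Or.inl (hEO n m hmn hun))).2
        rw [huv] at this
        exact this (hXk m hm)
  have hsq : ⋂ q, A q ^ 2 = {1} := by
    ext x
    rw [Set.mem_iInter, Set.mem_singleton_iff]
    constructor
    · intro hx
      by_contra hne
      obtain ⟨k, hk⟩ := hkey x hne
      exact hk (by rw [← sq]; exact hx k)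
    · rintro rfl q
      exact Set.one_mem_pow (hA1 q)
  have hint : ⋂ q, A q = {1} := by
    ext x
    rw [Set.mem_iInter, Set.mem_singleton_iff]
    constructor
    · intro hx
      have : x ∈ ⋂ q, A q ^ 2 := Set.mem_iInter.mpr fun q => by
        rw [sq]
        exact ⟨x, hx q, 1, hA1 q, mul_one x⟩
      rwa [hsq] at this
    · rintro rfl q
      exact hA1 q
  have hg3 : ∀ q, g ∈ A q ^ 3 := by
    intro q
    obtain ⟨a, ha, b, hb, c, hc, habc⟩ := hf1 q (O q)
    have hE : ∀ z ∈ E q, z ∈ A q := fun z hz => Or.inr (Set.mem_biUnion (le_refl q) hz)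
    rw [pow_succ, sq]
    exact ⟨a * b, ⟨a, hE a ha, b, hE b hb, rfl⟩, c, hE c hc, habc⟩
  refine ⟨A, hanti, ?_, ?_⟩
  · intro N
    by_contra hcon
    push Not at hcon
    have hconst : ∀ q, N ≤ q → A q = A N := by
      intro q hq
      induction q, hq using Nat.le_induction with
      | base => rfl
      | succ q hq ih => rw [hcon q hq, ih]
    have hAN : A N = {1} := by
      rw [← hint]
      refine Set.Subset.antisymm ?_ (Set.iInter_subset _ N)
      refine Set.subset_iInter fun q => ?_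
      rcases le_total N q with h | h
      · rw [hconst q h]
      · exact hanti h
    have := hg3 N
    rw [hAN] at this
    simp at this
    exact hg this
  · ext h
    rw [Set.mem_ofPred_eq, hint]
    constructor
    · rintro ⟨h1, h2⟩
      by_contra hne
      simp only [Set.mem_insert_iff, Set.mem_singleton_iff, not_or] at hne
      have h3 : 3 ≤ h := by omega
      have : g ∈ ⋂ q, A q ^ h := Set.mem_iInter.mpr fun q =>
        Set.pow_subset_pow_right (hA1 q) h3 (hg3 q)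
      rw [← h2] at this
      simp at this
      exact hg this
    · rintro (rfl | rfl)
      · refine ⟨le_rfl, ?_⟩
        simp only [pow_one]
        exact hint.symm
      · refine ⟨by norm_num, ?_⟩
        rw [hsq]
        simp

theorem P_of_injective {G₀ : Type*} [Group G₀] (φ : G₀ →* G) (hφ : Function.Injective φ)
    (h : P G₀) : P G := by
  obtain ⟨A, hA, hne, hH⟩ := h
  refine ⟨fun q => φ '' A q, fun m n hmn => Set.image_mono (hA hmn), ?_, ?_⟩
  · intro N
    obtain ⟨q, hq, hqne⟩ := hne N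
    exact ⟨q, hq, fun he => hqne (hφ.image_injective he)⟩
  · rw [← hH]
    ext h
    simp only [Set.mem_ofPred_eq]
    refine and_congr_right fun _ => ?_
    have e1 : ∀ B : ℕ → Set G₀, (⋂ q, φ '' B q) = φ '' (⋂ q, B q) := fun B =>
      (Set.InjOn.image_iInter_eq hφ.injOn).symm
    rw [e1, ← Set.image_pow]
    simp only [← Set.image_pow]
    rw [e1]
    exact hφ.image_injective.eq_iff

theorem P_of_surjective {G₀ : Type*} [Group G₀] (π : G →* G₀) (hπ : Function.Surjective π)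
    (h : P G₀) : P G := by
  obtain ⟨A, hA, hne, hH⟩ := h
  have hmul : ∀ S T : Set G₀, π ⁻¹' S * π ⁻¹' T = π ⁻¹' (S * T) := by
    intro S T
    ext x
    constructor
    · rintro ⟨u, hu, v, hv, rfl⟩
      exact ⟨π u, hu, π v, hv, (map_mul π u v).symm⟩
    · rintro ⟨s, hs, t, ht, hst⟩
      obtain ⟨u, rfl⟩ := hπ s
      refine ⟨u, hs, u⁻¹ * x, ?_, by simp⟩
      show π (u⁻¹ * x) ∈ T
      have hst' : π u * t = π x := hst
      rw [map_mul, map_inv, ← hst', inv_mul_cancel_left]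
      exact ht
  have hpow : ∀ (S : Set G₀) (h : ℕ), (π ⁻¹' S) ^ (h + 1) = π ⁻¹' (S ^ (h + 1)) := by
    intro S h
    induction h with
    | zero => simp
    | succ h ih => rw [pow_succ, ih, hmul, ← pow_succ]
  refine ⟨fun q => π ⁻¹' A q, fun m n hmn => Set.preimage_mono (hA hmn), ?_, ?_⟩
  · intro N
    obtain ⟨q, hq, hqne⟩ := hne N
    exact ⟨q, hq, fun he => hqne (hπ.preimage_injective he)⟩
  · rw [← hH]
    ext h
    simp only [Set.mem_ofPred_eq]
    refine and_congr_right fun h1 => ?_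
    obtain ⟨k, rfl⟩ := Nat.exists_eq_add_of_le' h1
    rw [← Set.preimage_iInter, hpow]
    simp only [hpow]
    rw [← Set.preimage_iInter]
    exact hπ.preimage_injective.eq_iff

end Seq

section Main

variable {G : Type*} [Group G]

theorem trip_of_icc [Infinite G]
    (hicc : ∀ c : G, c ≠ 1 → ¬ (Subgroup.centralizer {c}).FiniteIndex) : Trip G := by
  classical
  obtain ⟨g, hg⟩ := exists_ne (1 : G)
  have hone : ∀ (S : Set G) (x d : G), x ≠ 1 → (∀ q ∈ S, d⁻¹ * q ∈ Subgroup.centralizer {x}) →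
      ∃ s : Finset (Subgroup G × G), (∀ i ∈ s, ¬ i.1.FiniteIndex) ∧
        ∀ b ∈ S, ∃ i ∈ s, i.2⁻¹ * b ∈ i.1 := by
    intro S x d hx hS
    exact ⟨{(Subgroup.centralizer {x}, d)}, by
      intro i hi
      rw [Finset.mem_singleton] at hi
      subst hi
      exact hicc x hx, fun b hb => ⟨_, Finset.mem_singleton_self _, hS b hb⟩⟩
  refine trip_of g hg (fun S => ∃ s : Finset (Subgroup G × G), (∀ i ∈ s, ¬ i.1.FiniteIndex) ∧
    ∀ b ∈ S, ∃ i ∈ s, i.2⁻¹ * b ∈ i.1) ?_ ?_ ?_ ?_ ?_ ?_ ?_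
  · intro S hS
    refine ⟨hS.toFinset.image fun x => (⊥, x), ?_, ?_⟩
    · intro i hi
      obtain ⟨x, _, rfl⟩ := Finset.mem_image.mp hi
      intro hfi
      have h0 := hfi.index_ne_zero
      rw [Subgroup.index_bot] at h0
      exact h0 (Nat.card_eq_zero_of_infinite)
    · intro b hb
      exact ⟨(⊥, b), Finset.mem_image.mpr ⟨b, hS.mem_toFinset.mpr hb, rfl⟩, by simp⟩
  · rintro S T ⟨s, hs, hs'⟩ ⟨t, ht, ht'⟩
    refine ⟨s ∪ t, ?_, ?_⟩
    · intro i hi
      rcases Finset.mem_union.mp hi with h | h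
      · exact hs i h
      · exact ht i h
    · rintro b (hb | hb)
      · obtain ⟨i, hi, h⟩ := hs' b hb
        exact ⟨i, Finset.mem_union_left _ hi, h⟩
      · obtain ⟨i, hi, h⟩ := ht' b hb
        exact ⟨i, Finset.mem_union_right _ hi, h⟩
  · rintro S T hST ⟨s, hs, hs'⟩
    exact ⟨s, hs, fun b hb => hs' b (hST hb)⟩
  · rintro ⟨s, hs, hs'⟩
    obtain ⟨b, _, hb⟩ := exists_avoid s (fun i => i.1) (fun i => i.2) hs ∅
    obtain ⟨i, hi, h⟩ := hs' b trivial
    exact hb i hi h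
  · intro x hx
    refine hone _ x 1 hx ?_
    intro q hq
    have hq' : q * q = x := hq
    rw [Subgroup.mem_centralizer_singleton_iff, ← hq']
    group
  · intro x d hx
    refine hone _ x d hx ?_
    intro q hq
    have hq' : (q⁻¹ * d) * (q⁻¹ * d) = x := hq
    rw [Subgroup.mem_centralizer_singleton_iff, ← hq']
    group
  · intro x c hx _
    by_cases hne : ∃ q₀, q₀⁻¹ * c * q₀ = x
    · obtain ⟨q₀, hq₀⟩ := hne
      refine hone _ x q₀ hx ?_
      intro q hq
      have hq' : q⁻¹ * c * q = x := hq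
      rw [Subgroup.mem_centralizer_singleton_iff]
      have e1 : q₀⁻¹ * q * x = q₀⁻¹ * c * q := by rw [← hq']; group
      have e2 : x * (q₀⁻¹ * q) = q₀⁻¹ * c * q := by rw [← hq₀]; group
      rw [e1, e2]
    · refine hone _ x 1 hx ?_
      intro q hq
      exact absurd ⟨q, hq⟩ hne

theorem trip_of_comm [Infinite G] (hc : ∀ x y : G, x * y = y * x)
    (h2 : ∀ x : G, x ≠ 1 → {y : G | y * y = x}.Finite) : Trip G := by
  obtain ⟨g, hg⟩ := exists_ne (1 : G)
  refine trip_of g hg Set.Finite (fun S hS => hS) (fun S T hS hT => hS.union hT)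
    (fun S T hST hT => hT.subset hST) Set.infinite_univ h2 ?_ ?_
  · intro x d hx
    refine ((h2 x hx).image fun y => d * y⁻¹).subset ?_
    intro q hq
    exact ⟨q⁻¹ * d, hq, by simp⟩
  · intro x c hx hcx
    refine Set.finite_empty.subset ?_
    intro q hq
    apply hcx
    have hq' : q⁻¹ * c * q = x := hq
    rw [← hq', hc q⁻¹ c]
    group

theorem P_of_comm [Countable G] [Infinite G] (hc : ∀ x y : G, x * y = y * x) : P G := by
  by_cases h2 : {x : G | x * x = 1}.Finite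
  · refine P_of_trip (trip_of_comm hc ?_)
    intro x _
    by_cases hne : ∃ b₀ : G, b₀ * b₀ = x
    · obtain ⟨b₀, hb₀⟩ := hne
      refine (h2.image (fun y => y * b₀)).subset ?_
      intro b hb
      have hb' : b * b = x := hb
      refine ⟨b * b₀⁻¹, ?_, by simp⟩
      show b * b₀⁻¹ * (b * b₀⁻¹) = 1
      calc b * b₀⁻¹ * (b * b₀⁻¹) = b * (b₀⁻¹ * b) * b₀⁻¹ := by simp only [mul_assoc]
        _ = b * (b * b₀⁻¹) * b₀⁻¹ := by rw [hc b₀⁻¹ b]
        _ = (b * b) * b₀⁻¹ * b₀⁻¹ := by simp only [mul_assoc]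
        _ = 1 := by rw [hb', ← hb₀]; simp
    · exact Set.finite_empty.subset fun b hb => hne ⟨b, hb⟩
  · let H : Subgroup G :=
      { carrier := {x | x * x = 1}
        one_mem' := by simp
        mul_mem' := by
          intro a b ha hb
          have ha' : a * a = 1 := ha
          have hb' : b * b = 1 := hb
          show a * b * (a * b) = 1
          calc a * b * (a * b) = a * (b * a) * b := by simp only [mul_assoc]
            _ = a * (a * b) * b := by rw [hc b a]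
            _ = (a * a) * (b * b) := by simp only [mul_assoc]
            _ = 1 := by rw [ha', hb', one_mul]
        inv_mem' := by
          intro a ha
          have ha' : a * a = 1 := ha
          show a⁻¹ * a⁻¹ = 1
          rw [← mul_inv_rev, ha', inv_one] }
    have : Infinite H := Set.infinite_coe_iff.mpr h2
    refine P_of_injective H.subtype H.subtype_injective (P_of_trip (trip_of_comm
      (fun x y => Subtype.ext (hc x y)) ?_))
    intro x hx
    refine Set.finite_empty.subset ?_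
    intro y hy
    apply hx
    have hy' : y * y = x := hy
    rw [← hy']
    exact Subtype.ext y.2

theorem P_of_countable [Countable G] [Infinite G] : P G := by
  rcases finite_or_infinite (fc G) with hf | hi
  · have hq : Infinite (G ⧸ fc G) := by
      by_contra hnot
      rw [not_infinite_iff_finite] at hnot
      have h4 := (fc G).card_mul_index
      have h5 : (fc G).index ≠ 0 := by
        rw [Subgroup.index]; exact Nat.card_pos.ne'
      have h6 : Nat.card (fc G) ≠ 0 := Nat.card_pos.ne'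
      have h7 : Nat.card G ≠ 0 := by
        rw [← h4]; exact Nat.mul_ne_zero h6 h5
      have := Nat.finite_of_card_ne_zero h7
      exact not_finite G
    have : Countable (G ⧸ fc G) := (QuotientGroup.mk_surjective (s := fc G)).countable
    exact P_of_surjective (QuotientGroup.mk' (fc G)) (QuotientGroup.mk'_surjective _)
      (P_of_trip (trip_of_icc fun y hy => icc_quotient hy))
  · obtain ⟨H, hH, hHc⟩ := exists_infinite_comm (G := G)
    exact P_of_injective H.subtype H.subtype_injective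
      (P_of_comm fun x y => Subtype.ext (hHc x x.2 y y.2))

theorem main [Infinite G] : P G := by
  let f := Infinite.natEmbedding G
  let H : Subgroup G := (FreeGroup.lift f).range
  have hF : Countable (FreeGroup ℕ) :=
    (Quot.mk_surjective (r := @FreeGroup.Red.Step ℕ)).countable
  have hcount : Countable H := (MonoidHom.rangeRestrict_surjective (FreeGroup.lift f)).countable
  have hinf : Infinite H := Set.infinite_coe_iff.mpr
    ((Set.infinite_range_of_injective f.injective).mono (by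
      rintro _ ⟨n, rfl⟩
      exact ⟨FreeGroup.of n, by simp⟩))
  exact P_of_injective H.subtype H.subtype_injective P_of_countable

end Main

end Q22.ProdInter
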