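import Mathlib

/-! Semidirect products of a module by a group, and subnormality of cyclic subgroups. -/

namespace Q22

open Subgroup

section Chain

variable {G : Type*} [Group G]

/-- Subnormality from a descending chain `A i` with `[A i, H] ≤ A (i + 1)`. -/
theorem isSubnormal_of_chain (H : Subgroup G) (A : ℕ → Subgroup G) (n : ℕ)
    (hle : ∀ i, A (i + 1) ≤ A i)
    (hcomm : ∀ i, ∀ a ∈ A i, ∀ h ∈ H, a * h * a⁻¹ * h⁻¹ ∈ A (i + 1))
    (hnorm : ∀ i, ∀ a ∈ A i, ∀ b ∈ A (i + 1), a * b * a⁻¹ ∈ A (i + 1))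
    (h0 : (A 0 ⊔ H).IsSubnormal) (hn : A n ≤ H) : H.IsSubnormal := by
  have hHnorm : ∀ i, ∀ h ∈ H, ∀ a ∈ A i, h * a * h⁻¹ ∈ A i := by
    intro i h hh a ha
    have h1 := hle i (hcomm i a⁻¹ ((A i).inv_mem ha) h hh)
    have h2 : h * a * h⁻¹ = a * (a⁻¹ * h * a⁻¹⁻¹ * h⁻¹) := by group
    rw [h2]
    exact (A i).mul_mem ha h1
  have hstep : ∀ i, ((A (i + 1) ⊔ H).subgroupOf (A i ⊔ H)).Normal := by
    intro i
    rw [normal_subgroupOf_iff_le_normalizer (sup_le_sup_right (hle i) H)]
    refine sup_le ?_ (le_trans le_sup_right le_normalizer)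
    have key : ∀ a ∈ A i, ∀ x ∈ A (i + 1) ⊔ H, a * x * a⁻¹ ∈ A (i + 1) ⊔ H := by
      intro a ha x hx
      have : (A (i + 1) ⊔ H) ≤ (A (i + 1) ⊔ H).comap (MulAut.conj a).toMonoidHom := by
        refine sup_le ?_ ?_
        · intro b hb
          exact mem_sup_left (hnorm i a ha b hb)
        · intro h hh
          show a * h * a⁻¹ ∈ A (i + 1) ⊔ H
          have h2 : a * h * a⁻¹ = (a * h * a⁻¹ * h⁻¹) * h := by group
          rw [h2]
          exact mul_mem (mem_sup_left (hcomm i a ha h hh)) (mem_sup_right hh)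
      exact this hx
    intro a ha
    rw [mem_set_normalizer_iff]
    intro x
    refine ⟨key a ha x, fun h => ?_⟩
    have h1 := key a⁻¹ ((A i).inv_mem ha) _ h
    have h2 : a⁻¹ * (a * x * a⁻¹) * a⁻¹⁻¹ = x := by group
    rwa [h2] at h1
  have hall : ∀ i, (A i ⊔ H).IsSubnormal := by
    intro i
    induction i with
    | zero => exact h0
    | succ i ih => exact IsSubnormal.step _ _ (sup_le_sup_right (hle i) H) ih (hstep i)
  have := hall n
  rwa [sup_eq_right.mpr hn] at this

/-- Subgroups of nilpotent groups are subnormal. -/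
theorem isSubnormal_of_isNilpotent [hG : Group.IsNilpotent G] (H : Subgroup G) :
    H.IsSubnormal := by
  obtain ⟨n, hn⟩ := Subgroup.nilpotent_iff_lowerCentralSeries.mp hG
  refine isSubnormal_of_chain H (fun i => (⊤ : Subgroup G).lowerCentralSeries i) n ?_ ?_ ?_ ?_ ?_
  · intro i
    exact Subgroup.lowerCentralSeries_antitone _ (Nat.le_succ i)
  · intro i a ha h _
    exact subset_closure ⟨a, ha, h, mem_top h, rfl⟩
  · intro i a _ b hb
    exact (inferInstance : ((⊤ : Subgroup G).lowerCentralSeries (i + 1)).Normal).conj_mem b hb a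
  · have : (⊤ : Subgroup G).lowerCentralSeries 0 = ⊤ := rfl
    rw [this, top_sup_eq]
    exact IsSubnormal.top
  · show (⊤ : Subgroup G).lowerCentralSeries n ≤ H
    rw [hn]; exact bot_le

/-- An element of a nilpotent normal subgroup generates a subnormal subgroup. -/
theorem zpowers_isSubnormal_of_mem {N : Subgroup G} (hN : N.Normal) (hnil : Group.IsNilpotent N)
    {g : G} (hg : g ∈ N) : (zpowers g).IsSubnormal := by
  have hle : zpowers g ≤ N := (zpowers_le).mpr hg
  exact IsSubnormal.trans hle (isSubnormal_of_isNilpotent _) hN.isSubnormal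

end Chain

/-- The semidirect product of a module by a group. -/
@[ext]
structure SD (V M : Type*) where
  /-- the module part -/
  v : V
  /-- the group part -/
  m : M

namespace SD

variable {V M : Type*} [AddCommGroup V] [Group M] [DistribMulAction M V]

instance : Mul (SD V M) := ⟨fun a b => ⟨a.v + a.m • b.v, a.m * b.m⟩⟩
instance : One (SD V M) := ⟨⟨0, 1⟩⟩
instance : Inv (SD V M) := ⟨fun a => ⟨-(a.m⁻¹ • a.v), a.m⁻¹⟩⟩

@[simp] theorem mul_v (a b : SD V M) : (a * b).v = a.v + a.m • b.v := rfl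
@[simp] theorem mul_m (a b : SD V M) : (a * b).m = a.m * b.m := rfl
@[simp] theorem one_v : (1 : SD V M).v = 0 := rfl
@[simp] theorem one_m : (1 : SD V M).m = 1 := rfl
@[simp] theorem inv_v (a : SD V M) : (a⁻¹).v = -(a.m⁻¹ • a.v) := rfl
@[simp] theorem inv_m (a : SD V M) : (a⁻¹).m = a.m⁻¹ := rfl

instance : Group (SD V M) where
  mul_assoc a b c := by
    ext
    · simp [mul_smul, smul_add, add_assoc]
    · simp [mul_assoc]
  one_mul a := by ext <;> simp
  mul_one a := by ext <;> simp
  inv_mul_cancel a := by ext <;> simp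

/-- The projection. -/
def π : SD V M →* M where
  toFun := SD.m
  map_one' := rfl
  map_mul' _ _ := rfl

/-- The embedding of the group. -/
def ι : M →* SD V M where
  toFun m := ⟨0, m⟩
  map_one' := rfl
  map_mul' a b := by ext <;> simp

/-- The elements of the module. -/
def el (u : V) : SD V M := ⟨u, 1⟩

theorem el_add (u w : V) : (el (u + w) : SD V M) = el u * el w := by
  ext <;> simp [el]

theorem el_zero : (el 0 : SD V M) = 1 := rfl

theorem el_neg (u : V) : (el (-u) : SD V M) = (el u)⁻¹ := by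
  ext <;> simp [el]

theorem comm_el (g : SD V M) (u : V) : g * el u * g⁻¹ * (el u)⁻¹ = el (g.m • u - u) := by
  ext
  · simp [el, sub_eq_add_neg]
  · simp [el]

theorem decomp (g : SD V M) : g = el g.v * ι g.m := by
  ext <;> simp [el, ι]

/-- The subgroup of the module elements lying in an additive subgroup. -/
def ofAdd (U : AddSubgroup V) : Subgroup (SD V M) where
  carrier := {g | g.m = 1 ∧ g.v ∈ U}
  one_mem' := ⟨rfl, U.zero_mem⟩
  mul_mem' := by
    rintro a b ⟨ha, ha'⟩ ⟨hb, hb'⟩
    refine ⟨by simp [ha, hb], ?_⟩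
    rw [mul_v, ha, one_smul]
    exact U.add_mem ha' hb'
  inv_mem' := by
    rintro a ⟨ha, ha'⟩
    refine ⟨by simp [ha], ?_⟩
    rw [inv_v, ha, inv_one, one_smul]
    exact U.neg_mem ha'

/-- If `m` has `2`-power order, `V` has exponent two and `⟨m⟩` is subnormal in `M` then the cyclic
subgroup generated by `(v, m)` is subnormal. -/
theorem zpowers_isSubnormal (hV : ∀ v : V, v + v = 0) (g : SD V M) (k : ℕ)
    (hk : g.m ^ 2 ^ k = 1) (hsub : (zpowers g.m).IsSubnormal) : (zpowers g).IsSubnormal := by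
  set m := g.m with hm
  -- the operator `m - 1`
  let D : V →+ V :=
    { toFun := fun v => m • v - v
      map_zero' := by simp
      map_add' := fun x y => by rw [smul_add]; abel }
  have hD : ∀ v, D v = m • v - v := fun v => rfl
  have hneg : ∀ v : V, -v = v := fun v => neg_eq_of_add_eq_zero_left (hV v)
  let E : ℕ → (V →+ V) := fun n => Nat.rec (AddMonoidHom.id V) (fun _ f => D.comp f) n
  have hE0' : ∀ v, E 0 v = v := fun v => rfl
  have hEs : ∀ n v, E (n + 1) v = D (E n v) := fun n v => rfl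
  have hEadd : ∀ a b v, E (a + b) v = E a (E b v) := by
    intro a
    induction a with
    | zero => intro b v; rw [Nat.zero_add, hE0']
    | succ a ih => intro b v; rw [Nat.succ_add, hEs, hEs, ih]
  -- `D ^ (2 ^ j) = m ^ (2 ^ j) - 1`
  have hE : ∀ j : ℕ, ∀ v, E (2 ^ j) v = m ^ 2 ^ j • v - v := by
    intro j
    induction j with
    | zero => intro v; rw [pow_zero, pow_one]; rfl
    | succ j ih =>
      intro v
      have h1 : E (2 ^ (j + 1)) v = E (2 ^ j) (E (2 ^ j) v) := by
        rw [pow_succ, mul_two, hEadd]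
      rw [h1, ih, ih, smul_sub, pow_succ, mul_two, pow_add, mul_smul]
      have h2 : m ^ 2 ^ j • v + m ^ 2 ^ j • v = 0 := hV _
      have : m ^ 2 ^ j • m ^ 2 ^ j • v - m ^ 2 ^ j • v - (m ^ 2 ^ j • v - v) =
        m ^ 2 ^ j • m ^ 2 ^ j • v - (m ^ 2 ^ j • v + m ^ 2 ^ j • v) + v := by abel
      rw [this, h2, sub_zero, sub_eq_add_neg, hneg]
  have hE0 : ∀ v, E (2 ^ k) v = 0 := by
    intro v; rw [hE, hk, one_smul, sub_self]
  let U : ℕ → AddSubgroup V := fun i => (E i).range
  have hcm : ∀ (r : ℕ) (s : ℕ) (w : V), m ^ r • E s w = E s (m ^ r • w) := by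
    intro r s
    induction s with
    | zero => intro w; rfl
    | succ s ihs =>
      intro w
      rw [hEs, hEs, ← ihs, hD, hD, smul_sub, ← mul_smul, ← mul_smul, ← pow_succ, ← pow_succ']
  -- commutators with powers of `m`
  have hcomm : ∀ i, ∀ u ∈ U i, ∀ j : ℤ, u - m ^ j • u ∈ U (i + 1) := by
    intro i u hu j
    have hpos : ∀ n : ℕ, ∀ u ∈ U i, u - m ^ n • u ∈ U (i + 1) := by
      intro n
      induction n with
      | zero =>
        intro u _
        rw [pow_zero, one_smul, sub_self]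
        exact AddSubgroup.zero_mem _
      | succ n ih =>
        intro u hu
        have h1 := ih u hu
        have h2 : u - m ^ (n + 1) • u = (u - m ^ n • u) - m ^ n • (m • u - u) := by
          rw [smul_sub, pow_succ, mul_smul]; abel
        rw [h2]
        refine AddSubgroup.sub_mem _ h1 ?_
        obtain ⟨w, rfl⟩ := hu
        refine ⟨m ^ n • w, ?_⟩
        rw [hEs, ← hcm, hD, smul_sub, ← mul_smul, ← mul_smul, ← pow_succ, ← pow_succ']
    -- reduce integer exponents to natural ones, as `m` has finite order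
    obtain ⟨n, hn⟩ : ∃ n : ℕ, m ^ j = m ^ n := by
      refine ⟨(j % (2 ^ k : ℕ)).toNat, ?_⟩
      have h0 : (0 : ℤ) < ((2 ^ k : ℕ) : ℤ) := by positivity
      have h1 : ((j % (2 ^ k : ℕ)).toNat : ℤ) = j % (2 ^ k : ℕ) :=
        Int.toNat_of_nonneg (Int.emod_nonneg _ h0.ne')
      rw [← zpow_natCast m (j % (2 ^ k : ℕ)).toNat, h1]
      conv_lhs => rw [← Int.emod_add_mul_ediv j (2 ^ k : ℕ)]
      rw [zpow_add, zpow_mul, zpow_natCast, hk, one_zpow, mul_one]
    rw [hn]
    exact hpos n u hu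
  have hmono : ∀ i, U (i + 1) ≤ U i := by
    rintro i _ ⟨w, rfl⟩
    refine ⟨D w, ?_⟩
    have h1 := hEadd i 1 w
    rw [h1]; rfl
  have hpow : ∀ h ∈ zpowers g, ∃ j : ℤ, h.m = m ^ j := by
    rintro _ ⟨j, rfl⟩
    exact ⟨j, by rw [hm]; exact map_zpow (π : SD V M →* M) g j⟩
  refine isSubnormal_of_chain (zpowers g) (fun i => ofAdd (U i)) (2 ^ k) ?_ ?_ ?_ ?_ ?_
  · rintro i a ⟨h1, h2⟩
    exact ⟨h1, hmono i h2⟩
  · rintro i a ⟨h1, h2⟩ h hh
    obtain ⟨j, hj⟩ := hpow h hh
    refine ⟨by simp [h1], ?_⟩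
    have e : (a * h * a⁻¹ * h⁻¹).v = a.v - m ^ j • a.v := by
      simp only [mul_v, mul_m, inv_v, inv_m, h1, hj, one_smul, inv_one, mul_one, one_mul,
        smul_neg, smul_inv_smul]
      abel
    rw [e]
    exact hcomm i _ h2 j
  · rintro i a ⟨h1, h2⟩ b ⟨h3, h4⟩
    refine ⟨by simp [h1, h3], ?_⟩
    have e : (a * b * a⁻¹).v = b.v := by
      simp [h1, h3]
    rw [e]
    exact h4
  · have h1 : ofAdd (U 0) ⊔ zpowers g = (zpowers m).comap (π : SD V M →* M) := by
      apply le_antisymm
      · refine sup_le ?_ ?_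
        · rintro a ⟨h1, _⟩
          rw [mem_comap]
          show a.m ∈ zpowers m
          rw [h1]; exact one_mem _
        · rw [zpowers_le, mem_comap]
          exact mem_zpowers m
      · intro a ha
        obtain ⟨j, hj⟩ := mem_comap.mp ha
        have hj' : m ^ j = a.m := hj
        have h2 : a = (a * (g ^ j)⁻¹) * g ^ j := by group
        rw [h2]
        refine mul_mem (mem_sup_left ⟨?_, ?_⟩) (mem_sup_right (zpow_mem (mem_zpowers g) j))
        · rw [mul_m, inv_m]
          have : (g ^ j).m = m ^ j := by rw [hm]; exact map_zpow (π : SD V M →* M) g j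
          rw [this, hj', mul_inv_cancel]
        · exact ⟨_, rfl⟩
    show (ofAdd (U 0) ⊔ zpowers g).IsSubnormal
    rw [h1]
    exact IsSubnormal.comap _ hsub
  · rintro a ⟨h1, w, hw⟩
    have : a = 1 := by
      ext
      · rw [← hw]
        exact hE0 w
      · exact h1
    rw [this]
    exact one_mem _

end SD

end Q22
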