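import Mathlib

/-! Shearer's inequality for projections of finite sets and for sumsets. -/

namespace Q22.Shearer

open Finset

section Holder

theorem holder {α κ : Type*} (V : Finset α) (J : Finset κ) (hJ : J.Nonempty) (x : κ → α → ℝ)
    (hx : ∀ j ∈ J, ∀ a ∈ V, 0 ≤ x j a) (hpos : ∀ j ∈ J, 0 < ∑ a ∈ V, x j a) :
    ∑ a ∈ V, ∏ j ∈ J, (x j a) ^ ((1 : ℝ) / J.card) ≤
      ∏ j ∈ J, (∑ a ∈ V, x j a) ^ ((1 : ℝ) / J.card) := by
  have hk : (0 : ℝ) < J.card := by exact_mod_cast hJ.card_pos
  set P := ∏ j ∈ J, (∑ a ∈ V, x j a) ^ ((1 : ℝ) / J.card) with hP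
  have hPpos : 0 < P := Finset.prod_pos fun j hj => Real.rpow_pos_of_pos (hpos j hj) _
  have h1 : ∀ a ∈ V, ∏ j ∈ J, (x j a) ^ ((1 : ℝ) / J.card) ≤
      P * ∑ j ∈ J, ((1 : ℝ) / J.card) * (x j a / ∑ b ∈ V, x j b) := by
    intro a ha
    have h2 := Real.geom_mean_le_arith_mean_weighted J (fun _ => (1 : ℝ) / J.card)
      (fun j => x j a / ∑ b ∈ V, x j b) (fun _ _ => by positivity)
      (by rw [Finset.sum_const, nsmul_eq_mul]; field_simp)
      (fun j hj => div_nonneg (hx j hj a ha) (hpos j hj).le)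
    have h3 : ∏ j ∈ J, (x j a) ^ ((1 : ℝ) / J.card) =
        P * ∏ j ∈ J, (x j a / ∑ b ∈ V, x j b) ^ ((1 : ℝ) / J.card) := by
      rw [hP, ← Finset.prod_mul_distrib]
      refine Finset.prod_congr rfl fun j hj => ?_
      rw [Real.div_rpow (hx j hj a ha) (hpos j hj).le]
      have := (Real.rpow_pos_of_pos (hpos j hj) ((1 : ℝ) / J.card)).ne'
      field_simp
    rw [h3]
    exact mul_le_mul_of_nonneg_left h2 hPpos.le
  refine (Finset.sum_le_sum h1).trans ?_
  rw [← Finset.mul_sum, Finset.sum_comm]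
  have h4 : ∑ j ∈ J, ∑ a ∈ V, ((1 : ℝ) / J.card) * (x j a / ∑ b ∈ V, x j b) = 1 := by
    have : ∀ j ∈ J, ∑ a ∈ V, ((1 : ℝ) / J.card) * (x j a / ∑ b ∈ V, x j b) =
        (1 : ℝ) / J.card := by
      intro j hj
      rw [← Finset.mul_sum, ← Finset.sum_div, div_self (hpos j hj).ne', mul_one]
    rw [Finset.sum_congr rfl this, Finset.sum_const, nsmul_eq_mul]
    field_simp
  rw [h4, mul_one]

end Holder

section Proj

variable {ι X : Type*} [DecidableEq ι] [DecidableEq X]

/-- Restriction of a tuple to `U`. -/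
def res (U : Finset ι) (d : ι → X) : ι → Option X := fun i => if i ∈ U then some (d i) else none

theorem res_eq_iff {U : Finset ι} {d e : ι → X} : res U d = res U e ↔ ∀ i ∈ U, d i = e i := by
  constructor
  · intro h i hi
    have := congrFun h i
    simpa [res, hi] using this
  · intro h
    funext i
    by_cases hi : i ∈ U
    · simp [res, hi, h i hi]
    · simp [res, hi]

variable [Fintype ι]

/-- The number of restrictions to `U` of members of `D`. -/
def N (D : Finset (ι → X)) (U : Finset ι) : ℕ := (D.image (res U)).card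

omit [DecidableEq X] in
theorem card_image_eq_of_ker {A B C : Type*} [DecidableEq B] [DecidableEq C] (D : Finset A)
    (f : A → B) (g : A → C) (h : ∀ d ∈ D, ∀ e ∈ D, f d = f e ↔ g d = g e) :
    (D.image f).card = (D.image g).card := by
  classical
  refine Finset.card_bij' (fun b hb => g (Finset.mem_image.mp hb).choose)
    (fun c hc => f (Finset.mem_image.mp hc).choose) ?_ ?_ ?_ ?_
  · intro b hb
    exact Finset.mem_image_of_mem g (Finset.mem_image.mp hb).choose_spec.1
  · intro c hc
    exact Finset.mem_image_of_mem f (Finset.mem_image.mp hc).choose_spec.1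
  · intro b hb
    have h1 := (Finset.mem_image.mp hb).choose_spec
    set d := (Finset.mem_image.mp hb).choose with hd
    have hc : g d ∈ D.image g := Finset.mem_image_of_mem g h1.1
    have h2 := (Finset.mem_image.mp hc).choose_spec
    show f (Finset.mem_image.mp hc).choose = b
    rw [← h1.2]
    exact (h _ h2.1 _ h1.1).mpr h2.2
  · intro c hc
    have h1 := (Finset.mem_image.mp hc).choose_spec
    set d := (Finset.mem_image.mp hc).choose with hd
    have hb : f d ∈ D.image f := Finset.mem_image_of_mem f h1.1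
    have h2 := (Finset.mem_image.mp hb).choose_spec
    show g (Finset.mem_image.mp hb).choose = c
    rw [← h1.2]
    exact (h _ h2.1 _ h1.1).mp h2.2

theorem N_insert (D : Finset (ι → X)) (n : ι) (U : Finset ι) :
    N D (insert n U) = ∑ a ∈ D.image (fun d => d n), N (D.filter fun d => d n = a) U := by
  classical
  have h1 : N D (insert n U) = (D.image fun d => (d n, res U d)).card := by
    refine card_image_eq_of_ker D _ _ fun d _ e _ => ?_
    rw [res_eq_iff, Prod.mk.injEq, res_eq_iff]
    simp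
  rw [h1, Finset.card_eq_sum_card_fiberwise (f := Prod.fst) (t := D.image (fun d => d n))]
  · refine Finset.sum_congr rfl fun a _ => ?_
    have h2 : (Finset.filter (fun x => x.1 = a) (D.image fun d => (d n, res U d))) =
        ((D.filter fun d => d n = a).image (res U)).image (fun y => (a, y)) := by
      ext ⟨b, y⟩
      simp only [Finset.mem_filter, Finset.mem_image, Prod.mk.injEq]
      constructor
      · rintro ⟨⟨d, hd, rfl, rfl⟩, rfl⟩
        exact ⟨_, ⟨d, ⟨hd, rfl⟩, rfl⟩, rfl, rfl⟩
      · rintro ⟨_, ⟨d, ⟨hd, rfl⟩, rfl⟩, rfl, rfl⟩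
        exact ⟨⟨d, hd, rfl, rfl⟩, rfl⟩
    rw [h2, Finset.card_image_of_injective _ (Prod.mk_right_injective a)]
    rfl
  · intro x hx
    obtain ⟨d, hd, rfl⟩ := Finset.mem_image.mp (Finset.mem_coe.mp hx)
    exact Finset.mem_coe.mpr (Finset.mem_image_of_mem _ hd)

theorem N_mono {D E : Finset (ι → X)} (h : D ⊆ E) (U : Finset ι) : N D U ≤ N E U :=
  Finset.card_le_card (Finset.image_subset_image h)

theorem N_pos {D : Finset (ι → X)} (h : D.Nonempty) (U : Finset ι) : 0 < N D U :=
  (h.image _).card_pos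

/-- Shearer's inequality, for exact covers. -/
theorem shearer {κ : Type*} (s : Finset κ) (S : κ → Finset ι) (k : ℕ) (hk : 0 < k)
    (T : Finset ι) :
    (∀ i ∈ T, (s.filter fun j => i ∈ S j).card = k) → ∀ D : Finset (ι → X), D.Nonempty →
    (N D T : ℝ) ≤ ∏ j ∈ s, (N D (S j ∩ T) : ℝ) ^ ((1 : ℝ) / k) := by
  classical
  induction T using Finset.induction_on with
  | empty =>
    intro _ D hD
    have h1 : ∀ U : Finset ι, U = ∅ → N D U = 1 := by
      rintro U rfl
      rw [N, Finset.card_eq_one]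
      obtain ⟨d, hd⟩ := hD
      refine ⟨res ∅ d, ?_⟩
      ext y
      simp only [Finset.mem_image, Finset.mem_singleton]
      constructor
      · rintro ⟨e, _, rfl⟩
        rw [res_eq_iff]; simp
      · rintro rfl
        exact ⟨d, hd, rfl⟩
    rw [h1 _ rfl]
    have h2 : ∀ j ∈ s, (N D (S j ∩ ∅) : ℝ) ^ ((1 : ℝ) / k) = 1 := fun j _ => by
      rw [h1 _ (Finset.inter_empty _)]; simp
    rw [Finset.prod_congr rfl h2]
    simp
  | @insert n T hn ih =>
    intro hcov D hD
    have hcov' : ∀ i ∈ T, (s.filter fun j => i ∈ S j).card = k := fun i hi =>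
      hcov i (Finset.mem_insert_of_mem hi)
    set J := s.filter fun j => n ∈ S j with hJ
    have hJk : J.card = k := hcov n (Finset.mem_insert_self n T)
    set V := D.image (fun d => d n) with hV
    let Da : X → Finset (ι → X) := fun a => D.filter fun d => d n = a
    have hDa : ∀ a ∈ V, (Da a).Nonempty := by
      intro a ha
      obtain ⟨d, hd, rfl⟩ := Finset.mem_image.mp ha
      exact ⟨d, Finset.mem_filter.mpr ⟨hd, rfl⟩⟩
    have hprod : ∀ f : κ → ℝ, ∏ j ∈ s, f j = (∏ j ∈ s.filter (fun j => ¬ n ∈ S j), f j) *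
        ∏ j ∈ J, f j := by
      intro f
      rw [hJ, mul_comm, Finset.prod_filter_mul_prod_filter_not]
    -- the left side
    rw [N_insert, Nat.cast_sum]
    calc ∑ a ∈ V, (N (Da a) T : ℝ)
        ≤ ∑ a ∈ V, ∏ j ∈ s, (N (Da a) (S j ∩ T) : ℝ) ^ ((1 : ℝ) / k) :=
          Finset.sum_le_sum fun a ha => ih hcov' (Da a) (hDa a ha)
      _ ≤ ∑ a ∈ V, (∏ j ∈ s.filter (fun j => ¬ n ∈ S j),
            (N D (S j ∩ insert n T) : ℝ) ^ ((1 : ℝ) / k)) *
            ∏ j ∈ J, (N (Da a) (S j ∩ T) : ℝ) ^ ((1 : ℝ) / J.card) := by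
          refine Finset.sum_le_sum fun a _ => ?_
          rw [hprod, hJk]
          refine mul_le_mul_of_nonneg_right ?_ (Finset.prod_nonneg fun j _ => by positivity)
          refine Finset.prod_le_prod (fun j _ => by positivity) fun j hj => ?_
          have hnj : n ∉ S j := (Finset.mem_filter.mp hj).2
          have he : S j ∩ insert n T = S j ∩ T := Finset.inter_insert_of_notMem hnj
          rw [he]
          refine Real.rpow_le_rpow (by positivity) ?_ (by positivity)
          exact_mod_cast N_mono (Finset.filter_subset _ _) _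
      _ = (∏ j ∈ s.filter (fun j => ¬ n ∈ S j),
            (N D (S j ∩ insert n T) : ℝ) ^ ((1 : ℝ) / k)) *
            ∑ a ∈ V, ∏ j ∈ J, (N (Da a) (S j ∩ T) : ℝ) ^ ((1 : ℝ) / J.card) := by
          rw [Finset.mul_sum]
      _ ≤ (∏ j ∈ s.filter (fun j => ¬ n ∈ S j),
            (N D (S j ∩ insert n T) : ℝ) ^ ((1 : ℝ) / k)) *
            ∏ j ∈ J, (∑ a ∈ V, (N (Da a) (S j ∩ T) : ℝ)) ^ ((1 : ℝ) / J.card) := by
          refine mul_le_mul_of_nonneg_left ?_ (Finset.prod_nonneg fun j _ => by positivity)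
          refine holder V J (Finset.card_pos.mp (by rw [hJk]; exact hk))
            (fun j a => (N (Da a) (S j ∩ T) : ℝ)) (fun _ _ _ _ => by positivity) ?_
          intro j _
          refine Finset.sum_pos (fun a ha => ?_) (hD.image _)
          exact_mod_cast N_pos (hDa a ha) _
      _ = ∏ j ∈ s, (N D (S j ∩ insert n T) : ℝ) ^ ((1 : ℝ) / k) := by
          rw [hprod (fun j => (N D (S j ∩ insert n T) : ℝ) ^ ((1 : ℝ) / k)), hJk]
          congr 1
          refine Finset.prod_congr rfl fun j hj => ?_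
          have hnj : n ∈ S j := (Finset.mem_filter.mp hj).2
          rw [Finset.inter_insert_of_mem hnj, N_insert, Nat.cast_sum]

end Proj

section Sumset

variable {ι A : Type*} [Fintype ι] [DecidableEq ι] [AddCommGroup A] [DecidableEq A]

/-- The sumset of the `B i`, `i ∈ U` (all `B i` nonempty). -/
def S (B : ι → Finset A) (U : Finset ι) : Finset A :=
  (Fintype.piFinset B).image fun d => ∑ i ∈ U, d i

/-- A weight on tuples with values in an ordered group. -/
theorem exists_weight (B : ι → Finset A) : ∃ (M : Type) (_ : AddCommGroup M) (_ : LinearOrder M)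
    (_ : IsOrderedCancelAddMonoid M) (W : (ι → A) → M),
    (∀ d e d' e' : ι → A, (∀ i, (d' i = d i ∧ e' i = e i) ∨ (d' i = e i ∧ e' i = d i)) →
      W d' + W e' = W d + W e) ∧
    ∀ d ∈ Fintype.piFinset B, ∀ e ∈ Fintype.piFinset B, W d = W e → d = e := by
  classical
  obtain ⟨r, hr⟩ := Set.countable_iff_exists_injOn.mp
    ((Finset.univ.biUnion B).finite_toSet.countable)
  let n := Fintype.card ι
  let eq : ι ≃ Fin n := Fintype.equivFin ι
  refine ⟨Lex (Fin n → ℤ), inferInstance, inferInstance, inferInstance,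
    fun d => toLex fun j => (r (d (eq.symm j)) : ℤ), ?_, ?_⟩
  · intro d e d' e' h
    have : (fun j => (r (d' (eq.symm j)) : ℤ)) + (fun j => (r (e' (eq.symm j)) : ℤ)) =
        (fun j => (r (d (eq.symm j)) : ℤ)) + (fun j => (r (e (eq.symm j)) : ℤ)) := by
      funext j
      rcases h (eq.symm j) with ⟨h1, h2⟩ | ⟨h1, h2⟩
      · simp [h1, h2]
      · simp [h1, h2, add_comm]
    exact congrArg toLex this
  · intro d hd e he h
    funext i
    have h1 : (fun j => (r (d (eq.symm j)) : ℤ)) = fun j => (r (e (eq.symm j)) : ℤ) := h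
    have h2 := congrFun h1 (eq i)
    simp only [Equiv.symm_apply_apply, Nat.cast_inj] at h2
    refine hr ?_ ?_ h2
    · exact Finset.mem_coe.mpr (Finset.mem_biUnion.mpr ⟨i, Finset.mem_univ i,
        (Fintype.mem_piFinset.mp hd) i⟩)
    · exact Finset.mem_coe.mpr (Finset.mem_biUnion.mpr ⟨i, Finset.mem_univ i,
        (Fintype.mem_piFinset.mp he) i⟩)

/-- Shearer's inequality for sumsets. -/
theorem shearer_sumset {κ : Type*} (B : ι → Finset A) (hB : ∀ i, (B i).Nonempty)
    (s : Finset κ) (U : κ → Finset ι) (k : ℕ) (hk : 0 < k)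
    (hcov : ∀ i, (s.filter fun j => i ∈ U j).card = k) :
    ((S B Finset.univ).card : ℝ) ≤ ∏ j ∈ s, ((S B (U j)).card : ℝ) ^ ((1 : ℝ) / k) := by
  classical
  obtain ⟨M, _, _, _, W, hW1, hW2⟩ := exists_weight B
  let D : Finset (ι → A) := (Fintype.piFinset B).filter fun d =>
    ∀ e ∈ Fintype.piFinset B, ∑ i, e i = ∑ i, d i → W d ≤ W e
  have hsurj : ∀ x ∈ S B Finset.univ, ∃ d ∈ D, ∑ i, d i = x := by
    intro x hx
    obtain ⟨d₀, hd₀, hx₀⟩ := Finset.mem_image.mp hx
    obtain ⟨d, hd, hmin⟩ := Finset.exists_min_image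
      ((Fintype.piFinset B).filter fun d => ∑ i, d i = x) W
      ⟨d₀, Finset.mem_filter.mpr ⟨hd₀, hx₀⟩⟩
    rw [Finset.mem_filter] at hd
    refine ⟨d, Finset.mem_filter.mpr ⟨hd.1, fun e he hed => ?_⟩, hd.2⟩
    exact hmin e (Finset.mem_filter.mpr ⟨he, hed.trans hd.2⟩)
  have hDne : D.Nonempty := by
    obtain ⟨d₀, hd₀⟩ : (Fintype.piFinset B).Nonempty := Fintype.piFinset_nonempty.mpr hB
    obtain ⟨d, hd, _⟩ := hsurj (∑ i, d₀ i) (Finset.mem_image_of_mem _ hd₀)
    exact ⟨d, hd⟩
  have hinj : ∀ V : Finset ι, ∀ d ∈ D, ∀ e ∈ D, ∑ i ∈ V, d i = ∑ i ∈ V, e i →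
      ∀ i ∈ V, d i = e i := by
    intro V d hd e he hde
    obtain ⟨hdB, hdmin⟩ := Finset.mem_filter.mp hd
    obtain ⟨heB, hemin⟩ := Finset.mem_filter.mp he
    let e' : ι → A := fun i => if i ∈ V then e i else d i
    let d' : ι → A := fun i => if i ∈ V then d i else e i
    have he'B : e' ∈ Fintype.piFinset B := by
      rw [Fintype.mem_piFinset]
      intro i
      by_cases hi : i ∈ V
      · simpa [e', hi] using (Fintype.mem_piFinset.mp heB) i
      · simpa [e', hi] using (Fintype.mem_piFinset.mp hdB) i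
    have hd'B : d' ∈ Fintype.piFinset B := by
      rw [Fintype.mem_piFinset]
      intro i
      by_cases hi : i ∈ V
      · simpa [d', hi] using (Fintype.mem_piFinset.mp hdB) i
      · simpa [d', hi] using (Fintype.mem_piFinset.mp heB) i
    have hsplit : ∀ f : ι → A, ∑ i, f i = ∑ i ∈ V, f i + ∑ i ∈ Vᶜ, f i := fun f =>
      (Finset.sum_add_sum_compl V f).symm
    have hse' : ∑ i, e' i = ∑ i, d i := by
      rw [hsplit e', hsplit d, hde]
      congr 1
      · exact Finset.sum_congr rfl fun i hi => by simp [e', hi]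
      · exact Finset.sum_congr rfl fun i hi => by
          simp [e', Finset.mem_compl.mp hi]
    have hsd' : ∑ i, d' i = ∑ i, e i := by
      rw [hsplit d', hsplit e, ← hde]
      congr 1
      · exact Finset.sum_congr rfl fun i hi => by simp [d', hi]
      · exact Finset.sum_congr rfl fun i hi => by
          simp [d', Finset.mem_compl.mp hi]
    have h1 : W d ≤ W e' := hdmin e' he'B hse'
    have h2 : W e ≤ W d' := hemin d' hd'B hsd'
    have h3 : W e' + W d' = W d + W e := hW1 d e e' d' fun i => by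
      by_cases hi : i ∈ V
      · right; simp [e', d', hi]
      · left; simp [e', d', hi]
    have h4 : W d = W e' := by
      by_contra hne
      have h5 : W d < W e' := lt_of_le_of_ne h1 hne
      have h6 : W d + W e < W e' + W d' := add_lt_add_of_lt_of_le h5 h2
      rw [h3] at h6
      exact lt_irrefl _ h6
    have h5 : d = e' := hW2 d hdB e' he'B h4
    intro i hi
    rw [h5]
    simp [e', hi]
  have hker : ∀ V : Finset ι, N D V = (D.image fun d => ∑ i ∈ V, d i).card := by
    intro V
    refine card_image_eq_of_ker D _ _ fun d hd e he => ?_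
    rw [res_eq_iff]
    exact ⟨fun h => Finset.sum_congr rfl h, hinj V d hd e he⟩
  have hle : ∀ V : Finset ι, N D V ≤ (S B V).card := by
    intro V
    rw [hker]
    exact Finset.card_le_card (Finset.image_subset_image (Finset.filter_subset _ _))
  have htop : (S B Finset.univ).card ≤ N D Finset.univ := by
    rw [hker]
    refine Finset.card_le_card fun x hx => ?_
    obtain ⟨d, hd, hdx⟩ := hsurj x hx
    exact Finset.mem_image.mpr ⟨d, hd, hdx⟩
  calc ((S B Finset.univ).card : ℝ) ≤ N D Finset.univ := by exact_mod_cast htop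
    _ ≤ ∏ j ∈ s, (N D (U j ∩ Finset.univ) : ℝ) ^ ((1 : ℝ) / k) :=
        shearer s U k hk Finset.univ (fun i _ => hcov i) D hDne
    _ ≤ ∏ j ∈ s, ((S B (U j)).card : ℝ) ^ ((1 : ℝ) / k) := by
        refine Finset.prod_le_prod (fun j _ => by positivity) fun j _ => ?_
        rw [Finset.inter_univ]
        refine Real.rpow_le_rpow (by positivity) ?_ (by positivity)
        exact_mod_cast hle (U j)

end Sumset

end Q22.Shearer
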