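import Mathlib

/-! Alternants in three invertible variables and the symplectic alternants. -/

namespace Q22.Sp

variable {K : Type*} [CommRing K]

/-- `u ^ n` as an element of the ring. -/
def pw (u : Kˣ) (n : ℤ) : K := ((u ^ n : Kˣ) : K)

theorem pw_add (u : Kˣ) (m n : ℤ) : pw u (m + n) = pw u m * pw u n := by
  simp [pw, zpow_add]

theorem pw_zero (u : Kˣ) : pw u 0 = 1 := by simp [pw]

theorem pw_inv (u : Kˣ) (n : ℤ) : pw u⁻¹ n = pw u (-n) := by
  simp [pw]

theorem pw_nat (u : Kˣ) (n : ℕ) : pw u (n : ℤ) = (u : K) ^ n := by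
  simp [pw]

theorem pw_mul_neg (u : Kˣ) (n : ℤ) : pw u n * pw u (-n) = 1 := by
  rw [← pw_add]; simp [pw_zero]

/-- the alternant `det (u_i ^ l_j)` -/
def alt (u v w : Kˣ) (a b c : ℤ) : K :=
  pw u a * (pw v b * pw w c - pw v c * pw w b) - pw u b * (pw v a * pw w c - pw v c * pw w a)
    + pw u c * (pw v a * pw w b - pw v b * pw w a)

/-- `u ^ n - u ^ (-n)` -/
def W (u : Kˣ) (n : ℤ) : K := pw u n - pw u (-n)

/-- the symplectic alternant `det (u_i ^ l_j - u_i ^ (-l_j))` -/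
def Alt (u v w : Kˣ) (a b c : ℤ) : K :=
  W u a * (W v b * W w c - W v c * W w b) - W u b * (W v a * W w c - W v c * W w a)
    + W u c * (W v a * W w b - W v b * W w a)

theorem W_zero (u : Kˣ) : W u 0 = 0 := by simp [W]

theorem W_neg (u : Kˣ) (n : ℤ) : W u (-n) = - W u n := by simp [W]

theorem Alt_sign (u v w : Kˣ) (a b c : ℤ) :
    alt u v w a b c - alt u⁻¹ v w a b c - alt u v⁻¹ w a b c - alt u v w⁻¹ a b c
      + alt u⁻¹ v⁻¹ w a b c + alt u⁻¹ v w⁻¹ a b c + alt u v⁻¹ w⁻¹ a b c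
      - alt u⁻¹ v⁻¹ w⁻¹ a b c = Alt u v w a b c := by
  simp only [alt, Alt, W, pw_inv]
  ring

/-- the bracket `e_3 - e_1 + e_1(inverse) - e_3(inverse)` -/
def Br (u v w : Kˣ) : K :=
  pw u 1 * pw v 1 * pw w 1 - (pw u 1 + pw v 1 + pw w 1)
    + (pw u (-1) + pw v (-1) + pw w (-1)) - pw u (-1) * pw v (-1) * pw w (-1)

theorem Br_mul_alt (u v w : Kˣ) (a b c : ℤ) :
    Br u v w * alt u v w a b c =
      alt u v w (a + 1) (b + 1) (c + 1)
      - (alt u v w (a + 1) b c + alt u v w a (b + 1) c + alt u v w a b (c + 1))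
      + (alt u v w (a + -1) b c + alt u v w a (b + -1) c + alt u v w a b (c + -1))
      - alt u v w (a + -1) (b + -1) (c + -1) := by
  simp only [alt, Br, pw_add]
  ring

/-- signed sum over the sign changes -/
def sgnsum (F : Kˣ → Kˣ → Kˣ → K) (u v w : Kˣ) : K :=
  F u v w - F u⁻¹ v w - F u v⁻¹ w - F u v w⁻¹
      + F u⁻¹ v⁻¹ w + F u⁻¹ v w⁻¹ + F u v⁻¹ w⁻¹
      - F u⁻¹ v⁻¹ w⁻¹

theorem Alt_eq_sgnsum (u v w : Kˣ) (a b c : ℤ) :
    sgnsum (fun u v w => alt u v w a b c) u v w = Alt u v w a b c := Alt_sign u v w a b c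

theorem sgnsum_Br (u v w : Kˣ) (a b : ℤ) :
    sgnsum (fun u v w => Br u v w * alt u v w a b 0) u v w =
      Alt u v w (a + 1) (b + 1) 1 - 2 * Alt u v w a b 1 + Alt u v w (a - 1) (b - 1) 1 := by
  have h : ∀ u v w : Kˣ, Br u v w * alt u v w a b 0 =
      alt u v w (a + 1) (b + 1) (0 + 1)
      - (alt u v w (a + 1) b 0 + alt u v w a (b + 1) 0 + alt u v w a b (0 + 1))
      + (alt u v w (a + -1) b 0 + alt u v w a (b + -1) 0 + alt u v w a b (0 + -1))
      - alt u v w (a + -1) (b + -1) (0 + -1) := fun u v w => Br_mul_alt u v w a b 0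
  have h2 : sgnsum (fun u v w => Br u v w * alt u v w a b 0) u v w =
      Alt u v w (a + 1) (b + 1) (0 + 1)
      - (Alt u v w (a + 1) b 0 + Alt u v w a (b + 1) 0 + Alt u v w a b (0 + 1))
      + (Alt u v w (a + -1) b 0 + Alt u v w a (b + -1) 0 + Alt u v w a b (0 + -1))
      - Alt u v w (a + -1) (b + -1) (0 + -1) := by
    simp only [sgnsum, h]
    simp only [← Alt_eq_sgnsum, sgnsum]
    ring
  rw [h2]
  have e0 : ∀ a b : ℤ, Alt u v w a b 0 = 0 := by
    intro a b; simp [Alt, W_zero]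
  have e1 : ∀ a b : ℤ, Alt u v w a b (0 + -1) = - Alt u v w a b 1 := by
    intro a b
    have : (0 + -1 : ℤ) = -1 := by norm_num
    rw [this]
    simp only [Alt, W_neg]; ring
  rw [e0, e0, e0, e0, e1, e1]
  simp only [zero_add, ← sub_eq_add_neg]
  ring

/-- `z(u) = u + u⁻¹` -/
def z (u : Kˣ) : K := pw u 1 + pw u (-1)

theorem z_inv (u : Kˣ) : z u⁻¹ = z u := by simp only [z, pw_inv, neg_neg]; ring

/-- the Weyl denominator without the short factors -/
def ZZ (u v w : Kˣ) : K := (z u - z v) * (z u - z w) * (z v - z w)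

theorem ZZ_eq (u v w : Kˣ) : pw u 1 * pw v 1 * pw w 1 * ZZ u v w =
    (pw u 1 - pw v 1) * (pw u 1 - pw w 1) * (pw v 1 - pw w 1) * Br u v w := by
  have hu := pw_mul_neg u 1
  have hv := pw_mul_neg v 1
  have hw := pw_mul_neg w 1
  have e1 : z u - z v = (pw u 1 - pw v 1) * (1 - pw u (-1) * pw v (-1)) := by
    simp only [z]
    linear_combination (pw v (-1)) * hu - pw u (-1) * hv
  have e2 : z u - z w = (pw u 1 - pw w 1) * (1 - pw u (-1) * pw w (-1)) := by
    simp only [z]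
    linear_combination (pw w (-1)) * hu - pw u (-1) * hw
  have e3 : z v - z w = (pw v 1 - pw w 1) * (1 - pw v (-1) * pw w (-1)) := by
    simp only [z]
    linear_combination (pw w (-1)) * hv - pw v (-1) * hw
  have e4 : pw u 1 * pw v 1 * pw w 1 * ((1 - pw u (-1) * pw v (-1)) *
      (1 - pw u (-1) * pw w (-1)) * (1 - pw v (-1) * pw w (-1))) = Br u v w := by
    simp only [Br]
    generalize pw u 1 = U at *
    generalize pw v 1 = V at *
    generalize pw w 1 = X at *
    generalize pw u (-1) = ui at *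
    generalize pw v (-1) = vi at *
    generalize pw w (-1) = xi at *
    have f1 : U * V * X * ((1 - ui * vi) * (1 - ui * xi) * (1 - vi * xi)) =
        U * V * X - (U * ui) * (V * vi) * X - (U * ui) * (X * xi) * V - (V * vi) * (X * xi) * U
        + (U * ui) * (V * vi) * (X * xi) * ui + (U * ui) * (V * vi) * (X * xi) * vi
        + (U * ui) * (V * vi) * (X * xi) * xi
        - (U * ui) * (V * vi) * (X * xi) * (ui * vi * xi) := by ring
    rw [f1, hu, hv, hw]; ring
  unfold ZZ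
  rw [e1, e2, e3, ← e4]; ring

theorem alt_210 (u v w : Kˣ) : alt u v w 2 1 0 =
    (pw u 1 - pw v 1) * (pw u 1 - pw w 1) * (pw v 1 - pw w 1) := by
  have h2 : ∀ x : Kˣ, pw x 2 = pw x 1 * pw x 1 := fun x => by rw [← pw_add]; norm_num
  simp only [alt, pw_zero, h2]
  ring

theorem Alt_321 (u v w : Kˣ) : Alt u v w 3 2 1 = W u 1 * W v 1 * W w 1 * ZZ u v w := by
  have h2 : ∀ x : Kˣ, W x 2 = W x 1 * z x := fun x => by
    have : pw x 2 = pw x 1 * pw x 1 := by rw [← pw_add]; norm_num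
    have h' : pw x (-2) = pw x (-1) * pw x (-1) := by rw [← pw_add]; norm_num
    simp only [W, z, this, h']; ring
  have h3 : ∀ x : Kˣ, W x 3 = W x 1 * (z x * z x - 1) := fun x => by
    have : pw x 3 = pw x 1 * pw x 1 * pw x 1 := by rw [← pw_add, ← pw_add]; norm_num
    have h' : pw x (-3) = pw x (-1) * pw x (-1) * pw x (-1) := by
      rw [← pw_add, ← pw_add]; norm_num
    have hx := pw_mul_neg x 1
    simp only [W, z, this, h']
    linear_combination (- pw x 1 + pw x (-1)) * hx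
  simp only [Alt, h2, h3, ZZ]
  ring

end Q22.Sp
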