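import Mathlib

/-! Formal characters of `Sp_6` and of `SL_2 × SL_2 × SL_2` on the common maximal torus. -/

namespace Q22.Sp

open Finset

/-- The group ring `ℤ[ℤ³]` of the weight lattice of the common maximal torus (formal characters).
The basis vector of `x = (x₁,x₂,x₃)` is the torus character `diag(t₁,t₂,t₃,…) ↦ t₁^x₁ t₂^x₂ t₃^x₃`. -/
abbrev CharRing := AddMonoidAlgebra ℤ (Fin 3 → ℤ)

/-- The formal exponential `e^x`. -/
noncomputable def ex (x : Fin 3 → ℤ) : CharRing := AddMonoidAlgebra.single x 1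

/-- The alternating sum `∑_{w ∈ W} sgn(w) e^{w l}` over the Weyl group of `Sp_6`, i.e. over all
signed permutations of the three coordinates. -/
noncomputable def weylNum (l : Fin 3 → ℤ) : CharRing :=
  ∑ σ : Equiv.Perm (Fin 3), ∑ ε : Fin 3 → ℤˣ,
    ((Equiv.Perm.sign σ * ∏ i, ε i : ℤˣ) : ℤ) • ex (fun i => (ε i : ℤ) * l (σ i))

/-- `χ` is the character of the irreducible representation of `Sp_6(ℂ)` of highest weight
`a ω₁ + b ω₂ + c ω₃ = (a + b + c, b + c, c)`, by the Weyl character formula with `ρ = (3, 2, 1)`. -/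
def IsSpChar (a b c : ℕ) (χ : CharRing) : Prop :=
  χ * weylNum ![3, 2, 1] = weylNum ![(a : ℤ) + b + c + 3, (b : ℤ) + c + 2, (c : ℤ) + 1]

/-- The character of `V_r ⊠ V_s ⊠ V_t`, with `x = (r, s, t)`: the product of the characters
`∑_{j=0}^{x_i} t_i^{x_i - 2 j}` of `Sym^{x_i} ℂ²`. -/
noncomputable def slChar (x : Fin 3 → ℕ) : CharRing :=
  ∏ i, ∑ j ∈ range (x i + 1), ex (Pi.single i ((x i : ℤ) - 2 * (j : ℤ)))

/-- `d(x) = min_i min (x_i, p - x_i)` -/
def layer (p : ℕ) (x : Fin 3 → ℕ) : ℕ :=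
  min (min (min (x 0) (p - x 0)) (min (x 1) (p - x 1))) (min (x 2) (p - x 2))

/-- `x` lies in the polygon `H_k`: `x₁ + x₂ + x₃ = n_k = a + 2b - 2k` and
`max x_i ≤ p_k = a + b - k`. -/
def InH (a b k : ℕ) (x : Fin 3 → ℕ) : Prop :=
  x 0 + x 1 + x 2 = a + 2 * b - 2 * k ∧ ∀ i, x i ≤ a + b - k

instance (a b k : ℕ) (x : Fin 3 → ℕ) : Decidable (InH a b k x) := by
  unfold InH; infer_instance

/-- The weight `μ_{a,b}(x) = ∑_{k=0}^b 1[x ∈ H_k] (k+1) (min (d_k(x), m_k) + 1)`,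
`m_k = min (a, b - k)`. -/
def mu (a b : ℕ) (x : Fin 3 → ℕ) : ℕ :=
  ∑ k ∈ range (b + 1),
    if InH a b k x then (k + 1) * (min (layer (a + b - k) x) (min a (b - k)) + 1) else 0

end Q22.Sp
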