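import Pool.Agent.Q22.SpAlt

/-! Weight multiplicities of the `GL_3` representations and their alternating sums. -/

namespace Q22.Sp

open Finset

section
variable {K : Type*} [CommRing K]

theorem geomI (u v : K) (a b : ℕ) (h : a ≤ b) :
    (∑ n ∈ Icc a b, u ^ n * v ^ (a + b - n)) * (u - v) = u ^ (b + 1) * v ^ a - u ^ a * v ^ (b + 1) := by
  induction b, h using Nat.le_induction with
  | base => simp; ring
  | succ b h ih =>
    rw [← Finset.insert_Icc_right_eq_Icc_add_one (by omega : a ≤ b + 1)]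
    rw [Finset.sum_insert (by simp)]
    have e : ∀ n ∈ Icc a b, u ^ n * v ^ (a + (b + 1) - n) = (u ^ n * v ^ (a + b - n)) * v := by
      intro n hn
      rw [Finset.mem_Icc] at hn
      have : a + (b + 1) - n = (a + b - n) + 1 := by omega
      rw [this]; ring
    rw [Finset.sum_congr rfl e, ← Finset.sum_mul]
    have e2 : a + (b + 1) - (b + 1) = a := by omega
    rw [e2]
    have : (u ^ (b + 1) * v ^ a + (∑ n ∈ Icc a b, u ^ n * v ^ (a + b - n)) * v) * (u - v) =
      u ^ (b + 1) * v ^ a * (u - v) + ((∑ n ∈ Icc a b, u ^ n * v ^ (a + b - n)) * (u - v)) * v := by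
      ring
    rw [this, ih]; ring

theorem alphaI (u w : K) (p q : ℕ) (h : q ≤ p) :
    (∑ n ∈ Icc q p, u ^ (n + 1) * w ^ (p - n)) * (u - w) = u ^ (p + 2) - u ^ (q + 1) * w ^ (p - q + 1) := by
  induction p, h using Nat.le_induction with
  | base => simp; ring
  | succ b h ih =>
    rw [← Finset.insert_Icc_right_eq_Icc_add_one (by omega : q ≤ b + 1)]
    rw [Finset.sum_insert (by simp)]
    have e : ∀ n ∈ Icc q b, u ^ (n + 1) * w ^ (b + 1 - n) = (u ^ (n + 1) * w ^ (b - n)) * w := by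
      intro n hn
      rw [Finset.mem_Icc] at hn
      have : b + 1 - n = (b - n) + 1 := by omega
      rw [this]; ring
    rw [Finset.sum_congr rfl e, ← Finset.sum_mul]
    have e2 : b + 1 - (b + 1) = 0 := by omega
    have e3 : b + 1 - q = b - q + 1 := by omega
    rw [e2, e3]
    have : (u ^ (b + 1 + 1) * w ^ 0 + (∑ n ∈ Icc q b, u ^ (n + 1) * w ^ (b - n)) * w) * (u - w) =
      u ^ (b + 2) * (u - w) + ((∑ n ∈ Icc q b, u ^ (n + 1) * w ^ (b - n)) * (u - w)) * w := by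
      ring
    rw [this, ih]; ring

theorem betaI (v w : K) (q : ℕ) :
    (∑ n ∈ range (q + 1), v ^ n * w ^ (q - n)) * (v - w) = v ^ (q + 1) - w ^ (q + 1) := by
  have := (Commute.all v w).geom_sum₂_mul (q + 1)
  simpa using this

/-- the Gelfand-Tsetlin sum -/
def GT (p q : ℕ) (f : ℕ → ℕ → ℕ → K) : K :=
  ∑ m₁ ∈ Icc q p, ∑ m₂ ∈ range (q + 1), ∑ n ∈ Icc m₂ m₁,
    f n (m₁ + m₂ - n) ((p - m₁) + (q - m₂))

theorem GT_pow (u v w : K) (p q : ℕ) (h : q ≤ p) :
    GT p q (fun i j k => u ^ i * v ^ j * w ^ k) * ((u - v) * (u - w) * (v - w)) =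
      u ^ (p + 2) * (v ^ (q + 1) - w ^ (q + 1)) - u ^ (q + 1) * (v ^ (p + 2) - w ^ (p + 2))
        + (v ^ (p + 2) * w ^ (q + 1) - v ^ (q + 1) * w ^ (p + 2)) := by
  have e1 : GT p q (fun i j k => u ^ i * v ^ j * w ^ k) * (u - v) =
      (∑ n ∈ Icc q p, u ^ (n + 1) * w ^ (p - n)) * (∑ n ∈ range (q + 1), v ^ n * w ^ (q - n))
      - (∑ n ∈ Icc q p, v ^ (n + 1) * w ^ (p - n)) * (∑ n ∈ range (q + 1), u ^ n * w ^ (q - n)) := by
    unfold GT
    rw [Finset.sum_mul_sum, Finset.sum_mul_sum, ← Finset.sum_sub_distrib, Finset.sum_mul]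
    refine Finset.sum_congr rfl fun a ha => ?_
    rw [← Finset.sum_sub_distrib, Finset.sum_mul]
    refine Finset.sum_congr rfl fun b hb => ?_
    rw [Finset.mem_Icc] at ha
    rw [Finset.mem_range] at hb
    have hg := geomI u v b a (by omega)
    have e : ∀ n ∈ Icc b a, u ^ n * v ^ (a + b - n) * w ^ ((p - a) + (q - b)) =
        (u ^ n * v ^ (b + a - n)) * w ^ ((p - a) + (q - b)) := by
      intro n _; rw [add_comm a b]
    rw [Finset.sum_congr rfl e, ← Finset.sum_mul]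
    have : (∑ n ∈ Icc b a, u ^ n * v ^ (b + a - n)) * w ^ ((p - a) + (q - b)) * (u - v) =
      ((∑ n ∈ Icc b a, u ^ n * v ^ (b + a - n)) * (u - v)) * w ^ ((p - a) + (q - b)) := by ring
    rw [this, hg, pow_add]; ring
  have a1 := alphaI u w p q h
  have a2 := alphaI v w p q h
  have b1 := betaI v w q
  have b2 := betaI u w q
  have hw : w ^ (p - q + 1) * w ^ (q + 1) = w ^ (p + 2) := by
    rw [← pow_add]; congr 1; omega
  calc GT p q (fun i j k => u ^ i * v ^ j * w ^ k) * ((u - v) * (u - w) * (v - w))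
      = (GT p q (fun i j k => u ^ i * v ^ j * w ^ k) * (u - v)) * ((u - w) * (v - w)) := by ring
    _ = ((∑ n ∈ Icc q p, u ^ (n + 1) * w ^ (p - n)) * (u - w)) *
          ((∑ n ∈ range (q + 1), v ^ n * w ^ (q - n)) * (v - w))
      - ((∑ n ∈ Icc q p, v ^ (n + 1) * w ^ (p - n)) * (v - w)) *
          ((∑ n ∈ range (q + 1), u ^ n * w ^ (q - n)) * (u - w)) := by rw [e1]; ring
    _ = _ := by
      rw [a1, a2, b1, b2]
      linear_combination (u ^ (q + 1) - v ^ (q + 1)) * hw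

/-- the weight multiplicity of the `GL_3` module of highest weight `(p, q, 0)` -/
def gmult (p q x y z : ℕ) : ℕ :=
  min (min (min (min x (p - x)) (min y (p - y))) (min z (p - z))) (min (p - q) q) + 1

theorem GT_eq (p q : ℕ) (h : q ≤ p) (f : ℕ → ℕ → ℕ → K) :
    GT p q f = ∑ x ∈ range (p + 1), ∑ y ∈ range (p + 1), ∑ z ∈ range (p + 1),
      if x + y + z = p + q then (gmult p q x y z : K) * f x y z else 0 := by
  have hL : GT p q f = ∑ a ∈ ((range (p + 1) ×ˢ range (p + 1)) ×ˢ range (p + 1)).filter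
      (fun a => q ≤ a.1.1 ∧ a.1.2 ≤ q ∧ a.1.2 ≤ a.2 ∧ a.2 ≤ a.1.1),
      f a.2 (a.1.1 + a.1.2 - a.2) ((p - a.1.1) + (q - a.1.2)) := by
    unfold GT
    rw [Finset.sum_filter, Finset.sum_product, Finset.sum_product]
    have e1 : Icc q p = (range (p + 1)).filter (fun m => q ≤ m) := by
      ext m; simp [Finset.mem_Icc]; omega
    rw [e1, Finset.sum_filter]
    refine Finset.sum_congr rfl fun a ha => ?_
    rw [Finset.mem_range] at ha
    split_ifs with hqa
    · have e2 : range (q + 1) = (range (p + 1)).filter (fun m => m ≤ q) := by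
        ext m; simp; omega
      rw [e2, Finset.sum_filter]
      refine Finset.sum_congr rfl fun b hb => ?_
      split_ifs with hb2
      · have e3 : Icc b a = (range (p + 1)).filter (fun m => b ≤ m ∧ m ≤ a) := by
          ext m; simp [Finset.mem_Icc]; omega
        rw [e3, Finset.sum_filter]
        refine Finset.sum_congr rfl fun c hc => ?_
        by_cases h3 : b ≤ c ∧ c ≤ a
        · rw [if_pos h3, if_pos ⟨hqa, hb2, h3.1, h3.2⟩]
        · rw [if_neg h3, if_neg (fun hh => h3 ⟨hh.2.2.1, hh.2.2.2⟩)]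
      · symm; apply Finset.sum_eq_zero; intro c _
        rw [if_neg (fun hh => hb2 hh.2.1)]
    · symm; apply Finset.sum_eq_zero; intro b _; apply Finset.sum_eq_zero; intro c _
      rw [if_neg (fun hh => hqa hh.1)]
  have hR : (∑ x ∈ range (p + 1), ∑ y ∈ range (p + 1), ∑ z ∈ range (p + 1),
      if x + y + z = p + q then (gmult p q x y z : K) * f x y z else 0) =
      ∑ a ∈ (((range (p + 1) ×ˢ range (p + 1)) ×ˢ range (p + 1)) ×ˢ range (p + 1)).filter
        (fun a => a.1.1.1 + a.1.1.2 + a.1.2 = p + q ∧ a.2 < gmult p q a.1.1.1 a.1.1.2 a.1.2),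
        f a.1.1.1 a.1.1.2 a.1.2 := by
    rw [Finset.sum_filter, Finset.sum_product, Finset.sum_product, Finset.sum_product]
    refine Finset.sum_congr rfl fun x hx => Finset.sum_congr rfl fun y hy =>
      Finset.sum_congr rfl fun z hz => ?_
    split_ifs with hs
    · have e : ∀ t ∈ range (p + 1), (if x + y + z = p + q ∧ t < gmult p q x y z then f x y z else 0)
        = if t < gmult p q x y z then f x y z else 0 := by
        intro t _; simp [hs]
      simp only [hs, true_and]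
      rw [← Finset.sum_filter, Finset.sum_const]
      have : (range (p + 1)).filter (fun t => t < gmult p q x y z) = range (gmult p q x y z) := by
        ext t
        simp only [Finset.mem_filter, Finset.mem_range]
        constructor
        · exact fun hh => hh.2
        · intro hh
          refine ⟨?_, hh⟩
          have h4 : gmult p q x y z ≤ q + 1 := by
            unfold gmult
            exact Nat.succ_le_succ (le_trans (min_le_right _ _) (min_le_right _ _))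
          omega
      rw [this]; simp
    · symm; apply Finset.sum_eq_zero; intro t _
      rw [if_neg]; intro hh; exact hs hh.1
  rw [hL, hR]
  refine Finset.sum_nbij' (fun a => (((a.2, a.1.1 + a.1.2 - a.2), (p - a.1.1) + (q - a.1.2)),
      a.1.2 - (q - ((p - a.1.1) + (q - a.1.2)))))
    (fun a => ((a.1.1.1 + a.1.1.2 - ((q - a.1.2) + a.2), (q - a.1.2) + a.2), a.1.1.1)) ?_ ?_ ?_ ?_ ?_
  · rintro ⟨⟨m₁, m₂⟩, n⟩ ha
    simp only [Finset.mem_filter, Finset.mem_product, Finset.mem_range] at ha ⊢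
    refine ⟨⟨⟨⟨?_, ?_⟩, ?_⟩, ?_⟩, ?_, ?_⟩
    · omega
    · omega
    · omega
    · omega
    · omega
    · unfold gmult
      refine Nat.lt_succ_of_le ?_
      simp only [le_min_iff]
      refine ⟨⟨⟨⟨?_, ?_⟩, ?_, ?_⟩, ?_, ?_⟩, ?_, ?_⟩ <;> omega
  · rintro ⟨⟨⟨x, y⟩, z⟩, t⟩ ha
    simp only [Finset.mem_filter, Finset.mem_product, Finset.mem_range] at ha ⊢
    obtain ⟨⟨⟨⟨hx, hy⟩, hz⟩, ht⟩, hs, hg⟩ := ha
    unfold gmult at hg
    have hg' := Nat.le_of_lt_succ hg
    simp only [le_min_iff] at hg'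
    refine ⟨⟨⟨?_, ?_⟩, ?_⟩, ?_, ?_, ?_, ?_⟩ <;> omega
  · rintro ⟨⟨m₁, m₂⟩, n⟩ ha
    simp only [Finset.mem_filter, Finset.mem_product, Finset.mem_range] at ha
    refine Prod.ext (Prod.ext ?_ ?_) rfl
    · show n + (m₁ + m₂ - n) - ((q - ((p - m₁) + (q - m₂))) + (m₂ - (q - ((p - m₁) + (q - m₂))))) = m₁
      omega
    · show (q - ((p - m₁) + (q - m₂))) + (m₂ - (q - ((p - m₁) + (q - m₂)))) = m₂
      omega
  · rintro ⟨⟨⟨x, y⟩, z⟩, t⟩ ha
    simp only [Finset.mem_filter, Finset.mem_product, Finset.mem_range] at ha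
    obtain ⟨⟨⟨⟨hx, hy⟩, hz⟩, ht⟩, hs, hg⟩ := ha
    unfold gmult at hg
    have hg' := Nat.le_of_lt_succ hg
    clear hg
    simp only [le_min_iff] at hg'
    refine Prod.ext (Prod.ext (Prod.ext rfl ?_) ?_) ?_
    · show x + y - ((q - z) + t) + ((q - z) + t) - x = y
      omega
    · show (p - (x + y - ((q - z) + t))) + (q - ((q - z) + t)) = z
      omega
    · show (q - z) + t - (q - ((p - (x + y - ((q - z) + t))) + (q - ((q - z) + t)))) = t
      have h1 : (p - (x + y - ((q - z) + t))) + (q - ((q - z) + t)) = z := by omega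
      rw [h1]; omega
  · rintro ⟨⟨m₁, m₂⟩, n⟩ ha
    rfl

/-- The signed sum with the symplectic characters. -/
theorem GT_W (u v w : Kˣ) (p q : ℕ) (h : q ≤ p) :
    GT p q (fun i j k => W u (i + 1) * W v (j + 1) * W w (k + 1)) * ZZ u v w =
      Alt u v w (p + 3) (q + 2) 1 - 2 * Alt u v w (p + 2) (q + 1) 1 + Alt u v w (p + 1) q 1 := by
  have hsum : GT p q (fun i j k => W u (i + 1) * W v (j + 1) * W w (k + 1)) =
      sgnsum (fun u v w => (pw u 1 * pw v 1 * pw w 1) *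
        GT p q (fun i j k => pw u 1 ^ i * pw v 1 ^ j * pw w 1 ^ k)) u v w := by
    have hp : ∀ (x : Kˣ) (n : ℕ), pw x 1 ^ n = pw x n := by
      intro x n; simp [pw]
    have hpi : ∀ (x : Kˣ) (n : ℕ), pw x (-1) ^ n = pw x (-n) := by
      intro x n; rw [← pw_inv, ← pw_inv, ← hp]
    simp only [sgnsum, GT, Finset.mul_sum, ← Finset.sum_sub_distrib, ← Finset.sum_add_distrib]
    refine Finset.sum_congr rfl fun a _ => Finset.sum_congr rfl fun b _ =>
      Finset.sum_congr rfl fun c _ => ?_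
    simp only [pw_inv, hp, hpi, W, pw_add, neg_add]
    ring
  have hG : ∀ u v w : Kˣ, (pw u 1 * pw v 1 * pw w 1) *
        GT p q (fun i j k => pw u 1 ^ i * pw v 1 ^ j * pw w 1 ^ k) * ZZ u v w =
        Br u v w * alt u v w (p + 2) (q + 1) 0 := by
    intro u v w
    have h1 := ZZ_eq u v w
    have h2 := GT_pow (pw u 1) (pw v 1) (pw w 1) p q h
    have hp : ∀ (x : Kˣ) (n : ℕ), pw x 1 ^ n = pw x n := by
      intro x n; simp [pw]
    have h3 : alt u v w (p + 2) (q + 1) 0 = pw u 1 ^ (p + 2) * (pw v 1 ^ (q + 1) - pw w 1 ^ (q + 1))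
        - pw u 1 ^ (q + 1) * (pw v 1 ^ (p + 2) - pw w 1 ^ (p + 2))
        + (pw v 1 ^ (p + 2) * pw w 1 ^ (q + 1) - pw v 1 ^ (q + 1) * pw w 1 ^ (p + 2)) := by
      simp only [alt, pw_zero, hp]
      push_cast
      ring
    rw [h3, ← h2]
    linear_combination (GT p q (fun i j k => pw u 1 ^ i * pw v 1 ^ j * pw w 1 ^ k)) * h1
  have hZ : ∀ F : Kˣ → Kˣ → Kˣ → K, sgnsum F u v w * ZZ u v w =
      sgnsum (fun u v w => F u v w * ZZ u v w) u v w := by
    intro F
    simp only [sgnsum, ZZ, z_inv]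
    ring
  rw [hsum, hZ]
  simp only [hG]
  rw [sgnsum_Br]
  have a1 : (p : ℤ) + 2 + 1 = p + 3 := by ring
  have a2 : (q : ℤ) + 1 + 1 = q + 2 := by ring
  have a3 : (p : ℤ) + 2 - 1 = p + 1 := by ring
  have a4 : (q : ℤ) + 1 - 1 = q := by ring
  rw [a1, a2, a3, a4]

theorem GT_W' (u v w : Kˣ) (a b k : ℕ) (hk : k ≤ b) :
    GT (a + b - k) (b - k) (fun i j l => W u ((i : ℤ) + 1) * W v ((j : ℤ) + 1) * W w ((l : ℤ) + 1))
      * ZZ u v w =
      Alt u v w ((a : ℤ) + b + 3 - (k : ℕ)) ((b : ℤ) + 2 - (k : ℕ)) 1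
      - 2 * Alt u v w ((a : ℤ) + b + 3 - ((k + 1 : ℕ) : ℤ)) ((b : ℤ) + 2 - ((k + 1 : ℕ) : ℤ)) 1
      + Alt u v w ((a : ℤ) + b + 3 - ((k + 2 : ℕ) : ℤ)) ((b : ℤ) + 2 - ((k + 2 : ℕ) : ℤ)) 1 := by
  rw [GT_W _ _ _ _ _ (by omega)]
  have h1 : ((a + b - k : ℕ) : ℤ) = (a : ℤ) + b - k := by omega
  have h2 : ((b - k : ℕ) : ℤ) = (b : ℤ) - k := by omega
  rw [h1, h2]
  have t1 : (a : ℤ) + b - k + 3 = (a : ℤ) + b + 3 - k := by ring
  have t2 : (b : ℤ) - k + 2 = (b : ℤ) + 2 - k := by ring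
  have t3 : (a : ℤ) + b - k + 2 = (a : ℤ) + b + 3 - ((k + 1 : ℕ) : ℤ) := by push_cast; ring
  have t4 : (b : ℤ) - k + 1 = (b : ℤ) + 2 - ((k + 1 : ℕ) : ℤ) := by push_cast; ring
  have t5 : (a : ℤ) + b - k + 1 = (a : ℤ) + b + 3 - ((k + 2 : ℕ) : ℤ) := by push_cast; ring
  have t6 : (b : ℤ) - k = (b : ℤ) + 2 - ((k + 2 : ℕ) : ℤ) := by push_cast; ring
  rw [t1, t2, t3, t4, t5, t6]

theorem second_diff (A : ℕ → K) (n : ℕ) :
    ∑ k ∈ range (n + 1), ((k : K) + 1) * (A k - 2 * A (k + 1) + A (k + 2)) =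
      A 0 - (n + 2) * A (n + 1) + (n + 1) * A (n + 2) := by
  induction n with
  | zero => simp
  | succ n ih =>
    rw [Finset.sum_range_succ, ih]
    push_cast
    ring

end

end Q22.Sp
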