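import Pool.Agent.Q22.SpDefs
import Pool.Agent.Q22.SpSum

namespace Q22.Sp

open Finset

theorem ex_add (x y : Fin 3 → ℤ) : ex (x + y) = ex x * ex y := by
  simp [ex, AddMonoidAlgebra.single_mul_single]

theorem ex_zero : ex 0 = 1 := rfl

/-- the unit `e^{ε_i}` -/
noncomputable def U (i : Fin 3) : CharRingˣ where
  val := ex (Pi.single i 1)
  inv := ex (Pi.single i (-1))
  val_inv := by rw [← ex_add, ← Pi.single_add]; simp [ex_zero]
  inv_val := by rw [← ex_add, ← Pi.single_add]; simp [ex_zero]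

theorem pw_U (i : Fin 3) (n : ℤ) : pw (U i) n = ex (Pi.single i n) := by
  induction n using Int.induction_on with
  | zero => simp [pw_zero, ex_zero]
  | succ n ih =>
    rw [pw_add, ih, Pi.single_add, ex_add]
    congr 1
    simp [pw, U]
  | pred n ih =>
    rw [sub_eq_add_neg, pw_add, ih, Pi.single_add, ex_add]
    congr 1
    simp [pw, U]

theorem ex_eq_prod (x : Fin 3 → ℤ) : ex x = ∏ i, pw (U i) (x i) := by
  simp only [pw_U, Fin.prod_univ_three]
  rw [← ex_add, ← ex_add]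
  congr 1
  funext i
  fin_cases i <;> simp

theorem inner_sum (l : Fin 3 → ℤ) (σ : Equiv.Perm (Fin 3)) :
    ∑ ε : Fin 3 → ℤˣ, ((∏ i, ε i : ℤˣ) : ℤ) • ex (fun i => (ε i : ℤ) * l (σ i)) =
      ∏ i, W (U i) (l (σ i)) := by
  have h : ∀ i, W (U i) (l (σ i)) = ∑ e : ℤˣ, ((e : ℤ) : CharRing) * pw (U i) ((e : ℤ) * l (σ i)) := by
    intro i
    have : (Finset.univ : Finset ℤˣ) = {1, -1} := rfl
    rw [this, Finset.sum_insert (by decide), Finset.sum_singleton]
    simp [W]; ring
  rw [Finset.prod_congr rfl (fun i _ => h i), Finset.prod_univ_sum, Fintype.piFinset_univ]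
  refine Finset.sum_congr rfl fun ε _ => ?_
  rw [Finset.prod_mul_distrib, ← ex_eq_prod, zsmul_eq_mul]
  congr 1
  push_cast
  rfl

theorem weylNum_eq (l : Fin 3 → ℤ) :
    weylNum l = Alt (U 0) (U 1) (U 2) (l 0) (l 1) (l 2) := by
  have h : weylNum l = Matrix.det (Matrix.of fun (j i : Fin 3) => W (U i) (l j)) := by
    rw [Matrix.det_apply']
    unfold weylNum
    refine Finset.sum_congr rfl fun σ _ => ?_
    have : ∀ ε : Fin 3 → ℤˣ, ((Equiv.Perm.sign σ * ∏ i, ε i : ℤˣ) : ℤ) •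
        ex (fun i => (ε i : ℤ) * l (σ i)) = ((Equiv.Perm.sign σ : ℤ) : CharRing) *
          (((∏ i, ε i : ℤˣ) : ℤ) • ex (fun i => (ε i : ℤ) * l (σ i))) := by
      intro ε
      rw [zsmul_eq_mul, zsmul_eq_mul]
      push_cast
      ring
    rw [Finset.sum_congr rfl (fun ε _ => this ε), ← Finset.mul_sum, inner_sum]
    rfl
  rw [h, Matrix.det_fin_three]
  simp only [Matrix.of_apply, Alt]
  ring

theorem slfac (u : CharRingˣ) (n : ℕ) :
    (∑ j ∈ range (n + 1), pw u ((n : ℤ) - 2 * (j : ℤ))) * W u 1 = W u ((n : ℤ) + 1) := by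
  rw [Finset.sum_mul]
  have e : ∀ j ∈ range (n + 1), pw u ((n : ℤ) - 2 * (j : ℤ)) * W u 1 =
      pw u ((n : ℤ) + 1 - 2 * (j : ℤ)) - pw u ((n : ℤ) + 1 - 2 * ((j + 1 : ℕ) : ℤ)) := by
    intro j _
    rw [W, mul_sub, ← pw_add, ← pw_add]
    congr 2
    · ring
    · push_cast; ring
  rw [Finset.sum_congr rfl e, Finset.sum_range_sub']
  have h1 : (n : ℤ) + 1 - 2 * ((0 : ℕ) : ℤ) = n + 1 := by push_cast; ring
  have h2 : (n : ℤ) + 1 - 2 * ((n + 1 : ℕ) : ℤ) = -((n : ℤ) + 1) := by push_cast; ring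
  rw [h1, h2]
  rfl

theorem slChar_mul (x : Fin 3 → ℕ) :
    slChar x * (W (U 0) 1 * W (U 1) 1 * W (U 2) 1) =
      W (U 0) (x 0 + 1) * W (U 1) (x 1 + 1) * W (U 2) (x 2 + 1) := by
  unfold slChar
  simp only [← pw_U, Fin.prod_univ_three]
  rw [← slfac, ← slfac, ← slfac]
  ring

/-- sum over the cube -/
theorem sum_cube (N : ℕ) (f : (Fin 3 → ℕ) → CharRing) :
    ∑ x ∈ Fintype.piFinset (fun _ : Fin 3 => range N), f x =
      ∑ i ∈ range N, ∑ j ∈ range N, ∑ k ∈ range N, f ![i, j, k] := by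
  rw [← Finset.sum_product', ← Finset.sum_product']
  refine Finset.sum_nbij' (fun x => ((x 0, x 1), x 2)) (fun a => ![a.1.1, a.1.2, a.2]) ?_ ?_ ?_ ?_ ?_
  · intro x hx
    simp only [Fintype.mem_piFinset] at hx
    simp only [Finset.mem_product]
    exact ⟨⟨hx 0, hx 1⟩, hx 2⟩
  · rintro ⟨⟨i, j⟩, k⟩ ha
    simp only [Finset.mem_product] at ha
    simp only [Fintype.mem_piFinset]
    intro t
    fin_cases t
    · exact ha.1.1
    · exact ha.1.2
    · exact ha.2
  · intro x _
    funext t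
    fin_cases t <;> rfl
  · rintro ⟨⟨i, j⟩, k⟩ _
    rfl
  · intro x _
    congr 1
    funext t
    fin_cases t <;> rfl

theorem cut (N p : ℕ) (h : p + 1 ≤ N) (f : ℕ → CharRing) :
    ∑ i ∈ range (p + 1), f i = ∑ i ∈ range N, if i ≤ p then f i else 0 := by
  rw [← Finset.sum_filter]
  congr 1
  ext i
  simp only [Finset.mem_range, Finset.mem_filter]
  omega

theorem one_k (a b k : ℕ) (hk : k ≤ b) (g : ℕ → ℕ → ℕ → CharRing) :
    ∑ x ∈ Fintype.piFinset (fun _ : Fin 3 => range (a + b + 1)),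
      ((if InH a b k x then (k + 1) * (min (layer (a + b - k) x) (min a (b - k)) + 1) else 0 : ℕ) :
        CharRing) * g (x 0) (x 1) (x 2) = ((k : CharRing) + 1) * GT (a + b - k) (b - k) g := by
  rw [GT_eq _ _ (by omega), sum_cube, Finset.mul_sum]
  rw [cut (a + b + 1) (a + b - k) (by omega)]
  refine Finset.sum_congr rfl fun x _ => ?_
  split_ifs with hx
  · rw [Finset.mul_sum, cut (a + b + 1) (a + b - k) (by omega)]
    refine Finset.sum_congr rfl fun y _ => ?_
    split_ifs with hy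
    · rw [Finset.mul_sum, cut (a + b + 1) (a + b - k) (by omega)]
      refine Finset.sum_congr rfl fun z _ => ?_
      by_cases hz : z ≤ a + b - k
      · rw [if_pos hz]
        by_cases h1 : x + y + z = a + b - k + (b - k)
        · have hin : InH a b k ![x, y, z] := by
            refine ⟨?_, ?_⟩
            · show x + y + z = _
              omega
            · intro i
              fin_cases i
              · exact hx
              · exact hy
              · exact hz
          rw [if_pos hin, if_pos h1]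
          have e : gmult (a + b - k) (b - k) x y z =
              min (layer (a + b - k) ![x, y, z]) (min a (b - k)) + 1 := by
            have : a + b - k - (b - k) = a := by omega
            unfold gmult layer
            rw [this]
            rfl
          rw [e]
          push_cast
          show _ * g x y z = _
          ring
        · rw [if_neg h1, if_neg]
          · simp
          · intro hh
            apply h1
            have := hh.1
            change x + y + z = _ at this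
            omega
      · rw [if_neg hz, if_neg]
        · simp
        · intro hh
          exact hz (hh.2 2)
    · apply Finset.sum_eq_zero
      intro z _
      rw [if_neg]
      · simp
      · intro hh
        exact hy (hh.2 1)
  · apply Finset.sum_eq_zero
    intro y _
    apply Finset.sum_eq_zero
    intro z _
    rw [if_neg]
    · simp
    · intro hh
      exact hx (hh.2 0)

theorem main_identity (a b : ℕ) :
    (∑ x ∈ Fintype.piFinset (fun _ : Fin 3 => range (a + b + 1)), mu a b x • slChar x) *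
      weylNum ![3, 2, 1] = weylNum ![(a : ℤ) + b + 3, (b : ℤ) + 2, 1] := by
  rw [weylNum_eq, weylNum_eq]
  show _ * Alt (U 0) (U 1) (U 2) 3 2 1 = Alt (U 0) (U 1) (U 2) ((a : ℤ) + b + 3) ((b : ℤ) + 2) 1
  rw [Alt_321, ← mul_assoc, Finset.sum_mul]
  have e1 : ∀ x ∈ Fintype.piFinset (fun _ : Fin 3 => range (a + b + 1)),
      mu a b x • slChar x * (W (U 0) 1 * W (U 1) 1 * W (U 2) 1) =
      ∑ k ∈ range (b + 1), ((if InH a b k x then
        (k + 1) * (min (layer (a + b - k) x) (min a (b - k)) + 1) else 0 : ℕ) : CharRing) *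
        (W (U 0) (x 0 + 1) * W (U 1) (x 1 + 1) * W (U 2) (x 2 + 1)) := by
    intro x _
    rw [smul_mul_assoc, slChar_mul, nsmul_eq_mul, ← Finset.sum_mul]
    congr 1
    unfold mu
    push_cast
    rfl
  rw [Finset.sum_congr rfl e1, Finset.sum_comm, Finset.sum_mul]
  have e2 : ∀ k ∈ range (b + 1),
      (∑ x ∈ Fintype.piFinset (fun _ : Fin 3 => range (a + b + 1)),
        ((if InH a b k x then (k + 1) * (min (layer (a + b - k) x) (min a (b - k)) + 1) else 0 : ℕ) :
        CharRing) * (W (U 0) (x 0 + 1) * W (U 1) (x 1 + 1) * W (U 2) (x 2 + 1))) *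
        ZZ (U 0) (U 1) (U 2) =
      ((k : CharRing) + 1) *
        ((fun k : ℕ => Alt (U 0) (U 1) (U 2) ((a : ℤ) + b + 3 - k) ((b : ℤ) + 2 - k) 1) k
        - 2 * (fun k : ℕ => Alt (U 0) (U 1) (U 2) ((a : ℤ) + b + 3 - k) ((b : ℤ) + 2 - k) 1) (k + 1)
        + (fun k : ℕ => Alt (U 0) (U 1) (U 2) ((a : ℤ) + b + 3 - k) ((b : ℤ) + 2 - k) 1) (k + 2)) := by
    intro k hk
    rw [Finset.mem_range] at hk
    have hk' : k ≤ b := by omega
    have h0 := one_k a b k hk' (fun i j l => W (U 0) ((i : ℤ) + 1) * W (U 1) ((j : ℤ) + 1) *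
      W (U 2) ((l : ℤ) + 1))
    beta_reduce at h0
    rw [h0, mul_assoc, GT_W' _ _ _ _ _ _ hk']
  rw [Finset.sum_congr rfl e2,
    second_diff (fun k : ℕ => Alt (U 0) (U 1) (U 2) ((a : ℤ) + b + 3 - k) ((b : ℤ) + 2 - k) 1) b]
  have z1 : Alt (U 0) (U 1) (U 2) ((a : ℤ) + b + 3 - ((b + 1 : ℕ) : ℤ))
      ((b : ℤ) + 2 - ((b + 1 : ℕ) : ℤ)) 1 = 0 := by
    have : (b : ℤ) + 2 - ((b + 1 : ℕ) : ℤ) = 1 := by push_cast; ring
    rw [this]; unfold Alt; ring
  have z2 : Alt (U 0) (U 1) (U 2) ((a : ℤ) + b + 3 - ((b + 2 : ℕ) : ℤ))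
      ((b : ℤ) + 2 - ((b + 2 : ℕ) : ℤ)) 1 = 0 := by
    have : (b : ℤ) + 2 - ((b + 2 : ℕ) : ℤ) = 0 := by push_cast; ring
    rw [this]; unfold Alt; simp only [W_zero]; ring
  rw [z1, z2]
  simp

end Q22.Sp

namespace Q22.Sp

open Finset

theorem mu_box (a b : ℕ) (x : Fin 3 → ℕ) (h : mu a b x ≠ 0) (i : Fin 3) : x i ≤ a + b := by
  by_contra hc
  apply h
  unfold mu
  apply Finset.sum_eq_zero
  intro k _
  rw [if_neg]
  intro hh
  have := hh.2 i
  omega

/-- the multiplicities as a finitely supported function -/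
noncomputable def muF (a b : ℕ) : (Fin 3 → ℕ) →₀ ℕ :=
  Finsupp.onFinset (Fintype.piFinset (fun _ : Fin 3 => range (a + b + 1))) (mu a b)
    (fun x hx => by
      rw [Fintype.mem_piFinset]
      intro i
      rw [Finset.mem_range]
      have := mu_box a b x hx i
      omega)

theorem muF_sum (a b : ℕ) : (muF a b).sum (fun x n => n • slChar x) =
    ∑ x ∈ Fintype.piFinset (fun _ : Fin 3 => range (a + b + 1)), mu a b x • slChar x := by
  rw [muF, Finsupp.onFinset_sum]
  intro x; simp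

theorem isSpChar_sum (a b : ℕ) : IsSpChar a b 0 ((muF a b).sum (fun x n => n • slChar x)) := by
  unfold IsSpChar
  rw [muF_sum, main_identity]
  simp

theorem prod_W (x : Fin 3 → ℕ) :
    (W (U 0) (x 0 + 1) * W (U 1) (x 1 + 1) * W (U 2) (x 2 + 1) : CharRing) =
      ∑ ε : Fin 3 → ℤˣ, ((∏ i, ε i : ℤˣ) : ℤ) • ex (fun i => (ε i : ℤ) * ((x i : ℤ) + 1)) := by
  have := inner_sum (fun i => (x i : ℤ) + 1) 1
  simp only [Equiv.Perm.coe_one, id_eq] at this
  rw [this, Fin.prod_univ_three]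

theorem sign_eq_iff (x y : Fin 3 → ℕ) (ε : Fin 3 → ℤˣ) :
    (fun i => (ε i : ℤ) * ((x i : ℤ) + 1)) = (fun i => (y i : ℤ) + 1) ↔ ε = 1 ∧ x = y := by
  constructor
  · intro h
    have h1 : ∀ i, ε i = 1 ∧ x i = y i := by
      intro i
      have hi := congrFun h i
      rcases Int.units_eq_one_or (ε i) with he | he
      · rw [he] at hi
        refine ⟨he, ?_⟩
        simp at hi
        exact hi
      · exfalso
        rw [he] at hi
        simp at hi
        omega
    exact ⟨funext fun i => (h1 i).1, funext fun i => (h1 i).2⟩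
  · rintro ⟨rfl, rfl⟩
    simp

theorem W_apply_prod (x y : Fin 3 → ℕ) :
    (W (U 0) (x 0 + 1) * W (U 1) (x 1 + 1) * W (U 2) (x 2 + 1) : CharRing).coeff
      (fun i => (y i : ℤ) + 1) = if x = y then 1 else 0 := by
  rw [prod_W, AddMonoidAlgebra.coeff_sum, Finsupp.finsetSum_apply]
  have e : ∀ ε : Fin 3 → ℤˣ, (((∏ i, ε i : ℤˣ) : ℤ) •
      ex (fun i => (ε i : ℤ) * ((x i : ℤ) + 1))).coeff (fun i => (y i : ℤ) + 1) =
      if ε = 1 then (if x = y then 1 else 0) else 0 := by
    intro ε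
    have : (((∏ i, ε i : ℤˣ) : ℤ) • ex (fun i => (ε i : ℤ) * ((x i : ℤ) + 1))).coeff
        (fun i => (y i : ℤ) + 1) = ((∏ i, ε i : ℤˣ) : ℤ) *
          (if (fun i => (ε i : ℤ) * ((x i : ℤ) + 1)) = (fun i => (y i : ℤ) + 1) then 1 else 0) := by
      rw [ex, AddMonoidAlgebra.coeff_smul, AddMonoidAlgebra.coeff_single, Finsupp.smul_apply,
        Finsupp.single_apply, smul_eq_mul]
    rw [this]
    by_cases h1 : ε = 1
    · by_cases h2 : x = y
      · rw [if_pos ((sign_eq_iff x y ε).2 ⟨h1, h2⟩), if_pos h1, if_pos h2, h1]; simp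
      · rw [if_neg (fun hh => h2 ((sign_eq_iff x y ε).1 hh).2), if_pos h1, if_neg h2]; simp
    · rw [if_neg (fun hh => h1 ((sign_eq_iff x y ε).1 hh).1), if_neg h1]; simp
  rw [Finset.sum_congr rfl (fun ε _ => e ε)]
  simp

/-- extraction of the dominant coefficient -/
noncomputable def coeffAt (χ : CharRing) (y : Fin 3 → ℕ) : ℤ :=
  (χ * (W (U 0) 1 * W (U 1) 1 * W (U 2) 1)).coeff (fun i => (y i : ℤ) + 1)

theorem coeffAt_sum (m : (Fin 3 → ℕ) →₀ ℕ) (y : Fin 3 → ℕ) :
    coeffAt (m.sum (fun x n => n • slChar x)) y = m y := by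
  unfold coeffAt
  rw [Finsupp.sum, Finset.sum_mul, AddMonoidAlgebra.coeff_sum, Finsupp.finsetSum_apply]
  have e : ∀ x ∈ m.support, (m x • slChar x * (W (U 0) 1 * W (U 1) 1 * W (U 2) 1)).coeff
      (fun i => (y i : ℤ) + 1) = if x = y then (m y : ℤ) else 0 := by
    intro x _
    rw [smul_mul_assoc, slChar_mul, AddMonoidAlgebra.coeff_smul, Finsupp.smul_apply,
      W_apply_prod]
    split_ifs with h
    · rw [h]; simp
    · simp
  rw [Finset.sum_congr rfl e, Finset.sum_ite_eq']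
  split_ifs with h
  · rfl
  · rw [Finsupp.notMem_support_iff] at h
    simp [h]

theorem den_ne_zero : weylNum ![3, 2, 1] ≠ 0 := by
  intro h
  have h2 : (weylNum ![3, 2, 1]).coeff ![3, 2, 1] = 1 := by
    unfold weylNum
    rw [AddMonoidAlgebra.coeff_sum, Finsupp.finsetSum_apply]
    have e : ∀ σ : Equiv.Perm (Fin 3), (∑ ε : Fin 3 → ℤˣ,
        ((Equiv.Perm.sign σ * ∏ i, ε i : ℤˣ) : ℤ) •
          ex (fun i => (ε i : ℤ) * (![3, 2, 1] : Fin 3 → ℤ) (σ i))).coeff ![3, 2, 1] =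
        ∑ ε : Fin 3 → ℤˣ, ((Equiv.Perm.sign σ * ∏ i, ε i : ℤˣ) : ℤ) *
          (if (fun i => (ε i : ℤ) * (![3, 2, 1] : Fin 3 → ℤ) (σ i)) = ![3, 2, 1] then 1 else 0) := by
      intro σ
      rw [AddMonoidAlgebra.coeff_sum, Finsupp.finsetSum_apply]
      refine Finset.sum_congr rfl fun ε _ => ?_
      rw [ex, AddMonoidAlgebra.coeff_smul, AddMonoidAlgebra.coeff_single, Finsupp.smul_apply,
        Finsupp.single_apply, smul_eq_mul]
    rw [Finset.sum_congr rfl (fun σ _ => e σ)]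
    decide
  rw [h] at h2
  simp at h2

theorem unique_char (a b c : ℕ) (χ χ' : CharRing) (h : IsSpChar a b c χ) (h' : IsSpChar a b c χ') :
    χ = χ' := by
  unfold IsSpChar at h h'
  have h3 : (χ - χ') * weylNum ![3, 2, 1] = 0 := by rw [sub_mul, h, h', sub_self]
  rcases mul_eq_zero.1 h3 with h4 | h4
  · exact sub_eq_zero.1 h4
  · exact absurd h4 den_ne_zero

theorem main (a b : ℕ) :
    (∃! χ : CharRing, IsSpChar a b 0 χ) ∧
    ∀ χ : CharRing, IsSpChar a b 0 χ → ∀ m : (Fin 3 → ℕ) →₀ ℕ,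
      χ = m.sum (fun x n => n • slChar x) ↔ ∀ x, m x = mu a b x := by
  refine ⟨⟨_, isSpChar_sum a b, fun χ h => unique_char a b 0 _ _ h (isSpChar_sum a b)⟩, ?_⟩
  intro χ hχ m
  have h1 := unique_char a b 0 _ _ hχ (isSpChar_sum a b)
  rw [h1]
  constructor
  · intro h x
    have h2 := congrArg (fun c => coeffAt c x) h
    simp only [coeffAt_sum] at h2
    have h3 : (muF a b) x = mu a b x := rfl
    rw [h3] at h2
    exact_mod_cast h2.symm
  · intro h
    congr 1
    ext x
    exact (h x).symm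

end Q22.Sp
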