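import Pool.Agent.Q22.SubIndexDefs

/-! Difference sets with prescribed small complement, and subindices of subsets of groups. -/

namespace Q22.SubIndex

open Cardinal
open scoped Pointwise

universe u

/-- Greedy choice along a well order of length `#X`. -/
theorem exists_choice {X : Type u} (α : Cardinal.{u}) (hα : ℵ₀ ≤ α) (hX : α < #X)
    (C : X → X → X → X → Prop) (hC : ∀ i j x, #{y : X | C i j x y} ≤ α) :
    ∃ (r : X → X → Prop) (f : X → X), IsWellOrder X r ∧ ∀ i j, r j i → ¬ C i j (f j) (f i) := by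
  classical
  obtain ⟨r, wo, hr⟩ := Cardinal.exists_ord_eq X
  have hex : ∀ (i : X) (F : ∀ j, r j i → X), ∃ y : X, ∀ j (h : r j i), ¬ C i j (F j h) y := by
    intro i F
    by_contra hcon
    push Not at hcon
    have hcov : (Set.univ : Set X) = ⋃ j : {j // r j i}, {y : X | C i j.1 (F j.1 j.2) y} := by
      symm
      rw [Set.eq_univ_iff_forall]
      intro y
      obtain ⟨j, hj, h⟩ := hcon y
      exact Set.mem_iUnion.mpr ⟨⟨j, hj⟩, h⟩
    have h1 : #X ≤ #{j // r j i} * α := by
      calc #X = #(Set.univ : Set X) := Cardinal.mk_univ.symm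
        _ = #(⋃ j : {j // r j i}, {y : X | C i j.1 (F j.1 j.2) y} : Set X) := by rw [hcov]
        _ ≤ Cardinal.sum fun j : {j // r j i} => #{y : X | C i j.1 (F j.1 j.2) y} :=
          Cardinal.mk_iUnion_le_sum_mk
        _ ≤ Cardinal.sum fun _ : {j // r j i} => α := Cardinal.sum_le_sum _ _ fun j => hC _ _ _
        _ = #{j // r j i} * α := by simp
    have h2 : #{j // r j i} < #X := by
      have := card_typein_lt i hr
      rwa [Ordinal.card_typein] at this
    exact absurd h1 (not_le.mpr (Cardinal.mul_lt_of_lt (hα.trans hX.le) h2 hX))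
  choose g hg using hex
  have hwf : WellFounded r := IsWellFounded.wf
  refine ⟨r, hwf.fix g, wo, ?_⟩
  intro i j hji
  rw [hwf.fix_eq g i]
  exact hg i (fun j _ => hwf.fix g j) j hji

theorem union_le {X : Type u} {α : Cardinal.{u}} (hα : ℵ₀ ≤ α) {S T : Set X} (hS : #S ≤ α)
    (hT : #T ≤ α) : #(S ∪ T : Set X) ≤ α :=
  (Cardinal.mk_union_le S T).trans (Cardinal.add_le_of_le hα hS hT)

variable {G : Type u} [Group G]

/-- Every symmetric set of size at most `α < #G` not containing `1` is the complement of the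
difference set of some subset. -/
theorem exists_diff (α : Cardinal.{u}) (hα : ℵ₀ ≤ α) (hG : α < #G) (N : Set G)
    (hN1 : (1 : G) ∉ N) (hNs : ∀ x ∈ N, x⁻¹ ∈ N) (hNc : #N ≤ α) :
    ∃ A : Set G, ∀ g : G, (∃ a ∈ A, ∃ b ∈ A, a⁻¹ * b = g) ↔ g ∉ N := by
  classical
  let e : G → G := fun g => if g ∈ N then 1 else g
  have heN : ∀ g, e g ∉ N := by
    intro g
    by_cases hg : g ∈ N
    · simp [e, hg, hN1]
    · simp [e, hg]
  let pr : G → G → Set G := fun g x => {x, x * e g}
  obtain ⟨r, f, wo, hf⟩ := exists_choice α hα hG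
    (fun g h x y => ∃ u ∈ pr h x, ∃ v ∈ pr g y, u⁻¹ * v ∈ N) (by
      intro g h x
      have hsub : {y : G | ∃ u ∈ pr h x, ∃ v ∈ pr g y, u⁻¹ * v ∈ N} ⊆
          (((fun n => x * n) '' N) ∪ ((fun n => x * n * (e g)⁻¹) '' N)) ∪
          (((fun n => x * e h * n) '' N) ∪ ((fun n => x * e h * n * (e g)⁻¹) '' N)) := by
        rintro y ⟨u, hu, v, hv, huv⟩
        rcases hu with hu | hu <;> rcases hv with hv | hv
        · exact Or.inl (Or.inl ⟨_, huv, by rw [hu, hv]; group⟩)
        · exact Or.inl (Or.inr ⟨_, huv, by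
            rw [Set.mem_singleton_iff] at hv; rw [hu, hv]; group⟩)
        · exact Or.inr (Or.inl ⟨_, huv, by
            rw [Set.mem_singleton_iff] at hu; rw [hu, hv]; group⟩)
        · exact Or.inr (Or.inr ⟨_, huv, by
            rw [Set.mem_singleton_iff] at hu hv; rw [hu, hv]; group⟩)
      refine (Cardinal.mk_le_mk_of_subset hsub).trans ?_
      exact union_le hα (union_le hα (Cardinal.mk_image_le.trans hNc)
        (Cardinal.mk_image_le.trans hNc)) (union_le hα (Cardinal.mk_image_le.trans hNc)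
        (Cardinal.mk_image_le.trans hNc)))
  refine ⟨⋃ g, pr g (f g), fun g => ⟨?_, ?_⟩⟩
  · rintro ⟨a, ha, b, hb, rfl⟩ hN
    obtain ⟨i, hi⟩ := Set.mem_iUnion.mp ha
    obtain ⟨j, hj⟩ := Set.mem_iUnion.mp hb
    rcases trichotomous_of r i j with h | h | h
    · exact hf j i h ⟨a, hi, b, hj, hN⟩
    · subst h
      have h1 : ∀ c ∈ pr i (f i), c = f i ∨ c = f i * e i := fun c hc => hc
      have h2 : (e i)⁻¹ ∉ N := fun h => heN i (by simpa using hNs _ h)
      rcases h1 a hi with rfl | rfl <;> rcases h1 b hj with rfl | rfl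
      · exact hN1 (by simpa using hN)
      · exact heN i (by simpa using hN)
      · exact h2 (by simpa using hN)
      · exact hN1 (by simpa [mul_assoc] using hN)
    · have := hNs _ hN
      rw [mul_inv_rev, inv_inv] at this
      exact hf i j h ⟨b, hj, a, hi, this⟩
  · intro hgN
    refine ⟨f g, Set.mem_iUnion.mpr ⟨g, Or.inl rfl⟩, f g * e g,
      Set.mem_iUnion.mpr ⟨g, Or.inr rfl⟩, ?_⟩
    simp [e, hgN]

/-- The general construction. -/
theorem exists_subindex (α : Cardinal.{u}) (hα : ℵ₀ ≤ α) (hG : α < #G) (B₁ : Set G)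
    (hB₁ : #B₁ = α) (θ : G →* Multiplicative ℤ) (hθ : ∀ x ∈ B₁, θ x = 1) (b : G)
    (hb : θ b = Multiplicative.ofAdd 1) :
    ∃ A : Set G, lowerSubindex A = 2 ∧ upperSubindex A = α := by
  classical
  let D : Set G := {g | g ≠ 1 ∧ ∃ x ∈ B₁, ∃ y ∈ B₁, x * y⁻¹ = g}
  let N : Set G := D ∪ {b, b⁻¹}
  have hθD : ∀ g ∈ D, θ g = 1 := by
    rintro g ⟨_, x, hx, y, hy, rfl⟩
    rw [map_mul, map_inv, hθ x hx, hθ y hy]; simp
  have hz : ∀ n : ℤ, n ≠ 0 → Multiplicative.ofAdd n ≠ 1 := fun n hn h => hn h
  have hb1 : b ≠ 1 := fun h => by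
    rw [h, map_one] at hb
    exact hz 1 one_ne_zero hb.symm
  have hN1 : (1 : G) ∉ N := by
    rintro (h | h | h)
    · exact h.1 rfl
    · exact hb1 h.symm
    · exact hb1 (inv_eq_one.mp (h : (1 : G) = b⁻¹).symm)
  have hNs : ∀ x ∈ N, x⁻¹ ∈ N := by
    rintro x (⟨hx1, y, hy, z, hz, rfl⟩ | rfl | h)
    · exact Or.inl ⟨inv_ne_one.mpr hx1, z, hz, y, hy, by group⟩
    · exact Or.inr (Or.inr rfl)
    · rw [Set.mem_singleton_iff] at h
      subst h
      exact Or.inr (Or.inl (inv_inv b))
  have hNc : #N ≤ α := by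
    refine union_le hα ?_ ?_
    · have hsub : D ⊆ Set.range (fun p : B₁ × B₁ => (p.1 : G) * (p.2 : G)⁻¹) := by
        rintro g ⟨_, x, hx, y, hy, rfl⟩
        exact ⟨(⟨x, hx⟩, ⟨y, hy⟩), rfl⟩
      refine (Cardinal.mk_le_mk_of_subset hsub).trans (Cardinal.mk_range_le.trans ?_)
      rw [Cardinal.mk_prod, Cardinal.lift_id, hB₁, Cardinal.mul_eq_self hα]
    · exact ((Set.toFinite _).lt_aleph0.le).trans hα
  obtain ⟨A, hA⟩ := exists_diff α hα hG N hN1 hNs hNc
  have hdir : ∀ B : Set G, DirectProduct A B ↔ B.Pairwise fun x y => x * y⁻¹ ∈ N := by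
    intro B
    constructor
    · intro h x hx y hy hxy
      by_contra hn
      obtain ⟨a, ha, a', ha', haa⟩ := (hA (x * y⁻¹)).mpr hn
      have h1 : a * x = a' * y := by
        have : a' = a * (x * y⁻¹) := by rw [← haa]; group
        rw [this]; group
      exact hxy (h a ha x hx a' ha' y hy h1).2
    · intro h a ha x hx a' ha' y hy he
      have hxy : x = y := by
        by_contra hne
        have h1 := h hy hx (Ne.symm hne)
        refine (hA (y * x⁻¹)).mp ⟨a', ha', a, ha, ?_⟩ h1
        have : a = a' * y * x⁻¹ := by rw [← he]; group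
        rw [this]; group
      subst hxy
      exact ⟨mul_right_cancel he, rfl⟩
  -- extension to subfactors
  have hext : ∀ B : Set G, DirectProduct A B → ∃ M, B ⊆ M ∧ IsRightSubfactor A M := by
    intro B hB
    obtain ⟨M, hBM, hM⟩ := zorn_subset_nonempty {B : Set G | DirectProduct A B} (by
      intro c hc hchain _
      refine ⟨⋃₀ c, ?_, fun s hs => Set.subset_sUnion_of_mem hs⟩
      show DirectProduct A (⋃₀ c)
      rw [hdir, Set.pairwise_sUnion hchain.directedOn]
      exact fun s hs => (hdir s).mp (hc hs)) B hB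
    exact ⟨M, hBM, hM.1, fun C hMC hC => Set.Subset.antisymm (hM.2 hC hMC) hMC⟩
  have hb_dir : DirectProduct A {1, b} := by
    rw [hdir]
    intro x hx y hy hxy
    rcases hx with rfl | hx <;> rcases hy with rfl | hy
    · exact absurd rfl hxy
    · rw [Set.mem_singleton_iff] at hy
      subst hy
      exact Or.inr (Or.inr (one_mul _))
    · rw [Set.mem_singleton_iff] at hx
      subst hx
      exact Or.inr (Or.inl (by simp))
    · rw [Set.mem_singleton_iff] at hx hy
      exact absurd (hx.trans hy.symm) hxy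
  have hb_sub : IsRightSubfactor A {1, b} := by
    refine ⟨hb_dir, fun C hC hCd => Set.Subset.antisymm ?_ hC⟩
    intro x hx
    by_contra hn
    simp only [Set.mem_insert_iff, Set.mem_singleton_iff, not_or] at hn
    rw [hdir] at hCd
    have h1 : x * 1⁻¹ ∈ N := hCd hx (hC (Or.inl rfl)) hn.1
    have h2 : x * b⁻¹ ∈ N := hCd hx (hC (Or.inr rfl)) hn.2
    rw [inv_one, mul_one] at h1
    have hbi : θ b⁻¹ = Multiplicative.ofAdd (-1) := by rw [map_inv, hb]; rfl
    rcases h1 with h1 | h1 | h1
    · have hx0 := hθD x h1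
      rcases h2 with h2 | h2 | h2
      · have := hθD _ h2
        rw [map_mul, hx0, hbi, one_mul] at this
        exact hz (-1) (by norm_num) this
      · have := congrArg θ h2
        rw [map_mul, hx0, hbi, one_mul, hb] at this
        have : (-1 : ℤ) = 1 := this
        omega
      · exact h1.1 (by simpa using h2)
    · exact hn.2 h1
    · rw [Set.mem_singleton_iff] at h1
      subst h1
      rcases h2 with h2 | h2 | h2
      · have := hθD _ h2
        rw [map_mul, hbi] at this
        have : (-1 : ℤ) + -1 = 0 := this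
        omega
      · have := congrArg θ h2
        rw [map_mul, hbi, hb] at this
        have : (-1 : ℤ) + -1 = 1 := this
        omega
      · have := congrArg θ (h2 : b⁻¹ * b⁻¹ = b⁻¹)
        rw [map_mul, hbi] at this
        have : (-1 : ℤ) + -1 = -1 := this
        omega
  refine ⟨A, le_antisymm ?_ ?_, le_antisymm ?_ ?_⟩
  · refine (ciInf_le' _ (⟨_, hb_sub⟩ : {B : Set G // IsRightSubfactor A B})).trans ?_
    show #({1, b} : Set G) ≤ 2
    refine (Cardinal.mk_insert_le).trans ?_
    rw [Cardinal.mk_singleton]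
    exact le_of_eq one_add_one_eq_two
  · have : Nonempty {B : Set G // IsRightSubfactor A B} := ⟨⟨_, hb_sub⟩⟩
    refine le_ciInf ?_
    rintro ⟨B, hB⟩
    show 2 ≤ #B
    by_contra hlt
    rw [Cardinal.two_le_iff] at hlt
    push Not at hlt
    rcases B.eq_empty_or_nonempty with rfl | ⟨c, hc⟩
    · have := hB.2 {1} (Set.empty_subset _) (by
        rw [hdir]; exact Set.pairwise_singleton _ _)
      exact Set.singleton_ne_empty _ this
    · have hsing : B = {c} := by
        ext d
        constructor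
        · intro hd
          exact congrArg Subtype.val (hlt ⟨d, hd⟩ ⟨c, hc⟩)
        · rintro rfl; exact hc
      have := hB.2 {c, b * c} (by rw [hsing]; intro x hx; exact Or.inl hx) (by
        rw [hdir]
        intro x hx y hy hxy
        rcases hx with rfl | hx <;> rcases hy with rfl | hy
        · exact absurd rfl hxy
        · rw [Set.mem_singleton_iff] at hy
          subst hy
          exact Or.inr (Or.inr (by
            show x * (b * x)⁻¹ = b⁻¹
            group))
        · rw [Set.mem_singleton_iff] at hx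
          subst hx
          exact Or.inr (Or.inl (by simp))
        · rw [Set.mem_singleton_iff] at hx hy
          exact absurd (hx.trans hy.symm) hxy)
      have h3 : b * c ∈ B := by rw [← this]; exact Or.inr rfl
      rw [hsing, Set.mem_singleton_iff] at h3
      exact hb1 (by simpa using h3)
  · refine ciSup_le' ?_
    rintro ⟨B, hB⟩
    show #B ≤ α
    rcases B.eq_empty_or_nonempty with rfl | ⟨c, hc⟩
    · rw [Cardinal.mk_emptyCollection]; exact zero_le
    · have hsub : B ⊆ (fun x => x * c) '' (N ∪ {1}) := by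
        intro d hd
        by_cases hdc : d = c
        · exact ⟨1, Or.inr rfl, by simp [hdc]⟩
        · exact ⟨d * c⁻¹, Or.inl ((hdir B).mp hB.1 hd hc hdc), by simp⟩
      refine (Cardinal.mk_le_mk_of_subset hsub).trans (Cardinal.mk_image_le.trans ?_)
      exact union_le hα hNc (((Set.toFinite _).lt_aleph0.le).trans hα)
  · obtain ⟨M, hBM, hM⟩ := hext B₁ (by
      rw [hdir]
      intro x hx y hy hxy
      refine Or.inl ⟨?_, x, hx, y, hy, rfl⟩
      intro h
      exact hxy (mul_inv_eq_one.mp h))
    have h1 : α ≤ #M := by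
      rw [← hB₁]
      exact Cardinal.mk_le_mk_of_subset hBM
    exact h1.trans (le_ciSup (f := fun B : {B : Set G // IsRightSubfactor A B} => #B.1)
      (Cardinal.bddAbove_range _) ⟨M, hM⟩)

/-- The groups used. -/
theorem exists_with (α : Cardinal.{u}) (hα : ℵ₀ ≤ α) (S : Type u) (hS : #S = α)
    (K : Type) [Group K] :
    ∃ A : Set ((S → Multiplicative (ZMod 2)) × (Multiplicative ℤ × K)),
      lowerSubindex A = 2 ∧ upperSubindex A = α := by
  classical
  have hne : (Multiplicative.ofAdd (1 : ZMod 2)) ≠ 1 := by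
    intro h
    have : (1 : ZMod 2) = 0 := h
    exact one_ne_zero this
  refine exists_subindex α hα ?_ (Set.range fun s : S =>
    ((Pi.mulSingle s (Multiplicative.ofAdd (1 : ZMod 2)), (1, 1)) :
      (S → Multiplicative (ZMod 2)) × (Multiplicative ℤ × K))) ?_
    ((MonoidHom.fst _ _).comp (MonoidHom.snd _ _)) ?_ (1, (Multiplicative.ofAdd 1, 1)) rfl
  · rw [← hS]
    refine (Cardinal.cantor #S).trans_le ?_
    rw [← Cardinal.mk_set]
    let F : Set S → (S → Multiplicative (ZMod 2)) × (Multiplicative ℤ × K) := fun T =>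
      (fun s => if s ∈ T then Multiplicative.ofAdd 1 else 1, (1, 1))
    refine Cardinal.mk_le_of_injective (f := F) ?_
    intro T U h
    ext s
    have h1 := congrFun (congrArg Prod.fst h) s
    have h2 : (if s ∈ T then Multiplicative.ofAdd (1 : ZMod 2) else 1) =
      (if s ∈ U then Multiplicative.ofAdd (1 : ZMod 2) else 1) := h1
    by_cases hT : s ∈ T <;> by_cases hU : s ∈ U
    · exact ⟨fun _ => hU, fun _ => hT⟩
    · rw [if_pos hT, if_neg hU] at h2
      exact absurd h2 hne
    · rw [if_neg hT, if_pos hU] at h2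
      exact absurd h2.symm hne
    · exact ⟨fun h => absurd h hT, fun h => absurd h hU⟩
  · rw [Cardinal.mk_range_eq _ ?_, hS]
    intro s t h
    have h1 : (Pi.mulSingle s (Multiplicative.ofAdd (1 : ZMod 2)) :
      S → Multiplicative (ZMod 2)) = Pi.mulSingle t (Multiplicative.ofAdd (1 : ZMod 2)) :=
      congrArg Prod.fst h
    by_contra hst
    have h2 := congrFun h1 s
    rw [Pi.mulSingle_eq_same, Pi.mulSingle_eq_of_ne hst] at h2
    exact hne h2
  · rintro _ ⟨s, rfl⟩
    rfl

end Q22.SubIndex
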