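import Mathlib

/-! Right subfactors and subindices of subsets of groups. -/

namespace Q22.SubIndex

universe u

/-- The product `AB` is direct: the factors of every product `ab` are determined by the
product. -/
def DirectProduct {G : Type u} [Group G] (A B : Set G) : Prop :=
  ∀ a ∈ A, ∀ b ∈ B, ∀ a' ∈ A, ∀ b' ∈ B, a * b = a' * b' → a = a' ∧ b = b'

/-- `B` is a right subfactor related to `A`: it is maximal under inclusion among the subsets for
which `AB` is direct. -/
def IsRightSubfactor {G : Type u} [Group G] (A B : Set G) : Prop :=
  DirectProduct A B ∧ ∀ C : Set G, B ⊆ C → DirectProduct A C → C = B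

/-- The right upper subindex: the supremum of the cardinalities of the right subfactors. -/
noncomputable def upperSubindex {G : Type u} [Group G] (A : Set G) : Cardinal.{u} :=
  ⨆ B : {B : Set G // IsRightSubfactor A B}, Cardinal.mk B.1

/-- The right lower subindex: the minimum of the cardinalities of the right subfactors. -/
noncomputable def lowerSubindex {G : Type u} [Group G] (A : Set G) : Cardinal.{u} :=
  ⨅ B : {B : Set G // IsRightSubfactor A B}, Cardinal.mk B.1

end Q22.SubIndex
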